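import Pool.Agent.H69.XT.CubV

/-!
# Module AsyL: second order lower bound for the functional

`dual` with `ψ := κ + (4/3) m κ √κ + (5/6) R^4 κ^2`, `m := cv μ v`: for unit `u`, `Y`, `a := 2 √κ`, `|aY| ≤ aR ≤ 1` (`4 R^2 κ ≤ 1`):
`exp y ≤ 1 + y + y^2/2 + y^3/6 + (5/96) y^4` (`Real.exp_bound`, `n = 4`), integrate with `proj0`, `proj2`, `le_cv`
(`∫ Y^3 ≤ m`, `a ≥ 0`) and `Y^4 ≤ R^4`: `∫ exp(aY) ≤ 1 + a^2/4 + a^3 m/6 + (5/96) a^4 R^4 ≤ exp (..)`; `a^2 = 4κ`,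
`a^3 = 8 κ √κ`, `a^4 = 16 κ^2`. So the value is `≥ exp (-(4/3) m √κ - (5/6) R^4 κ) ≥ 1 - (4/3) m √κ - (5/6) R^4 κ`
(`Real.add_one_le_exp`) and `κ ≤ c`, `m ≥ 0` (`cv_nonneg`).
-/

set_option autoImplicit false

open MeasureTheory ProbabilityTheory
open scoped BigOperators ComplexConjugate

namespace H69.XT

private theorem asyL_sq {x y : ℝ} (h : x ^ 2 ≤ y ^ 2) (hy : 0 ≤ y) : x ≤ y :=
  le_of_abs_le (abs_le_of_sq_le_sq h hy)

private theorem asyL_exp {y : ℝ} (hy : |y| ≤ 1) :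
    Real.exp y ≤ 1 + y + y ^ 2 / 2 + y ^ 3 / 6 + 5 / 96 * y ^ 4 := by
  have h := Real.exp_bound hy (n := 4) (by norm_num)
  have h1 := (abs_le.1 h).2
  simp only [Finset.sum_range_succ, Finset.sum_range_zero, Nat.factorial] at h1
  have h2 : |y| ^ 4 = y ^ 4 := by
    rw [← abs_pow, abs_of_nonneg (by positivity)]
  rw [h2] at h1
  push_cast at h1
  norm_num at h1
  linarith

private theorem asyL_aux {G : Type} [MeasurableSpace G] (μ : Measure G) [IsProbabilityMeasure μ]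
    {Y : G → ℝ} (hYm : Measurable Y) {R : ℝ} (hR0 : 0 ≤ R) (hYR : ∀ g, |Y g| ≤ R)
    (hY0 : ∫ g, Y g ∂μ = 0) (hY2 : ∫ g, Y g ^ 2 ∂μ = 1 / 2) {m : ℝ} (hY3 : ∫ g, Y g ^ 3 ∂μ ≤ m)
    {s κ : ℝ} (hs0 : 0 ≤ s) (hss : s * s = κ) (hκ : 0 ≤ κ) (haR : 2 * s * R ≤ 1) :
    ∫ g, Real.exp (2 * s * Y g) ∂μ ≤
      Real.exp (κ + 4 / 3 * m * κ * s + 5 / 6 * R ^ 4 * κ ^ 2) := by
  have hbd : ∀ n : ℕ, ∀ g, ‖Y g ^ n‖ ≤ R ^ n := by
    intro n g
    rw [norm_pow, Real.norm_eq_abs]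
    exact pow_le_pow_left₀ (abs_nonneg _) (hYR g) n
  have hint : ∀ n : ℕ, Integrable (fun g => Y g ^ n) μ := by
    intro n
    exact Integrable.of_bound (hYm.pow_const n).aestronglyMeasurable (R ^ n)
      (Filter.Eventually.of_forall fun g => hbd n g)
  have hint1 : Integrable (fun g => Y g) μ := by
    have := hint 1
    simpa using this
  have hy1 : ∀ g, |2 * s * Y g| ≤ 1 := by
    intro g
    rw [abs_mul, abs_of_nonneg (by positivity : (0 : ℝ) ≤ 2 * s)]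
    exact (mul_le_mul_of_nonneg_left (hYR g) (by positivity)).trans haR
  have hexp : Integrable (fun g => Real.exp (2 * s * Y g)) μ := by
    refine Integrable.of_bound
      (Real.measurable_exp.comp (hYm.const_mul (2 * s))).aestronglyMeasurable (Real.exp 1)
      (Filter.Eventually.of_forall fun g => ?_)
    rw [Real.norm_eq_abs, abs_of_pos (Real.exp_pos _)]
    exact Real.exp_le_exp.2 ((le_abs_self _).trans (hy1 g))
  have hpt : ∀ g, Real.exp (2 * s * Y g) ≤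
      (1 + 5 / 96 * (2 * s) ^ 4 * R ^ 4) + 2 * s * Y g + (2 * s) ^ 2 / 2 * Y g ^ 2 +
        (2 * s) ^ 3 / 6 * Y g ^ 3 := by
    intro g
    have h1 := asyL_exp (hy1 g)
    have h2 : Y g ^ 4 ≤ R ^ 4 := by
      have := hbd 4 g
      rw [Real.norm_eq_abs] at this
      exact (le_abs_self _).trans this
    have h3 : 5 / 96 * (2 * s) ^ 4 * Y g ^ 4 ≤ 5 / 96 * (2 * s) ^ 4 * R ^ 4 :=
      mul_le_mul_of_nonneg_left h2 (by positivity)
    have h4 : 5 / 96 * (2 * s * Y g) ^ 4 = 5 / 96 * (2 * s) ^ 4 * Y g ^ 4 := by ring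
    have h5 : (2 * s * Y g) ^ 2 / 2 = (2 * s) ^ 2 / 2 * Y g ^ 2 := by ring
    have h6 : (2 * s * Y g) ^ 3 / 6 = (2 * s) ^ 3 / 6 * Y g ^ 3 := by ring
    rw [h4, h5, h6] at h1
    linarith
  have hI1 : Integrable (fun g => (1 + 5 / 96 * (2 * s) ^ 4 * R ^ 4) + 2 * s * Y g) μ :=
    (integrable_const _).add (hint1.const_mul (2 * s))
  have hI2 : Integrable (fun g => (1 + 5 / 96 * (2 * s) ^ 4 * R ^ 4) + 2 * s * Y g +
      (2 * s) ^ 2 / 2 * Y g ^ 2) μ := hI1.add ((hint 2).const_mul _)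
  have hI3 : Integrable (fun g => (1 + 5 / 96 * (2 * s) ^ 4 * R ^ 4) + 2 * s * Y g +
      (2 * s) ^ 2 / 2 * Y g ^ 2 + (2 * s) ^ 3 / 6 * Y g ^ 3) μ := hI2.add ((hint 3).const_mul _)
  have h1 := integral_mono hexp hI3 hpt
  rw [integral_add hI2 ((hint 3).const_mul _), integral_add hI1 ((hint 2).const_mul _),
    integral_add (integrable_const _) (hint1.const_mul (2 * s)), integral_const_mul,
    integral_const_mul, integral_const_mul, hY0, hY2] at h1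
  simp only [integral_const, probReal_univ, smul_eq_mul, one_mul, mul_zero,
    add_zero] at h1
  refine h1.trans ?_
  have h2 : (2 * s) ^ 3 / 6 * ∫ g, Y g ^ 3 ∂μ ≤ (2 * s) ^ 3 / 6 * m :=
    mul_le_mul_of_nonneg_left hY3 (by positivity)
  have h3 : (2 * s) ^ 4 = 16 * κ ^ 2 := by
    rw [← hss]; ring
  have h4 : (2 * s) ^ 2 / 2 * (1 / 2) = κ := by
    rw [← hss]; ring
  have h5 : (2 * s) ^ 3 / 6 * m = 4 / 3 * m * κ * s := by
    rw [← hss]; ring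
  rw [h5] at h2
  have h6 := Real.add_one_le_exp (κ + 4 / 3 * m * κ * s + 5 / 6 * R ^ 4 * κ ^ 2)
  refine le_trans ?_ h6
  rw [h3, h4]
  nlinarith [h2]

theorem asyL {G : Type} [MeasurableSpace G] (μ : Measure G) [IsProbabilityMeasure μ] {ι : Type}
    [Fintype ι] [DecidableEq ι] {v : ι → G → ℂ} {b : ℝ} (hv : Orth μ v b) {R : ℝ} (hR0 : 0 ≤ R)
    (hR : ∀ g, ∑ k, ‖v k g‖ ^ 2 ≤ R ^ 2) {p : G → ℝ} (hp : Dens μ p) {κ c : ℝ} (hκ : 0 < κ)
    (hκc : κ ≤ c) (hc : 4 * R ^ 2 * c ≤ 1) (hM : 0 < nn μ v p) :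
    1 - 4 / 3 * cv μ v * Real.sqrt c - 5 / 6 * R ^ 4 * c ≤
      κ / nn μ v p * Real.exp (kl μ p / κ - 1) := by
  have hκn : 0 ≤ κ := hκ.le
  set m : ℝ := cv μ v with hm
  have hm0 : 0 ≤ m := cv_nonneg μ hv hR0 hR
  set s : ℝ := Real.sqrt κ with hs
  have hs0 : 0 ≤ s := Real.sqrt_nonneg κ
  have hss : s * s = κ := Real.mul_self_sqrt hκn
  have hR2 : 0 ≤ R ^ 2 := sq_nonneg R
  have hRk : 4 * R ^ 2 * κ ≤ 1 := by
    have h1 : 4 * R ^ 2 * κ ≤ 4 * R ^ 2 * c := mul_le_mul_of_nonneg_left hκc (by positivity)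
    exact h1.trans hc
  have haR : 2 * s * R ≤ 1 := by
    have h1 : (2 * s * R) ^ 2 ≤ 1 ^ 2 := by
      have h2 : (2 * s * R) ^ 2 = 4 * R ^ 2 * (s * s) := by ring
      rw [h2, hss, one_pow]
      exact hRk
    exact asyL_sq h1 zero_le_one
  have hψ : ∀ u : EuclideanSpace ℂ ι, ‖u‖ = 1 →
      ∫ g, Real.exp (2 * s * (∑ k, conj (u k) * v k g).re) ∂μ ≤
        Real.exp (κ + 4 / 3 * m * κ * s + 5 / 6 * R ^ 4 * κ ^ 2) := by
    intro u hu
    have hYm : Measurable fun g => (∑ k, conj (u k) * v k g).re := proj_meas hv.meas u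
    have hYR : ∀ g, |(∑ k, conj (u k) * v k g).re| ≤ R := fun g => proj_le hR0 hR hu g
    have hY0 : ∫ g, (∑ k, conj (u k) * v k g).re ∂μ = 0 := proj0 μ hv u
    have hY2 : ∫ g, (∑ k, conj (u k) * v k g).re ^ 2 ∂μ = 1 / 2 := proj2 μ hv hu
    have hY3 : ∫ g, (∑ k, conj (u k) * v k g).re ^ 3 ∂μ ≤ m := le_cv μ hv hR0 hR hu
    generalize hYdef : (fun g => (∑ k, conj (u k) * v k g).re) = Y at hYm
    have hYe : ∀ g, (∑ k, conj (u k) * v k g).re = Y g := fun g => congrFun hYdef g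
    simp only [hYe] at hYR hY0 hY2 hY3 ⊢
    exact asyL_aux μ hYm hR0 hYR hY0 hY2 hY3 hs0 hss hκn haR
  have h1 := dual μ hv hp hκ hM hψ
  have h2 : 1 - (κ + 4 / 3 * m * κ * s + 5 / 6 * R ^ 4 * κ ^ 2) / κ =
      -(4 / 3 * m * s) - 5 / 6 * R ^ 4 * κ := by
    field_simp
    ring
  rw [h2] at h1
  refine le_trans ?_ h1
  have h3 := Real.add_one_le_exp (-(4 / 3 * m * s) - 5 / 6 * R ^ 4 * κ)
  have h4 : s ≤ Real.sqrt c := Real.sqrt_le_sqrt hκc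
  have h5 : 4 / 3 * m * s ≤ 4 / 3 * m * Real.sqrt c := mul_le_mul_of_nonneg_left h4 (by positivity)
  have h6 : 5 / 6 * R ^ 4 * κ ≤ 5 / 6 * R ^ 4 * c := mul_le_mul_of_nonneg_left hκc (by positivity)
  linarith

end H69.XT
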