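import Pool.Agent.H69.XT.LowB

/-!
# Module AsyU: second order upper bound

`Y g := (∑ k, conj (u k) * v k g).re`, `s := 2 √c`, `s R ≤ 1/11` (`484 R^2 c ≤ 1`), `p := 1 + s Y` (`∈ [10/11, 12/11]`), `Dens`
(`proj0`, `proj_meas`, `proj_le`). `∫ Y p = s/2` (`proj2`), so `nn μ v p ≥ s^2/4 = c` (`csV`), `c/nn ≤ 1`.
`(1+y) log(1+y) ≤ y + y^2/2 - y^3/6 + y^4/3` for `|y| ≤ 1/11` (`reg1_log`, private in `Pool/Agent/H69/DT/Reg1.lean`, copy it):
`kl ≤ s^2/4 - s^3 m/6 + s^4 R^4/3`, `m = ∫ Y^3`; `kl/c - 1 ≤ -(2/3) s m + (4/3) s^2 R^4 = -(4/3) m √c + (16/3) R^4 c`.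
-/

set_option autoImplicit false

open MeasureTheory ProbabilityTheory
open scoped BigOperators ComplexConjugate

namespace H69.XT

private theorem asyU_log {y : ℝ} (hy : |y| ≤ 1 / 11) :
    (1 + y) * Real.log (1 + y) ≤ y + y ^ 2 / 2 - y ^ 3 / 6 + y ^ 4 / 3 := by
  have hy' := abs_le.1 hy
  have h1 : |-y| < 1 := by rw [abs_neg]; linarith
  have h2 := Real.abs_log_sub_add_sum_range_le h1 4
  rw [abs_neg, sub_neg_eq_add] at h2
  have h3 := (abs_le.1 h2).2
  simp only [Finset.sum_range_succ, Finset.sum_range_zero] at h3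
  norm_num at h3
  have hy0 : 0 ≤ |y| := abs_nonneg y
  have h4 : |y| ^ 5 / (1 - |y|) ≤ y ^ 4 / 10 := by
    rw [div_le_iff₀ (by linarith)]
    have e : |y| ^ 5 = |y| * y ^ 4 := by
      rw [pow_succ, mul_comm, show |y| ^ 4 = y ^ 4 from by
        rw [← abs_pow, abs_of_nonneg (by positivity)]]
    rw [e]
    have hp : 0 ≤ y ^ 4 := by positivity
    nlinarith
  have h5 : Real.log (1 + y) ≤ y - y ^ 2 / 2 + y ^ 3 / 3 := by
    have hp : 0 ≤ y ^ 4 := by positivity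
    have e3 : (-y) ^ 3 = -y ^ 3 := by ring
    have e4 : (-y) ^ 4 = y ^ 4 := by ring
    have e2 : (-y) ^ 2 = y ^ 2 := by ring
    linarith
  have h6 := mul_le_mul_of_nonneg_left h5 (show (0 : ℝ) ≤ 1 + y by linarith)
  refine h6.trans (le_of_eq ?_)
  ring

private theorem asyU_int {G : Type} [MeasurableSpace G] {μ : Measure G} [IsProbabilityMeasure μ]
    {f : G → ℝ} (hf : Measurable f) {C : ℝ} (hC : ∀ g, |f g| ≤ C) : Integrable f μ :=
  Integrable.of_bound hf.aestronglyMeasurable C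
    (Filter.Eventually.of_forall fun g => by rw [Real.norm_eq_abs]; exact hC g)

theorem asyU {G : Type} [MeasurableSpace G] (μ : Measure G) [IsProbabilityMeasure μ] {ι : Type}
    [Fintype ι] [DecidableEq ι] {v : ι → G → ℂ} {b : ℝ} (hv : Orth μ v b) {R : ℝ} (hR0 : 0 ≤ R)
    (hR : ∀ g, ∑ k, ‖v k g‖ ^ 2 ≤ R ^ 2) {u : EuclideanSpace ℂ ι} (hu : ‖u‖ = 1) {c : ℝ}
    (hc : 0 < c) (hc1 : 484 * R ^ 2 * c ≤ 1) :
    ∃ p : G → ℝ, Dens μ p ∧ 0 < nn μ v p ∧
      c / nn μ v p * Real.exp (kl μ p / c - 1) ≤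
        Real.exp (-(4 / 3) * (∫ g, (∑ k, conj (u k) * v k g).re ^ 3 ∂μ) * Real.sqrt c +
          16 / 3 * R ^ 4 * c) := by
  obtain ⟨Y, hYdef⟩ : ∃ Y : G → ℝ, Y = fun g => (∑ k, conj (u k) * v k g).re := ⟨_, rfl⟩
  have hm : Measurable Y := by rw [hYdef]; exact proj_meas hv.meas u
  have hY0 : ∫ g, Y g ∂μ = 0 := by rw [hYdef]; exact proj0 μ hv u
  have hY2 : ∫ g, Y g ^ 2 ∂μ = 1 / 2 := by rw [hYdef]; exact proj2 μ hv hu
  have hYR : ∀ g, |Y g| ≤ R := by rw [hYdef]; exact fun g => proj_le hR0 hR hu g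
  have hm3 : ∫ g, (∑ k, conj (u k) * v k g).re ^ 3 ∂μ = ∫ g, Y g ^ 3 ∂μ := by rw [hYdef]
  rw [hm3]
  obtain ⟨w, hw⟩ : ∃ w : ℝ, w = Real.sqrt c := ⟨_, rfl⟩
  have hw0 : 0 < w := by rw [hw]; exact Real.sqrt_pos.2 hc
  have hw2 : w ^ 2 = c := by rw [hw]; exact Real.sq_sqrt hc.le
  rw [← hw]
  obtain ⟨s, hs⟩ : ∃ s : ℝ, s = 2 * w := ⟨_, rfl⟩
  have hs0 : 0 < s := by rw [hs]; positivity
  have hsR : s * R ≤ 1 / 11 := by
    refine le_of_sq_le_sq ?_ (by norm_num)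
    rw [hs]
    have : (2 * w * R) ^ 2 = 4 * R ^ 2 * w ^ 2 := by ring
    rw [this, hw2]
    linarith
  have hsY : ∀ g, |s * Y g| ≤ 1 / 11 := by
    intro g
    rw [abs_mul, abs_of_pos hs0]
    exact (mul_le_mul_of_nonneg_left (hYR g) hs0.le).trans hsR
  have hi : ∀ j : ℕ, Integrable (fun g => Y g ^ j) μ := fun j =>
    asyU_int (hm.pow_const j) (C := R ^ j) fun g => by
      rw [abs_pow]
      exact pow_le_pow_left₀ (abs_nonneg _) (hYR g) j
  have hi1 : Integrable (fun g => Y g) μ := asyU_int hm hYR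
  have hp0 : ∀ g, 0 < 1 + s * Y g := fun g => by
    have := (abs_le.1 (hsY g)).1
    linarith
  have hlog : ∀ g, |Real.log (1 + s * Y g)| ≤ 1 := by
    intro g
    have h3 := abs_le.1 (hsY g)
    have h4 := Real.log_le_sub_one_of_pos (hp0 g)
    have h5 := Real.one_sub_inv_le_log_of_pos (hp0 g)
    have h6 : (1 + s * Y g)⁻¹ ≤ 2 := by
      rw [inv_le_comm₀ (hp0 g) two_pos]
      norm_num
      linarith
    rw [abs_le]
    constructor <;> linarith
  have hD : Dens μ (fun g => 1 + s * Y g) := by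
    refine ⟨measurable_const.add (hm.const_mul s), hp0, ⟨1, hlog⟩, ?_⟩
    rw [integral_add (integrable_const _) (hi1.const_mul s), integral_const_mul, hY0]
    simp
  have hYp : ∫ g, Y g * (1 + s * Y g) ∂μ = s / 2 := by
    have e : ∀ g, Y g * (1 + s * Y g) = Y g + s * Y g ^ 2 := fun g => by ring
    simp only [e]
    rw [integral_add hi1 ((hi 2).const_mul s), integral_const_mul, hY0, hY2]
    ring
  have hcs : c ≤ nn μ v (fun g => 1 + s * Y g) := by
    have h1 := csV μ hv.meas hv.bdd hD u hu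
    have h2 : ∫ g, (∑ k, conj (u k) * v k g).re * (1 + s * Y g) ∂μ = s / 2 := by
      rw [← hYp, hYdef]
    rw [h2] at h1
    have h3 : (s / 2) ^ 2 = c := by rw [hs, ← hw2]; ring
    rwa [h3] at h1
  have hn0 : 0 < nn μ v (fun g => 1 + s * Y g) := lt_of_lt_of_le hc hcs
  have hkl : kl μ (fun g => 1 + s * Y g) ≤
      s ^ 2 / 4 - s ^ 3 / 6 * (∫ g, Y g ^ 3 ∂μ) + s ^ 4 / 3 * R ^ 4 := by
    have h7 : kl μ (fun g => 1 + s * Y g) ≤
        ∫ g, (s * Y g + s ^ 2 / 2 * Y g ^ 2 - s ^ 3 / 6 * Y g ^ 3 + s ^ 4 / 3 * Y g ^ 4) ∂μ := by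
      unfold kl
      refine integral_mono ?_ ((((hi1.const_mul s).add ((hi 2).const_mul _)).sub
        ((hi 3).const_mul _)).add ((hi 4).const_mul _)) fun g => ?_
      · refine asyU_int (((measurable_const.add (hm.const_mul s))).mul
          (Real.measurable_log.comp (measurable_const.add (hm.const_mul s)))) (C := 2) fun g => ?_
        have h3 := abs_le.1 (hsY g)
        change |(1 + s * Y g) * Real.log (1 + s * Y g)| ≤ 2
        rw [abs_mul, abs_of_pos (hp0 g)]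
        have h8 := hlog g
        have h9 := hp0 g
        nlinarith [abs_nonneg (Real.log (1 + s * Y g))]
      · refine (asyU_log (hsY g)).trans (le_of_eq ?_)
        ring
    refine h7.trans ?_
    have i1 : Integrable (fun g => s * Y g) μ := hi1.const_mul s
    have i2 : Integrable (fun g => s ^ 2 / 2 * Y g ^ 2) μ := (hi 2).const_mul _
    have i3 : Integrable (fun g => s ^ 3 / 6 * Y g ^ 3) μ := (hi 3).const_mul _
    have i4 : Integrable (fun g => s ^ 4 / 3 * Y g ^ 4) μ := (hi 4).const_mul _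
    have i5 : Integrable (fun g => s * Y g + s ^ 2 / 2 * Y g ^ 2) μ := i1.add i2
    have i6 : Integrable (fun g => s * Y g + s ^ 2 / 2 * Y g ^ 2 - s ^ 3 / 6 * Y g ^ 3) μ := i5.sub i3
    rw [integral_add i6 i4, integral_sub i5 i3, integral_add i1 i2,
      integral_const_mul, integral_const_mul, integral_const_mul, integral_const_mul, hY0, hY2]
    have h4 : ∫ g, Y g ^ 4 ∂μ ≤ R ^ 4 := by
      have h5 : ∫ g, Y g ^ 4 ∂μ ≤ ∫ _ : G, R ^ 4 ∂μ := by
        refine integral_mono (hi 4) (integrable_const _) fun g => ?_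
        have h6 : |Y g| ^ 4 ≤ R ^ 4 := pow_le_pow_left₀ (abs_nonneg _) (hYR g) 4
        rwa [← abs_pow, abs_of_nonneg (by positivity)] at h6
      simpa using h5
    have h6 := mul_le_mul_of_nonneg_left h4 (show (0 : ℝ) ≤ s ^ 4 / 3 by positivity)
    linarith
  refine ⟨fun g => 1 + s * Y g, hD, hn0, ?_⟩
  have hE0 := Real.exp_pos (kl μ (fun g => 1 + s * Y g) / c - 1)
  have h1 : c / nn μ v (fun g => 1 + s * Y g) ≤ 1 := (div_le_one hn0).2 hcs
  have h2 : c / nn μ v (fun g => 1 + s * Y g) * Real.exp (kl μ (fun g => 1 + s * Y g) / c - 1) ≤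
      Real.exp (kl μ (fun g => 1 + s * Y g) / c - 1) := by
    have := mul_le_mul_of_nonneg_right h1 hE0.le
    rwa [one_mul] at this
  refine h2.trans (Real.exp_le_exp.2 ?_)
  rw [sub_le_iff_le_add, div_le_iff₀ hc]
  refine hkl.trans (le_of_eq ?_)
  rw [hs, ← hw2]
  ring

end H69.XT
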