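import Pool.Agent.H69.XT.Defs

/-!
# Module VvO: the overlap vector is orthonormal

The last part of the proof of `linear_degree` (`Pool/Agent/H28/LinearDegreeModel.lean`): `schur_first`, `schur_same`,
`schur_diff`, `schur_conj` of `Pool/Agent/H28/Schur.lean`, `measurable_vv`, `norm_vv_le`. `m2_eq`: `norm_mul`, the factor
`√(d k)` comes out of the integral (`integral_const_mul`), `Real.sq_sqrt`. `nn_le`: `‖∫ p v‖^2` summed is at most
`∑ k, (d k)^2`: for the vector `m k = ∫ p v k`, `‖m‖^2 = ∫ p Re ⟨m, v⟩ ≤ ‖m‖ ∫ p ‖v‖` and `∑ c, ‖vv ρ c g‖^2 = ∑ k, (d k)^2`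
(unitary matrices: `∑ a b ‖U a b‖^2 = d`; see `wlq_frob` in `Pool/Agent/H69/DT/WlQ.lean`); or Cauchy-Schwarz / Jensen
(`‖∫ p v k‖^2 ≤ ∫ p ‖v k‖^2` since `∫ p = 1`).
-/

set_option autoImplicit false

open MeasureTheory ProbabilityTheory
open scoped BigOperators ComplexConjugate

namespace H69.XT

open Pool.Agent.Results.MP_634cec_lc.LinearDegree Pool.Agent.H28.Schur

variable {G : Type} [Group G] [TopologicalSpace G] [IsTopologicalGroup G] [CompactSpace G]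
  [MeasurableSpace G] [BorelSpace G] (μ : Measure G) [μ.IsHaarMeasure] [IsProbabilityMeasure μ]
  {L : ℕ} {d : Fin L → ℕ} {ρ : ∀ k : Fin L, G →* Matrix.unitaryGroup (Fin (d k)) ℂ}

theorem orth_vv (hρ : Admissible ρ) : Orth μ (vv ρ) (∑ k, Real.sqrt (d k)) := by
  obtain ⟨hcont, hirr, hne, hconj⟩ := hρ
  have hsq : ∀ k, ((Real.sqrt (d k) : ℝ) : ℂ) * ((Real.sqrt (d k) : ℝ) : ℂ) = d k := by
    intro k
    rw [← Complex.ofReal_mul, Real.mul_self_sqrt (Nat.cast_nonneg _)]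
    simp
  have hconjvv : ∀ (c e : VIdx d) (g : G), vv ρ c g * conj (vv ρ e g) =
      (((Real.sqrt (d c.1) : ℝ) : ℂ) * ((Real.sqrt (d e.1) : ℝ) : ℂ)) *
      ((ρ c.1 g : Matrix (Fin (d c.1)) (Fin (d c.1)) ℂ) c.2.1 c.2.2 *
        conj ((ρ e.1 g : Matrix (Fin (d e.1)) (Fin (d e.1)) ℂ) e.2.1 e.2.2)) := by
    intro c e g
    simp only [vv, map_mul, Complex.conj_ofReal]
    ring
  refine ⟨measurable_vv ρ hcont, norm_vv_le ρ, ?_, ?_, ?_⟩
  · intro c
    simp only [vv]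
    rw [integral_const_mul, schur_first μ (ρ c.1) (hcont c.1) (hconj c.1 c.1), mul_zero]
  · rintro ⟨k, a, b⟩ ⟨l, a', b'⟩
    simp_rw [hconjvv]
    rw [integral_const_mul]
    by_cases h : k = l
    · subst h
      rw [schur_same μ (ρ k) (hcont k) (hirr k), hsq]
      have hd : (d k : ℂ) ≠ 0 := by
        have : 0 < d k := a.pos
        exact_mod_cast this.ne'
      by_cases h2 : a = a' ∧ b = b'
      · obtain ⟨rfl, rfl⟩ := h2
        simp [hd]
      · have h3 : ¬ ((⟨k, a, b⟩ : VIdx d) = ⟨k, a', b'⟩) := by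
          intro h4
          apply h2
          simpa using h4
        rw [if_neg h2, if_neg h3, mul_zero]
    · have h3 : ¬ ((⟨k, a, b⟩ : VIdx d) = ⟨l, a', b'⟩) := by
        intro h4
        exact h (congrArg Sigma.fst h4)
      rw [schur_diff μ (ρ k) (ρ l) (hcont k) (hcont l) (hne k l h), mul_zero, if_neg h3]
  · rintro ⟨k, a, b⟩ ⟨l, a', b'⟩
    have e : ∀ g : G, vv ρ (⟨k, a, b⟩ : VIdx d) g * vv ρ (⟨l, a', b'⟩ : VIdx d) g =
        (((Real.sqrt (d k) : ℝ) : ℂ) * ((Real.sqrt (d l) : ℝ) : ℂ)) *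
        ((ρ k g : Matrix (Fin (d k)) (Fin (d k)) ℂ) a b *
          (ρ l g : Matrix (Fin (d l)) (Fin (d l)) ℂ) a' b') := by
      intro g
      simp only [vv]
      ring
    simp_rw [e]
    rw [integral_const_mul, schur_conj μ (ρ k) (ρ l) (hcont k) (hcont l) (hconj k l), mul_zero]

theorem m2_eq (p : G → ℝ) : m2 μ ρ p = nn μ (vv ρ) p := by
  unfold m2 nn
  rw [Fintype.sum_sigma]
  refine Finset.sum_congr rfl fun k _ => ?_
  rw [Fintype.sum_prod_type, Finset.mul_sum]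
  refine Finset.sum_congr rfl fun a _ => ?_
  rw [Finset.mul_sum]
  refine Finset.sum_congr rfl fun b _ => ?_
  have e : ∀ g : G, (p g : ℂ) * vv ρ (⟨k, a, b⟩ : VIdx d) g = ((Real.sqrt (d k) : ℝ) : ℂ) *
      ((p g : ℂ) * (ρ k g : Matrix (Fin (d k)) (Fin (d k)) ℂ) a b) := by
    intro g
    simp only [vv]
    ring
  simp_rw [e]
  rw [integral_const_mul, norm_mul, mul_pow, Complex.norm_real, Real.norm_eq_abs, sq_abs,
    Real.sq_sqrt (Nat.cast_nonneg _)]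

private theorem frob {p : ℕ} (U : Matrix.unitaryGroup (Fin p) ℂ) :
    ∑ a, ∑ b, ‖(U : Matrix (Fin p) (Fin p) ℂ) a b‖ ^ 2 = p := by
  have h : ∀ a, ∑ b, ‖(U : Matrix (Fin p) (Fin p) ℂ) a b‖ ^ 2 = 1 := by
    intro a
    have h1 : (U : Matrix (Fin p) (Fin p) ℂ) * star (U : Matrix (Fin p) (Fin p) ℂ) = 1 :=
      Matrix.mem_unitaryGroup_iff.1 U.2
    have h2 := congrFun (congrFun h1 a) a
    rw [Matrix.mul_apply, Matrix.one_apply_eq] at h2
    have h3 : ((∑ b, ‖(U : Matrix (Fin p) (Fin p) ℂ) a b‖ ^ 2 : ℝ) : ℂ) = 1 := by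
      rw [← h2]
      push_cast
      refine Finset.sum_congr rfl fun b _ => ?_
      rw [Matrix.star_apply, Complex.star_def, Complex.mul_conj, Complex.normSq_eq_norm_sq]
      push_cast
      rfl
    exact_mod_cast h3
  simp [h]

private theorem dens_int {p : G → ℝ} (hp : Dens μ p) {f : G → ℝ} (hf : Measurable f) {C : ℝ}
    (hC : ∀ g, |f g| ≤ C) : Integrable (fun g => p g * f g) μ := by
  obtain ⟨Λ, hΛ⟩ := hp.log
  refine Integrable.of_bound (C := Real.exp Λ * C) (hp.meas.mul hf).aestronglyMeasurable ?_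
  filter_upwards with g
  rw [Real.norm_eq_abs, abs_mul, abs_of_pos (hp.pos g)]
  have h1 : p g ≤ Real.exp Λ := by
    rw [← Real.log_le_iff_le_exp (hp.pos g)]
    exact (le_abs_self _).trans (hΛ g)
  exact mul_le_mul h1 (hC g) (abs_nonneg _) (Real.exp_pos _).le

private theorem jens {p : G → ℝ} (hp : Dens μ p) {v : G → ℂ} (hv : Measurable v) {C : ℝ}
    (hC : ∀ g, ‖v g‖ ≤ C) : ‖∫ g, (p g : ℂ) * v g ∂μ‖ ^ 2 ≤ ∫ g, p g * ‖v g‖ ^ 2 ∂μ := by
  have hC0 : 0 ≤ C := (norm_nonneg _).trans (hC 1)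
  set t := ∫ g, p g * ‖v g‖ ∂μ with ht
  have h1 : ‖∫ g, (p g : ℂ) * v g ∂μ‖ ≤ t := by
    refine (norm_integral_le_integral_norm _).trans (le_of_eq ?_)
    refine integral_congr_ae ?_
    filter_upwards with g
    rw [norm_mul, Complex.norm_real, Real.norm_eq_abs, abs_of_pos (hp.pos g)]
  have i1 : Integrable (fun g => p g * ‖v g‖) μ :=
    dens_int μ hp hv.norm (C := C) fun g => by rw [abs_of_nonneg (norm_nonneg _)]; exact hC g
  have i2 : Integrable (fun g => p g * ‖v g‖ ^ 2) μ :=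
    dens_int μ hp (hv.norm.pow_const 2) (C := C ^ 2) fun g => by
      rw [abs_of_nonneg (by positivity)]
      exact pow_le_pow_left₀ (norm_nonneg _) (hC g) 2
  have i0 : Integrable p μ := by
    have := dens_int μ hp (f := fun _ => (1 : ℝ)) measurable_const (C := 1) fun g => by simp
    simpa using this
  have h2 : 0 ≤ ∫ g, p g * (‖v g‖ - t) ^ 2 ∂μ :=
    integral_nonneg fun g => mul_nonneg (hp.pos g).le (sq_nonneg _)
  have h3 : ∫ g, p g * (‖v g‖ - t) ^ 2 ∂μ =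
      ∫ g, p g * ‖v g‖ ^ 2 ∂μ - 2 * t * t + t ^ 2 := by
    have e : ∀ g, p g * (‖v g‖ - t) ^ 2 =
        (p g * ‖v g‖ ^ 2 - 2 * t * (p g * ‖v g‖)) + t ^ 2 * p g := by
      intro g
      ring
    have i3 : Integrable (fun g => p g * ‖v g‖ ^ 2 - 2 * t * (p g * ‖v g‖)) μ :=
      i2.sub (i1.const_mul _)
    simp_rw [e]
    rw [integral_add i3 (i0.const_mul (t ^ 2)), integral_sub i2 (i1.const_mul (2 * t)),
      integral_const_mul, integral_const_mul, hp.one, mul_one]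
  have h4 : ‖∫ g, (p g : ℂ) * v g ∂μ‖ ^ 2 ≤ t ^ 2 := pow_le_pow_left₀ (norm_nonneg _) h1 2
  nlinarith

theorem m2_le (hρ : Admissible ρ) {p : G → ℝ} (hp : Dens μ p) :
    m2 μ ρ p ≤ ∑ k, (d k : ℝ) ^ 2 := by
  obtain ⟨hcont, -, -, -⟩ := hρ
  rw [m2_eq]
  unfold nn
  have h1 : ∀ c : VIdx d, ‖∫ g, (p g : ℂ) * vv ρ c g ∂μ‖ ^ 2 ≤ ∫ g, p g * ‖vv ρ c g‖ ^ 2 ∂μ :=
    fun c => jens μ hp (measurable_vv ρ hcont c) (norm_vv_le ρ c)
  have hi : ∀ c : VIdx d, Integrable (fun g => p g * ‖vv ρ c g‖ ^ 2) μ := by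
    intro c
    refine dens_int μ hp ((measurable_vv ρ hcont c).norm.pow_const 2)
      (C := (∑ k, Real.sqrt (d k)) ^ 2) fun g => ?_
    rw [abs_of_nonneg (by positivity)]
    exact pow_le_pow_left₀ (norm_nonneg _) (norm_vv_le ρ c g) 2
  refine (Finset.sum_le_sum fun c _ => h1 c).trans ?_
  rw [← integral_finsetSum _ fun c _ => hi c]
  have h2 : ∀ g : G, ∑ c : VIdx d, p g * ‖vv ρ c g‖ ^ 2 = (∑ k, (d k : ℝ) ^ 2) * p g := by
    intro g
    rw [← Finset.mul_sum, mul_comm]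
    congr 1
    rw [Fintype.sum_sigma]
    refine Finset.sum_congr rfl fun k _ => ?_
    have h3 : ∀ c : Fin (d k) × Fin (d k), ‖vv ρ (⟨k, c⟩ : VIdx d) g‖ ^ 2 =
        d k * ‖(ρ k g : Matrix (Fin (d k)) (Fin (d k)) ℂ) c.1 c.2‖ ^ 2 := by
      intro c
      simp only [vv]
      rw [norm_mul, mul_pow, Complex.norm_real, Real.norm_eq_abs, sq_abs,
        Real.sq_sqrt (Nat.cast_nonneg _)]
    simp_rw [h3]
    rw [← Finset.mul_sum, Fintype.sum_prod_type, frob (ρ k g), sq]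
  simp_rw [h2]
  rw [integral_const_mul, hp.one, mul_one]

end H69.XT
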