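import Pool.Agent.H69.XT.CubV
import Pool.Agent.H69.XT.VvO
import Pool.Agent.H69.DT.CharI
import Pool.Agent.H69.DT.Mom3

/-!
# Module CubC: the third moment in the model

`vv_sq`: `∑ c, ‖vv ρ c g‖^2 = ∑ k, (d k)^2` (unitary matrices; see `wlq_frob`, `sum_wl_sq` in `Pool/Agent/H69/DT/WlQ.lean`
or the proof of `m2_le`). `cub_le`: `cub_eq`, `cv_le` with `R = √K`. `cub_char`: `cub_eq`, `le_cv` with `u ⟨k, 0, 0⟩ = 1/√L`:
the projection is `XX χ L / √L`, its third moment is `(∫ XX^3)/(L √L) ≥ 3 (L-1)/(8 √L)` (`H69.DT.mom3`, `H69.DT.charI`).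
-/

set_option autoImplicit false

open MeasureTheory ProbabilityTheory
open scoped BigOperators ComplexConjugate

namespace H69.XT

open Pool.Agent.Results.MP_634cec_lc.LinearDegree

private theorem cubC_frob {p : ℕ} (U : Matrix.unitaryGroup (Fin p) ℂ) :
    ∑ a, ∑ b, ‖(U : Matrix (Fin p) (Fin p) ℂ) a b‖ ^ 2 = p := by
  have h : ∀ a, ∑ b, ‖(U : Matrix (Fin p) (Fin p) ℂ) a b‖ ^ 2 = 1 := by
    intro a
    have h1 : (U : Matrix (Fin p) (Fin p) ℂ) * star (U : Matrix (Fin p) (Fin p) ℂ) = 1 :=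
      Matrix.mem_unitaryGroup_iff.1 U.2
    have h2 := congrFun (congrFun h1 a) a
    rw [Matrix.mul_apply, Matrix.one_apply_eq] at h2
    have h3 : ((∑ b, ‖(U : Matrix (Fin p) (Fin p) ℂ) a b‖ ^ 2 : ℝ) : ℂ) = 1 := by
      rw [← h2]
      push_cast
      refine Finset.sum_congr rfl fun b _ => ?_
      rw [Matrix.star_apply, Complex.star_def, Complex.mul_conj, Complex.normSq_eq_norm_sq]
      push_cast
      rfl
    exact_mod_cast h3
  simp [h]

theorem vv_sq {G : Type} [Group G] {L : ℕ} {d : Fin L → ℕ}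
    (ρ : ∀ k : Fin L, G →* Matrix.unitaryGroup (Fin (d k)) ℂ) (g : G) :
    ∑ c : VIdx d, ‖vv ρ c g‖ ^ 2 = ∑ k, (d k : ℝ) ^ 2 := by
  rw [Fintype.sum_sigma]
  refine Finset.sum_congr rfl fun k _ => ?_
  have h3 : ∀ c : Fin (d k) × Fin (d k), ‖vv ρ (⟨k, c⟩ : VIdx d) g‖ ^ 2 =
      d k * ‖(ρ k g : Matrix (Fin (d k)) (Fin (d k)) ℂ) c.1 c.2‖ ^ 2 := by
    intro c
    simp only [vv]
    rw [norm_mul, mul_pow, Complex.norm_real, Real.norm_eq_abs, sq_abs,
      Real.sq_sqrt (Nat.cast_nonneg _)]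
  simp_rw [h3]
  rw [← Finset.mul_sum, Fintype.sum_prod_type, cubC_frob (ρ k g), sq]

theorem cub_le {G : Type} [Group G] [TopologicalSpace G] [IsTopologicalGroup G] [CompactSpace G]
    [MeasurableSpace G] [BorelSpace G] (μ : Measure G) [μ.IsHaarMeasure] [IsProbabilityMeasure μ]
    {L : ℕ} {d : Fin L → ℕ} {ρ : ∀ k : Fin L, G →* Matrix.unitaryGroup (Fin (d k)) ℂ}
    (hρ : Admissible ρ) : cub μ ρ ≤ Real.sqrt (∑ k, (d k : ℝ) ^ 2) / 2 := by
  rw [cub_eq]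
  refine cv_le μ (orth_vv μ hρ) (Real.sqrt_nonneg _) fun g => ?_
  rw [vv_sq, Real.sq_sqrt (Finset.sum_nonneg fun k _ => by positivity)]

theorem cub_char {G : Type} [Group G] [TopologicalSpace G] [IsTopologicalGroup G] [CompactSpace G]
    [MeasurableSpace G] [BorelSpace G] (μ : Measure G) [μ.IsHaarMeasure] [IsProbabilityMeasure μ]
    {L : ℕ} (hL : 1 ≤ L) (ρ : ∀ _ : Fin L, G →* Matrix.unitaryGroup (Fin 1) ℂ) (χ : G → ℂ)
    (hχ : ∀ k g, (ρ k g : Matrix (Fin 1) (Fin 1) ℂ) 0 0 = χ g ^ ((k : ℕ) + 1))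
    (hρ : Admissible (d := fun _ : Fin L => 1) ρ) :
    3 * ((L : ℝ) - 1) / (8 * Real.sqrt L) ≤ cub (d := fun _ : Fin L => 1) μ ρ := by
  have hL' : (0 : ℝ) < L := by exact_mod_cast hL
  have hs : 0 < Real.sqrt L := Real.sqrt_pos.2 hL'
  have hss : Real.sqrt L * Real.sqrt L = L := Real.mul_self_sqrt hL'.le
  rw [cub_eq]
  obtain ⟨u, hu⟩ : ∃ u : EuclideanSpace ℂ (VIdx fun _ : Fin L => 1),
      ∀ c, u c = (((1 / Real.sqrt L : ℝ)) : ℂ) :=
    ⟨WithLp.toLp 2 fun _ => (((1 / Real.sqrt L : ℝ)) : ℂ), fun c => rfl⟩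
  have hu1 : ‖u‖ = 1 := by
    rw [EuclideanSpace.norm_eq]
    simp only [hu]
    rw [Fintype.sum_sigma]
    simp only [Finset.sum_const, Finset.card_univ, Fintype.card_prod, Fintype.card_fin,
      nsmul_eq_mul, Complex.norm_real, Real.norm_eq_abs, sq_abs]
    rw [Real.sqrt_eq_one]
    push_cast
    rw [div_pow, one_pow, sq, hss]
    field_simp
  have hproj : ∀ g, (∑ c, conj (u c) * vv (d := fun _ : Fin L => 1) ρ c g).re =
      H69.DT.XX χ L g / Real.sqrt L := by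
    intro g
    rw [Fintype.sum_sigma]
    unfold H69.DT.XX
    rw [Complex.re_sum, Finset.sum_div]
    refine Finset.sum_congr rfl fun k _ => ?_
    rw [Fintype.sum_prod_type]
    simp only [Finset.univ_unique, Fin.default_eq_zero, Finset.sum_singleton]
    rw [hu, Complex.conj_ofReal, vv]
    simp only [Nat.cast_one, Real.sqrt_one, Complex.ofReal_one, one_mul]
    rw [hχ, Complex.re_ofReal_mul]
    ring
  have h1 := le_cv μ (orth_vv μ hρ) (R := Real.sqrt (∑ _k : Fin L, ((1 : ℕ) : ℝ) ^ 2))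
    (Real.sqrt_nonneg _)
    (fun g => by
      rw [vv_sq, Real.sq_sqrt (Finset.sum_nonneg fun k _ => by positivity)]) hu1
  refine le_trans ?_ h1
  simp only [hproj]
  have h2 : ∀ g, (H69.DT.XX χ L g / Real.sqrt L) ^ 3 =
      H69.DT.XX χ L g ^ 3 / (L * Real.sqrt L) := by
    intro g
    rw [div_pow]
    congr 1
    rw [pow_succ, sq, hss]
  simp only [h2]
  rw [integral_div]
  have h3 := H69.DT.mom3 (H69.DT.charI μ hL ρ χ hχ hρ)
  rw [le_div_iff₀ (by positivity)]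
  refine le_trans (le_of_eq ?_) h3
  field_simp

end H69.XT
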