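import Pool.Agent.H69.XT.Defs

/-!
# Module Pert: small perturbations of the uniform density

`X g := √2 (v k0 g).re`: `|X| ≤ A := √2 b`, `∫ X = 0`, `∫ X^2 = 1` (`(v.re)^2 = (|v|^2 + Re v^2)/2`, `orth k0 k0`,
`alt k0 k0`), `∫ X v k0 = √2/2` (`v.re * v = (v*v + conj v * v)/2`). For `s > 0` with `s A ≤ 1/2`: `p := 1 + s X` (`p ∈ [1/2, 3/2]`),
`nn μ v p ≥ ‖∫ p v k0‖^2 = s^2/2`, and `(1+y) log(1+y) ≤ y + y^2/2 + |y|^3` for `|y| ≤ 1/2` (multiply
`log(1+y) ≤ y - y^2/2 + |y|^3·(2/3)`, `Real.abs_log_sub_add_sum_range_le` or see `reg1_log` in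
`Pool/Agent/H69/DT/Reg1.lean`), so `kl ≤ s^2/2 + s^3 A^3` (`|X|^3 ≤ A^3`). `κ := s^2/2 ≤ c` for small `s`, the value is
`≤ (κ/(s^2/2)) exp ((s^2/2 + s^3 A^3)/κ - 1) = exp (2 s A^3)`; choose `s` with `2 s A^3 ≤ log (1 + ε)`. Monotonicity:
`κ/nn ≤ κ/(s^2/2) = 1`.
-/

set_option autoImplicit false

open MeasureTheory ProbabilityTheory
open scoped BigOperators ComplexConjugate

namespace H69.XT

private theorem pert_log {y : ℝ} (hy : |y| ≤ 1 / 2) :
    (1 + y) * Real.log (1 + y) ≤ y + y ^ 2 / 2 + 4 * |y| ^ 3 := by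
  have hy' := abs_le.1 hy
  have h1 : |-y| < 1 := by rw [abs_neg]; linarith
  have h2 := Real.abs_log_sub_add_sum_range_le h1 2
  rw [abs_neg, sub_neg_eq_add] at h2
  have h3 := (abs_le.1 h2).2
  simp only [Finset.sum_range_succ, Finset.sum_range_zero] at h3
  norm_num at h3
  have hy0 : 0 ≤ |y| := abs_nonneg y
  have h4 : |y| ^ 3 / (1 - |y|) ≤ 2 * |y| ^ 3 := by
    rw [div_le_iff₀ (by linarith)]
    have : 0 ≤ |y| ^ 3 := by positivity
    nlinarith
  have h5 : Real.log (1 + y) ≤ y - y ^ 2 / 2 + 2 * |y| ^ 3 := by linarith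
  have h6 := mul_le_mul_of_nonneg_left h5 (show (0 : ℝ) ≤ 1 + y by linarith)
  have h7 : -y ^ 3 ≤ |y| ^ 3 := by
    rw [← abs_pow]
    exact neg_le_abs _
  have h8 : y * |y| ^ 3 ≤ 1 / 2 * |y| ^ 3 := by
    have : 0 ≤ |y| ^ 3 := by positivity
    exact mul_le_mul_of_nonneg_right hy'.2 this
  have h9 : 0 ≤ |y| ^ 3 := by positivity
  nlinarith

theorem pert {ι : Type} [Fintype ι] [DecidableEq ι] {G : Type} [MeasurableSpace G]
    (μ : Measure G) [IsProbabilityMeasure μ] {v : ι → G → ℂ} {b : ℝ} (hv : Orth μ v b) (k0 : ι)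
    {c ε : ℝ} (hc : 0 < c) (hε : 0 < ε) :
    ∃ (κ : ℝ) (p : G → ℝ), 0 < κ ∧ κ ≤ c ∧ Dens μ p ∧ 0 < nn μ v p ∧
      κ / nn μ v p * Real.exp (kl μ p / κ - 1) ≤ 1 + ε := by
  classical
  set f : G → ℂ := v k0 with hf
  have hm : Measurable f := hv.meas k0
  have hb : ∀ g, ‖f g‖ ≤ |b| := fun g => (hv.bdd k0 g).trans (le_abs_self b)
  set A : ℝ := Real.sqrt 2 * |b| with hA
  have hA0 : 0 ≤ A := by positivity
  have h2 : Real.sqrt 2 * Real.sqrt 2 = 2 := Real.mul_self_sqrt (by norm_num)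
  set X : G → ℝ := fun g => Real.sqrt 2 * (f g).re with hX
  have hXm : Measurable X := (Complex.measurable_re.comp hm).const_mul _
  have hXA : ∀ g, |X g| ≤ A := by
    intro g
    rw [hX, hA, abs_mul, abs_of_nonneg (Real.sqrt_nonneg 2)]
    exact mul_le_mul_of_nonneg_left ((Complex.abs_re_le_norm _).trans (hb g)) (Real.sqrt_nonneg 2)
  have hfi : Integrable f μ := Integrable.of_bound hm.aestronglyMeasurable |b|
    (Filter.Eventually.of_forall hb)
  have hffi : Integrable (fun g => f g * f g) μ :=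
    Integrable.of_bound (hm.mul hm).aestronglyMeasurable (|b| * |b|)
      (Filter.Eventually.of_forall fun g => by
        rw [norm_mul]
        exact mul_le_mul (hb g) (hb g) (norm_nonneg _) (abs_nonneg _))
  have hfci : Integrable (fun g => f g * conj (f g)) μ :=
    Integrable.of_bound (hm.mul (Complex.continuous_conj.measurable.comp hm)).aestronglyMeasurable
      (|b| * |b|)
      (Filter.Eventually.of_forall fun g => by
        rw [norm_mul, RCLike.norm_conj]
        exact mul_le_mul (hb g) (hb g) (norm_nonneg _) (abs_nonneg _))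
  have hXi : Integrable X μ := Integrable.of_bound hXm.aestronglyMeasurable A
    (Filter.Eventually.of_forall fun g => by rw [Real.norm_eq_abs]; exact hXA g)
  have hX2i : Integrable (fun g => X g ^ 2) μ :=
    Integrable.of_bound (hXm.pow_const 2).aestronglyMeasurable (A ^ 2)
      (Filter.Eventually.of_forall fun g => by
        rw [Real.norm_eq_abs, abs_pow]
        exact pow_le_pow_left₀ (abs_nonneg _) (hXA g) 2)
  have e0 : ∫ g, f g ∂μ = 0 := hv.zero k0
  have e1 : ∫ g, f g * conj (f g) ∂μ = 1 := by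
    have := hv.orth k0 k0
    rwa [if_pos rfl] at this
  have e2 : ∫ g, f g * f g ∂μ = 0 := hv.alt k0 k0
  have iX : ∫ g, X g ∂μ = 0 := by
    rw [hX, integral_const_mul]
    have h3 : ∫ g, (f g).re ∂μ = (∫ g, f g ∂μ).re := integral_re hfi
    rw [h3, e0, Complex.zero_re, mul_zero]
  have iX2 : ∫ g, X g ^ 2 ∂μ = 1 := by
    have h3 : ∀ g, X g ^ 2 = (f g * conj (f g) + f g * f g).re := by
      intro g
      rw [Complex.add_re, Complex.mul_re, Complex.mul_re, Complex.conj_re, Complex.conj_im]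
      show (Real.sqrt 2 * (f g).re) ^ 2 = _
      rw [mul_pow, pow_two (Real.sqrt 2), h2]
      ring
    simp_rw [h3]
    have h4 : ∫ g, (f g * conj (f g) + f g * f g).re ∂μ = (∫ g, (f g * conj (f g) + f g * f g) ∂μ).re :=
      integral_re (hfci.add hffi)
    rw [h4, integral_add hfci hffi, e1, e2, add_zero, Complex.one_re]
  have iXf : ∫ g, ((X g : ℝ) : ℂ) * f g ∂μ = ((Real.sqrt 2 / 2 : ℝ) : ℂ) := by
    have h3 : ∀ g, ((X g : ℝ) : ℂ) * f g =
        ((Real.sqrt 2 / 2 : ℝ) : ℂ) * (f g * conj (f g) + f g * f g) := by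
      intro g
      have h4 : conj (f g) + f g = ((2 * (f g).re : ℝ) : ℂ) := by
        rw [add_comm, Complex.add_conj]
      have h5 : f g * conj (f g) + f g * f g = f g * ((2 * (f g).re : ℝ) : ℂ) := by
        rw [← h4]; ring
      rw [h5]
      show ((Real.sqrt 2 * (f g).re : ℝ) : ℂ) * f g = _
      push_cast
      ring
    simp_rw [h3]
    rw [integral_const_mul, integral_add hfci hffi, e1, e2, add_zero, mul_one]
  have hlog : 0 < Real.log (1 + ε) := Real.log_pos (by linarith)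
  obtain ⟨s, hs0, hs1, hsc, hsA, hsl⟩ : ∃ s : ℝ, 0 < s ∧ s ≤ 1 ∧ s ≤ c ∧ s * A ≤ 1 / 2 ∧
      8 * s * A ^ 3 ≤ Real.log (1 + ε) := by
    refine ⟨min (min 1 c) (min (1 / (2 * (A + 1))) (Real.log (1 + ε) / (8 * (A ^ 3 + 1)))), ?_, ?_,
      ?_, ?_, ?_⟩
    · refine lt_min (lt_min one_pos hc) (lt_min (by positivity) (by positivity))
    · exact (min_le_left _ _).trans (min_le_left _ _)
    · exact (min_le_left _ _).trans (min_le_right _ _)
    · have h3 : min (min 1 c) (min (1 / (2 * (A + 1))) (Real.log (1 + ε) / (8 * (A ^ 3 + 1)))) ≤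
          1 / (2 * (A + 1)) := (min_le_right _ _).trans (min_le_left _ _)
      refine (mul_le_mul_of_nonneg_right h3 hA0).trans ?_
      rw [div_mul_eq_mul_div, div_le_div_iff₀ (by positivity) (by norm_num)]
      nlinarith
    · have h3 : min (min 1 c) (min (1 / (2 * (A + 1))) (Real.log (1 + ε) / (8 * (A ^ 3 + 1)))) ≤
          Real.log (1 + ε) / (8 * (A ^ 3 + 1)) := (min_le_right _ _).trans (min_le_right _ _)
      have hA3 : 0 ≤ A ^ 3 := by positivity
      have h4 := mul_le_mul_of_nonneg_right h3 (show 0 ≤ 8 * A ^ 3 by positivity)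
      have h5 : Real.log (1 + ε) / (8 * (A ^ 3 + 1)) * (8 * A ^ 3) ≤ Real.log (1 + ε) := by
        rw [div_mul_eq_mul_div, div_le_iff₀ (by positivity)]
        nlinarith
      calc _ = min (min 1 c) (min (1 / (2 * (A + 1))) (Real.log (1 + ε) / (8 * (A ^ 3 + 1)))) *
            (8 * A ^ 3) := by ring
        _ ≤ _ := h4.trans h5
  have hsX : ∀ g, |s * X g| ≤ 1 / 2 := by
    intro g
    rw [abs_mul, abs_of_pos hs0]
    exact (mul_le_mul_of_nonneg_left (hXA g) hs0.le).trans hsA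
  have hp1 : ∀ g, 1 / 2 ≤ 1 + s * X g := fun g => by have := (abs_le.1 (hsX g)).1; linarith
  have hp2 : ∀ g, 1 + s * X g ≤ 3 / 2 := fun g => by have := (abs_le.1 (hsX g)).2; linarith
  have hlb : ∀ g, |Real.log (1 + s * X g)| ≤ 1 := by
    intro g
    have h3 := hp1 g
    have h4 := Real.log_le_sub_one_of_pos (show 0 < 1 + s * X g by linarith)
    have h5 := Real.one_sub_inv_le_log_of_pos (show 0 < 1 + s * X g by linarith)
    have h6 : (1 + s * X g)⁻¹ ≤ 2 := by
      rw [inv_le_comm₀ (by linarith) (by norm_num)]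
      linarith
    rw [abs_le]
    constructor
    · linarith
    · linarith [hp2 g]
  have hpm : Measurable (fun g => 1 + s * X g) := measurable_const.add (hXm.const_mul s)
  have hint1 : Integrable (fun g => s * X g) μ := hXi.const_mul s
  have hnn : s ^ 2 / 2 ≤ nn μ v (fun g => 1 + s * X g) := by
    have h3 : ∫ g, ((1 + s * X g : ℝ) : ℂ) * v k0 g ∂μ = ((s * (Real.sqrt 2 / 2) : ℝ) : ℂ) := by
      have h4 : ∀ g, ((1 + s * X g : ℝ) : ℂ) * v k0 g =
          f g + (s : ℂ) * (((X g : ℝ) : ℂ) * f g) := by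
        intro g
        push_cast
        ring
      simp_rw [h4]
      have hi : Integrable (fun g => ((X g : ℝ) : ℂ) * f g) μ :=
        Integrable.of_bound ((Complex.measurable_ofReal.comp hXm).mul hm).aestronglyMeasurable
          (A * |b|)
          (Filter.Eventually.of_forall fun g => by
            rw [norm_mul, Complex.norm_real, Real.norm_eq_abs]
            exact mul_le_mul (hXA g) (hb g) (norm_nonneg _) hA0)
      rw [integral_add hfi (hi.const_mul _), e0, integral_const_mul, iXf, zero_add]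
      push_cast
      ring
    unfold nn
    refine le_trans (le_of_eq ?_) (Finset.single_le_sum (f := fun k =>
      ‖∫ g, ((1 + s * X g : ℝ) : ℂ) * v k g ∂μ‖ ^ 2) (fun k _ => by positivity) (Finset.mem_univ k0))
    show s ^ 2 / 2 = ‖∫ g, ((1 + s * X g : ℝ) : ℂ) * v k0 g ∂μ‖ ^ 2
    rw [h3, Complex.norm_real, Real.norm_eq_abs, sq_abs, mul_pow, div_pow, pow_two (Real.sqrt 2), h2]
    ring
  have hkl : kl μ (fun g => 1 + s * X g) ≤ s ^ 2 / 2 + 4 * s ^ 3 * A ^ 3 := by
    have h3 : ∀ g, (1 + s * X g) * Real.log (1 + s * X g) ≤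
        s * X g + s ^ 2 / 2 * X g ^ 2 + 4 * s ^ 3 * A ^ 3 := by
      intro g
      refine (pert_log (hsX g)).trans ?_
      have h4 : |s * X g| ^ 3 ≤ s ^ 3 * A ^ 3 := by
        rw [← mul_pow]
        refine pow_le_pow_left₀ (abs_nonneg _) ?_ 3
        rw [abs_mul, abs_of_pos hs0]
        exact mul_le_mul_of_nonneg_left (hXA g) hs0.le
      nlinarith
    have hint2 : Integrable (fun g => s * X g + s ^ 2 / 2 * X g ^ 2 + 4 * s ^ 3 * A ^ 3) μ :=
      (hint1.add (hX2i.const_mul _)).add (integrable_const _)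
    have hint3 : Integrable (fun g => (1 + s * X g) * Real.log (1 + s * X g)) μ :=
      Integrable.of_bound (hpm.mul (Real.measurable_log.comp hpm)).aestronglyMeasurable (3 / 2 * 1)
        (Filter.Eventually.of_forall fun g => by
          rw [Real.norm_eq_abs, abs_mul]
          refine mul_le_mul ?_ (hlb g) (abs_nonneg _) (by norm_num)
          rw [abs_of_nonneg (by linarith [hp1 g])]
          exact hp2 g)
    unfold kl
    refine (integral_mono hint3 hint2 h3).trans (le_of_eq ?_)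
    have hi5 : Integrable (fun g => s ^ 2 / 2 * X g ^ 2) μ := hX2i.const_mul _
    have hi4 : Integrable (fun g => s * X g + s ^ 2 / 2 * X g ^ 2) μ := hint1.add hi5
    rw [integral_add hi4 (integrable_const _), integral_add hint1 hi5,
      show ∫ g, s * X g ∂μ = s * ∫ g, X g ∂μ from integral_const_mul _ _,
      show ∫ g, s ^ 2 / 2 * X g ^ 2 ∂μ = s ^ 2 / 2 * ∫ g, X g ^ 2 ∂μ from integral_const_mul _ _,
      iX, iX2, integral_const]
    simp
  have hκ : 0 < s ^ 2 / 2 := by positivity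
  refine ⟨s ^ 2 / 2, fun g => 1 + s * X g, hκ, ?_, ⟨hpm, fun g => by linarith [hp1 g],
    ⟨1, hlb⟩, ?_⟩, lt_of_lt_of_le hκ hnn, ?_⟩
  · nlinarith
  · rw [integral_add (integrable_const _) hint1,
      show ∫ g, s * X g ∂μ = s * ∫ g, X g ∂μ from integral_const_mul _ _, iX]
    simp
  · have h3 : s ^ 2 / 2 / nn μ v (fun g => 1 + s * X g) ≤ 1 :=
      div_le_one_of_le₀ hnn (hκ.le.trans hnn)
    have h4 : kl μ (fun g => 1 + s * X g) / (s ^ 2 / 2) - 1 ≤ 8 * s * A ^ 3 := by
      have h5 : kl μ (fun g => 1 + s * X g) / (s ^ 2 / 2) ≤ 1 + 8 * s * A ^ 3 := by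
        rw [div_le_iff₀ hκ]
        refine hkl.trans (le_of_eq ?_)
        ring
      linarith
    have h6 : Real.exp (kl μ (fun g => 1 + s * X g) / (s ^ 2 / 2) - 1) ≤ 1 + ε := by
      calc _ ≤ Real.exp (Real.log (1 + ε)) := Real.exp_le_exp.2 (h4.trans hsl)
        _ = 1 + ε := Real.exp_log (by linarith)
    calc _ ≤ 1 * (1 + ε) := mul_le_mul h3 h6 (Real.exp_pos _).le (by norm_num)
      _ = 1 + ε := one_mul _

end H69.XT
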