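import Pool.Agent.H69.XT.VvO
import Pool.Agent.H69.XT.Pert

/-!
# Module Lim: elementary properties of the threshold

`kl_nonneg`: `p log p ≥ p - 1` (`Real.one_sub_inv_le_log_of_pos` times `p`), integrate (bounded). `thr_nonneg`: `Real.sInf_nonneg`.
`thr_le`, `thrInf_le`: `csInf_le` (bounded below by `0`). `exists_lt`: `exists_lt_of_csInf_lt`, the set is nonempty by `pert`
applied to `vv ρ` (`orth_vv`, `m2_eq`, an index `⟨k0, 0, 0⟩` with `0 < d k0`). `thr_le_one`: `pert` with all `ε`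
(`le_of_forall_pos_le_add`). `key`: `exp (x - 1) ≥ x` (`Real.add_one_le_exp`) with `x = kl/κ`. `thr_eq`: `≤`: `le_csInf` over
the elements `kl/m2` of the second set: if `0 < kl ≤ c` take `κ = kl`; if `kl > c ≥ K` use `thr ≤ 1 ≤ kl/m2` (`m2_le`); if
`kl = 0` then `thr ≤ κ/m2 * exp (-1)` for all small `κ`, so `thr ≤ 0`. `≥`: `le_csInf` and `key`, `thrInf_le`.
-/

set_option autoImplicit false

open MeasureTheory ProbabilityTheory
open scoped BigOperators ComplexConjugate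

namespace H69.XT

open Pool.Agent.Results.MP_634cec_lc.LinearDegree

theorem kl_nonneg {G : Type} [MeasurableSpace G] (μ : Measure G) [IsProbabilityMeasure μ]
    {p : G → ℝ} (hp : Dens μ p) : 0 ≤ kl μ p := by
  obtain ⟨Λ, hΛ⟩ := hp.log
  have hpb : ∀ g, p g ≤ Real.exp Λ := by
    intro g
    rw [← Real.log_le_iff_le_exp (hp.pos g)]
    exact (le_abs_self _).trans (hΛ g)
  have hpi : Integrable p μ := Integrable.of_bound hp.meas.aestronglyMeasurable (Real.exp Λ)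
    (Filter.Eventually.of_forall fun g => by
      rw [Real.norm_eq_abs, abs_of_pos (hp.pos g)]
      exact hpb g)
  have hli : Integrable (fun g => p g * Real.log (p g)) μ :=
    Integrable.of_bound (hp.meas.mul (Real.measurable_log.comp hp.meas)).aestronglyMeasurable
      (Real.exp Λ * Λ)
      (Filter.Eventually.of_forall fun g => by
        rw [Real.norm_eq_abs, abs_mul, abs_of_pos (hp.pos g)]
        exact mul_le_mul (hpb g) (hΛ g) (abs_nonneg _) (Real.exp_pos _).le)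
  have h1 : ∫ g, (p g - 1) ∂μ = 0 := by
    rw [integral_sub hpi (integrable_const _), hp.one]
    simp
  unfold kl
  rw [← h1]
  refine integral_mono (hpi.sub (integrable_const _)) hli fun g => ?_
  have h2 := Real.one_sub_inv_le_log_of_pos (hp.pos g)
  have h3 := mul_le_mul_of_nonneg_left h2 (hp.pos g).le
  have h4 : p g * (1 - (p g)⁻¹) = p g - 1 := by
    rw [mul_sub, mul_one, mul_inv_cancel₀ (hp.pos g).ne']
  rw [h4] at h3
  exact h3

section

variable {G : Type} [Group G] [MeasurableSpace G] (μ : Measure G) [IsProbabilityMeasure μ]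
  {L : ℕ} {d : Fin L → ℕ} (ρ : ∀ k : Fin L, G →* Matrix.unitaryGroup (Fin (d k)) ℂ)

private theorem lim_m2_nonneg (p : G → ℝ) : 0 ≤ m2 μ ρ p :=
  Finset.sum_nonneg fun k _ => mul_nonneg (Nat.cast_nonneg _)
    (Finset.sum_nonneg fun a _ => Finset.sum_nonneg fun b _ => sq_nonneg _)

theorem thr_nonneg (c : ℝ) : 0 ≤ thr μ ρ c := by
  refine Real.sInf_nonneg ?_
  rintro x ⟨κ, p, hκ, -, -, hm, rfl⟩
  exact mul_nonneg (div_nonneg hκ.le hm.le) (Real.exp_pos _).le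

theorem thr_le {c κ : ℝ} (hκ : 0 < κ) (hκc : κ ≤ c) {p : G → ℝ} (hp : Dens μ p)
    (hm : 0 < m2 μ ρ p) : thr μ ρ c ≤ κ / m2 μ ρ p * Real.exp (kl μ p / κ - 1) := by
  refine csInf_le ⟨0, ?_⟩ ⟨κ, p, hκ, hκc, hp, hm, rfl⟩
  rintro x ⟨κ, p, hκ, -, -, hm, rfl⟩
  exact mul_nonneg (div_nonneg hκ.le hm.le) (Real.exp_pos _).le

theorem thrInf_le {p : G → ℝ} (hp : Dens μ p) (hm : 0 < m2 μ ρ p) :
    thrInf μ ρ ≤ kl μ p / m2 μ ρ p := by
  refine csInf_le ⟨0, ?_⟩ ⟨p, hp, hm, rfl⟩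
  rintro x ⟨p, hp, hm, rfl⟩
  exact div_nonneg (kl_nonneg μ hp) hm.le

/-- the second moment threshold is below every value of the functional -/
theorem key {κ : ℝ} (hκ : 0 < κ) {p : G → ℝ} (hp : Dens μ p) :
    thrInf μ ρ * m2 μ ρ p ≤ κ * Real.exp (kl μ p / κ - 1) := by
  rcases (lim_m2_nonneg μ ρ p).eq_or_lt with h0 | hm
  · rw [← h0, mul_zero]
    exact mul_nonneg hκ.le (Real.exp_pos _).le
  · have h1 := thrInf_le μ ρ hp hm
    rw [le_div_iff₀ hm] at h1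
    refine h1.trans ?_
    have h2 := Real.add_one_le_exp (kl μ p / κ - 1)
    have h3 : kl μ p / κ ≤ Real.exp (kl μ p / κ - 1) := by linarith
    rw [div_le_iff₀ hκ] at h3
    linarith

end

section

variable {G : Type} [Group G] [TopologicalSpace G] [IsTopologicalGroup G] [CompactSpace G]
  [MeasurableSpace G] [BorelSpace G] (μ : Measure G) [μ.IsHaarMeasure] [IsProbabilityMeasure μ]
  {L : ℕ} {d : Fin L → ℕ} {ρ : ∀ k : Fin L, G →* Matrix.unitaryGroup (Fin (d k)) ℂ}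

private theorem lim_pert (hρ : Admissible ρ) (hK : ∃ k, 0 < d k) {c ε : ℝ} (hc : 0 < c)
    (hε : 0 < ε) : ∃ (κ : ℝ) (p : G → ℝ), 0 < κ ∧ κ ≤ c ∧ Dens μ p ∧ 0 < m2 μ ρ p ∧
      κ / m2 μ ρ p * Real.exp (kl μ p / κ - 1) ≤ 1 + ε := by
  classical
  obtain ⟨k, hk⟩ := hK
  obtain ⟨κ, p, h1, h2, h3, h4, h5⟩ := pert μ (orth_vv μ hρ)
    (⟨k, ⟨0, hk⟩, ⟨0, hk⟩⟩ : VIdx d) hc hε
  rw [← m2_eq] at h4 h5
  exact ⟨κ, p, h1, h2, h3, h4, h5⟩

theorem exists_lt (hρ : Admissible ρ) (hK : ∃ k, 0 < d k) {c x : ℝ} (hc : 0 < c)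
    (hx : thr μ ρ c < x) : ∃ (κ : ℝ) (p : G → ℝ), 0 < κ ∧ κ ≤ c ∧ Dens μ p ∧ 0 < m2 μ ρ p ∧
      κ / m2 μ ρ p * Real.exp (kl μ p / κ - 1) < x := by
  obtain ⟨κ, p, h1, h2, h3, h4, -⟩ := lim_pert μ hρ hK hc one_pos
  obtain ⟨y, ⟨κ', p', h1', h2', h3', h4', rfl⟩, hy⟩ :=
    exists_lt_of_csInf_lt (⟨_, κ, p, h1, h2, h3, h4, rfl⟩ : Set.Nonempty
      {x | ∃ (κ : ℝ) (p : G → ℝ), 0 < κ ∧ κ ≤ c ∧ Dens μ p ∧ 0 < m2 μ ρ p ∧
        x = κ / m2 μ ρ p * Real.exp (kl μ p / κ - 1)}) hx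
  exact ⟨κ', p', h1', h2', h3', h4', hy⟩

theorem thr_le_one (hρ : Admissible ρ) (hK : ∃ k, 0 < d k) {c : ℝ} (hc : 0 < c) :
    thr μ ρ c ≤ 1 := by
  refine le_of_forall_pos_le_add fun ε hε => ?_
  obtain ⟨κ, p, h1, h2, h3, h4, h5⟩ := lim_pert μ hρ hK hc hε
  exact (thr_le μ ρ h1 h2 h3 h4).trans h5

theorem thr_eq (hρ : Admissible ρ) (hK : ∃ k, 0 < d k) {c : ℝ} (hc : ∑ k, (d k : ℝ) ^ 2 ≤ c) :
    thr μ ρ c = thrInf μ ρ := by
  have hc0 : 0 < c := by
    obtain ⟨k, hk⟩ := hK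
    refine lt_of_lt_of_le ?_ hc
    exact lt_of_lt_of_le (by positivity : (0 : ℝ) < (d k : ℝ) ^ 2)
      (Finset.single_le_sum (f := fun k => (d k : ℝ) ^ 2) (fun k _ => by positivity)
        (Finset.mem_univ k))
  obtain ⟨κ0, p0, a1, a2, a3, a4, -⟩ := lim_pert μ hρ hK hc0 one_pos
  refine le_antisymm ?_ ?_
  · refine le_csInf ⟨_, p0, a3, a4, rfl⟩ ?_
    rintro x ⟨p, hp, hm, rfl⟩
    have hkl := kl_nonneg μ hp
    rcases hkl.eq_or_lt with h0 | hpos
    · rw [← h0, zero_div]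
      by_contra hcon
      push Not at hcon
      have h1 : 0 < min c (thr μ ρ c * m2 μ ρ p) := lt_min hc0 (mul_pos hcon hm)
      have h2 := thr_le μ ρ h1 (min_le_left _ _) hp hm
      rw [← h0, zero_div, zero_sub] at h2
      have h3 : min c (thr μ ρ c * m2 μ ρ p) / m2 μ ρ p ≤ thr μ ρ c := by
        rw [div_le_iff₀ hm]
        exact min_le_right _ _
      have h4 : Real.exp (-1) < 1 := by
        rw [Real.exp_lt_one_iff]
        norm_num
      have h5 : min c (thr μ ρ c * m2 μ ρ p) / m2 μ ρ p * Real.exp (-1) ≤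
          thr μ ρ c * Real.exp (-1) := mul_le_mul_of_nonneg_right h3 (Real.exp_pos _).le
      nlinarith
    · by_cases hkc : kl μ p ≤ c
      · have h1 := thr_le μ ρ hpos hkc hp hm
        rwa [div_self hpos.ne', sub_self, Real.exp_zero, mul_one] at h1
      · push Not at hkc
        refine (thr_le_one μ hρ hK hc0).trans ?_
        rw [le_div_iff₀ hm, one_mul]
        exact ((m2_le μ hρ hp).trans hc).trans hkc.le
  · refine le_csInf ⟨_, κ0, p0, a1, a2, a3, a4, rfl⟩ ?_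
    rintro x ⟨κ, p, hκ, hκc, hp, hm, rfl⟩
    have h1 := key μ ρ hκ hp
    rw [div_mul_eq_mul_div, le_div_iff₀ hm]
    exact h1

end

end H69.XT
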