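import Pool.Agent.H69.XT.AsyL
import Pool.Agent.H69.XT.AsyU
import Pool.Agent.H69.XT.CubC
import Pool.Agent.H69.XT.Lim

/-!
# The exact low-degree threshold at linear degree (MP_634cec): bounds for the threshold
-/

set_option autoImplicit false

open MeasureTheory ProbabilityTheory
open scoped BigOperators ComplexConjugate

namespace H69.XT

open Pool.Agent.Results.MP_634cec_lc.LinearDegree

variable {G : Type} [Group G] [TopologicalSpace G] [IsTopologicalGroup G] [CompactSpace G]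
  [MeasurableSpace G] [BorelSpace G] (μ : Measure G) [μ.IsHaarMeasure] [IsProbabilityMeasure μ]
  {L : ℕ} {d : Fin L → ℕ} {ρ : ∀ k : Fin L, G →* Matrix.unitaryGroup (Fin (d k)) ℂ}

omit [TopologicalSpace G] [IsTopologicalGroup G] [CompactSpace G] [BorelSpace G]
  [μ.IsHaarMeasure] in
/-- the set of values of the functional -/
theorem le_thr {c x : ℝ} (hne : ∃ (κ : ℝ) (p : G → ℝ), 0 < κ ∧ κ ≤ c ∧ Dens μ p ∧ 0 < m2 μ ρ p)
    (h : ∀ (κ : ℝ) (p : G → ℝ), 0 < κ → κ ≤ c → Dens μ p → 0 < m2 μ ρ p →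
      x ≤ κ / m2 μ ρ p * Real.exp (kl μ p / κ - 1)) : x ≤ thr μ ρ c := by
  obtain ⟨κ, p, h1, h2, h3, h4⟩ := hne
  refine le_csInf ⟨_, κ, p, h1, h2, h3, h4, rfl⟩ ?_
  rintro y ⟨κ, p, h1, h2, h3, h4, rfl⟩
  exact h κ p h1 h2 h3 h4

theorem nonempty (hρ : Admissible ρ) (hK : ∃ k, 0 < d k) {c : ℝ} (hc : 0 < c) :
    ∃ (κ : ℝ) (p : G → ℝ), 0 < κ ∧ κ ≤ c ∧ Dens μ p ∧ 0 < m2 μ ρ p := by
  obtain ⟨κ, p, h1, h2, h3, h4, -⟩ := exists_lt μ hρ hK hc (x := thr μ ρ c + 1) (by linarith)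
  exact ⟨κ, p, h1, h2, h3, h4⟩

theorem thr_ge (hρ : Admissible ρ) (hK : ∃ k, 0 < d k) {c : ℝ} (hc : 0 < c) :
    1 - Real.sqrt ((∑ k, (d k : ℝ) ^ 2) * c) ≤ thr μ ρ c := by
  classical
  set K : ℝ := ∑ k, (d k : ℝ) ^ 2 with hKdef
  have hK0 : 0 ≤ K := Finset.sum_nonneg fun _ _ => by positivity
  refine le_thr μ (nonempty μ hρ hK hc) fun κ p h1 h2 h3 h4 => ?_
  have hR : ∀ g, ∑ c : VIdx d, ‖vv ρ c g‖ ^ 2 ≤ Real.sqrt K ^ 2 := by
    intro g
    rw [Real.sq_sqrt hK0, vv_sq ρ g]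
  rw [m2_eq] at h4 ⊢
  refine le_trans ?_ (lowB μ (orth_vv μ hρ) (Real.sqrt_nonneg _) hR h3 h1 h4)
  rw [Real.sqrt_mul hK0]
  have := mul_le_mul_of_nonneg_left (Real.sqrt_le_sqrt h2) (Real.sqrt_nonneg K)
  linarith

theorem asyM (hρ : Admissible ρ) (hK : ∃ k, 0 < d k) : ∃ C c0 : ℝ, 0 < c0 ∧ ∀ c : ℝ, 0 < c →
    c ≤ c0 → |1 - thr μ ρ c - 4 / 3 * cub μ ρ * Real.sqrt c| ≤ C * c := by
  classical
  set K : ℝ := ∑ k, (d k : ℝ) ^ 2 with hKdef
  have hK0 : 0 < K := by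
    obtain ⟨k, hk⟩ := hK
    have h1 : (0 : ℝ) < d k := by exact_mod_cast hk
    have h2 : (d k : ℝ) ^ 2 ≤ K := Finset.single_le_sum (f := fun k => (d k : ℝ) ^ 2)
      (fun _ _ => by positivity) (Finset.mem_univ k)
    have h3 : 0 < (d k : ℝ) ^ 2 := by positivity
    linarith
  have hR : ∀ g, ∑ c : VIdx d, ‖vv ρ c g‖ ^ 2 ≤ Real.sqrt K ^ 2 := by
    intro g
    rw [Real.sq_sqrt hK0.le, vv_sq ρ g]
  have hRs : Real.sqrt K ^ 2 = K := Real.sq_sqrt hK0.le
  have hR4 : Real.sqrt K ^ 4 = K ^ 2 := by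
    rw [show (4 : ℕ) = 2 * 2 from rfl, pow_mul, hRs]
  have ho := orth_vv μ hρ
  set m : ℝ := cub μ ρ with hm
  have hmc : m = cv μ (vv ρ) := cub_eq μ ρ
  have hm0 : 0 ≤ m := by
    rw [hmc]
    exact cv_nonneg μ ho (Real.sqrt_nonneg _) hR
  -- the constants
  set A : ℝ := 16 / 3 * K ^ 2 with hA
  set c0 : ℝ := min 1 (min (1 / (484 * K)) ((1 / (4 / 3 * m + A + 1)) ^ 2)) with hc0
  have hA0 : 0 < A := by positivity
  have hc00 : 0 < c0 := by
    refine lt_min one_pos (lt_min (by positivity) (by positivity))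
  refine ⟨A + (4 / 3 * m + A) ^ 2, c0, hc00, fun c hc hcc => ?_⟩
  have hc1 : c ≤ 1 := hcc.trans (min_le_left _ _)
  have hc2 : 484 * K * c ≤ 1 := by
    have h1 : c ≤ 1 / (484 * K) := hcc.trans ((min_le_right _ _).trans (min_le_left _ _))
    rw [le_div_iff₀ (by positivity)] at h1
    linarith
  have hc3 : c ≤ (1 / (4 / 3 * m + A + 1)) ^ 2 :=
    hcc.trans ((min_le_right _ _).trans (min_le_right _ _))
  set s : ℝ := Real.sqrt c with hs
  have hs0 : 0 < s := Real.sqrt_pos.2 hc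
  have hss : s ^ 2 = c := Real.sq_sqrt hc.le
  have hs1 : s ≤ 1 := by
    rw [hs, Real.sqrt_le_one]
    exact hc1
  have hs3 : (4 / 3 * m + A) * s ≤ 1 := by
    have h1 : s ≤ 1 / (4 / 3 * m + A + 1) := by
      rw [hs]
      refine (Real.sqrt_le_sqrt hc3).trans ?_
      rw [Real.sqrt_sq (by positivity)]
    rw [le_div_iff₀ (by positivity)] at h1
    nlinarith
  have hcs : c ≤ s := by nlinarith
  rw [abs_le]
  constructor
  · -- the upper bound for the threshold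
    have hu : ∀ u : EuclideanSpace ℂ (VIdx d), ‖u‖ = 1 →
        4 / 3 * (∫ g, (∑ k, conj (u k) * vv ρ k g).re ^ 3 ∂μ) * s ≤
          1 - thr μ ρ c + (A + (4 / 3 * m + A) ^ 2) * c := by
      intro u hu
      have hmu : ∫ g, (∑ k, conj (u k) * vv ρ k g).re ^ 3 ∂μ ≤ m := by
        rw [hmc]
        exact le_cv μ ho (Real.sqrt_nonneg _) hR hu
      have hmu' : -m ≤ ∫ g, (∑ k, conj (u k) * vv ρ k g).re ^ 3 ∂μ := by
        have h1 := le_cv μ ho (Real.sqrt_nonneg _) hR (u := -u) (by rw [norm_neg, hu])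
        rw [← hmc] at h1
        have h2 : ∫ g, (∑ k, conj ((-u) k) * vv ρ k g).re ^ 3 ∂μ =
            -∫ g, (∑ k, conj (u k) * vv ρ k g).re ^ 3 ∂μ := by
          rw [← integral_neg]
          refine integral_congr_ae (ae_of_all _ fun g => ?_)
          have h3 : ∑ k, conj ((-u) k) * vv ρ k g = -∑ k, conj (u k) * vv ρ k g := by
            rw [← Finset.sum_neg_distrib]
            refine Finset.sum_congr rfl fun k _ => ?_
            simp
          show (∑ k, conj ((-u) k) * vv ρ k g).re ^ 3 = -(∑ k, conj (u k) * vv ρ k g).re ^ 3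
          rw [h3, Complex.neg_re]
          ring
        rw [h2] at h1
        linarith
      obtain ⟨p, hp, hnn, hle⟩ := asyU μ ho (Real.sqrt_nonneg _) hR hu hc
        (by rw [hRs]; exact hc2)
      rw [← m2_eq] at hnn hle
      have h1 := (thr_le μ ρ hc le_rfl hp hnn).trans hle
      rw [hR4] at h1
      set I : ℝ := ∫ g, (∑ k, conj (u k) * vv ρ k g).re ^ 3 ∂μ with hI
      set y : ℝ := -(4 / 3) * I * s + A * c with hy
      have h1' : thr μ ρ c ≤ Real.exp y := h1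
      have hyab : |y| ≤ (4 / 3 * m + A) * s := by
        rw [abs_le]
        constructor
        · have := mul_le_mul_of_nonneg_right hmu hs0.le
          have h5 : 0 ≤ A * c := by positivity
          have h6 : 0 ≤ A * s := by positivity
          nlinarith
        · have := mul_le_mul_of_nonneg_right hmu' hs0.le
          have h5 : A * c ≤ A * s := mul_le_mul_of_nonneg_left hcs hA0.le
          nlinarith
      have h2 := Real.abs_exp_sub_one_sub_id_le (hyab.trans hs3)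
      have h3 := (abs_le.1 h2).2
      have h4 : y ^ 2 ≤ (4 / 3 * m + A) ^ 2 * c := by
        rw [← sq_abs y, ← hss, ← mul_pow]
        exact pow_le_pow_left₀ (abs_nonneg _) hyab 2
      have h5 : thr μ ρ c ≤ 1 + y + (4 / 3 * m + A) ^ 2 * c := by linarith
      rw [hy] at h5
      nlinarith
    have hsup : ∀ X : ℝ, (∀ u : EuclideanSpace ℂ (VIdx d), ‖u‖ = 1 →
        ∫ g, (∑ k, conj (u k) * vv ρ k g).re ^ 3 ∂μ ≤ X) → m ≤ X := by
      intro X hX
      rw [hmc, cv]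
      have hne : ∃ u : EuclideanSpace ℂ (VIdx d), ‖u‖ = 1 := by
        obtain ⟨k, hk⟩ := hK
        exact ⟨EuclideanSpace.single (⟨k, ⟨0, hk⟩, ⟨0, hk⟩⟩ : VIdx d) 1, by simp⟩
      obtain ⟨u0, hu0⟩ := hne
      refine csSup_le ⟨_, u0, hu0, rfl⟩ ?_
      rintro x ⟨u, hu1, rfl⟩
      exact hX u hu1
    have hm2 := hsup ((1 - thr μ ρ c + (A + (4 / 3 * m + A) ^ 2) * c) / (4 / 3 * s)) (by
      intro u hu1
      rw [le_div_iff₀ (by positivity)]
      have := hu u hu1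
      linarith)
    rw [le_div_iff₀ (by positivity)] at hm2
    linarith
  · -- the lower bound
    have h1 : 1 - 4 / 3 * m * s - 5 / 6 * K ^ 2 * c ≤ thr μ ρ c := by
      refine le_thr μ (nonempty μ hρ hK hc) fun κ p h1 h2 h3 h4 => ?_
      rw [m2_eq] at h4 ⊢
      have h5 := asyL μ ho (Real.sqrt_nonneg _) hR h3 h1 h2 (by rw [hRs]; nlinarith) h4
      rw [hR4, ← hmc] at h5
      exact h5
    have h2 : 5 / 6 * K ^ 2 * c ≤ A * c := by
      rw [hA]
      have : 0 ≤ K ^ 2 * c := by positivity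
      nlinarith
    have h3 : 0 ≤ (4 / 3 * m + A) ^ 2 * c := by positivity
    linarith

end H69.XT
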