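import Mathlib

/-!
# Module Bern: Bernstein's bound and a numerical inequality

`bern`: `exp y ≤ 1 + y + y^2/2/(1 - c)` for `|y| ≤ 3 c`, `0 ≤ c < 1`: for `y ≤ 0`, `exp y ≤ 1 + y + y^2/2`; for `0 ≤ y < 3`
`exp y ≤ 1 + y + (y^2/2)/(1 - y/3)` (series: `2 * 3^(j-2) ≤ j!`; or: `h y = (1 + y + (y^2/2)/(1-y/3)) exp(-y)` is
increasing, `h 0 = 1`). With `y = a Y g`, `c = a R/3`; integrate: `≤ 1 + (a^2/4)/(1 - aR/3) ≤ exp (..)`.
`bern_num`: with `w = 1/(1 - 2z/3) - 1 = 2z/(3 - 2z) ∈ [0, 2)`, `1 - z = (2 - w)/(2 + 2w)`; `1 - w/2 ≤ exp (-w/2)` and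
`exp (w/2) ≤ 1 + w` on `[0, 2]` (convexity of `exp`, or `Real.exp_bound'`, `exp 1 < 3`), so
`(2 - w) exp w ≤ 2 exp (w/2) ≤ 2 + 2w`.
-/

set_option autoImplicit false

open MeasureTheory ProbabilityTheory
open scoped BigOperators

namespace H69.XT

private lemma bern_pos {y : ℝ} (h0 : 0 ≤ y) (h3 : y < 3) :
    Real.exp y ≤ 1 + y + y ^ 2 / 2 / (1 - y / 3) := by
  have hd : ∀ t : ℝ, t < 3 → HasDerivAt
      (fun t => (1 + t + 3 * t ^ 2 / (2 * (3 - t))) * Real.exp (-t))
      (t ^ 3 / (2 * (3 - t) ^ 2) * Real.exp (-t)) t := by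
    intro t ht
    have h3t : (3 - t) ≠ 0 := by linarith
    have h1 : HasDerivAt (fun t : ℝ => 3 * t ^ 2) (3 * (2 * t)) t := by
      simpa using ((hasDerivAt_id t).pow 2).const_mul 3
    have h2 : HasDerivAt (fun t : ℝ => 2 * (3 - t)) (-2) t :=
      (((hasDerivAt_id' t).const_sub 3).const_mul 2).congr_deriv (by norm_num)
    have h4 := ((hasDerivAt_id' t).const_add 1).add
      (h1.div h2 (mul_ne_zero two_ne_zero h3t))
    have h5 : HasDerivAt (fun t : ℝ => Real.exp (-t)) (-Real.exp (-t)) t := by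
      have := (hasDerivAt_id t).neg.exp
      simpa using this
    have h6 := h4.mul h5
    refine h6.congr_deriv ?_
    simp only [Pi.add_apply, Pi.div_apply]
    field_simp
    ring
  have hm : MonotoneOn (fun t : ℝ => (1 + t + 3 * t ^ 2 / (2 * (3 - t))) * Real.exp (-t))
      (Set.Icc 0 y) := by
    refine monotoneOn_of_deriv_nonneg (convex_Icc 0 y) ?_ ?_ ?_
    · intro t ht
      exact (hd t (lt_of_le_of_lt ht.2 h3)).continuousAt.continuousWithinAt
    · intro t ht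
      rw [interior_Icc] at ht
      exact (hd t (lt_trans ht.2 h3)).differentiableAt.differentiableWithinAt
    · intro t ht
      rw [interior_Icc] at ht
      rw [(hd t (lt_trans ht.2 h3)).deriv]
      have := ht.1
      positivity
  have h := hm (Set.left_mem_Icc.2 h0) (Set.right_mem_Icc.2 h0) h0
  simp only [neg_zero, Real.exp_zero, mul_one] at h
  norm_num at h
  have h7 : (1 : ℝ) * Real.exp y ≤ (1 + y + 3 * y ^ 2 / (2 * (3 - y))) := by
    have h8 := mul_le_mul_of_nonneg_right h (Real.exp_pos y).le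
    rw [mul_assoc, ← Real.exp_add, neg_add_cancel, Real.exp_zero, mul_one] at h8
    exact h8
  rw [one_mul] at h7
  refine h7.trans (le_of_eq ?_)
  have h3y : (3 - y) ≠ 0 := by linarith
  have h3y' : (1 - y / 3) ≠ 0 := by
    have : (0 : ℝ) < 1 - y / 3 := by linarith
    exact this.ne'
  field_simp

private lemma bern_neg {y : ℝ} (h0 : y ≤ 0) : Real.exp y ≤ 1 + y + y ^ 2 / 2 := by
  have h1 := Real.quadratic_le_exp_of_nonneg (neg_nonneg.2 h0)
  have h2 : Real.exp y * Real.exp (-y) = 1 := by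
    rw [← Real.exp_add, add_neg_cancel, Real.exp_zero]
  have h3 := Real.exp_pos y
  have h4 : 0 < 1 + -y + (-y) ^ 2 / 2 := by nlinarith [sq_nonneg y]
  have h5 : Real.exp y * (1 + -y + (-y) ^ 2 / 2) ≤ 1 := by
    calc Real.exp y * (1 + -y + (-y) ^ 2 / 2) ≤ Real.exp y * Real.exp (-y) :=
          mul_le_mul_of_nonneg_left h1 h3.le
      _ = 1 := h2
  have h6 : 1 ≤ (1 + y + y ^ 2 / 2) * (1 + -y + (-y) ^ 2 / 2) := by
    nlinarith [sq_nonneg (y ^ 2)]
  exact le_of_mul_le_mul_right (h5.trans h6) h4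

private lemma bern_all {y c : ℝ} (hc : 0 ≤ c) (hc1 : c < 1) (h : |y| ≤ 3 * c) :
    Real.exp y ≤ 1 + y + y ^ 2 / 2 / (1 - c) := by
  have h1 : 0 < 1 - c := by linarith
  rcases le_total y 0 with hy | hy
  · refine (bern_neg hy).trans ?_
    have h2 : y ^ 2 / 2 ≤ y ^ 2 / 2 / (1 - c) := by
      rw [le_div_iff₀ h1]
      nlinarith [sq_nonneg y]
    linarith
  · rw [abs_of_nonneg hy] at h
    refine (bern_pos hy (by linarith)).trans ?_
    have h2 : y ^ 2 / 2 / (1 - y / 3) ≤ y ^ 2 / 2 / (1 - c) :=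
      div_le_div_of_nonneg_left (by positivity) h1 (by linarith)
    linarith

theorem bern {G : Type} [MeasurableSpace G] (μ : Measure G) [IsProbabilityMeasure μ] {Y : G → ℝ}
    (hY : Measurable Y) {R : ℝ} (hR : ∀ g, |Y g| ≤ R) (h0 : ∫ g, Y g ∂μ = 0)
    (h1 : ∫ g, Y g ^ 2 ∂μ = 1 / 2) {a : ℝ} (ha : 0 ≤ a) (haR : a * R < 3) :
    ∫ g, Real.exp (a * Y g) ∂μ ≤ Real.exp (a ^ 2 / 4 / (1 - a * R / 3)) := by
  have hne : Nonempty G := by
    by_contra hG
    rw [not_nonempty_iff] at hG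
    have : μ Set.univ = 0 := by
      rw [Set.univ_eq_empty_iff.2 hG, measure_empty]
    rw [measure_univ] at this
    exact one_ne_zero this
  have hR0 : 0 ≤ R := (abs_nonneg _).trans (hR hne.some)
  have hc0 : 0 ≤ a * R / 3 := by positivity
  have hc1 : a * R / 3 < 1 := by linarith
  have hc2 : 0 < 1 - a * R / 3 := by linarith
  have hIY : Integrable Y μ :=
    Integrable.of_bound hY.aestronglyMeasurable R (Filter.Eventually.of_forall fun g => by
      rw [Real.norm_eq_abs]; exact hR g)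
  have hIY2 : Integrable (fun g => Y g ^ 2) μ :=
    Integrable.of_bound (hY.pow_const 2).aestronglyMeasurable (R ^ 2)
      (Filter.Eventually.of_forall fun g => by
        rw [Real.norm_eq_abs, abs_pow]
        exact pow_le_pow_left₀ (abs_nonneg _) (hR g) 2)
  have hIE : Integrable (fun g => Real.exp (a * Y g)) μ :=
    Integrable.of_bound (hY.const_mul a).exp.aestronglyMeasurable (Real.exp (a * R))
      (Filter.Eventually.of_forall fun g => by
        rw [Real.norm_eq_abs, abs_of_pos (Real.exp_pos _)]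
        exact Real.exp_le_exp.2 (mul_le_mul_of_nonneg_left ((le_abs_self _).trans (hR g)) ha))
  have hI1 : Integrable (fun g => 1 + a * Y g) μ := (integrable_const 1).add (hIY.const_mul a)
  have hI2 : Integrable (fun g => a ^ 2 / 2 / (1 - a * R / 3) * Y g ^ 2) μ := hIY2.const_mul _
  have h2 : ∫ g, Real.exp (a * Y g) ∂μ ≤
      ∫ g, (1 + a * Y g + a ^ 2 / 2 / (1 - a * R / 3) * Y g ^ 2) ∂μ := by
    refine integral_mono hIE (hI1.add hI2) fun g => ?_
    have h3 : |a * Y g| ≤ 3 * (a * R / 3) := by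
      rw [abs_mul, abs_of_nonneg ha]
      have := mul_le_mul_of_nonneg_left (hR g) ha
      linarith
    refine (bern_all hc0 hc1 h3).trans (le_of_eq ?_)
    ring
  have h4 : ∫ g, (1 + a * Y g + a ^ 2 / 2 / (1 - a * R / 3) * Y g ^ 2) ∂μ =
      1 + a ^ 2 / 4 / (1 - a * R / 3) := by
    have e1 : ∫ g, (1 + a * Y g + a ^ 2 / 2 / (1 - a * R / 3) * Y g ^ 2) ∂μ =
        ∫ g, (1 + a * Y g) ∂μ + ∫ g, a ^ 2 / 2 / (1 - a * R / 3) * Y g ^ 2 ∂μ :=
      integral_add hI1 hI2
    have e2 : ∫ g, (1 + a * Y g) ∂μ = ∫ _, (1 : ℝ) ∂μ + ∫ g, a * Y g ∂μ :=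
      integral_add (integrable_const 1) (hIY.const_mul a)
    rw [e1, e2, integral_const_mul, integral_const_mul, h0, h1]
    simp only [integral_const, probReal_univ, smul_eq_mul, mul_zero, mul_one, add_zero]
    ring
  rw [h4] at h2
  refine h2.trans ?_
  have := Real.add_one_le_exp (a ^ 2 / 4 / (1 - a * R / 3))
  linarith

theorem bern_num {z : ℝ} (h0 : 0 ≤ z) (h1 : z < 1) :
    1 - z ≤ Real.exp (1 - 1 / (1 - 2 * z / 3)) := by
  have h2 : 0 < 1 - 2 * z / 3 := by linarith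
  obtain ⟨u, hu⟩ : ∃ u, u = (1 / (1 - 2 * z / 3) - 1) / 2 := ⟨_, rfl⟩
  have h3 : 1 / (1 - 2 * z / 3) = 1 + 2 * u := by rw [hu]; ring
  have h3' : (1 - 2 * z / 3) * (1 + 2 * u) = 1 := by
    rw [← h3]
    exact mul_one_div_cancel h2.ne'
  have hu0 : 0 ≤ u := by
    have : 1 ≤ 1 / (1 - 2 * z / 3) := by
      rw [le_div_iff₀ h2]
      linarith
    rw [hu]
    linarith
  have hu1 : u < 1 := by
    by_contra h
    push Not at h
    nlinarith
  rw [h3, show 1 - (1 + 2 * u) = -u + -u by ring, Real.exp_add]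
  have h4 : 1 - u ≤ Real.exp (-u) := by
    have := Real.add_one_le_exp (-u)
    linarith
  have h5 : Real.exp u ≤ 1 + 2 * u := by
    refine (bern_pos hu0 (by linarith)).trans ?_
    have h6 : u ^ 2 / 2 / (1 - u / 3) ≤ u := by
      rw [div_le_iff₀ (by linarith)]
      nlinarith
    linarith
  have h6 : Real.exp (-u) * Real.exp u = 1 := by
    rw [← Real.exp_add, neg_add_cancel, Real.exp_zero]
  have h7 : 1 ≤ Real.exp (-u) * (1 + 2 * u) := by
    calc (1 : ℝ) = Real.exp (-u) * Real.exp u := h6.symm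
      _ ≤ Real.exp (-u) * (1 + 2 * u) := mul_le_mul_of_nonneg_left h5 (Real.exp_pos _).le
  have h8 : (1 - z) * (1 + 2 * u) = 1 - u := by
    linarith
  have h9 : 1 - u ≤ Real.exp (-u) * (Real.exp (-u) * (1 + 2 * u)) :=
    h4.trans (by
      have := mul_le_mul_of_nonneg_left h7 (Real.exp_pos (-u)).le
      linarith)
  have h10 : 0 < 1 + 2 * u := by linarith
  refine le_of_mul_le_mul_right ?_ h10
  rw [h8]
  linarith

end H69.XT
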