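import Pool.Agent.H69.XT.VvO
import Pool.Agent.H69.XT.Lim
import Pool.Agent.H69.DT.CharI
import Pool.Agent.H69.DT.Reg1
import Pool.Agent.H69.DT.Reg2
import Pool.Agent.H69.DT.Fej

/-!
# Module CharU: characters

`m2_char`: for blocks of size one `m2 μ ρ p = ∑ k, ‖∫ p χ^(k+1)‖^2 ≥ (∑ k, Re ∫ p χ^(k+1))^2/L = (∫ XX χ L * p)^2 / L`
(Cauchy-Schwarz `sq_sum_le_card_mul_sum_sq`, `Complex.abs_re_le_norm`, `integral_re`; all bounded).
`tilt_thr`: `κ := lam^2 m^2/L`; `charI` gives `CharL`, `p` from the hypothesis, `Dens μ p`; `kl ≤ l < κ`,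
`m2 ≥ m^2/L > 0`, `thr_le` (κ ≤ c) : `thr ≤ κ/m2 * exp (kl/κ - 1) ≤ (κ L/m^2) * exp (l/κ - 1) < κ L / m^2 = lam^2`.
`thr_one`: `reg1`, `m = 8 (1 - lam^2)`, `lam^2 m^2/L ≤ 64 (1 - lam^2)^2/L = c`. `thr_all`: `reg2` with `lam0 := √ε`
for `176 (1 - lam^2) > 1` and `reg1` otherwise, as in `upper_all` of `Pool/Agent/H69/DT/BMain.lean` (`lam := √(1-s)`).
`thrInf_char`: `p := (9 FK χ L + 1)/10` (`Pool/Agent/H69/DT/Fej.lean`: `FK_nonneg`, `FK_le`, `int_FK`, `int_XX_FK`, `meas_FK`):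
`1/10 ≤ p ≤ L + 1`, `kl ≤ log (L+1)`, `∫ XX p = 9L/20` (`mom1`), `m2 ≥ 81 L/400`, `thrInf_le`.
-/

set_option autoImplicit false

open MeasureTheory ProbabilityTheory
open scoped BigOperators ComplexConjugate

namespace H69.XT

open Pool.Agent.Results.MP_634cec_lc.LinearDegree
open H69.DT (XX CharL Tilt charI)

variable {G : Type} [Group G] [TopologicalSpace G] [IsTopologicalGroup G] [CompactSpace G]
  [MeasurableSpace G] [BorelSpace G] (μ : Measure G) [μ.IsHaarMeasure] [IsProbabilityMeasure μ]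
  {L : ℕ} (ρ : ∀ _ : Fin L, G →* Matrix.unitaryGroup (Fin 1) ℂ) (χ : G → ℂ)

private theorem charU_intp {G : Type} [MeasurableSpace G] {μ : Measure G} {p : G → ℝ}
    (hp : Dens μ p) : Integrable p μ := by
  by_contra h
  have h1 := hp.one
  rw [integral_undef h] at h1
  exact zero_ne_one h1

theorem m2_char (hL : 1 ≤ L)
    (hχ : ∀ k g, (ρ k g : Matrix (Fin 1) (Fin 1) ℂ) 0 0 = χ g ^ ((k : ℕ) + 1))
    (hρ : Admissible (d := fun _ : Fin L => 1) ρ) {p : G → ℝ} (hp : Dens μ p) :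
    (∫ g, XX χ L g * p g ∂μ) ^ 2 / L ≤ m2 (d := fun _ : Fin L => 1) μ ρ p := by
  have hchar := charI μ hL ρ χ hχ hρ
  have hL0 : (0 : ℝ) < L := by exact_mod_cast hL
  have hpi := charU_intp hp
  have hint : ∀ k : Fin L, Integrable (fun g => (p g : ℂ) * χ g ^ ((k : ℕ) + 1)) μ := by
    intro k
    refine Integrable.mono' hpi.norm ?_ (Filter.Eventually.of_forall fun g => ?_)
    · exact ((Complex.measurable_ofReal.comp hp.meas).mul
        (hchar.meas.pow_const _)).aestronglyMeasurable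
    · rw [norm_mul, norm_pow, hchar.norm g, one_pow, mul_one, Complex.norm_real]
  have e1 : m2 (d := fun _ : Fin L => 1) μ ρ p =
      ∑ k : Fin L, ‖∫ g, (p g : ℂ) * χ g ^ ((k : ℕ) + 1) ∂μ‖ ^ 2 := by
    unfold m2
    refine Finset.sum_congr rfl fun k _ => ?_
    simp only [Finset.univ_unique, Fin.default_eq_zero, Finset.sum_singleton, Nat.cast_one, one_mul]
    simp only [hχ]
  have e2 : ∫ g, XX χ L g * p g ∂μ =
      ∑ k : Fin L, (∫ g, (p g : ℂ) * χ g ^ ((k : ℕ) + 1) ∂μ).re := by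
    unfold XX
    simp only [Finset.sum_mul]
    rw [integral_finsetSum]
    · refine Finset.sum_congr rfl fun k _ => ?_
      have h1 := integral_re (𝕜 := ℂ) (hint k)
      have h2 : (∫ g, (p g : ℂ) * χ g ^ ((k : ℕ) + 1) ∂μ).re =
          ∫ g, ((p g : ℂ) * χ g ^ ((k : ℕ) + 1)).re ∂μ := by
        simpa using h1.symm
      rw [h2]
      refine integral_congr_ae (Filter.Eventually.of_forall fun g => ?_)
      show (χ g ^ ((k : ℕ) + 1)).re * p g = ((p g : ℂ) * χ g ^ ((k : ℕ) + 1)).re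
      rw [Complex.re_ofReal_mul, mul_comm]
    · intro k _
      have h1 := (hint k).re
      refine h1.congr (Filter.Eventually.of_forall fun g => ?_)
      show ((p g : ℂ) * χ g ^ ((k : ℕ) + 1)).re = (χ g ^ ((k : ℕ) + 1)).re * p g
      rw [Complex.re_ofReal_mul, mul_comm]
  rw [e1, e2, div_le_iff₀ hL0]
  have h3 := sq_sum_le_card_mul_sum_sq (s := (Finset.univ : Finset (Fin L)))
    (f := fun k : Fin L => (∫ g, (p g : ℂ) * χ g ^ ((k : ℕ) + 1) ∂μ).re)
  rw [Finset.card_univ, Fintype.card_fin] at h3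
  refine h3.trans ?_
  rw [mul_comm]
  refine mul_le_mul_of_nonneg_right (Finset.sum_le_sum fun k _ => ?_) hL0.le
  have h4 := Complex.abs_re_le_norm (∫ g, (p g : ℂ) * χ g ^ ((k : ℕ) + 1) ∂μ)
  have h5 := pow_le_pow_left₀ (abs_nonneg _) h4 2
  rwa [sq_abs] at h5

theorem tilt_thr (hL : 1 ≤ L)
    (hχ : ∀ k g, (ρ k g : Matrix (Fin 1) (Fin 1) ℂ) 0 0 = χ g ^ ((k : ℕ) + 1))
    (hρ : Admissible (d := fun _ : Fin L => 1) ρ) {lam m l Λ c : ℝ} (h0 : 0 < lam) (hm : 0 < m)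
    (hl : l < lam ^ 2 * m ^ 2 / L) (hc : lam ^ 2 * m ^ 2 / L ≤ c)
    (ht : ∃ p, Tilt μ χ L m l Λ p) : thr (d := fun _ : Fin L => 1) μ ρ c < lam ^ 2 := by
  obtain ⟨p, hp⟩ := ht
  have hd : Dens μ p := ⟨hp.meas, hp.pos, ⟨Λ, hp.log⟩, hp.one⟩
  have hL0 : (0 : ℝ) < L := by exact_mod_cast hL
  have hκ : 0 < lam ^ 2 * m ^ 2 / L := by positivity
  have h1 := m2_char μ ρ χ hL hχ hρ hd
  rw [hp.mean] at h1
  have hmL : 0 < m ^ 2 / L := by positivity
  have h2 : 0 < m2 (d := fun _ : Fin L => 1) μ ρ p := hmL.trans_le h1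
  have h3 := thr_le (d := fun _ : Fin L => 1) μ ρ hκ hc hd h2
  have h4 : kl μ p ≤ l := hp.ent
  have h5 : kl μ p / (lam ^ 2 * m ^ 2 / L) < 1 := by
    rw [div_lt_one hκ]
    exact h4.trans_lt hl
  have h6 : Real.exp (kl μ p / (lam ^ 2 * m ^ 2 / L) - 1) < 1 := by
    rw [Real.exp_lt_one_iff]
    linarith
  have h7 : lam ^ 2 * m ^ 2 / L / m2 (d := fun _ : Fin L => 1) μ ρ p ≤ lam ^ 2 := by
    rw [div_le_iff₀ h2, mul_div_assoc]
    exact mul_le_mul_of_nonneg_left h1 (by positivity)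
  have h8 : 0 < lam ^ 2 * m ^ 2 / L / m2 (d := fun _ : Fin L => 1) μ ρ p := by positivity
  calc thr (d := fun _ : Fin L => 1) μ ρ c
      ≤ lam ^ 2 * m ^ 2 / L / m2 (d := fun _ : Fin L => 1) μ ρ p *
        Real.exp (kl μ p / (lam ^ 2 * m ^ 2 / L) - 1) := h3
    _ < lam ^ 2 * m ^ 2 / L / m2 (d := fun _ : Fin L => 1) μ ρ p * 1 :=
        mul_lt_mul_of_pos_left h6 h8
    _ ≤ lam ^ 2 := by rw [mul_one]; exact h7

private theorem charU_one (hL : 2 ≤ L)
    (hχ : ∀ k g, (ρ k g : Matrix (Fin 1) (Fin 1) ℂ) 0 0 = χ g ^ ((k : ℕ) + 1))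
    (hρ : Admissible (d := fun _ : Fin L => 1) ρ) {s c : ℝ} (h0 : 0 < s) (h1 : 176 * s ≤ 1)
    (hc : 64 * s ^ 2 / L ≤ c) :
    thr (d := fun _ : Fin L => 1) μ ρ c < 1 - s := by
  have hL0 : (0 : ℝ) < L := by
    have : 0 < L := by omega
    exact_mod_cast this
  have hs1 : s ≤ 1 / 176 := by linarith
  have hlam2 : Real.sqrt (1 - s) ^ 2 = 1 - s := Real.sq_sqrt (by linarith)
  have hlam0 : 0 < Real.sqrt (1 - s) := Real.sqrt_pos.2 (by linarith)
  have hlam1 : Real.sqrt (1 - s) < 1 := by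
    nlinarith
  have e : 1 - Real.sqrt (1 - s) ^ 2 = s := by rw [hlam2]; ring
  obtain ⟨l, hl, ht⟩ := H69.DT.reg1 hL hlam0.le hlam1 (by rw [e]; exact h1)
  have hchar := charI μ (by omega) ρ χ hχ hρ
  rw [e] at hl ht
  have h2 := tilt_thr μ ρ χ (by omega) hχ hρ (c := c) hlam0 (by linarith : (0 : ℝ) < 8 * s) hl (by
    refine le_trans ?_ hc
    refine div_le_div_of_nonneg_right ?_ hL0.le
    rw [hlam2]
    nlinarith [sq_nonneg s]) (ht G μ χ hchar)
  rwa [hlam2] at h2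

theorem thr_one (hL : 2 ≤ L)
    (hχ : ∀ k g, (ρ k g : Matrix (Fin 1) (Fin 1) ℂ) 0 0 = χ g ^ ((k : ℕ) + 1))
    (hρ : Admissible (d := fun _ : Fin L => 1) ρ) {s : ℝ} (h0 : 0 < s) (h1 : 176 * s ≤ 1) :
    thr (d := fun _ : Fin L => 1) μ ρ (64 * s ^ 2 / L) < 1 - s :=
  charU_one μ ρ χ hL hχ hρ h0 h1 le_rfl

theorem thr_all {ε : ℝ} (hε : 0 < ε) : ∃ (L0 : ℕ) (C : ℝ), 0 < C ∧ ∀ L ≥ L0, ∀ s : ℝ, 0 < s →
    s ≤ 1 - ε → ∀ (G : Type) [Group G] [TopologicalSpace G] [IsTopologicalGroup G]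
    [CompactSpace G] [MeasurableSpace G] [BorelSpace G] (μ : Measure G) [μ.IsHaarMeasure]
    [IsProbabilityMeasure μ] (ρ : ∀ _ : Fin L, G →* Matrix.unitaryGroup (Fin 1) ℂ) (χ : G → ℂ),
    (∀ k g, (ρ k g : Matrix (Fin 1) (Fin 1) ℂ) 0 0 = χ g ^ ((k : ℕ) + 1)) →
    Admissible (d := fun _ : Fin L => 1) ρ →
    thr (d := fun _ : Fin L => 1) μ ρ (C * s ^ 2 / L) < 1 - s := by
  obtain ⟨L0, m, hL0, hm, hreg⟩ := H69.DT.reg2 (Real.sqrt_pos.2 hε)
  refine ⟨max L0 2, 64 + m ^ 2 * 176 ^ 2, by positivity, ?_⟩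
  intro L hL s hs hsε G _ _ _ _ _ _ μ _ _ ρ χ hχ hρ
  have hL1 : L0 ≤ L := (le_max_left _ _).trans hL
  have hL2 : 2 ≤ L := (le_max_right _ _).trans hL
  have hLr : (0 : ℝ) < L := by
    have : 0 < L := by omega
    exact_mod_cast this
  by_cases hcase : 176 * s ≤ 1
  · refine charU_one μ ρ χ hL2 hχ hρ hs hcase ?_
    refine div_le_div_of_nonneg_right ?_ hLr.le
    nlinarith [mul_nonneg (sq_nonneg m) (sq_nonneg s)]
  · push Not at hcase
    have hlam2 : Real.sqrt (1 - s) ^ 2 = 1 - s := Real.sq_sqrt (by linarith)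
    have hlam0 : 0 < Real.sqrt (1 - s) := Real.sqrt_pos.2 (by linarith)
    have hlam1 : Real.sqrt (1 - s) < 1 := by
      nlinarith
    obtain ⟨l, Λ, hl, ht⟩ := hreg L hL1 (Real.sqrt (1 - s))
      (Real.sqrt_le_sqrt (by linarith)) hlam1
    have hchar := charI μ (by omega) ρ χ hχ hρ
    have h2 := tilt_thr μ ρ χ (by omega) hχ hρ (c := (64 + m ^ 2 * 176 ^ 2) * s ^ 2 / L)
      hlam0 hm hl (by
        refine div_le_div_of_nonneg_right ?_ hLr.le
        rw [hlam2]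
        have h3 : (1 : ℝ) ≤ 176 ^ 2 * s ^ 2 := by nlinarith
        have h4 : (1 - s) * m ^ 2 ≤ m ^ 2 := by nlinarith [sq_nonneg m]
        have h5 : m ^ 2 * 1 ≤ m ^ 2 * (176 ^ 2 * s ^ 2) :=
          mul_le_mul_of_nonneg_left h3 (sq_nonneg m)
        nlinarith [sq_nonneg s]) (ht G μ χ hchar)
    rwa [hlam2] at h2

theorem thrInf_char (hL : 1 ≤ L)
    (hχ : ∀ k g, (ρ k g : Matrix (Fin 1) (Fin 1) ℂ) 0 0 = χ g ^ ((k : ℕ) + 1))
    (hρ : Admissible (d := fun _ : Fin L => 1) ρ) :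
    thrInf (d := fun _ : Fin L => 1) μ ρ ≤ 5 * Real.log (L + 1) / L := by
  have h := charI μ hL ρ χ hχ hρ
  have hL0 : (0 : ℝ) < L := by exact_mod_cast hL
  have hL1 : (1 : ℝ) ≤ L := by exact_mod_cast hL
  obtain ⟨p, hpd⟩ : ∃ p : G → ℝ, p = fun g => (9 * H69.DT.FK χ L g + 1) / 10 := ⟨_, rfl⟩
  have hF0 : ∀ g, 0 ≤ H69.DT.FK χ L g := fun g => H69.DT.FK_nonneg g
  have hF1 : ∀ g, H69.DT.FK χ L g ≤ L + 1 := fun g => H69.DT.FK_le h g
  have hmF := H69.DT.meas_FK h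
  have hmX := H69.DT.meas_XX h
  have iF : Integrable (H69.DT.FK χ L) μ :=
    Integrable.of_bound hmF.aestronglyMeasurable ((L : ℝ) + 1)
      (Filter.Eventually.of_forall fun g => by
        rw [Real.norm_eq_abs, abs_of_nonneg (hF0 g)]
        exact hF1 g)
  have hp1 : ∀ g, 1 / 10 ≤ p g := fun g => by
    rw [hpd]
    show 1 / 10 ≤ (9 * H69.DT.FK χ L g + 1) / 10
    have := hF0 g
    linarith
  have hp2 : ∀ g, p g ≤ L + 1 := fun g => by
    rw [hpd]
    show (9 * H69.DT.FK χ L g + 1) / 10 ≤ L + 1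
    have := hF1 g
    linarith
  have hp0 : ∀ g, 0 < p g := fun g => by
    have := hp1 g
    linarith
  have hmp : Measurable p := by
    rw [hpd]
    exact ((hmF.const_mul 9).add_const 1).div_const 10
  have hlogL : 0 ≤ Real.log ((L : ℝ) + 1) := Real.log_nonneg (by linarith)
  have hlog10 : 0 ≤ Real.log (10 : ℝ) := Real.log_nonneg (by norm_num)
  have hone : ∫ g, p g ∂μ = 1 := by
    rw [hpd]
    show ∫ g, (9 * H69.DT.FK χ L g + 1) / 10 ∂μ = 1
    rw [integral_div, integral_add (iF.const_mul 9) (integrable_const 1), integral_const_mul,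
      H69.DT.int_FK h]
    simp
    norm_num
  have hd : Dens μ p := by
    refine ⟨hmp, hp0, ⟨Real.log 10 + Real.log (L + 1), fun g => ?_⟩, hone⟩
    have h1 : Real.log (p g) ≤ Real.log (L + 1) := Real.log_le_log (hp0 g) (hp2 g)
    have h2 : Real.log (1 / 10) ≤ Real.log (p g) := Real.log_le_log (by norm_num) (hp1 g)
    rw [one_div, Real.log_inv] at h2
    rw [abs_le]
    constructor <;> linarith
  have hmean : ∫ g, XX χ L g * p g ∂μ = 9 * L / 20 := by
    have iX : Integrable (fun g => XX χ L g) μ :=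
      Integrable.of_bound hmX.aestronglyMeasurable (L : ℝ)
        (Filter.Eventually.of_forall fun g => by
          rw [Real.norm_eq_abs]
          exact H69.DT.abs_XX h g)
    have iXF : Integrable (fun g => XX χ L g * H69.DT.FK χ L g) μ :=
      Integrable.of_bound (hmX.mul hmF).aestronglyMeasurable ((L : ℝ) * (L + 1))
        (Filter.Eventually.of_forall fun g => by
          rw [Real.norm_eq_abs, abs_mul, abs_of_nonneg (hF0 g)]
          exact mul_le_mul (H69.DT.abs_XX h g) (hF1 g) (hF0 g) hL0.le)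
    have e : ∀ g, XX χ L g * p g =
        9 / 10 * (XX χ L g * H69.DT.FK χ L g) + 1 / 10 * XX χ L g := by
      intro g
      rw [hpd]
      show XX χ L g * ((9 * H69.DT.FK χ L g + 1) / 10) = _
      ring
    simp only [e]
    rw [integral_add (iXF.const_mul _) (iX.const_mul _), integral_const_mul, integral_const_mul,
      H69.DT.int_XX_FK h, H69.DT.mom1 h]
    ring
  have hm := m2_char μ ρ χ hL hχ hρ hd
  rw [hmean] at hm
  have hm' : 81 * (L : ℝ) / 400 ≤ m2 (d := fun _ : Fin L => 1) μ ρ p := by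
    refine le_trans (le_of_eq ?_) hm
    field_simp
    ring
  have hm0 : 0 < m2 (d := fun _ : Fin L => 1) μ ρ p :=
    lt_of_lt_of_le (by positivity) hm'
  have hkl : kl μ p ≤ Real.log (L + 1) := by
    unfold kl
    have ip : Integrable p μ := charU_intp hd
    have h1 : ∫ g, p g * Real.log (p g) ∂μ ≤ ∫ g, p g * Real.log (L + 1) ∂μ := by
      refine integral_mono ?_ (ip.mul_const _) fun g => ?_
      · refine Integrable.of_bound (hmp.mul (Real.measurable_log.comp hmp)).aestronglyMeasurable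
          (((L : ℝ) + 1) * (Real.log 10 + Real.log (L + 1)))
          (Filter.Eventually.of_forall fun g => ?_)
        rw [Real.norm_eq_abs, abs_mul, abs_of_pos (hp0 g)]
        refine mul_le_mul (hp2 g) ?_ (abs_nonneg _) (by positivity)
        have h1 : Real.log (p g) ≤ Real.log (L + 1) := Real.log_le_log (hp0 g) (hp2 g)
        have h2 : Real.log (1 / 10) ≤ Real.log (p g) := Real.log_le_log (by norm_num) (hp1 g)
        rw [one_div, Real.log_inv] at h2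
        show |Real.log (p g)| ≤ _
        rw [abs_le]
        constructor <;> linarith
      · exact mul_le_mul_of_nonneg_left (Real.log_le_log (hp0 g) (hp2 g)) (hp0 g).le
    rw [integral_mul_const, hone, one_mul] at h1
    exact h1
  refine (thrInf_le (d := fun _ : Fin L => 1) μ ρ hd hm0).trans ?_
  rw [div_le_div_iff₀ hm0 hL0]
  calc kl μ p * L ≤ Real.log (L + 1) * L := mul_le_mul_of_nonneg_right hkl hL0.le
    _ ≤ 5 * Real.log (L + 1) * (81 * (L : ℝ) / 400) := by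
        have : 0 ≤ Real.log ((L : ℝ) + 1) * L := mul_nonneg hlogL hL0.le
        nlinarith
    _ ≤ 5 * Real.log (L + 1) * m2 (d := fun _ : Fin L => 1) μ ρ p :=
        mul_le_mul_of_nonneg_left hm' (by positivity)

end H69.XT
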