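import Pool.Agent.H69.XT.DefsP
import Pool.Agent.H69.DT.ClassQ

/-!
# Module ClassP: the class of sums of functions of few entries

Copy of `SumOnBlocks.single`, `.sum`, `.measurable`, `.memLp`, `.poly` of `Pool/Agent/H69/DT/ClassQ.lean` for `SumOnPairs`; in
`poly` the set of pairs of a monomial `m` is `m.support.image (fun c => s(c.2.1.1, c.2.2.1.1))`, of at most `m.degree`
elements (no factor 2).
-/

set_option autoImplicit false

open MeasureTheory ProbabilityTheory
open scoped BigOperators

namespace H69.XT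

open Pool.Agent.Results.MP_634cec_lc.LinearDegree

variable {G : Type} [Group G] [MeasurableSpace G] {μ : Measure G} [IsProbabilityMeasure μ]
  {L n : ℕ} {d : Fin L → ℕ} {ρ : ∀ k : Fin L, G →* Matrix.unitaryGroup (Fin (d k)) ℂ}

omit [IsProbabilityMeasure μ] in
private theorem classP_single {D : ℕ} {E : Finset (Sym2 (Fin n))} (hE : E.card ≤ D)
    {F : (Coord n d → ℝ) → ℝ} (hF : Measurable F) (hloc : OnPairs E F)
    (hF2 : MemLp (fun ω => F (data ρ 0 ω)) 2 (law μ n d)) : SumOnPairs μ ρ D F := by
  classical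
  refine ⟨fun T => if T = E then F else 0, fun T => ?_, fun y => ?_⟩
  · by_cases h : T = E
    · subst h
      simp only [if_true]
      exact ⟨hF, hloc, hF2⟩
    · simp only [h, if_false]
      exact ⟨measurable_const, fun _ _ _ => rfl, MemLp.zero⟩
  · rw [Finset.sum_eq_single E]
    · simp
    · intro T _ hT
      simp [hT]
    · intro h
      exact absurd (by simpa using hE) h

omit [IsProbabilityMeasure μ] in
private theorem classP_sum {D : ℕ} {ι : Type*} (s : Finset ι) {f : ι → (Coord n d → ℝ) → ℝ}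
    (hf : ∀ i ∈ s, SumOnPairs μ ρ D (f i)) : SumOnPairs μ ρ D fun y => ∑ i ∈ s, f i y := by
  classical
  have h : ∀ i, ∃ F : Finset (Sym2 (Fin n)) → (Coord n d → ℝ) → ℝ, i ∈ s →
      (∀ S, Measurable (F S) ∧ OnPairs S (F S) ∧
        MemLp (fun ω => F S (data ρ 0 ω)) 2 (law μ n d)) ∧
      ∀ y, f i y = ∑ S with S.card ≤ D, F S y := by
    intro i
    by_cases hi : i ∈ s
    · obtain ⟨F, hF⟩ := hf i hi
      exact ⟨F, fun _ => hF⟩
    · exact ⟨0, fun h => absurd h hi⟩
  choose F hF using h
  refine ⟨fun S y => ∑ i ∈ s, F i S y, fun S => ⟨?_, ?_, ?_⟩, fun y => ?_⟩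
  · exact Finset.measurable_sum _ fun i hi => ((hF i hi).1 S).1
  · intro y y' h
    exact Finset.sum_congr rfl fun i hi => ((hF i hi).1 S).2.1 y y' h
  · exact memLp_finsetSum _ fun i hi => ((hF i hi).1 S).2.2
  · rw [Finset.sum_comm]
    exact Finset.sum_congr rfl fun i hi => (hF i hi).2 y

theorem SumOnPairs.measurable {D : ℕ} {f : (Coord n d → ℝ) → ℝ} (hf : SumOnPairs μ ρ D f) :
    Measurable f := by
  obtain ⟨F, hF, hsum⟩ := hf
  have h : f = fun y => ∑ S with S.card ≤ D, F S y := funext hsum
  rw [h]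
  exact Finset.measurable_sum _ fun S _ => (hF S).1

theorem SumOnPairs.memLp {D : ℕ} {f : (Coord n d → ℝ) → ℝ} (hf : SumOnPairs μ ρ D f) :
    MemLp (fun ω => f (data ρ 0 ω)) 2 (law μ n d) := by
  obtain ⟨F, hF, hsum⟩ := hf
  have h : f = fun y => ∑ S with S.card ≤ D, F S y := funext hsum
  rw [h]
  exact memLp_finsetSum _ fun S _ => (hF S).2.2

/-- the pairs of vertices of the entries of a monomial -/
private def classP_pt (m : Coord n d →₀ ℕ) : Finset (Sym2 (Fin n)) :=
  m.support.image (fun c => s(c.2.1.1, c.2.2.1.1))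

private theorem classP_card (m : Coord n d →₀ ℕ) : (classP_pt m).card ≤ m.degree := by
  unfold classP_pt
  refine Finset.card_image_le.trans ?_
  calc m.support.card = ∑ c ∈ m.support, 1 := by simp
    _ ≤ ∑ c ∈ m.support, m c :=
        Finset.sum_le_sum fun c hc => Nat.one_le_iff_ne_zero.2 (Finsupp.mem_support_iff.1 hc)
    _ = m.degree := rfl

theorem SumOnPairs.poly {D : ℕ} (p : MvPolynomial (Coord n d) ℝ) (hp : p.totalDegree ≤ D) :
    SumOnPairs μ ρ D fun y => MvPolynomial.eval y p := by
  classical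
  have h1 : (fun y => MvPolynomial.eval y p) = fun y => ∑ m ∈ p.support,
      MvPolynomial.eval y (MvPolynomial.monomial m (p.coeff m)) := by
    funext y
    rw [← map_sum, ← MvPolynomial.as_sum]
  rw [h1]
  refine classP_sum _ fun m hm => ?_
  have hpm : Measurable fun y : Coord n d → ℝ =>
      MvPolynomial.eval y (MvPolynomial.monomial m (p.coeff m)) :=
    (MvPolynomial.continuous_eval _).measurable
  refine classP_single (E := classP_pt m) ?_ hpm ?_ ?_
  · have h2 := classP_card m
    have h3 : m.degree ≤ p.totalDegree := MvPolynomial.le_totalDegree hm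
    omega
  · intro y y' h
    show MvPolynomial.eval y (MvPolynomial.monomial m (p.coeff m)) =
        MvPolynomial.eval y' (MvPolynomial.monomial m (p.coeff m))
    rw [MvPolynomial.eval_monomial, MvPolynomial.eval_monomial]
    congr 1
    refine Finsupp.prod_congr fun c hc => ?_
    rw [h c (Finset.mem_image_of_mem (fun c : Coord n d => s(c.2.1.1, c.2.2.1.1)) hc)]
  · exact H69.DT.memLp_poly (ρ := ρ) (μ := μ) (MvPolynomial.monomial m (p.coeff m))

end H69.XT
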