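import Pool.Agent.H69.XT.Lim

/-!
# Module Cont: continuity of the threshold

`thr_anti`: the set for `c ≤ c'` is contained in the one for `c'` (`csInf_le_csInf`, nonempty by `exists_lt`). `thr_exp`: for
every element `x = κ/m2 * exp (kl/κ - 1)` with `κ ≤ c'` one has `thr c ≤ x * exp (2 K (1/c - 1/c'))`, `K = ∑ (d k)^2`
(then `le_csInf` for `thr c * exp (-..)`): if `κ ≤ c`, `thr_le` and the factor is `≥ 1`; if `x ≥ 2`, `thr_le_one`; if `κ > c`
and `x < 2`: `kl/m2 ≤ x < 2` (`exp (t - 1) ≥ t`), so `kl ≤ 2 K` (`m2_le`), and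
`thr c ≤ c/m2 * exp (kl/c - 1) = x * (c/κ) * exp (kl (1/c - 1/κ)) ≤ x * exp (2K (1/c - 1/c'))` (`kl ≥ 0`, `kl_nonneg`).
`exists_gt`: `c' ↓ c`: `exp (2K(1/c - 1/c')) → 1`. `thr_cont`: from `thr_anti` and `thr_exp` (squeeze), the values are in `[0,1]`.
-/

set_option autoImplicit false

open MeasureTheory ProbabilityTheory
open scoped BigOperators

namespace H69.XT

open Pool.Agent.Results.MP_634cec_lc.LinearDegree

variable {G : Type} [Group G] [TopologicalSpace G] [IsTopologicalGroup G] [CompactSpace G]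
  [MeasurableSpace G] [BorelSpace G] (μ : Measure G) [μ.IsHaarMeasure] [IsProbabilityMeasure μ]
  {L : ℕ} {d : Fin L → ℕ} {ρ : ∀ k : Fin L, G →* Matrix.unitaryGroup (Fin (d k)) ℂ}

theorem thr_anti (hρ : Admissible ρ) (hK : ∃ k, 0 < d k) : AntitoneOn (thr μ ρ) (Set.Ioi 0) := by
  intro c hc c' _ hcc
  by_contra hcon
  push Not at hcon
  obtain ⟨κ, p, h1, h2, h3, h4, h5⟩ := exists_lt μ hρ hK hc hcon
  exact absurd (thr_le μ ρ h1 (h2.trans hcc) h3 h4) (not_le.mpr h5)

theorem thr_exp (hρ : Admissible ρ) (hK : ∃ k, 0 < d k) {c c' : ℝ} (hc : 0 < c) (hcc : c ≤ c') :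
    thr μ ρ c ≤ thr μ ρ c' * Real.exp (2 * (∑ k, (d k : ℝ) ^ 2) * (1 / c - 1 / c')) := by
  have hc' : 0 < c' := hc.trans_le hcc
  have hK0 : 0 ≤ ∑ k, (d k : ℝ) ^ 2 := Finset.sum_nonneg fun k _ => sq_nonneg _
  have hinv : 0 ≤ 1 / c - 1 / c' := by
    have := one_div_le_one_div_of_le hc hcc
    linarith
  set K : ℝ := ∑ k, (d k : ℝ) ^ 2 with hKdef
  set E : ℝ := Real.exp (2 * K * (1 / c - 1 / c')) with hE
  have hE1 : 1 ≤ E := by
    rw [hE]
    exact Real.one_le_exp (mul_nonneg (mul_nonneg zero_le_two hK0) hinv)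
  have hE0 : 0 < E := lt_of_lt_of_le one_pos hE1
  by_contra hcon
  push Not at hcon
  have hlt : thr μ ρ c' < thr μ ρ c / E := by
    rwa [lt_div_iff₀ hE0]
  obtain ⟨κ, p, hκ, hκc, hp, hm, hx⟩ := exists_lt μ hρ hK hc' hlt
  rw [lt_div_iff₀ hE0] at hx
  set x : ℝ := κ / m2 μ ρ p * Real.exp (kl μ p / κ - 1) with hxdef
  have hx0 : 0 ≤ x := mul_nonneg (div_nonneg hκ.le hm.le) (Real.exp_pos _).le
  have hxE : x ≤ x * E := le_mul_of_one_le_right hx0 hE1
  rcases le_or_gt κ c with hle | hgt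
  · have h1 := thr_le μ ρ hκ hle hp hm
    exact absurd (h1.trans hxE) (not_le.mpr hx)
  · have hkl0 := kl_nonneg μ hp
    have hx1 : x < 1 := lt_of_le_of_lt hxE (lt_of_lt_of_le hx (thr_le_one μ hρ hK hc))
    have h2 : kl μ p / m2 μ ρ p ≤ x := by
      have h3 := Real.add_one_le_exp (kl μ p / κ - 1)
      have h4 : kl μ p / κ ≤ Real.exp (kl μ p / κ - 1) := by linarith
      have h5 : κ / m2 μ ρ p * (kl μ p / κ) ≤ x :=
        mul_le_mul_of_nonneg_left h4 (div_nonneg hκ.le hm.le)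
      have h6 : κ / m2 μ ρ p * (kl μ p / κ) = kl μ p / m2 μ ρ p := by
        field_simp
      rwa [h6] at h5
    have h7 : kl μ p ≤ 2 * K := by
      have h8 : kl μ p / m2 μ ρ p < 1 := lt_of_le_of_lt h2 hx1
      rw [div_lt_one hm] at h8
      have h9 := m2_le μ hρ hp
      linarith
    have h10 := thr_le μ ρ hc le_rfl hp hm
    have h11 : c / m2 μ ρ p * Real.exp (kl μ p / c - 1) ≤ x * E := by
      have h12 : Real.exp (kl μ p / c - 1) =
          Real.exp (kl μ p / κ - 1) * Real.exp (kl μ p * (1 / c - 1 / κ)) := by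
        rw [← Real.exp_add]
        congr 1
        ring
      have h13 : Real.exp (kl μ p * (1 / c - 1 / κ)) ≤ E := by
        rw [hE, Real.exp_le_exp]
        have h14 : 1 / c - 1 / κ ≤ 1 / c - 1 / c' := by
          have := one_div_le_one_div_of_le hκ hκc
          linarith
        exact (mul_le_mul_of_nonneg_left h14 hkl0).trans (mul_le_mul_of_nonneg_right h7 hinv)
      have h15 : c / m2 μ ρ p ≤ κ / m2 μ ρ p := div_le_div_of_nonneg_right hgt.le hm.le
      rw [h12, ← mul_assoc]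
      refine mul_le_mul ?_ h13 (Real.exp_pos _).le hx0
      exact mul_le_mul_of_nonneg_right h15 (Real.exp_pos _).le
    exact absurd (h10.trans h11) (not_le.mpr hx)

theorem exists_gt (hρ : Admissible ρ) (hK : ∃ k, 0 < d k) {c x : ℝ} (hc : 0 < c)
    (hx : x < thr μ ρ c) : ∃ c' : ℝ, c < c' ∧ x < thr μ ρ c' := by
  have hcont : ContinuousAt
      (fun c' : ℝ => x * Real.exp (2 * (∑ k, (d k : ℝ) ^ 2) * (1 / c - 1 / c'))) c := by
    have h1 : ContinuousAt (fun c' : ℝ => 1 / c') c :=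
      continuousAt_const.div continuousAt_id hc.ne'
    exact continuousAt_const.mul (Real.continuous_exp.continuousAt.comp
      (continuousAt_const.mul (continuousAt_const.sub h1)))
  have hval : x * Real.exp (2 * (∑ k, (d k : ℝ) ^ 2) * (1 / c - 1 / c)) < thr μ ρ c := by
    rw [sub_self, mul_zero, Real.exp_zero, mul_one]
    exact hx
  have hev : ∀ᶠ c' in nhds c,
      x * Real.exp (2 * (∑ k, (d k : ℝ) ^ 2) * (1 / c - 1 / c')) < thr μ ρ c :=
    hcont.eventually (eventually_lt_nhds hval)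
  have hev2 : ∀ᶠ c' in nhdsWithin c (Set.Ioi c),
      x * Real.exp (2 * (∑ k, (d k : ℝ) ^ 2) * (1 / c - 1 / c')) < thr μ ρ c :=
    hev.filter_mono nhdsWithin_le_nhds
  obtain ⟨c', h2, h3⟩ := (hev2.and self_mem_nhdsWithin).exists
  have h3 : c < c' := h3
  refine ⟨c', h3, ?_⟩
  have h4 := lt_of_lt_of_le h2 (thr_exp μ hρ hK hc h3.le)
  exact lt_of_mul_lt_mul_right h4 (Real.exp_pos _).le

theorem thr_cont (hρ : Admissible ρ) (hK : ∃ k, 0 < d k) :
    ContinuousOn (thr μ ρ) (Set.Ioi 0) := by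
  intro c hc
  have hc : 0 < c := hc
  have hbd : ∀ c' ∈ Set.Ioi (0 : ℝ), |thr μ ρ c' - thr μ ρ c| ≤
      Real.exp (2 * (∑ k, (d k : ℝ) ^ 2) * |1 / c' - 1 / c|) - 1 := by
    intro c' hc'
    have hc' : 0 < c' := hc'
    have key : ∀ a b : ℝ, 0 < a → a ≤ b → |thr μ ρ a - thr μ ρ b| ≤
        Real.exp (2 * (∑ k, (d k : ℝ) ^ 2) * |1 / a - 1 / b|) - 1 := by
      intro a b ha hab
      have hb : 0 < b := ha.trans_le hab
      have h1 : 0 ≤ 1 / a - 1 / b := by
        have := one_div_le_one_div_of_le ha hab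
        linarith
      have h2 := thr_anti μ hρ hK (Set.mem_Ioi.mpr ha) (Set.mem_Ioi.mpr hb) hab
      have h3 := thr_exp μ hρ hK ha hab
      rw [abs_of_nonneg h1, abs_of_nonneg (sub_nonneg.mpr h2)]
      set E : ℝ := Real.exp (2 * (∑ k, (d k : ℝ) ^ 2) * (1 / a - 1 / b)) with hE
      have h4 : 1 ≤ E := by
        rw [hE]
        exact Real.one_le_exp
          (mul_nonneg (mul_nonneg zero_le_two (Finset.sum_nonneg fun k _ => sq_nonneg _)) h1)
      have h5 := thr_nonneg μ ρ b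
      have h6 := thr_le_one μ hρ hK hb
      nlinarith
    rcases le_total c' c with h | h
    · exact key c' c hc' h
    · rw [abs_sub_comm, abs_sub_comm (1 / c')]
      exact key c c' hc h
  have hinv : ContinuousWithinAt (fun c' : ℝ => 1 / c') (Set.Ioi 0) c :=
    (continuousAt_const.div continuousAt_id hc.ne').continuousWithinAt
  have hlim : Filter.Tendsto
      (fun c' : ℝ => Real.exp (2 * (∑ k, (d k : ℝ) ^ 2) * |1 / c' - 1 / c|) - 1)
      (nhdsWithin c (Set.Ioi 0)) (nhds 0) := by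
    have h1 : ContinuousWithinAt
        (fun c' : ℝ => Real.exp (2 * (∑ k, (d k : ℝ) ^ 2) * |1 / c' - 1 / c|) - 1)
        (Set.Ioi 0) c :=
      (Real.continuous_exp.continuousAt.comp_continuousWithinAt
        (continuousWithinAt_const.mul (hinv.sub continuousWithinAt_const).abs)).sub
          continuousWithinAt_const
    have h2 : Real.exp (2 * (∑ k, (d k : ℝ) ^ 2) * |1 / c - 1 / c|) - 1 = 0 := by
      rw [sub_self, abs_zero, mul_zero, Real.exp_zero, sub_self]
    have h3 := h1.tendsto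
    rwa [h2] at h3
  have hz : Filter.Tendsto (fun c' => thr μ ρ c' - thr μ ρ c)
      (nhdsWithin c (Set.Ioi 0)) (nhds 0) := by
    refine squeeze_zero_norm' ?_ hlim
    filter_upwards [self_mem_nhdsWithin] with c' hc'
    rw [Real.norm_eq_abs]
    exact hbd c' hc'
  exact tendsto_sub_nhds_zero_iff.mp hz

end H69.XT
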