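import Pool.Agent.H69.XT.Defs
import Pool.Agent.H28.SumMoments

/-!
# Module CsV: Cauchy-Schwarz for the mean of a projection

`csV`: `∫ Re(∑ conj(u k) v k) p = Re ∑ conj(u k) m k`, `m k := ∫ p v k` (`integral_re`, `integral_finsetSum`,
`integral_const_mul`; everything is bounded: `p ≤ exp Λ`), so its absolute value is `≤ ‖u‖ ‖m‖ = ‖m‖`
(`norm_inner_le_norm` in `EuclideanSpace ℂ ι` and `inner_re_eq` of `SumMoments`, or `Finset.sum_mul_sq_le_sq_mul_sq`).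
`csV_eq`: for `nn μ v p > 0` take `u := m/‖m‖`.
-/

set_option autoImplicit false

open MeasureTheory ProbabilityTheory
open scoped BigOperators ComplexConjugate

namespace H69.XT

/-- the mean of `v` for the density `p` -/
private noncomputable def mv {G : Type} [MeasurableSpace G] (μ : Measure G) {ι : Type} [Fintype ι]
    (v : ι → G → ℂ) (p : G → ℝ) : EuclideanSpace ℂ ι :=
  WithLp.toLp 2 (fun k => ∫ g, (p g : ℂ) * v k g ∂μ)

private lemma nn_eq {G : Type} [MeasurableSpace G] (μ : Measure G) {ι : Type} [Fintype ι]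
    (v : ι → G → ℂ) (p : G → ℝ) : nn μ v p = ‖mv μ v p‖ ^ 2 := by
  rw [EuclideanSpace.norm_sq_eq]
  rfl

private lemma mv_key {G : Type} [MeasurableSpace G] (μ : Measure G) [IsProbabilityMeasure μ]
    {ι : Type} [Fintype ι] {v : ι → G → ℂ} (hv : ∀ k, Measurable (v k)) {b : ℝ}
    (hb : ∀ k g, ‖v k g‖ ≤ b) {p : G → ℝ} (hp : Dens μ p) (u : EuclideanSpace ℂ ι) :
    ∫ g, (∑ k, conj (u k) * v k g).re * p g ∂μ = (inner ℂ u (mv μ v p)).re := by
  obtain ⟨Λ, hΛ⟩ := hp.log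
  have hpb : ∀ g, ‖(p g : ℂ)‖ ≤ Real.exp Λ := by
    intro g
    rw [Complex.norm_real, Real.norm_eq_abs, abs_of_pos (hp.pos g)]
    rw [← Real.exp_log (hp.pos g)]
    exact Real.exp_le_exp.2 ((le_abs_self _).trans (hΛ g))
  have hint : ∀ k, Integrable (fun g => (p g : ℂ) * v k g) μ := by
    intro k
    refine Integrable.of_bound
      ((Complex.measurable_ofReal.comp hp.meas).mul (hv k)).aestronglyMeasurable
      (C := Real.exp Λ * b) (Filter.Eventually.of_forall fun g => ?_)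
    rw [norm_mul]
    exact mul_le_mul (hpb g) (hb k g) (norm_nonneg _) (Real.exp_pos _).le
  have hint2 : ∀ k, Integrable (fun g => conj (u k) * ((p g : ℂ) * v k g)) μ :=
    fun k => (hint k).const_mul _
  have h1 : ∀ g, (∑ k, conj (u k) * v k g).re * p g =
      RCLike.re (∑ k, conj (u k) * ((p g : ℂ) * v k g)) := by
    intro g
    have h2 : ∑ k, conj (u k) * ((p g : ℂ) * v k g) = (∑ k, conj (u k) * v k g) * (p g : ℂ) := by
      rw [Finset.sum_mul]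
      exact Finset.sum_congr rfl fun k _ => by ring
    rw [h2]
    simp
  rw [integral_congr_ae (Filter.Eventually.of_forall h1),
    integral_re (integrable_finsetSum _ fun k _ => hint2 k),
    integral_finsetSum _ fun k _ => hint2 k, Pool.Agent.H28.SumMoments.inner_re_eq]
  show (∑ k, ∫ g, conj (u k) * ((p g : ℂ) * v k g) ∂μ).re = _
  congr 1
  refine Finset.sum_congr rfl fun k _ => ?_
  rw [integral_const_mul]
  rfl

theorem csV {G : Type} [MeasurableSpace G] (μ : Measure G) [IsProbabilityMeasure μ] {ι : Type}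
    [Fintype ι] {v : ι → G → ℂ} (hv : ∀ k, Measurable (v k)) {b : ℝ} (hb : ∀ k g, ‖v k g‖ ≤ b)
    {p : G → ℝ} (hp : Dens μ p) (u : EuclideanSpace ℂ ι) (hu : ‖u‖ = 1) :
    (∫ g, (∑ k, conj (u k) * v k g).re * p g ∂μ) ^ 2 ≤ nn μ v p := by
  rw [mv_key μ hv hb hp u, nn_eq, ← sq_abs]
  have h1 : |(inner ℂ u (mv μ v p)).re| ≤ ‖mv μ v p‖ := by
    refine (Complex.abs_re_le_norm _).trans ((norm_inner_le_norm u _).trans ?_)
    rw [hu, one_mul]
  exact pow_le_pow_left₀ (abs_nonneg _) h1 2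

theorem csV_eq {G : Type} [MeasurableSpace G] (μ : Measure G) [IsProbabilityMeasure μ] {ι : Type}
    [Fintype ι] {v : ι → G → ℂ} (hv : ∀ k, Measurable (v k)) {b : ℝ} (hb : ∀ k g, ‖v k g‖ ≤ b)
    {p : G → ℝ} (hp : Dens μ p) (hnn : 0 < nn μ v p) : ∃ u : EuclideanSpace ℂ ι, ‖u‖ = 1 ∧
      ∫ g, (∑ k, conj (u k) * v k g).re * p g ∂μ = Real.sqrt (nn μ v p) := by
  rw [nn_eq] at hnn
  have hm : 0 < ‖mv μ v p‖ := by
    by_contra h
    have h0 : ‖mv μ v p‖ = 0 := le_antisymm (not_lt.1 h) (norm_nonneg _)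
    rw [h0] at hnn
    norm_num at hnn
  refine ⟨((‖mv μ v p‖⁻¹ : ℝ) : ℂ) • mv μ v p, ?_, ?_⟩
  · rw [norm_smul, Complex.norm_real, Real.norm_eq_abs, abs_of_pos (inv_pos.2 hm),
      inv_mul_cancel₀ hm.ne']
  · rw [mv_key μ hv hb hp, nn_eq, Real.sqrt_sq hm.le, inner_smul_left,
      inner_self_eq_norm_sq_to_K, Complex.conj_ofReal]
    have h2 : ((‖mv μ v p‖⁻¹ : ℝ) : ℂ) * ((‖mv μ v p‖ : ℝ) : ℂ) ^ 2 =
        ((‖mv μ v p‖⁻¹ * ‖mv μ v p‖ ^ 2 : ℝ) : ℂ) := by push_cast; ring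
    have h3 : ‖mv μ v p‖⁻¹ * ‖mv μ v p‖ ^ 2 = ‖mv μ v p‖ := by
      rw [pow_two, ← mul_assoc, inv_mul_cancel₀ hm.ne', one_mul]
    calc (((‖mv μ v p‖⁻¹ : ℝ) : ℂ) * ((‖mv μ v p‖ : ℝ) : ℂ) ^ 2).re
        = ((‖mv μ v p‖⁻¹ * ‖mv μ v p‖ ^ 2 : ℝ) : ℂ).re := by rw [h2]
      _ = ‖mv μ v p‖ := by rw [Complex.ofReal_re, h3]

end H69.XT
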