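import Pool.Agent.H69.XT.Dual
import Pool.Agent.H69.XT.Bern
import Pool.Agent.H28.SumMoments

/-!
# Module LowB: every value of the functional is at least `1 - R √κ`

`proj0`, `proj2`: mean and second moment of a projection (`proj_second_moment` of `Pool/Agent/H28/SumMoments.lean`, mean zero
as in `vec_moment` there). `proj_le`: `|Re ⟨u, v⟩| ≤ ‖u‖ ‖v‖ ≤ R` (Cauchy-Schwarz). `lowB`: if `R √κ ≥ 1` the left side is
`≤ 0`. Otherwise `dual` with `ψ := κ / (1 - 2 R √κ/3)`: `bern` with `a = 2 √κ`, `a^2/4 = κ`; then `bern_num` with `z = R √κ`.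
-/

set_option autoImplicit false

open MeasureTheory ProbabilityTheory
open scoped BigOperators ComplexConjugate

namespace H69.XT

variable {G : Type} [MeasurableSpace G] (μ : Measure G) [IsProbabilityMeasure μ] {ι : Type}
  [Fintype ι] [DecidableEq ι] {v : ι → G → ℂ} {b : ℝ}

omit [DecidableEq ι] in
theorem proj_meas (hv : ∀ k, Measurable (v k)) (u : EuclideanSpace ℂ ι) :
    Measurable fun g => (∑ k, conj (u k) * v k g).re :=
  Complex.measurable_re.comp (Finset.measurable_sum _ fun k _ => (hv k).const_mul _)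

theorem proj0 (hv : Orth μ v b) (u : EuclideanSpace ℂ ι) :
    ∫ g, (∑ k, conj (u k) * v k g).re ∂μ = 0 := by
  have hi : ∀ k, Integrable (v k) μ := fun k =>
    Integrable.of_bound (hv.meas k).aestronglyMeasurable (C := b)
      (Filter.Eventually.of_forall (hv.bdd k))
  have hi2 : Integrable (fun h => ∑ k, conj (u k) * v k h) μ :=
    integrable_finsetSum _ fun k _ => (hi k).const_mul _
  have e : ∫ h, (∑ k, conj (u k) * v k h).re ∂μ = (∫ h, ∑ k, conj (u k) * v k h ∂μ).re :=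
    integral_re hi2
  rw [e, integral_finsetSum _ fun k _ => (hi k).const_mul _]
  simp_rw [integral_const_mul, hv.zero]
  simp

theorem proj2 (hv : Orth μ v b) {u : EuclideanSpace ℂ ι} (hu : ‖u‖ = 1) :
    ∫ g, (∑ k, conj (u k) * v k g).re ^ 2 ∂μ = 1 / 2 :=
  Pool.Agent.H28.SumMoments.proj_second_moment μ v hv.meas b hv.bdd hv.orth hv.alt u hu

omit [MeasurableSpace G] [DecidableEq ι] in
theorem proj_le {R : ℝ} (hR0 : 0 ≤ R) (hR : ∀ g, ∑ k, ‖v k g‖ ^ 2 ≤ R ^ 2)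
    {u : EuclideanSpace ℂ ι} (hu : ‖u‖ = 1) (g : G) :
    |(∑ k, conj (u k) * v k g).re| ≤ R := by
  obtain ⟨s, hs⟩ : ∃ s : EuclideanSpace ℂ ι, s = WithLp.toLp 2 (fun k => v k g) := ⟨_, rfl⟩
  have h1 : ∀ k, s k = v k g := fun k => by rw [hs]
  have h2 : (∑ k, conj (u k) * v k g).re = (inner ℂ u s).re := by
    rw [Pool.Agent.H28.SumMoments.inner_re_eq]
    simp only [h1]
  have h3 : ‖s‖ ≤ R := by
    refine le_of_sq_le_sq ?_ hR0
    rw [EuclideanSpace.norm_sq_eq]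
    simp only [h1]
    exact hR g
  rw [h2]
  calc |(inner ℂ u s).re| ≤ ‖inner ℂ u s‖ := Complex.abs_re_le_norm _
    _ ≤ ‖u‖ * ‖s‖ := norm_inner_le_norm _ _
    _ = ‖s‖ := by rw [hu, one_mul]
    _ ≤ R := h3

theorem lowB (hv : Orth μ v b) {R : ℝ} (hR0 : 0 ≤ R) (hR : ∀ g, ∑ k, ‖v k g‖ ^ 2 ≤ R ^ 2)
    {p : G → ℝ} (hp : Dens μ p) {κ : ℝ} (hκ : 0 < κ) (hM : 0 < nn μ v p) :
    1 - R * Real.sqrt κ ≤ κ / nn μ v p * Real.exp (kl μ p / κ - 1) := by
  by_cases hz : R * Real.sqrt κ < 1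
  · have hz0 : 0 ≤ R * Real.sqrt κ := mul_nonneg hR0 (Real.sqrt_nonneg κ)
    have hs : Real.sqrt κ ^ 2 = κ := Real.sq_sqrt hκ.le
    have hden : 0 < 1 - 2 * (R * Real.sqrt κ) / 3 := by linarith
    have hψ : ∀ u : EuclideanSpace ℂ ι, ‖u‖ = 1 →
        ∫ g, Real.exp (2 * Real.sqrt κ * (∑ k, conj (u k) * v k g).re) ∂μ ≤
          Real.exp (κ / (1 - 2 * (R * Real.sqrt κ) / 3)) := by
      intro u hu
      have h := bern μ (proj_meas hv.meas u) (proj_le hR0 hR hu) (proj0 μ hv u) (proj2 μ hv hu)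
        (a := 2 * Real.sqrt κ) (by positivity) (by nlinarith)
      have e1 : (2 * Real.sqrt κ) ^ 2 / 4 = κ := by
        rw [mul_pow, hs]
        ring
      have e2 : 1 - 2 * Real.sqrt κ * R / 3 = 1 - 2 * (R * Real.sqrt κ) / 3 := by ring
      rw [e1, e2] at h
      exact h
    have h1 := dual μ hv hp hκ hM hψ
    have h2 := bern_num hz0 hz
    have e3 : κ / (1 - 2 * (R * Real.sqrt κ) / 3) / κ = 1 / (1 - 2 * (R * Real.sqrt κ) / 3) := by
      rw [div_div, mul_comm, ← div_div, div_self hκ.ne']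
    rw [e3] at h1
    exact h2.trans h1
  · have h1 : 0 ≤ κ / nn μ v p * Real.exp (kl μ p / κ - 1) := by positivity
    have h2 : 1 ≤ R * Real.sqrt κ := not_lt.1 hz
    linarith

end H69.XT
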