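import Pool.Agent.H69.XT.DefsC
import Pool.Agent.H69.XT.LowB

/-!
# Module CubV: the largest third moment

`cv_bdd`: `|Y|^3 ≤ R Y^2`, `∫ Y^2 = 1/2` (`proj2`, `proj_le`), so the set is bounded above by `R/2`. `le_cv`: `le_csSup`.
`cv_le`: `Real.sSup_le` (every element is `≤ R/2`; `0 ≤ R/2`). `cv_nonneg`: if the set is empty it is `0` (`Real.sSup_empty`); otherwise it
contains `x` and `-x` (replace `u` by `-u`). `cub_eq`: `u ↦ conj (u_k a b)` gives the two sets the same elements (`EuclideanSpace.norm_eq`,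
`Fintype.sum_sigma`, `Fintype.sum_prod_type`, `vv`, `Finset.mul_sum`).
-/

set_option autoImplicit false

open MeasureTheory ProbabilityTheory
open scoped BigOperators ComplexConjugate

namespace H69.XT

open Pool.Agent.Results.MP_634cec_lc.LinearDegree

section

variable {G : Type} [MeasurableSpace G] (μ : Measure G) [IsProbabilityMeasure μ] {ι : Type}
  [Fintype ι] [DecidableEq ι] {v : ι → G → ℂ} {b : ℝ}

private theorem cubV_abs (hv : Orth μ v b) {R : ℝ} (hR0 : 0 ≤ R)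
    (hR : ∀ g, ∑ k, ‖v k g‖ ^ 2 ≤ R ^ 2) {u : EuclideanSpace ℂ ι} (hu : ‖u‖ = 1) :
    |∫ g, (∑ k, conj (u k) * v k g).re ^ 3 ∂μ| ≤ R / 2 := by
  have hm : Measurable fun g => (∑ k, conj (u k) * v k g).re := proj_meas hv.meas u
  have hb : ∀ g, |(∑ k, conj (u k) * v k g).re| ≤ R := fun g => proj_le hR0 hR hu g
  have hi2 : Integrable (fun g => (∑ k, conj (u k) * v k g).re ^ 2) μ := by
    refine Integrable.of_bound (hm.pow_const 2).aestronglyMeasurable (R ^ 2) ?_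
    filter_upwards with g
    rw [Real.norm_eq_abs, abs_pow]
    exact pow_le_pow_left₀ (abs_nonneg _) (hb g) 2
  have hi3 : Integrable (fun g => (∑ k, conj (u k) * v k g).re ^ 3) μ := by
    refine Integrable.of_bound (hm.pow_const 3).aestronglyMeasurable (R ^ 3) ?_
    filter_upwards with g
    rw [Real.norm_eq_abs, abs_pow]
    exact pow_le_pow_left₀ (abs_nonneg _) (hb g) 3
  calc |∫ g, (∑ k, conj (u k) * v k g).re ^ 3 ∂μ|
      ≤ ∫ g, |(∑ k, conj (u k) * v k g).re ^ 3| ∂μ := abs_integral_le_integral_abs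
    _ ≤ ∫ g, R * (∑ k, conj (u k) * v k g).re ^ 2 ∂μ := by
        refine integral_mono hi3.abs (hi2.const_mul R) ?_
        intro g
        show |(∑ k, conj (u k) * v k g).re ^ 3| ≤ R * (∑ k, conj (u k) * v k g).re ^ 2
        rw [abs_pow, pow_succ, mul_comm, sq_abs]
        exact mul_le_mul_of_nonneg_right (hb g) (sq_nonneg _)
    _ = R / 2 := by
        rw [integral_const_mul, proj2 μ hv hu]
        ring

theorem le_cv (hv : Orth μ v b) {R : ℝ} (hR0 : 0 ≤ R) (hR : ∀ g, ∑ k, ‖v k g‖ ^ 2 ≤ R ^ 2)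
    {u : EuclideanSpace ℂ ι} (hu : ‖u‖ = 1) :
    ∫ g, (∑ k, conj (u k) * v k g).re ^ 3 ∂μ ≤ cv μ v := by
  refine le_csSup ⟨R / 2, ?_⟩ ⟨u, hu, rfl⟩
  rintro x ⟨w, hw, rfl⟩
  exact (abs_le.1 (cubV_abs μ hv hR0 hR hw)).2

theorem cv_le (hv : Orth μ v b) {R : ℝ} (hR0 : 0 ≤ R) (hR : ∀ g, ∑ k, ‖v k g‖ ^ 2 ≤ R ^ 2) :
    cv μ v ≤ R / 2 := by
  refine Real.sSup_le ?_ (by positivity)
  rintro x ⟨w, hw, rfl⟩
  exact (abs_le.1 (cubV_abs μ hv hR0 hR hw)).2

theorem cv_nonneg (hv : Orth μ v b) {R : ℝ} (hR0 : 0 ≤ R)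
    (hR : ∀ g, ∑ k, ‖v k g‖ ^ 2 ≤ R ^ 2) : 0 ≤ cv μ v := by
  by_cases h : ∃ u : EuclideanSpace ℂ ι, ‖u‖ = 1
  · obtain ⟨u, hu⟩ := h
    have h1 := le_cv μ hv hR0 hR hu
    have h2 := le_cv μ hv hR0 hR (u := -u) (by rwa [norm_neg])
    have h3 : ∫ g, (∑ k, conj ((-u) k) * v k g).re ^ 3 ∂μ =
        -∫ g, (∑ k, conj (u k) * v k g).re ^ 3 ∂μ := by
      rw [← integral_neg]
      congr 1
      funext g
      have h4 : ∑ k, conj ((-u) k) * v k g = -∑ k, conj (u k) * v k g := by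
        rw [← Finset.sum_neg_distrib]
        refine Finset.sum_congr rfl fun k _ => ?_
        have h5 : (-u) k = -(u k) := rfl
        rw [h5, map_neg, neg_mul]
      rw [h4, Complex.neg_re]
      ring
    rw [h3] at h2
    linarith
  · have h6 : {x | ∃ u : EuclideanSpace ℂ ι, ‖u‖ = 1 ∧
        x = ∫ g, (∑ k, conj (u k) * v k g).re ^ 3 ∂μ} = ∅ := by
      rw [Set.eq_empty_iff_forall_notMem]
      rintro x ⟨u, hu, _⟩
      exact h ⟨u, hu⟩
    unfold cv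
    rw [h6, Real.sSup_empty]

end

private theorem cubV_sum {L : ℕ} {d : Fin L → ℕ} {M : Type} [AddCommMonoid M] (F : VIdx d → M) :
    ∑ c, F c = ∑ k, ∑ a, ∑ b, F ⟨k, (a, b)⟩ := by
  rw [Fintype.sum_sigma]
  refine Finset.sum_congr rfl fun k _ => ?_
  rw [Fintype.sum_prod_type]

private theorem cubV_int {G : Type} [Group G] {L : ℕ} {d : Fin L → ℕ}
    (ρ : ∀ k : Fin L, G →* Matrix.unitaryGroup (Fin (d k)) ℂ) (w : VIdx d → ℂ)
    (u : ∀ k : Fin L, Matrix (Fin (d k)) (Fin (d k)) ℂ)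
    (h : ∀ k a b, conj (w ⟨k, (a, b)⟩) = u k a b) (g : G) :
    ∑ c, conj (w c) * vv ρ c g = ∑ k, ((Real.sqrt (d k) : ℝ) : ℂ) *
      ∑ a, ∑ b, u k a b * (ρ k g : Matrix (Fin (d k)) (Fin (d k)) ℂ) a b := by
  rw [cubV_sum]
  refine Finset.sum_congr rfl fun k _ => ?_
  rw [Finset.mul_sum]
  refine Finset.sum_congr rfl fun a _ => ?_
  rw [Finset.mul_sum]
  refine Finset.sum_congr rfl fun b _ => ?_
  rw [h]
  unfold vv
  ring

theorem cub_eq {G : Type} [Group G] [MeasurableSpace G] (μ : Measure G) {L : ℕ} {d : Fin L → ℕ}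
    (ρ : ∀ k : Fin L, G →* Matrix.unitaryGroup (Fin (d k)) ℂ) : cub μ ρ = cv μ (vv ρ) := by
  unfold cub cv
  congr 1
  ext x
  constructor
  · rintro ⟨u, hu, rfl⟩
    refine ⟨WithLp.toLp 2 (fun c : VIdx d => conj (u c.1 c.2.1 c.2.2)), ?_, ?_⟩
    · rw [EuclideanSpace.norm_eq, cubV_sum]
      have h1 : ∑ k, ∑ a, ∑ b, ‖(WithLp.toLp 2 (fun c : VIdx d => conj (u c.1 c.2.1 c.2.2)) :
          EuclideanSpace ℂ (VIdx d)) ⟨k, (a, b)⟩‖ ^ 2 = ∑ k, ∑ a, ∑ b, ‖u k a b‖ ^ 2 := by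
        refine Finset.sum_congr rfl fun k _ => Finset.sum_congr rfl fun a _ =>
          Finset.sum_congr rfl fun b _ => ?_
        show ‖conj (u k a b)‖ ^ 2 = ‖u k a b‖ ^ 2
        rw [RCLike.norm_conj]
      rw [h1, hu, Real.sqrt_one]
    · congr 1
      funext g
      rw [cubV_int ρ (fun c => conj (u c.1 c.2.1 c.2.2)) u (fun k a b => Complex.conj_conj _) g]
  · rintro ⟨w, hw, rfl⟩
    refine ⟨fun k a b => conj (w ⟨k, (a, b)⟩), ?_, ?_⟩
    · have h1 : ∑ k, ∑ a, ∑ b, ‖conj (w ⟨k, (a, b)⟩)‖ ^ 2 = ∑ c, ‖w c‖ ^ 2 := by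
        rw [cubV_sum]
        refine Finset.sum_congr rfl fun k _ => Finset.sum_congr rfl fun a _ =>
          Finset.sum_congr rfl fun b _ => ?_
        rw [RCLike.norm_conj]
      rw [EuclideanSpace.norm_eq, Real.sqrt_eq_one] at hw
      rw [h1, hw]
    · congr 1
      funext g
      rw [cubV_int ρ (fun c => w c) (fun k a b => conj (w ⟨k, (a, b)⟩)) (fun k a b => rfl) g]

end H69.XT
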