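import Pool.Agent.H28.LinearDegreeModel

/-!
# The exact low-degree threshold at linear degree (MP_634cec): definitions
-/

set_option autoImplicit false

open MeasureTheory ProbabilityTheory
open scoped BigOperators ComplexConjugate

namespace H69.XT

open Pool.Agent.Results.MP_634cec_lc.LinearDegree

/-- probability densities which are bounded and bounded away from zero -/
structure Dens {G : Type} [MeasurableSpace G] (μ : Measure G) (p : G → ℝ) : Prop where
  meas : Measurable p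
  pos : ∀ g, 0 < p g
  log : ∃ Λ : ℝ, ∀ g, |Real.log (p g)| ≤ Λ
  one : ∫ g, p g ∂μ = 1

/-- relative entropy -/
noncomputable def kl {G : Type} [MeasurableSpace G] (μ : Measure G) (p : G → ℝ) : ℝ :=
  ∫ g, p g * Real.log (p g) ∂μ

/-- the squared length of the mean of the vector `v` -/
noncomputable def nn {G : Type} [MeasurableSpace G] (μ : Measure G) {ι : Type} [Fintype ι]
    (v : ι → G → ℂ) (p : G → ℝ) : ℝ := ∑ k, ‖∫ g, (p g : ℂ) * v k g ∂μ‖ ^ 2

/-- the sum of the squares of the Fourier coefficients of `p` at the frequencies -/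
noncomputable def m2 {G : Type} [Group G] [MeasurableSpace G] (μ : Measure G) {L : ℕ}
    {d : Fin L → ℕ} (ρ : ∀ k : Fin L, G →* Matrix.unitaryGroup (Fin (d k)) ℂ) (p : G → ℝ) : ℝ :=
  ∑ k, d k * ∑ a, ∑ b,
    ‖∫ g, (p g : ℂ) * (ρ k g : Matrix (Fin (d k)) (Fin (d k)) ℂ) a b ∂μ‖ ^ 2

/-- the threshold for degree `c n` -/
noncomputable def thr {G : Type} [Group G] [MeasurableSpace G] (μ : Measure G) {L : ℕ}
    {d : Fin L → ℕ} (ρ : ∀ k : Fin L, G →* Matrix.unitaryGroup (Fin (d k)) ℂ) (c : ℝ) : ℝ :=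
  sInf {x | ∃ (κ : ℝ) (p : G → ℝ), 0 < κ ∧ κ ≤ c ∧ Dens μ p ∧ 0 < m2 μ ρ p ∧
    x = κ / m2 μ ρ p * Real.exp (kl μ p / κ - 1)}

/-- the second moment threshold -/
noncomputable def thrInf {G : Type} [Group G] [MeasurableSpace G] (μ : Measure G) {L : ℕ}
    {d : Fin L → ℕ} (ρ : ∀ k : Fin L, G →* Matrix.unitaryGroup (Fin (d k)) ℂ) : ℝ :=
  sInf {x | ∃ p : G → ℝ, Dens μ p ∧ 0 < m2 μ ρ p ∧ x = kl μ p / m2 μ ρ p}

/-- the orthonormality relations of the vector `v` -/
structure Orth {G : Type} [MeasurableSpace G] (μ : Measure G) {ι : Type} [DecidableEq ι]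
    (v : ι → G → ℂ) (b : ℝ) : Prop where
  meas : ∀ k, Measurable (v k)
  bdd : ∀ k g, ‖v k g‖ ≤ b
  zero : ∀ k, ∫ g, v k g ∂μ = 0
  orth : ∀ k l, ∫ g, v k g * conj (v l g) ∂μ = if k = l then 1 else 0
  alt : ∀ k l, ∫ g, v k g * v l g ∂μ = 0

end H69.XT
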