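import Pool.Agent.H69.XT.Defs

/-!
# The exact low-degree threshold at linear degree (MP_634cec): the third moment
-/

set_option autoImplicit false

open MeasureTheory ProbabilityTheory
open scoped BigOperators ComplexConjugate

namespace H69.XT

open Pool.Agent.Results.MP_634cec_lc.LinearDegree

/-- the largest third moment of a one-dimensional projection of the vector `v` -/
noncomputable def cv {G : Type} [MeasurableSpace G] (μ : Measure G) {ι : Type} [Fintype ι]
    (v : ι → G → ℂ) : ℝ :=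
  sSup {x | ∃ u : EuclideanSpace ℂ ι, ‖u‖ = 1 ∧
    x = ∫ g, (∑ k, conj (u k) * v k g).re ^ 3 ∂μ}

/-- the largest third moment of `Re ∑ k, √(d k) tr (u_k ρ_k)` over all families `u` of matrices
whose entries have the sum of squares `1` -/
noncomputable def cub {G : Type} [Group G] [MeasurableSpace G] (μ : Measure G) {L : ℕ}
    {d : Fin L → ℕ} (ρ : ∀ k : Fin L, G →* Matrix.unitaryGroup (Fin (d k)) ℂ) : ℝ :=
  sSup {x | ∃ u : ∀ k : Fin L, Matrix (Fin (d k)) (Fin (d k)) ℂ,
    ∑ k, ∑ a, ∑ b, ‖u k a b‖ ^ 2 = 1 ∧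
    x = ∫ g, (∑ k, ((Real.sqrt (d k) : ℝ) : ℂ) *
      ∑ a, ∑ b, u k a b * (ρ k g : Matrix (Fin (d k)) (Fin (d k)) ℂ) a b).re ^ 3 ∂μ}

end H69.XT
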