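import Pool.Agent.H47.LV.Main
import Pool.Agent.H69.XT.Defs

/-!
# The exact low-degree threshold at linear degree (MP_634cec): functions of few entries
-/

set_option autoImplicit false

open MeasureTheory ProbabilityTheory
open scoped BigOperators

namespace H69.XT

open Pool.Agent.Results.MP_634cec_lc.LinearDegree
open Pool.Agent.H47.LV

variable {L n : ℕ} {d : Fin L → ℕ}

/-- `F` depends only on the entries (blocks, in all observations) at the pairs of vertices in
`E` -/
def OnPairs (E : Finset (Sym2 (Fin n))) (F : (Coord n d → ℝ) → ℝ) : Prop :=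
  ∀ y y' : Coord n d → ℝ, (∀ c, s(c.2.1.1, c.2.2.1.1) ∈ E → y c = y' c) → F y = F y'

/-- `f` is a sum of functions each of which depends only on the entries at at most `D` pairs of
vertices (arbitrary terms for all sets of at most `D` pairs) and has a finite second moment in the
null model. -/
def SumOnPairs {G : Type} [Group G] [MeasurableSpace G] (μ : Measure G)
    (ρ : ∀ k : Fin L, G →* Matrix.unitaryGroup (Fin (d k)) ℂ) (D : ℕ)
    (f : (Coord n d → ℝ) → ℝ) : Prop :=
  ∃ F : Finset (Sym2 (Fin n)) → (Coord n d → ℝ) → ℝ,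
    (∀ E, Measurable (F E) ∧ OnPairs E (F E) ∧
      MemLp (fun ω => F E (data ρ 0 ω)) 2 (law μ n d)) ∧
    ∀ y, f y = ∑ E with E.card ≤ D, F E y

/-- the ordered pairs over a set of unordered pairs -/
def op (S : Finset (Sym2 (Fin n))) : Finset (Fin n × Fin n) :=
  Finset.univ.filter fun e => s(e.1, e.2) ∈ S

/-- the exponent of an unordered pair -/
noncomputable def xs {G : Type} [Group G]
    (ρ : ∀ k : Fin L, G →* Matrix.unitaryGroup (Fin (d k)) ℂ) (lam : ℝ) (h : Fin n → G)
    (a : Sym2 (Fin n)) : ℝ :=
  ∑ e ∈ op {a}, xe (wl ρ) (lam / Real.sqrt n) h e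

end H69.XT
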