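import Pool.Agent.H69.XT.CsV

/-!
# Module Dual: lower bound for the functional by duality

`u` from `csV_eq`, `Y g := (∑ k, conj (u k) * v k g).re`, `t := √(nn μ v p) = ∫ Y p > 0`, `a := 2 √κ`, `Z := ∫ exp(aY) > 0`.
`kl μ p ≥ a t - log Z`: pointwise `log y ≤ y/Z - 1 + log Z` (`Real.log_le_sub_one_of_pos` for `y/Z`) with
`y = exp(aY)/p`, times `p`, integrated (`log y = aY - log p`; everything is bounded). `log Z ≤ ψ` by `hψ`. So
`κ/t^2 * exp (kl/κ - 1) ≥ κ/t^2 * exp (a t/κ) * exp (-ψ/κ - 1)` and `exp w ≥ (e w/2)^2` for `w = a t/κ ≥ 0`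
(`Real.add_one_le_exp (w/2 - 1)`, squared): `κ/t^2 * e^2 a^2 t^2/(4 κ^2) = e^2 a^2/(4κ) = e^2`. Total `exp (1 - ψ/κ)`.
-/

set_option autoImplicit false

open MeasureTheory ProbabilityTheory
open scoped BigOperators ComplexConjugate

namespace H69.XT

private lemma Dual_kl {G : Type} [MeasurableSpace G] (μ : Measure G) [IsProbabilityMeasure μ]
    {p : G → ℝ} (hp : Dens μ p) {Y : G → ℝ} (hY : Measurable Y) {C : ℝ} (hC : ∀ g, |Y g| ≤ C)
    {ψ : ℝ} (h : ∫ g, Real.exp (Y g) ∂μ ≤ Real.exp ψ) :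
    ∫ g, Y g * p g ∂μ - ψ ≤ kl μ p := by
  obtain ⟨Λ, hΛ⟩ := hp.log
  have hpb : ∀ g, p g ≤ Real.exp Λ := by
    intro g
    rw [← Real.exp_log (hp.pos g)]
    exact Real.exp_le_exp.2 ((le_abs_self _).trans (hΛ g))
  have hpa : ∀ g, |p g| ≤ Real.exp Λ := by
    intro g
    rw [abs_of_pos (hp.pos g)]
    exact hpb g
  have i1 : Integrable p μ :=
    Integrable.of_bound hp.meas.aestronglyMeasurable (C := Real.exp Λ)
      (Filter.Eventually.of_forall fun g => by rw [Real.norm_eq_abs]; exact hpa g)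
  have i2 : Integrable (fun g => Real.exp (Y g)) μ :=
    Integrable.of_bound hY.exp.aestronglyMeasurable (C := Real.exp C)
      (Filter.Eventually.of_forall fun g => by
        rw [Real.norm_eq_abs, abs_of_pos (Real.exp_pos _)]
        exact Real.exp_le_exp.2 ((le_abs_self _).trans (hC g)))
  have i3 : Integrable (fun g => Y g * p g) μ :=
    Integrable.of_bound (hY.mul hp.meas).aestronglyMeasurable (C := C * Real.exp Λ)
      (Filter.Eventually.of_forall fun g => by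
        rw [norm_mul, Real.norm_eq_abs, Real.norm_eq_abs]
        exact mul_le_mul (hC g) (hpa g) (abs_nonneg _) ((abs_nonneg _).trans (hC g)))
  have i4 : Integrable (fun g => p g * Real.log (p g)) μ :=
    Integrable.of_bound (hp.meas.mul hp.meas.log).aestronglyMeasurable (C := Real.exp Λ * Λ)
      (Filter.Eventually.of_forall fun g => by
        rw [norm_mul, Real.norm_eq_abs, Real.norm_eq_abs]
        exact mul_le_mul (hpa g) (hΛ g) (abs_nonneg _) (Real.exp_pos _).le)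
  have key : ∀ g, Y g * p g - p g * Real.log (p g) ≤
      Real.exp (-ψ) * Real.exp (Y g) + (ψ - 1) * p g := by
    intro g
    have hpg := hp.pos g
    have h1 : 0 < Real.exp (Y g - ψ) / p g := div_pos (Real.exp_pos _) hpg
    have h2 := Real.log_le_sub_one_of_pos h1
    rw [Real.log_div (Real.exp_pos _).ne' hpg.ne', Real.log_exp] at h2
    have h3 := mul_le_mul_of_nonneg_left h2 hpg.le
    have h4 : p g * (Real.exp (Y g - ψ) / p g - 1) = Real.exp (-ψ) * Real.exp (Y g) - p g := by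
      rw [← Real.exp_add, show -ψ + Y g = Y g - ψ by ring]
      field_simp
    rw [h4] at h3
    linarith
  have h1 := integral_mono (i3.sub i4)
    ((i2.const_mul (Real.exp (-ψ))).add (i1.const_mul (ψ - 1))) key
  simp only [Pi.sub_apply, Pi.add_apply] at h1
  rw [integral_sub i3 i4, integral_add (i2.const_mul _) (i1.const_mul _), integral_const_mul,
    integral_const_mul, hp.one] at h1
  have h2 : Real.exp (-ψ) * ∫ g, Real.exp (Y g) ∂μ ≤ 1 := by
    calc Real.exp (-ψ) * ∫ g, Real.exp (Y g) ∂μ ≤ Real.exp (-ψ) * Real.exp ψ :=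
          mul_le_mul_of_nonneg_left h (Real.exp_pos _).le
      _ = 1 := by rw [← Real.exp_add, neg_add_cancel, Real.exp_zero]
  have h3 : kl μ p = ∫ g, p g * Real.log (p g) ∂μ := rfl
  rw [h3]
  linarith

private lemma Dual_num {κ t ψ K : ℝ} (hκ : 0 < κ) (ht : 0 < t)
    (h : 2 * Real.sqrt κ * t - ψ ≤ K) :
    Real.exp (1 - ψ / κ) ≤ κ / t ^ 2 * Real.exp (K / κ - 1) := by
  obtain ⟨w, hw⟩ : ∃ w : ℝ, w = 2 * Real.sqrt κ * t / κ := ⟨_, rfl⟩
  have hs : 0 < Real.sqrt κ := Real.sqrt_pos.2 hκ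
  have hw0 : 0 < w := by
    rw [hw]
    positivity
  have h1 : w / 2 ≤ Real.exp (w / 2 - 1) := by
    have := Real.add_one_le_exp (w / 2 - 1)
    linarith
  have h2 : (w / 2) ^ 2 ≤ Real.exp (w - 2) := by
    have h3 : Real.exp (w - 2) = Real.exp (w / 2 - 1) ^ 2 := by
      rw [sq, ← Real.exp_add]
      congr 1
      ring
    rw [h3]
    exact pow_le_pow_left₀ (by positivity) h1 2
  have h3 : (w / 2) ^ 2 = t ^ 2 / κ := by
    have h4 : Real.sqrt κ ^ 2 = κ := Real.sq_sqrt hκ.le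
    rw [hw, show 2 * Real.sqrt κ * t / κ / 2 = Real.sqrt κ * t / κ by ring, div_pow, mul_pow, h4]
    field_simp
  have h4 : Real.exp (1 - ψ / κ) * Real.exp (w - 2) ≤ Real.exp (K / κ - 1) := by
    rw [← Real.exp_add]
    apply Real.exp_le_exp.2
    have h5 : (2 * Real.sqrt κ * t - ψ) / κ ≤ K / κ := div_le_div_of_nonneg_right h hκ.le
    rw [sub_div, ← hw] at h5
    linarith
  have h5 : Real.exp (1 - ψ / κ) * (t ^ 2 / κ) ≤ Real.exp (K / κ - 1) := by
    rw [← h3]
    exact (mul_le_mul_of_nonneg_left h2 (Real.exp_pos _).le).trans h4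
  have h6 : κ / t ^ 2 * (Real.exp (1 - ψ / κ) * (t ^ 2 / κ)) = Real.exp (1 - ψ / κ) := by
    field_simp
  rw [← h6]
  exact mul_le_mul_of_nonneg_left h5 (by positivity)

theorem dual {G : Type} [MeasurableSpace G] (μ : Measure G) [IsProbabilityMeasure μ] {ι : Type}
    [Fintype ι] [DecidableEq ι] {v : ι → G → ℂ} {b : ℝ} (hv : Orth μ v b) {p : G → ℝ}
    (hp : Dens μ p) {κ : ℝ} (hκ : 0 < κ) (hM : 0 < nn μ v p) {ψ : ℝ}
    (hψ : ∀ u : EuclideanSpace ℂ ι, ‖u‖ = 1 →
      ∫ g, Real.exp (2 * Real.sqrt κ * (∑ k, conj (u k) * v k g).re) ∂μ ≤ Real.exp ψ) :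
    Real.exp (1 - ψ / κ) ≤ κ / nn μ v p * Real.exp (kl μ p / κ - 1) := by
  obtain ⟨u, hu, h1⟩ := csV_eq μ hv.meas hv.bdd hp hM
  have hYm : Measurable fun g => (∑ k, conj (u k) * v k g).re :=
    Complex.measurable_re.comp (Finset.measurable_fun_sum _ fun k _ => (hv.meas k).const_mul _)
  have hYb : ∀ g, |(∑ k, conj (u k) * v k g).re| ≤ ∑ k, ‖u k‖ * b := by
    intro g
    refine (Complex.abs_re_le_norm _).trans ((norm_sum_le _ _).trans
      (Finset.sum_le_sum fun k _ => ?_))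
    rw [norm_mul, RCLike.norm_conj]
    exact mul_le_mul_of_nonneg_left (hv.bdd k g) (norm_nonneg _)
  have hs : 0 < Real.sqrt κ := Real.sqrt_pos.2 hκ
  have h2 := Dual_kl μ hp (Y := fun g => 2 * Real.sqrt κ * (∑ k, conj (u k) * v k g).re)
    (hYm.const_mul _) (C := 2 * Real.sqrt κ * ∑ k, ‖u k‖ * b) (fun g => by
      rw [abs_mul, abs_of_pos (by positivity : (0 : ℝ) < 2 * Real.sqrt κ)]
      exact mul_le_mul_of_nonneg_left (hYb g) (by positivity)) (hψ u hu)
  have h3 : ∫ g, 2 * Real.sqrt κ * (∑ k, conj (u k) * v k g).re * p g ∂μ =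
      2 * Real.sqrt κ * Real.sqrt (nn μ v p) := by
    rw [← h1, ← integral_const_mul]
    refine integral_congr_ae (Filter.Eventually.of_forall fun g => ?_)
    ring
  rw [h3] at h2
  have h4 := Dual_num hκ (Real.sqrt_pos.2 hM) h2
  rwa [Real.sq_sqrt hM.le] at h4

end H69.XT
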