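import Pool.Agent.H69.XT.OpX

/-!
# Module GramP: the Moebius transforms of the moments are nonnegative
-/

set_option autoImplicit false

open MeasureTheory ProbabilityTheory
open scoped BigOperators RealInnerProductSpace

namespace H69.XT

open Pool.Agent.Results.MP_634cec_lc.LinearDegree
open Pool.Agent.H47.LV

/-- the vectors whose inner products are the moments -/
private noncomputable def gv {G : Type} [Group G] [MeasurableSpace G] (μ : Measure G)
    {L n : ℕ} {d : Fin L → ℕ} (ρ : ∀ k : Fin L, G →* Matrix.unitaryGroup (Fin (d k)) ℂ)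
    (lam : ℝ) (m : ℕ) (S : Finset (Sym2 (Fin n))) : EuclideanSpace ℝ (Fin m → Coord n d) :=
  WithLp.toLp 2 (fun κ => ∫ g : Fin n → G, ∏ i, sE ρ lam (op S) g (κ i)
    ∂(Measure.pi fun _ : Fin n => μ))

private theorem gv_inner {G : Type} [Group G] [TopologicalSpace G] [IsTopologicalGroup G]
    [CompactSpace G] [MeasurableSpace G] [BorelSpace G] (μ : Measure G) [μ.IsHaarMeasure]
    [IsProbabilityMeasure μ] {L n : ℕ} {d : Fin L → ℕ}
    (ρ : ∀ k : Fin L, G →* Matrix.unitaryGroup (Fin (d k)) ℂ)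
    (hρ : ∀ k, Continuous fun g => (ρ k g : Matrix (Fin (d k)) (Fin (d k)) ℂ)) (lam : ℝ) (m : ℕ)
    (S T : Finset (Sym2 (Fin n))) :
    ⟪gv μ ρ lam m S, gv μ ρ lam m T⟫ = ∫ h : Fin n → G, (∑ a ∈ S ∩ T, xs ρ lam h a) ^ m
      ∂(Measure.pi fun _ : Fin n => μ) := by
  set ν : Measure (Fin n → G) := Measure.pi fun _ : Fin n => μ with hν
  set β : ℝ := ∑ k, |lam * Real.sqrt (d k / n)| with hβ
  -- the products are bounded and measurable
  have hmeas : ∀ (S : Finset (Sym2 (Fin n))) (κ : Fin m → Coord n d),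
      Measurable fun g : Fin n → G => ∏ i, sE ρ lam (op S) g (κ i) := fun S κ =>
    Finset.measurable_prod _ fun i _ =>
      (measurable_pi_apply (κ i)).comp (measurable_sE ρ hρ lam (op S))
  have hbd : ∀ (S : Finset (Sym2 (Fin n))) (κ : Fin m → Coord n d) (g : Fin n → G),
      |∏ i, sE ρ lam (op S) g (κ i)| ≤ β ^ m := by
    intro S κ g
    rw [Finset.abs_prod]
    calc ∏ i, |sE ρ lam (op S) g (κ i)| ≤ ∏ _i : Fin m, β :=
          Finset.prod_le_prod (fun i _ => abs_nonneg _) fun i _ => abs_sE_le ρ lam (op S) g (κ i)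
      _ = β ^ m := by simp
  have hint : ∀ (S : Finset (Sym2 (Fin n))) (κ : Fin m → Coord n d),
      Integrable (fun g : Fin n → G => ∏ i, sE ρ lam (op S) g (κ i)) ν := fun S κ =>
    Integrable.of_bound (hmeas S κ).aestronglyMeasurable (β ^ m)
      (ae_of_all _ fun g => by rw [Real.norm_eq_abs]; exact hbd S κ g)
  -- the inner product
  have h1 : ⟪gv μ ρ lam m S, gv μ ρ lam m T⟫ = ∑ κ : Fin m → Coord n d,
      (∫ g, ∏ i, sE ρ lam (op S) g (κ i) ∂ν) * ∫ g', ∏ i, sE ρ lam (op T) g' (κ i) ∂ν := by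
    rw [PiLp.inner_apply]
    refine Finset.sum_congr rfl fun κ _ => ?_
    simp only [gv]
    exact mul_comm _ _
  have h2 : ∀ κ : Fin m → Coord n d,
      (∫ g, ∏ i, sE ρ lam (op S) g (κ i) ∂ν) * (∫ g', ∏ i, sE ρ lam (op T) g' (κ i) ∂ν) =
      ∫ g, ∫ g', ∏ i, (sE ρ lam (op S) g (κ i) * sE ρ lam (op T) g' (κ i)) ∂ν ∂ν := by
    intro κ
    rw [← integral_mul_const]
    refine integral_congr_ae (ae_of_all _ fun g => ?_)
    show (∏ i, sE ρ lam (op S) g (κ i)) * (∫ g', ∏ i, sE ρ lam (op T) g' (κ i) ∂ν) =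
      ∫ g', ∏ i, (sE ρ lam (op S) g (κ i) * sE ρ lam (op T) g' (κ i)) ∂ν
    rw [← integral_const_mul]
    refine integral_congr_ae (ae_of_all _ fun g' => ?_)
    exact Finset.prod_mul_distrib.symm
  have h3 : ∀ κ : Fin m → Coord n d, ∀ g, Integrable (fun g' : Fin n → G =>
      ∏ i, (sE ρ lam (op S) g (κ i) * sE ρ lam (op T) g' (κ i))) ν := by
    intro κ g
    simp_rw [Finset.prod_mul_distrib]
    exact (hint T κ).const_mul _
  have h4 : ∀ κ : Fin m → Coord n d, Integrable (fun g : Fin n → G =>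
      ∫ g', ∏ i, (sE ρ lam (op S) g (κ i) * sE ρ lam (op T) g' (κ i)) ∂ν) ν := by
    intro κ
    simp_rw [Finset.prod_mul_distrib, integral_const_mul]
    exact (hint S κ).mul_const _
  have h5 : ∀ g g' : Fin n → G, ∑ κ : Fin m → Coord n d,
      ∏ i, (sE ρ lam (op S) g (κ i) * sE ρ lam (op T) g' (κ i)) =
      (∑ a ∈ S ∩ T, xs ρ lam (g⁻¹ * g') a) ^ m := by
    intro g g'
    rw [← Fintype.sum_pow (fun c => sE ρ lam (op S) g c * sE ρ lam (op T) g' c) m, sE_inner,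
      op_inter, sum_op (S ∩ T)]
    congr 1
    refine Finset.sum_congr rfl fun a _ => ?_
    unfold xs
    refine Finset.sum_congr rfl fun e _ => ?_
    unfold xe
    congr 1
    rw [div_pow, Real.sq_sqrt (Nat.cast_nonneg _), div_div, mul_comm (2 : ℝ)]
  have h6 : ∀ g : Fin n → G, ∫ g' : Fin n → G, (∑ a ∈ S ∩ T, xs ρ lam (g⁻¹ * g') a) ^ m ∂ν =
      ∫ h : Fin n → G, (∑ a ∈ S ∩ T, xs ρ lam h a) ^ m ∂ν := by
    intro g
    exact integral_mul_left_eq_self (μ := Measure.pi fun _ : Fin n => μ)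
      (fun h : Fin n → G => (∑ a ∈ S ∩ T, xs ρ lam h a) ^ m) g⁻¹
  rw [h1, Finset.sum_congr rfl fun κ _ => h2 κ, ← integral_finsetSum _ fun κ _ => h4 κ]
  calc ∫ g, ∑ κ : Fin m → Coord n d,
        ∫ g', ∏ i, (sE ρ lam (op S) g (κ i) * sE ρ lam (op T) g' (κ i)) ∂ν ∂ν
      = ∫ _g : Fin n → G, ∫ h : Fin n → G, (∑ a ∈ S ∩ T, xs ρ lam h a) ^ m ∂ν ∂ν := by
        refine integral_congr_ae (ae_of_all _ fun g => ?_)
        show ∑ κ : Fin m → Coord n d,
          ∫ g', ∏ i, (sE ρ lam (op S) g (κ i) * sE ρ lam (op T) g' (κ i)) ∂ν =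
            ∫ h : Fin n → G, (∑ a ∈ S ∩ T, xs ρ lam h a) ^ m ∂ν
        rw [← integral_finsetSum _ fun κ _ => h3 κ g, ← h6 g]
        exact integral_congr_ae (ae_of_all _ fun g' => h5 g g')
    _ = ∫ h : Fin n → G, (∑ a ∈ S ∩ T, xs ρ lam h a) ^ m ∂ν := by simp

theorem gram {G : Type} [Group G] [TopologicalSpace G] [IsTopologicalGroup G] [CompactSpace G]
    [MeasurableSpace G] [BorelSpace G] (μ : Measure G) [μ.IsHaarMeasure] [IsProbabilityMeasure μ]
    {L n : ℕ} {d : Fin L → ℕ} (ρ : ∀ k : Fin L, G →* Matrix.unitaryGroup (Fin (d k)) ℂ)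
    (hρ : ∀ k, Continuous fun g => (ρ k g : Matrix (Fin (d k)) (Fin (d k)) ℂ)) (lam : ℝ) (m : ℕ)
    (V : Finset (Sym2 (Fin n))) :
    0 ≤ mob (fun S => ∫ h : Fin n → G, (∑ a ∈ S, xs ρ lam h a) ^ m
      ∂(Measure.pi fun _ : Fin n => μ)) V :=
  mob_nonneg (G := gv μ ρ lam m) (gv_inner μ ρ hρ lam m) V

end H69.XT
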