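import Pool.Agent.H69.XT.CsV
import Pool.Agent.H69.DT.Hoel
import Pool.Agent.H69.DT.Ent
import Pool.Agent.H69.DT.Fac

/-!
# Module LowG: the moments of the overlap are large

Model: `Pool/Agent/H69/DT/Low.lean` (private lemma `Low_int` and theorem `low`). `u` from `csV_eq`,
`X g := (∑ k, conj (u k) * v k g).re`, `∫ X p = √M`, `M := nn μ v p`. `D := ⌊κ n⌋₊`. `hoel` and `ent`
(`η = 1/(2D-1)`): `(n √M)^(2D) ≤ (∫ (∑ X)^(2D)) * exp (n kl + n Λ^2/(2D-1))`; `(∑ i X (h i))^2 ≤ ∑ k ‖∑ i v k (h i)‖^2`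
(`inner_vsum`, `vsum_norm_sq` of `SumMoments`, `‖u‖ = 1`). So the right side is
`≥ (lam^2 M n)^D exp (-n kl - C1)`, `C1 = 2Λ^2/κ`; `D! ≤ e D (D e^(-1))^D` (`H69.DT.fac`), `D ≤ κ n`:
`(lam^2 M n)^D ≥ (D e^(-1))^D exp (D l)`, `l := log (lam^2 M/κ) + 1 > kl/κ` (this is the hypothesis `hlt`),
`D l ≥ κ n l - |l|`; `δ := (κ l - kl)/2`, `N` large (`log D ≤ log (κ n)` is `o(n)`, as in `low`).
-/

set_option autoImplicit false

open MeasureTheory ProbabilityTheory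
open scoped BigOperators ComplexConjugate

namespace H69.XT

private lemma LowG_norm {ι : Type} [Fintype ι] {G : Type} {v : ι → G → ℂ} {b : ℝ}
    (hb : ∀ k g, ‖v k g‖ ≤ b) (u : EuclideanSpace ℂ ι) (g : G) :
    |(∑ k, conj (u k) * v k g).re| ≤ ∑ k, ‖u k‖ * b := by
  refine (Complex.abs_re_le_norm _).trans ((norm_sum_le _ _).trans ?_)
  refine Finset.sum_le_sum fun k _ => ?_
  rw [norm_mul, RCLike.norm_conj]
  exact mul_le_mul_of_nonneg_left (hb k g) (norm_nonneg _)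

private lemma LowG_cs {ι : Type} [Fintype ι] {G : Type} (v : ι → G → ℂ) {n : ℕ}
    (u : EuclideanSpace ℂ ι) (hu : ‖u‖ = 1) (h : Fin n → G) :
    (∑ i, (∑ k, conj (u k) * v k (h i)).re) ^ 2 ≤ ∑ k, ‖∑ i, v k (h i)‖ ^ 2 := by
  rw [← Pool.Agent.H28.SumMoments.inner_vsum, ← Pool.Agent.H28.SumMoments.vsum_norm_sq, ← sq_abs]
  refine pow_le_pow_left₀ (abs_nonneg _) ?_ 2
  refine (Complex.abs_re_le_norm _).trans ((norm_inner_le_norm u _).trans ?_)
  rw [hu, one_mul]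

/-- the moments, from below -/
private lemma LowG_int {ι : Type} [Fintype ι] {lam : ℝ} {G : Type} [MeasurableSpace G]
    (μ : Measure G) [IsProbabilityMeasure μ] {v : ι → G → ℂ} (hv : ∀ k, Measurable (v k)) {b : ℝ}
    (hb : ∀ k g, ‖v k g‖ ≤ b) {p : G → ℝ} (hp : Dens μ p) (hM : 0 < nn μ v p) {Λ : ℝ}
    (hL : ∀ g, |Real.log (p g)| ≤ Λ) {n D : ℕ} (hn : 0 < n) (hD : 1 ≤ D)
    (hΛ : Λ ≤ 2 * (D : ℝ) - 1) :
    (lam ^ 2 * nn μ v p * n) ^ D ≤
      (∫ h : Fin n → G, (lam ^ 2 / n * ∑ k, ‖∑ i, v k (h i)‖ ^ 2) ^ D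
          ∂(Measure.pi fun _ : Fin n => μ)) *
        Real.exp (n * kl μ p + n * Λ ^ 2 / (2 * (D : ℝ) - 1)) := by
  have hnr : (0 : ℝ) < n := by exact_mod_cast hn
  have hDr : (1 : ℝ) ≤ D := by exact_mod_cast hD
  have h2D : (0 : ℝ) < 2 * (D : ℝ) - 1 := by linarith
  obtain ⟨u, hu, hmean⟩ := csV_eq μ hv hb hp hM
  set X : G → ℝ := fun g => (∑ k, conj (u k) * v k g).re with hX
  set B : ℝ := ∑ k, ‖u k‖ * b with hB
  have hXb : ∀ g, |X g| ≤ B := fun g => LowG_norm hb u g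
  have hXm : Measurable X :=
    Complex.measurable_re.comp (Finset.measurable_sum _ fun k _ => (hv k).const_mul _)
  have hsm : ∀ k : ι, Measurable fun h : Fin n → G => ∑ i, v k (h i) := by
    intro k
    exact Finset.measurable_sum _ fun i _ => (hv k).comp (measurable_pi_apply i)
  have hf1m : Measurable fun h : Fin n → G =>
      (lam ^ 2 / n * ∑ k, ‖∑ i, v k (h i)‖ ^ 2) ^ D := by
    refine Measurable.pow_const (Measurable.const_mul ?_ _) _
    exact Finset.measurable_sum _ fun k _ => ((hsm k).norm).pow_const _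
  have hf2m : Measurable fun h : Fin n → G => (∑ i, X (h i)) ^ (2 * D) := by
    refine Measurable.pow_const ?_ _
    exact Finset.measurable_sum _ fun i _ => hXm.comp (measurable_pi_apply i)
  have hb1 : ∀ (h : Fin n → G) (k : ι), ‖∑ i, v k (h i)‖ ≤ n * b := by
    intro h k
    refine (norm_sum_le _ _).trans ?_
    calc ∑ i, ‖v k (h i)‖ ≤ ∑ _i : Fin n, b := Finset.sum_le_sum fun i _ => hb k _
      _ = n * b := by simp
  have hi1 : Integrable (fun h : Fin n → G =>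
      (lam ^ 2 / n * ∑ k, ‖∑ i, v k (h i)‖ ^ 2) ^ D)
      (Measure.pi fun _ : Fin n => μ) := by
    refine Integrable.of_bound hf1m.aestronglyMeasurable
      ((lam ^ 2 / n * ∑ _k : ι, ((n : ℝ) * b) ^ 2) ^ D) (ae_of_all _ fun h => ?_)
    have h0 : 0 ≤ lam ^ 2 / n * ∑ k, ‖∑ i, v k (h i)‖ ^ 2 := by positivity
    rw [Real.norm_of_nonneg (pow_nonneg h0 _)]
    refine pow_le_pow_left₀ h0 ?_ _
    refine mul_le_mul_of_nonneg_left ?_ (by positivity)
    exact Finset.sum_le_sum fun k _ => pow_le_pow_left₀ (norm_nonneg _) (hb1 h k) 2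
  have hi2 : Integrable (fun h : Fin n → G => (∑ i, X (h i)) ^ (2 * D))
      (Measure.pi fun _ : Fin n => μ) := by
    refine Integrable.of_bound hf2m.aestronglyMeasurable
      (((n : ℝ) * B) ^ (2 * D)) (ae_of_all _ fun h => ?_)
    rw [norm_pow, Real.norm_eq_abs]
    refine pow_le_pow_left₀ (abs_nonneg _) ?_ _
    refine (Finset.abs_sum_le_sum_abs _ _).trans ?_
    calc ∑ i, |X (h i)| ≤ ∑ _i : Fin n, B := Finset.sum_le_sum fun i _ => hXb (h i)
      _ = n * B := by simp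
  set J : ℝ := ∫ h : Fin n → G, (∑ i, X (h i)) ^ (2 * D) ∂(Measure.pi fun _ : Fin n => μ)
    with hJ
  set I : ℝ := ∫ h : Fin n → G, (lam ^ 2 / n * ∑ k, ‖∑ i, v k (h i)‖ ^ 2) ^ D
            ∂(Measure.pi fun _ : Fin n => μ) with hI
  have hJI : (lam ^ 2 / n) ^ D * J ≤ I := by
    rw [hJ, hI, ← integral_const_mul]
    refine integral_mono (hi2.const_mul _) hi1 fun h => ?_
    show (lam ^ 2 / n) ^ D * (∑ i, X (h i)) ^ (2 * D) ≤
      (lam ^ 2 / n * ∑ k, ‖∑ i, v k (h i)‖ ^ 2) ^ D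
    rw [pow_mul, ← mul_pow]
    refine pow_le_pow_left₀ (by positivity) ?_ _
    exact mul_le_mul_of_nonneg_left (LowG_cs v u hu h) (by positivity)
  have hpb : ∀ g, p g ≤ Real.exp Λ := by
    intro g
    rw [← Real.exp_log (hp.pos g)]
    exact Real.exp_le_exp.2 ((le_abs_self _).trans (hL g))
  have hh := H69.DT.hoel μ hXm hp.meas hXb (fun g => (hp.pos g).le) hpb hp.one n hD
  rw [hmean, ← hJ] at hh
  set η : ℝ := 1 / (2 * D - 1) with hη
  have hη0 : 0 < η := by positivity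
  have hηΛ : η * Λ ≤ 1 := by
    rw [hη, one_div, inv_mul_le_iff₀ h2D, mul_one]
    exact hΛ
  have he := H69.DT.ent μ hp.meas hp.pos hL hp.one hη0 hηΛ
  have hp0 : 0 ≤ ∫ h, p h ^ (1 + η : ℝ) ∂μ :=
    integral_nonneg fun g => Real.rpow_nonneg (hp.pos g).le _
  have hQ : (∫ h, p h ^ (1 + η : ℝ) ∂μ) ^ (n * (2 * D - 1)) ≤
      Real.exp (n * kl μ p + n * Λ ^ 2 / (2 * (D : ℝ) - 1)) := by
    refine (pow_le_pow_left₀ hp0 he _).trans (le_of_eq ?_)
    rw [← Real.exp_nat_mul]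
    congr 1
    rw [Nat.cast_mul, Nat.cast_sub (by omega)]
    push_cast
    rw [hη]
    show (n : ℝ) * (2 * D - 1) * (1 / (2 * D - 1) * kl μ p + (1 / (2 * D - 1)) ^ 2 * Λ ^ 2) = _
    field_simp
  have hJ0 : 0 ≤ J := by
    rw [hJ]
    refine integral_nonneg fun h => ?_
    show 0 ≤ (∑ i, X (h i)) ^ (2 * D)
    rw [pow_mul]
    positivity
  have h3 : ((n : ℝ) * Real.sqrt (nn μ v p)) ^ (2 * D) ≤
      J * Real.exp (n * kl μ p + n * Λ ^ 2 / (2 * (D : ℝ) - 1)) :=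
    hh.trans (mul_le_mul_of_nonneg_left hQ hJ0)
  calc (lam ^ 2 * nn μ v p * n) ^ D
      = (lam ^ 2 / n) ^ D * ((n : ℝ) * Real.sqrt (nn μ v p)) ^ (2 * D) := by
        have h4 : lam ^ 2 * nn μ v p * n =
            lam ^ 2 / n * ((n : ℝ) * Real.sqrt (nn μ v p)) ^ 2 := by
          rw [mul_pow, Real.sq_sqrt hM.le]
          field_simp
        rw [h4, mul_pow, ← pow_mul]
    _ ≤ (lam ^ 2 / n) ^ D *
        (J * Real.exp (n * kl μ p + n * Λ ^ 2 / (2 * (D : ℝ) - 1))) :=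
        mul_le_mul_of_nonneg_left h3 (by positivity)
    _ = ((lam ^ 2 / n) ^ D * J) * Real.exp (n * kl μ p + n * Λ ^ 2 / (2 * (D : ℝ) - 1)) := by
        ring
    _ ≤ I * Real.exp (n * kl μ p + n * Λ ^ 2 / (2 * (D : ℝ) - 1)) :=
        mul_le_mul_of_nonneg_right hJI (Real.exp_pos _).le

/-- the moments of the overlap grow at least at the rate `κ (1 + log (lam^2 M / κ)) - kl` -/
theorem lowE {ι : Type} [Fintype ι] {lam : ℝ} (h0 : 0 < lam) {G : Type} [MeasurableSpace G]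
    (μ : Measure G) [IsProbabilityMeasure μ] {v : ι → G → ℂ} (hv : ∀ k, Measurable (v k)) {b : ℝ}
    (hb : ∀ k g, ‖v k g‖ ≤ b) {p : G → ℝ} (hp : Dens μ p) {κ : ℝ} (hκ : 0 < κ)
    (hM : 0 < nn μ v p) {δ : ℝ}
    (hlt : δ < κ * (1 + Real.log (lam ^ 2 * nn μ v p / κ)) - kl μ p) :
    ∃ N : ℕ, ∀ n ≥ N, ∃ D : ℕ, 1 ≤ D ∧ (D : ℝ) ≤ κ * n ∧
      Real.exp (δ * n) * D.factorial ≤
        ∫ h : Fin n → G, (lam ^ 2 / n * ∑ k, ‖∑ i, v k (h i)‖ ^ 2) ^ D
          ∂(Measure.pi fun _ : Fin n => μ) := by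
  obtain ⟨Λ, hL⟩ := hp.log
  set M : ℝ := nn μ v p with hMd
  set K : ℝ := kl μ p with hK
  have hlam : 0 < lam ^ 2 := pow_pos h0 2
  set w : ℝ := lam ^ 2 * M / κ with hw
  have hw0 : 0 < w := by positivity
  set l : ℝ := Real.log w + 1 with hl
  obtain ⟨γ, hγ⟩ : ∃ γ, γ = κ * l - K - δ := ⟨_, rfl⟩
  have hγ0 : 0 < γ := by
    rw [hγ, hl]
    linarith
  have ht : Filter.Tendsto (fun n : ℕ => κ * (n : ℝ)) Filter.atTop Filter.atTop :=
    tendsto_natCast_atTop_atTop.const_mul_atTop hκ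
  have ht2 : Filter.Tendsto (fun n : ℕ => γ * (n : ℝ)) Filter.atTop Filter.atTop :=
    tendsto_natCast_atTop_atTop.const_mul_atTop hγ0
  have e1 := ht.eventually_ge_atTop 2
  have e2 := ht.eventually_ge_atTop (2 * Λ)
  have e3 := ht2.eventually_ge_atTop (2 * (1 + 2 * Λ ^ 2 / κ + |l|))
  have e4 : ∀ᶠ n : ℕ in Filter.atTop, Real.log (κ * n) ≤ γ / (2 * κ) * (κ * n) := by
    have h1 := Real.isLittleO_log_id_atTop.bound (show 0 < γ / (2 * κ) by positivity)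
    have h2 := ht.eventually h1
    filter_upwards [h2, e1] with n hn hn1
    have h3 : ‖id (κ * (n : ℝ))‖ = κ * n := by
      rw [id, Real.norm_of_nonneg (by linarith)]
    rw [h3] at hn
    exact (le_abs_self _).trans hn
  obtain ⟨N, hN⟩ := Filter.eventually_atTop.1 (e1.and (e2.and (e3.and e4)))
  refine ⟨N, fun n hn => ?_⟩
  obtain ⟨h1, h2, h3, h4⟩ := hN n hn
  have hn0 : 0 < n := by
    rcases Nat.eq_zero_or_pos n with h | h
    · rw [h] at h1
      norm_num at h1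
    · exact h
  have hκn : 0 ≤ κ * n := by linarith
  have hDle : ((⌊κ * (n : ℝ)⌋₊ : ℕ) : ℝ) ≤ κ * n := Nat.floor_le hκn
  have hDlt : κ * n < ((⌊κ * (n : ℝ)⌋₊ : ℕ) : ℝ) + 1 := Nat.lt_floor_add_one _
  have hD1 : 1 ≤ ⌊κ * (n : ℝ)⌋₊ := by
    refine Nat.le_floor ?_
    push_cast
    linarith
  generalize ⌊κ * (n : ℝ)⌋₊ = D at hDle hDlt hD1 ⊢
  have hDr : (1 : ℝ) ≤ D := by exact_mod_cast hD1
  refine ⟨D, hD1, hDle, ?_⟩
  have hnr : (0 : ℝ) < n := by exact_mod_cast hn0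
  have key := LowG_int (lam := lam) μ hv hb hp hM hL hn0 hD1 (by linarith)
  rw [← hMd, ← hK] at key
  set I : ℝ := ∫ h : Fin n → G, (lam ^ 2 / n * ∑ k, ‖∑ i, v k (h i)‖ ^ 2) ^ D
            ∂(Measure.pi fun _ : Fin n => μ) with hI
  have hI0 : 0 ≤ I := by
    rw [hI]
    refine integral_nonneg fun h => ?_
    show 0 ≤ (lam ^ 2 / n * ∑ k, ‖∑ i, v k (h i)‖ ^ 2) ^ D
    positivity
  have hE : (n : ℝ) * K + n * Λ ^ 2 / (2 * (D : ℝ) - 1) ≤ n * K + 2 * Λ ^ 2 / κ := by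
    have h5 : (n : ℝ) * Λ ^ 2 / (2 * (D : ℝ) - 1) ≤ 2 * Λ ^ 2 / κ := by
      rw [div_le_div_iff₀ (by linarith) hκ]
      have h6 : κ * n ≤ 2 * (2 * (D : ℝ) - 1) := by linarith
      have h7 : 0 ≤ Λ ^ 2 := sq_nonneg Λ
      nlinarith
    linarith
  have hpow : (lam ^ 2 * M * n) ^ D = (κ * n) ^ D * Real.exp (D * (l - 1)) := by
    have h5 : Real.exp (D * (l - 1)) = w ^ D := by
      rw [Real.exp_nat_mul, hl, add_sub_cancel_right, Real.exp_log hw0]
    rw [h5, ← mul_pow, hw]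
    congr 1
    field_simp
  have key2 : (D : ℝ) ^ D * Real.exp (D * (l - 1)) ≤ I * Real.exp (n * K + 2 * Λ ^ 2 / κ) := by
    calc (D : ℝ) ^ D * Real.exp (D * (l - 1)) ≤ (κ * n) ^ D * Real.exp (D * (l - 1)) :=
          mul_le_mul_of_nonneg_right (pow_le_pow_left₀ (by positivity) hDle D)
            (Real.exp_pos _).le
      _ = (lam ^ 2 * M * n) ^ D := hpow.symm
      _ ≤ _ := key
      _ ≤ _ := mul_le_mul_of_nonneg_left (Real.exp_le_exp.2 hE) hI0
  have hfac := H69.DT.fac hD1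
  have hDexp : (D : ℝ) ≤ Real.exp (Real.log (κ * n)) := by
    rw [Real.exp_log (by linarith)]
    exact hDle
  have hDl : κ * n * l - |l| ≤ D * l := by
    rcases le_total 0 l with h | h
    · rw [abs_of_nonneg h]
      nlinarith
    · have h5 : κ * n * l ≤ D * l := mul_le_mul_of_nonpos_right hDle h
      have h6 := abs_nonneg l
      linarith
  have hexp : Real.exp (n * K + 2 * Λ ^ 2 / κ) * (Real.exp (δ * n) *
      (Real.exp 1 * Real.exp (Real.log (κ * n)) * Real.exp (-(D * l)))) ≤ 1 := by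
    rw [← Real.exp_add, ← Real.exp_add, ← Real.exp_add, ← Real.exp_add, Real.exp_le_one_iff]
    have h5 : γ / (2 * κ) * (κ * n) = γ * n / 2 := by
      field_simp
    rw [h5] at h4
    have h6 : κ * n * l = γ * n + δ * n + n * K := by
      rw [hγ]
      ring
    linarith
  calc Real.exp (δ * n) * D.factorial
      ≤ Real.exp (δ * n) * (Real.exp 1 * D * (D * Real.exp (-1)) ^ D) :=
        mul_le_mul_of_nonneg_left hfac (Real.exp_pos _).le
    _ = ((D : ℝ) ^ D * Real.exp (D * (l - 1))) *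
        (Real.exp (δ * n) * (Real.exp 1 * D * Real.exp (-(D * l)))) := by
        have h5 : Real.exp (D * (l - 1)) * Real.exp (-(D * l)) = Real.exp (-1) ^ D := by
          rw [← Real.exp_add, ← Real.exp_nat_mul]
          congr 1
          ring
        rw [mul_pow, ← h5]
        ring
    _ ≤ (I * Real.exp (n * K + 2 * Λ ^ 2 / κ)) *
        (Real.exp (δ * n) * (Real.exp 1 * Real.exp (Real.log (κ * n)) *
          Real.exp (-(D * l)))) := by
        refine mul_le_mul key2 ?_ (by positivity) (by positivity)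
        refine mul_le_mul_of_nonneg_left ?_ (Real.exp_pos _).le
        refine mul_le_mul_of_nonneg_right ?_ (Real.exp_pos _).le
        exact mul_le_mul_of_nonneg_left hDexp (Real.exp_pos _).le
    _ = I * (Real.exp (n * K + 2 * Λ ^ 2 / κ) * (Real.exp (δ * n) *
      (Real.exp 1 * Real.exp (Real.log (κ * n)) * Real.exp (-(D * l))))) := by ring
    _ ≤ I * 1 := mul_le_mul_of_nonneg_left hexp hI0
    _ = I := mul_one I

theorem lowG {ι : Type} [Fintype ι] {lam : ℝ} (h0 : 0 < lam) {G : Type} [MeasurableSpace G]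
    (μ : Measure G) [IsProbabilityMeasure μ] {v : ι → G → ℂ} (hv : ∀ k, Measurable (v k)) {b : ℝ}
    (hb : ∀ k g, ‖v k g‖ ≤ b) {p : G → ℝ} (hp : Dens μ p) {κ : ℝ} (hκ : 0 < κ)
    (hM : 0 < nn μ v p) (hlt : κ / nn μ v p * Real.exp (kl μ p / κ - 1) < lam ^ 2) :
    ∃ δ : ℝ, 0 < δ ∧ ∃ N : ℕ, ∀ n ≥ N, ∃ D : ℕ, 1 ≤ D ∧ (D : ℝ) ≤ κ * n ∧
      Real.exp (δ * n) * D.factorial ≤
        ∫ h : Fin n → G, (lam ^ 2 / n * ∑ k, ‖∑ i, v k (h i)‖ ^ 2) ^ D
          ∂(Measure.pi fun _ : Fin n => μ) := by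
  have hlam : 0 < lam ^ 2 := pow_pos h0 2
  have hw0 : 0 < lam ^ 2 * nn μ v p / κ := by positivity
  -- the hypothesis
  have hkl : kl μ p < κ * (1 + Real.log (lam ^ 2 * nn μ v p / κ)) := by
    have h1 : Real.exp (kl μ p / κ - 1) < lam ^ 2 * nn μ v p / κ := by
      have h2 : Real.exp (kl μ p / κ - 1) =
          κ / nn μ v p * Real.exp (kl μ p / κ - 1) * (nn μ v p / κ) := by
        field_simp
      rw [h2]
      calc κ / nn μ v p * Real.exp (kl μ p / κ - 1) * (nn μ v p / κ)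
          < lam ^ 2 * (nn μ v p / κ) := mul_lt_mul_of_pos_right hlt (by positivity)
        _ = lam ^ 2 * nn μ v p / κ := by ring
    have h3 := (Real.lt_log_iff_exp_lt hw0).2 h1
    have h4 : kl μ p / κ < 1 + Real.log (lam ^ 2 * nn μ v p / κ) := by linarith
    rw [div_lt_iff₀ hκ] at h4
    linarith
  obtain ⟨δ, hδ⟩ : ∃ δ, δ = (κ * (1 + Real.log (lam ^ 2 * nn μ v p / κ)) - kl μ p) / 2 :=
    ⟨_, rfl⟩
  have hδ0 : 0 < δ := by rw [hδ]; linarith
  exact ⟨δ, hδ0, lowE h0 μ hv hb hp hκ hM (by linarith)⟩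

end H69.XT
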