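import Pool.Agent.H28.LinearDegreeModel

/-!
# Module LowI: the low-degree inequality in the model

This is the proof of `linear_degree` (`Pool/Agent/H28/LinearDegreeModel.lean`) up to the line `refine key.trans ..`,
followed by `simp_rw [overlap_bound μ ρ lam]`: no constant is used.
-/

set_option autoImplicit false

open MeasureTheory ProbabilityTheory
open scoped BigOperators ComplexConjugate

namespace H69.XT

open Pool.Agent.Results.MP_634cec_lc.LinearDegree

open Pool.Agent.H28.GaussLowDeg Pool.Agent.H28.SumMoments Pool.Agent.H28.Schur in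
theorem lowI {G : Type} [Group G] [TopologicalSpace G] [IsTopologicalGroup G] [CompactSpace G]
    [MeasurableSpace G] [BorelSpace G] (μ : Measure G) [μ.IsHaarMeasure] [IsProbabilityMeasure μ]
    {L n : ℕ} {d : Fin L → ℕ} (ρ : ∀ k : Fin L, G →* Matrix.unitaryGroup (Fin (d k)) ℂ)
    (hρ : ∀ k, Continuous fun g => (ρ k g : Matrix (Fin (d k)) (Fin (d k)) ℂ)) (lam : ℝ) {D : ℕ}
    (f : MvPolynomial (Coord n d) ℝ) (hf : f.totalDegree ≤ D) :
    ((∫ ω, MvPolynomial.eval (data ρ lam ω) f ∂(law μ n d)) -
        ∫ ω, MvPolynomial.eval (data ρ 0 ω) f ∂(law μ n d)) ^ 2 ≤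
      (∑ m ∈ Finset.range (D + 1),
        (∫ h : Fin n → G, (lam ^ 2 / n * ∑ c : VIdx d, ‖∑ i, vv ρ c (h i)‖ ^ 2) ^ m
          ∂(Measure.pi fun _ : Fin n => μ)) / (m.factorial : ℝ)) *
        Var[fun ω => MvPolynomial.eval (data ρ 0 ω) f; law μ n d] := by
  classical
  set F := MvPolynomial.bind₁ lin f with hF
  have hFdeg : F.totalDegree ≤ D := (totalDegree_bind₁_le lin totalDegree_lin f).trans hf
  have hlaw : law μ n d = (Measure.pi fun _ : Fin n => μ).prod (stdG (Coord n d)) := rfl
  -- expectations under the null model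
  have hnull : ∀ ω : (Fin n → G) × (Coord n d → ℝ),
      MvPolynomial.eval (data ρ 0 ω) f = MvPolynomial.eval ω.2 F := by
    intro ω
    rw [eval_data, shift_zero, zero_add]
  have hint0 : Integrable (fun z : Coord n d → ℝ => MvPolynomial.eval z F)
      (stdG (Coord n d)) := by
    have h := integrable_eval_shift (P := (Measure.dirac () : Measure Unit))
      (X := fun _ _ => (0 : ℝ)) (fun _ => measurable_const) 0 (fun _ _ => by simp) F
    have h2 := h.integral_prod_right
    refine h2.congr ?_
    filter_upwards with z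
    simp only [integral_dirac]
    congr 1
    congr 1
    ext c
    simp
  set m := ∫ ω, MvPolynomial.eval (data ρ 0 ω) f ∂(law μ n d) with hm
  have hm2 : m = ∫ z, MvPolynomial.eval z F ∂(stdG (Coord n d)) := by
    rw [hm, hlaw]
    simp_rw [hnull]
    rw [integral_fun_snd (fun z => MvPolynomial.eval z F)]
    simp
  have hX : ∀ c : Coord n d, Measurable fun g : Fin n → G => shift ρ lam g c :=
    fun c => measurable_shift ρ hρ lam c
  have hB : ∀ (g : Fin n → G) (c : Coord n d), |shift ρ lam g c| ≤
      ∑ k, |lam * Real.sqrt (d k / n)| := fun g c => abs_shift_le ρ lam g c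
  have hFm : (F - MvPolynomial.C m).totalDegree ≤ D :=
    (MvPolynomial.totalDegree_sub _ _).trans (max_le hFdeg (by simp))
  have key := lowdeg_ineq (Measure.pi fun _ : Fin n => μ) (shift ρ lam) hX _ hB
    (F - MvPolynomial.C m) D hFm
  -- left-hand side
  have hL : (∫ ω, MvPolynomial.eval (data ρ lam ω) f ∂(law μ n d)) - m =
      ∫ g, ∫ z, MvPolynomial.eval (shift ρ lam g + z) (F - MvPolynomial.C m)
        ∂(stdG (Coord n d)) ∂(Measure.pi fun _ : Fin n => μ) := by
    have hi := integrable_eval_shift (Measure.pi fun _ : Fin n => μ) (shift ρ lam) hX _ hB F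
    have e1 : ∫ ω, MvPolynomial.eval (data ρ lam ω) f ∂(law μ n d) =
        ∫ ω : (Fin n → G) × (Coord n d → ℝ), MvPolynomial.eval (shift ρ lam ω.1 + ω.2) F
          ∂((Measure.pi fun _ : Fin n => μ).prod (stdG (Coord n d))) := by
      rw [hlaw]
      simp_rw [eval_data]
      rfl
    have hi' := integrable_eval_shift (Measure.pi fun _ : Fin n => μ) (shift ρ lam) hX _ hB
      (F - MvPolynomial.C m)
    rw [← integral_prod _ hi', e1]
    simp only [map_sub, MvPolynomial.eval_C]
    rw [integral_sub hi (integrable_const _)]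
    simp
  -- variance
  have hV : Var[fun ω => MvPolynomial.eval (data ρ 0 ω) f; law μ n d] =
      ∫ z, (MvPolynomial.eval z (F - MvPolynomial.C m)) ^ 2 ∂(stdG (Coord n d)) := by
    have hmeas : AEMeasurable (fun ω : (Fin n → G) × (Coord n d → ℝ) =>
        MvPolynomial.eval (data ρ 0 ω) f) (law μ n d) := by
      simp_rw [hnull]
      have h2 : AEMeasurable (fun z : Coord n d → ℝ => MvPolynomial.eval z F)
        (stdG (Coord n d)) := hint0.aestronglyMeasurable.aemeasurable
      rw [hlaw]
      exact h2.comp_snd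
    rw [variance_eq_integral hmeas, ← hm, hlaw]
    simp_rw [hnull]
    rw [integral_fun_snd (fun z => (MvPolynomial.eval z F - m) ^ 2)]
    simp
  rw [hL, hV]
  refine key.trans (le_of_eq ?_)
  simp_rw [overlap_bound μ ρ lam]

end H69.XT
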