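import Pool.Agent.H69.XT.PairI
import Pool.Agent.H69.XT.ClassP

/-!
# Module LowP: from the inequality to the model

Copies of `lower_bound` and `lower_test` in `Pool/Agent/H69/DT/AMain.lean` with `block_ineq` replaced by `pair_ineq` and the
hypothesis `hC`; the local functions are `F' S z := F S (symm z)` (`symm` mixes the coordinates of `(i, j)` and `(j, i)`, which
have the same unordered pair: `Sym2.eq_swap`). The variance is `∫ f^2 - (∫ f)^2 ≥ 0`.
-/

set_option autoImplicit false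

open MeasureTheory ProbabilityTheory
open scoped BigOperators

namespace H69.XT

open Pool.Agent.Results.MP_634cec_lc.LinearDegree
open Pool.Agent.H47.LV
open Pool.Agent.H70.SS (gam symm data_symm measurable_symm null_eq final_ineq integrable_of_test)

variable {G : Type} [Group G] [TopologicalSpace G] [IsTopologicalGroup G] [CompactSpace G]
  [MeasurableSpace G] [BorelSpace G] {μ : Measure G} [μ.IsHaarMeasure] [IsProbabilityMeasure μ]
  {L n : ℕ} {d : Fin L → ℕ} {ρ : ∀ k : Fin L, G →* Matrix.unitaryGroup (Fin (d k)) ℂ}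

theorem pair_bound {lam C : ℝ} (hρ : Admissible ρ) {D : ℕ}
    (hC : ∑ V ∈ (Finset.univ : Finset (Finset (Sym2 (Fin n)))).filter
          (fun V => V ≠ ∅ ∧ V.card ≤ D),
        mob (fun S => ∫ h : Fin n → G, Real.exp (∑ a ∈ S, xs ρ lam h a)
          ∂(Measure.pi fun _ : Fin n => μ)) V ≤ C)
    {f : (Coord n d → ℝ) → ℝ} (hf : SumOnPairs μ ρ D f) :
    Integrable (fun ω => f (data ρ lam ω)) (law μ n d) ∧
      ((∫ ω, f (data ρ lam ω) ∂(law μ n d)) - ∫ ω, f (data ρ 0 ω) ∂(law μ n d)) ^ 2 ≤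
        C * Var[fun ω => f (data ρ 0 ω); law μ n d] := by
  classical
  have : IsProbabilityMeasure (law μ n d) := by
    unfold law
    infer_instance
  have hfm := hf.measurable
  have hf2 := hf.memLp
  have hfz : Measurable fun z : Coord n d → ℝ => f (symm z) := hfm.comp measurable_symm
  have hf2z := (H69.DT.memLp_null_iff μ ρ hfm).1 hf2
  have hsm : Measurable fun g : Fin n → G => shift ρ lam g :=
    measurable_pi_lambda _ fun c => measurable_shift ρ hρ.1 lam c
  have hint := integrable_shift (P := Measure.pi fun _ : Fin n => μ) hsm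
    (fun g c => abs_shift_le ρ lam g c) hfz hf2z
  have hint2 : Integrable (fun ω => f (data ρ lam ω)) (law μ n d) := by
    simp_rw [data_symm]
    exact hint
  refine ⟨hint2, ?_⟩
  obtain ⟨F, hF, hsum⟩ := hf
  set F' : Finset (Sym2 (Fin n)) → (Coord n d → ℝ) → ℝ := fun S z => F S (symm z) with hF'
  have hFsum : ∀ z, ∑ S with S.card ≤ D, F' S z = f (symm z) := fun z => (hsum _).symm
  have hF'm : ∀ S, Measurable (F' S) := fun S => (hF S).1.comp measurable_symm
  have hF'loc : ∀ S z z', (∀ c : Coord n d, s(c.2.1.1, c.2.2.1.1) ∈ S → z c = z' c) →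
      F' S z = F' S z' := by
    intro S z z' h
    refine (hF S).2.1 _ _ fun c h3 => ?_
    have h4 : s(c.2.2.1.1, c.2.1.1) ∈ S := by
      rw [Sym2.eq_swap]
      exact h3
    simp only [Pool.Agent.H70.SS.symm]
    rw [h ⟨c.1, c.2.1, c.2.2.1, true⟩ h3, h ⟨c.1, c.2.2.1, c.2.1, true⟩ h4,
      h ⟨c.1, c.2.1, c.2.2.1, false⟩ h3, h ⟨c.1, c.2.2.1, c.2.1, false⟩ h4]
  have hF'2 : ∀ S, MemLp (F' S) 2 (gam (Coord n d)) := fun S =>
    (H69.DT.memLp_null_iff μ ρ (hF S).1).1 (hF S).2.2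
  have h2 := pair_ineq μ ρ hρ.1 lam D F' hF'm hF'loc hF'2
  simp_rw [hFsum] at h2
  have e1 : ∫ ω, f (data ρ lam ω) ∂(law μ n d) = ∫ g, ∫ z, f (symm (shift ρ lam g + z))
      ∂(gam (Coord n d)) ∂(Measure.pi fun _ : Fin n => μ) := by
    simp_rw [data_symm]
    exact integral_prod _ hint
  have e2 := null_eq μ ρ f (n := n)
  have e3 : ∫ ω, f (data ρ 0 ω) ^ 2 ∂(law μ n d) =
      ∫ z, f (symm z) ^ 2 ∂(gam (Coord n d)) := null_eq μ ρ (fun y => f y ^ 2) (n := n)
  have hv : 0 ≤ Var[fun ω => f (data ρ 0 ω); law μ n d] := variance_nonneg _ _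
  refine le_trans ?_ (mul_le_mul_of_nonneg_right hC hv)
  rw [e1, variance_eq_sub hf2]
  simp only [Pi.pow_apply]
  rw [e3, e2]
  refine h2.trans_eq ?_
  exact mul_comm _ _

theorem pair_test {lam C : ℝ} (hρ : Admissible ρ) {D : ℕ} (hC1 : 1 ≤ C)
    (hC : ∑ V ∈ (Finset.univ : Finset (Finset (Sym2 (Fin n)))).filter
          (fun V => V ≠ ∅ ∧ V.card ≤ D),
        mob (fun S => ∫ h : Fin n → G, Real.exp (∑ a ∈ S, xs ρ lam h a)
          ∂(Measure.pi fun _ : Fin n => μ)) V ≤ C)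
    {φ : (Coord n d → ℝ) → ℝ} (hφ : SumOnPairs μ ρ D φ) (hφ0 : ∀ y, 0 ≤ φ y)
    (hφ1 : ∀ y, φ y ≤ 1) :
    1 / (4 * C) ≤
      (∫ ω, φ (data ρ 0 ω) ∂(law μ n d)) + (1 - ∫ ω, φ (data ρ lam ω) ∂(law μ n d)) := by
  classical
  have : IsProbabilityMeasure (law μ n d) := by
    unfold law
    infer_instance
  have hC0 : 0 < C := by linarith
  have hC4 : 1 / (4 * C) ≤ 1 / 4 := by
    refine one_div_le_one_div_of_le (by norm_num) ?_
    linarith
  obtain ⟨-, h2⟩ := pair_bound hρ hC hφ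
  have hφm := hφ.measurable
  have hd : ∀ l, Measurable fun ω : (Fin n → G) × (Coord n d → ℝ) => data ρ l ω := by
    intro l
    simp_rw [data_symm]
    refine measurable_symm.comp (Measurable.add ?_ measurable_snd)
    exact (measurable_pi_lambda _ fun c => measurable_shift ρ hρ.1 l c).comp measurable_fst
  have hi : ∀ l, Integrable (fun ω => φ (data ρ l ω)) (law μ n d) := fun l =>
    integrable_of_test _ _ (hφm.comp (hd l)) (fun _ => hφ0 _) fun _ => hφ1 _
  set P0 := ∫ ω, φ (data ρ 0 ω) ∂(law μ n d) with hP0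
  set P1 := ∫ ω, φ (data ρ lam ω) ∂(law μ n d) with hP1
  have hP0nn : 0 ≤ P0 := integral_nonneg fun _ => hφ0 _
  have hP11 : P1 ≤ 1 := by
    calc P1 ≤ ∫ _ω, (1 : ℝ) ∂(law μ n d) :=
          integral_mono (hi lam) (integrable_const _) fun _ => hφ1 _
      _ = 1 := by simp
  have hvar : Var[fun ω => φ (data ρ 0 ω); law μ n d] ≤ P0 := by
    rw [variance_eq_sub hφ.memLp]
    have h3 : ∫ ω, ((fun ω => φ (data ρ 0 ω)) ^ 2) ω ∂(law μ n d) ≤ P0 := by
      refine integral_mono ?_ (hi 0) fun ω => ?_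
      · exact (memLp_two_iff_integrable_sq (hφm.comp (hd 0)).aestronglyMeasurable).1 hφ.memLp
      · show φ (data ρ 0 ω) ^ 2 ≤ φ (data ρ 0 ω)
        have := hφ0 (data ρ 0 ω)
        have := hφ1 (data ρ 0 ω)
        nlinarith
    have h4 : 0 ≤ (∫ ω, φ (data ρ 0 ω) ∂(law μ n d)) ^ 2 := sq_nonneg _
    linarith
  have h3 : (P1 - P0) ^ 2 ≤ P0 * C := by
    calc (P1 - P0) ^ 2 ≤ C * Var[fun ω => φ (data ρ 0 ω); law μ n d] := h2
      _ ≤ C * P0 := mul_le_mul_of_nonneg_left hvar hC0.le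
      _ = P0 * C := mul_comm _ _
  by_cases hb : P0 ≤ 1 / 4
  · refine (le_min le_rfl hC4).trans (final_ineq hP0nn hP11 hC0 hb ?_)
    have h4 : P1 - P0 ≤ Real.sqrt (P0 * C) := Real.le_sqrt_of_sq_le h3
    linarith
  · push Not at hb
    refine hC4.trans ?_
    linarith

end H69.XT
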