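import Pool.Agent.H69.DT.BMain

/-!
# Module PolyG: the averaged heat polynomial for general blocks

`ovlG`: `shift_inner` with `g = g'`: `vv ρ c 1` is `√(d k)` times the unit matrix, so `∑ c ‖n vv ρ c 1‖^2 = n^2 ∑ k (d k)^2`
(see `ovl_self` in `Pool/Agent/H69/DT/OvlB.lean`). `polyG`: the proof of `upper_core` in `Pool/Agent/H69/DT/BMain.lean`
with `one1 L` replaced by `d`, `v := lam ^ 2 * n * ∑ k, (d k)^2`, `ovl_mom` replaced by `overlap_bound μ ρ lam D`
(`Pool/Agent/H28/LinearDegreeModel.lean`) and `exp (c n)` by `E`.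
-/

set_option autoImplicit false

open MeasureTheory ProbabilityTheory
open scoped BigOperators ComplexConjugate

namespace H69.XT

open Pool.Agent.Results.MP_634cec_lc.LinearDegree
open Pool.Agent.H47.LV
open Pool.Agent.H70.SS (gam symm data_symm measurable_symm null_eq)
open H69.DT

private lemma vv_one {G : Type} [Group G] {L : ℕ} {d : Fin L → ℕ}
    (ρ : ∀ k : Fin L, G →* Matrix.unitaryGroup (Fin (d k)) ℂ) (c : VIdx d) :
    vv ρ c 1 = if c.2.1 = c.2.2 then ((Real.sqrt (d c.1) : ℝ) : ℂ) else 0 := by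
  unfold vv
  rw [map_one]
  show ((Real.sqrt (d c.1) : ℝ) : ℂ) * (1 : Matrix (Fin (d c.1)) (Fin (d c.1)) ℂ) c.2.1 c.2.2 = _
  rw [Matrix.one_apply]
  split_ifs <;> simp

theorem ovlG {G : Type} [Group G] {L n : ℕ} (hn : 1 ≤ n) {d : Fin L → ℕ}
    (ρ : ∀ k : Fin L, G →* Matrix.unitaryGroup (Fin (d k)) ℂ) (lam : ℝ) (g : Fin n → G) :
    ∑ c, shift ρ lam g c ^ 2 = lam ^ 2 * n * ∑ k, (d k : ℝ) ^ 2 := by
  have h := shift_inner ρ lam g g
  have h1 : ∑ c, shift ρ lam g c ^ 2 = ∑ c, shift ρ lam g c * shift ρ lam g c :=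
    Finset.sum_congr rfl fun c _ => sq _
  have hn' : (n : ℝ) ≠ 0 := by
    have : (0 : ℝ) < n := by exact_mod_cast hn
    exact this.ne'
  have h2 : ∀ c : VIdx d, ‖∑ i : Fin n, vv ρ c ((g i)⁻¹ * g i)‖ ^ 2 =
      if c.2.1 = c.2.2 then (n : ℝ) ^ 2 * d c.1 else 0 := by
    intro c
    simp only [inv_mul_cancel, vv_one, Finset.sum_const, Finset.card_univ, Fintype.card_fin,
      nsmul_eq_mul]
    split_ifs with hc
    · rw [norm_mul, Complex.norm_natCast, Complex.norm_real, mul_pow, Real.norm_eq_abs, sq_abs,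
        Real.sq_sqrt (Nat.cast_nonneg _)]
    · simp
  have h3 : ∑ c : VIdx d, (if c.2.1 = c.2.2 then (n : ℝ) ^ 2 * d c.1 else 0) =
      ∑ k, (n : ℝ) ^ 2 * (d k : ℝ) ^ 2 := by
    rw [Fintype.sum_sigma]
    refine Finset.sum_congr rfl fun k _ => ?_
    rw [Fintype.sum_prod_type]
    simp only [Finset.sum_ite_eq, Finset.mem_univ, if_true, Finset.sum_const, Finset.card_univ,
      Fintype.card_fin, nsmul_eq_mul]
    ring
  rw [h1, h]
  simp_rw [h2]
  rw [h3, ← Finset.mul_sum]
  field_simp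

theorem polyG {G : Type} [Group G] [TopologicalSpace G] [IsTopologicalGroup G] [CompactSpace G]
    [MeasurableSpace G] [BorelSpace G] (μ : Measure G) [μ.IsHaarMeasure] [IsProbabilityMeasure μ]
    {L n : ℕ} {d : Fin L → ℕ} {ρ : ∀ k : Fin L, G →* Matrix.unitaryGroup (Fin (d k)) ℂ}
    (hρ : Admissible ρ) {lam : ℝ} {D : ℕ} (hn : 1 ≤ n) (hD : 1 ≤ D) {E : ℝ} (hE : 0 < E)
    (hM : E * D.factorial ≤
      ∫ h : Fin n → G, (lam ^ 2 / n * ∑ c : VIdx d, ‖∑ i, vv ρ c (h i)‖ ^ 2) ^ D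
        ∂(Measure.pi fun _ : Fin n => μ)) :
    ∃ f : MvPolynomial (Coord n d) ℝ, f.totalDegree ≤ D ∧
      0 < Var[fun ω => MvPolynomial.eval (data ρ 0 ω) f; law μ n d] ∧
      E * Var[fun ω => MvPolynomial.eval (data ρ 0 ω) f; law μ n d] ≤
        ((∫ ω, MvPolynomial.eval (data ρ lam ω) f ∂(law μ n d)) -
          ∫ ω, MvPolynomial.eval (data ρ 0 ω) f ∂(law μ n d)) ^ 2 := by
  have : IsProbabilityMeasure (law μ n d) := by
    unfold law
    infer_instance
  set P := Measure.pi fun _ : Fin n => μ with hP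
  set v : ℝ := lam ^ 2 * n * ∑ k, (d k : ℝ) ^ 2 with hv
  set q := hq v D with hqdef
  have hsm : ∀ c : Coord n d, Measurable fun g : Fin n → G =>
      shift ρ lam g c := fun c => measurable_shift ρ hρ.1 lam c
  have hsb : ∀ (g : Fin n → G) (c : Coord n d), |shift ρ lam g c| ≤
      ∑ k, |lam * Real.sqrt ((d k : ℕ) / n)| := fun g c => abs_shift_le ρ lam g c
  have hself : ∀ g : Fin n → G, ∑ c, shift ρ lam g c ^ 2 = v := fun g =>
    ovlG hn ρ lam g
  set pol : MvPolynomial (Coord n d) ℝ := av P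
    (fun g c => Real.sqrt (n * (d c.1 : ℕ)) * shift ρ lam g c) q with hpol
  have hev : ∀ z : Coord n d → ℝ, MvPolynomial.eval (symm z) pol =
      ∫ g, q.eval (∑ c, shift ρ lam g c * z c) ∂P := fun z =>
    eval_pol μ hρ lam q z
  have hmem : MemLp (fun ω => MvPolynomial.eval (data ρ 0 ω) pol) 2
      (law μ n d) := memLp_poly pol
  have hpm : Measurable fun y : Coord n d → ℝ => MvPolynomial.eval y pol :=
    (MvPolynomial.continuous_eval _).measurable
  set MD : ℝ := ∫ h : Fin n → G, (lam ^ 2 / n * ∑ c : VIdx d, ‖∑ i, vv ρ c (h i)‖ ^ 2) ^ D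
    ∂P with hMD
  have hmom : ∫ g, ∫ g', (∑ c, shift ρ lam g c *
      shift ρ lam g' c) ^ D ∂P ∂P = MD := overlap_bound μ ρ lam D
  have e0 : ∫ ω, MvPolynomial.eval (data ρ 0 ω) pol ∂(law μ n d) = 0 := by
    rw [null_eq μ ρ (fun y => MvPolynomial.eval y pol) (n := n)]
    simp_rw [hev]
    have h1 := heat_first P hsm hsb hself D (0 : Coord n d → ℝ)
    simp only [Pi.zero_apply, zero_add, mul_zero, Finset.sum_const_zero] at h1
    rw [h1, zero_pow (by omega)]
    simp
  have e2 : ∫ ω, MvPolynomial.eval (data ρ 0 ω) pol ^ 2 ∂(law μ n d) =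
      D.factorial * MD := by
    rw [null_eq μ ρ (fun y => MvPolynomial.eval y pol ^ 2) (n := n)]
    simp_rw [hev]
    rw [heat_second P hsm hsb hself D, hmom]
  have e1 : ∫ ω, MvPolynomial.eval (data ρ lam ω) pol ∂(law μ n d) = MD := by
    have hfz : Measurable fun z : Coord n d → ℝ => MvPolynomial.eval (symm z) pol :=
      hpm.comp measurable_symm
    have hf2z := (memLp_null_iff μ ρ hpm).1 hmem
    have hint := integrable_shift (P := P) (measurable_pi_lambda _ hsm) hsb hfz hf2z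
    simp_rw [data_symm]
    have h1 : ∫ ω, MvPolynomial.eval (symm (shift ρ lam ω.1 + ω.2)) pol
        ∂(law μ n d) = ∫ g, ∫ z, MvPolynomial.eval (symm (shift ρ lam g + z)) pol
          ∂(gam (Coord n d)) ∂P := integral_prod _ hint
    rw [h1]
    have h2 : ∀ g : Fin n → G, ∫ z, MvPolynomial.eval (symm (shift ρ lam g + z)) pol
        ∂(gam (Coord n d)) = ∫ g', (∑ c, shift ρ lam g c *
          shift ρ lam g' c) ^ D ∂P := by
      intro g
      simp_rw [hev]
      have h3 := heat_first P hsm hsb hself D (shift ρ lam g)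
      simp only [Pi.add_apply]
      rw [h3]
      refine integral_congr_ae (ae_of_all _ fun g' => ?_)
      show (∑ c, _) ^ D = (∑ c, _) ^ D
      congr 1
      exact Finset.sum_congr rfl fun c _ => mul_comm _ _
    simp_rw [h2]
    exact hmom
  have hvar : Var[fun ω => MvPolynomial.eval (data ρ 0 ω) pol; law μ n d] =
      D.factorial * MD := by
    rw [variance_eq_sub hmem, e0]
    simp only [Pi.pow_apply]
    rw [e2]
    ring
  have hfac : (0 : ℝ) < D.factorial := by exact_mod_cast D.factorial_pos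
  have hMpos : 0 < MD := lt_of_lt_of_le (by positivity) hM
  refine ⟨pol, (totalDegree_av P _ q).trans (natDegree_hq v D), ?_, ?_⟩
  · rw [hvar]
    positivity
  · rw [hvar, e1, e0, sub_zero]
    calc E * (D.factorial * MD) = (E * D.factorial) * MD := by ring
      _ ≤ MD * MD := mul_le_mul_of_nonneg_right hM hMpos.le
      _ = MD ^ 2 := by ring

end H69.XT
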