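import Pool.Agent.H69.XT.SumU
import Pool.Agent.H69.XT.LowI
import Pool.Agent.H69.XT.LowG
import Pool.Agent.H69.XT.PolyG
import Pool.Agent.H69.XT.CharU
import Pool.Agent.H69.XT.AsyM

/-!
# The exact low-degree threshold at linear degree (MP_634cec): assembly
-/

set_option autoImplicit false

open MeasureTheory ProbabilityTheory
open scoped BigOperators ComplexConjugate

namespace H69.XT

open Pool.Agent.Results.MP_634cec_lc.LinearDegree

variable {G : Type} [Group G] [TopologicalSpace G] [IsTopologicalGroup G] [CompactSpace G]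
  [MeasurableSpace G] [BorelSpace G] (μ : Measure G) [μ.IsHaarMeasure] [IsProbabilityMeasure μ]
  {L : ℕ} {d : Fin L → ℕ} {ρ : ∀ k : Fin L, G →* Matrix.unitaryGroup (Fin (d k)) ℂ}

/-- the common part of the two bounds -/
theorem below_core (hρ : Admissible ρ) {lam Θ : ℝ} (hΘ : lam ^ 2 < Θ) : ∃ C : ℝ, ∀ n D : ℕ,
    (∀ (m : ℕ) (p : G → ℝ), 1 ≤ m → m ≤ D → 0 < n → Dens μ p → 0 < m2 μ ρ p →
      Θ * m2 μ ρ p ≤ (m / n : ℝ) * Real.exp (kl μ p / (m / n : ℝ) - 1)) →
    ∀ f : MvPolynomial (Coord n d) ℝ, f.totalDegree ≤ D →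
      ((∫ ω, MvPolynomial.eval (data ρ lam ω) f ∂(law μ n d)) -
          ∫ ω, MvPolynomial.eval (data ρ 0 ω) f ∂(law μ n d)) ^ 2 ≤
        C * Var[fun ω => MvPolynomial.eval (data ρ 0 ω) f; law μ n d] := by
  classical
  obtain ⟨C, hC0, hC⟩ := sumU (ι := VIdx d) hΘ
  refine ⟨C, fun n D H f hf => ?_⟩
  rcases Nat.eq_zero_or_pos n with hn | hn
  · subst hn
    have h : ∀ ω : (Fin 0 → G) × (Coord 0 d → ℝ),
        MvPolynomial.eval (data ρ lam ω) f = MvPolynomial.eval (data ρ 0 ω) f := by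
      intro ω
      have h1 : data ρ lam ω = data ρ 0 ω := by
        ext c
        exact c.2.1.1.elim0
      rw [h1]
    simp_rw [h]
    rw [sub_self]
    have := mul_nonneg hC0 (variance_nonneg
      (fun ω => MvPolynomial.eval (data ρ 0 ω) f) (law μ 0 d))
    simpa using this
  · refine (lowI μ ρ hρ.1 lam f hf).trans ?_
    refine mul_le_mul_of_nonneg_right ?_ (variance_nonneg _ _)
    refine hC G μ (vv ρ) _ (orth_vv μ hρ) n D hn fun m p hm1 hmD hp => ?_
    rw [← m2_eq]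
    have hnn : 0 ≤ m2 μ ρ p := by
      rw [m2_eq]
      exact Finset.sum_nonneg fun _ _ => by positivity
    rcases hnn.eq_or_lt with h | h
    · rw [← h, mul_zero]
      positivity
    · exact H m p hm1 hmD hn hp h

/-- below the threshold: polynomials of degree `c n` fail -/
theorem below (hρ : Admissible ρ) {lam c : ℝ} (hlam : lam ^ 2 < thr μ ρ c) : ∃ C : ℝ,
    ∀ (n : ℕ) (f : MvPolynomial (Coord n d) ℝ), (f.totalDegree : ℝ) ≤ c * n →
      ((∫ ω, MvPolynomial.eval (data ρ lam ω) f ∂(law μ n d)) -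
          ∫ ω, MvPolynomial.eval (data ρ 0 ω) f ∂(law μ n d)) ^ 2 ≤
        C * Var[fun ω => MvPolynomial.eval (data ρ 0 ω) f; law μ n d] := by
  obtain ⟨C, hC⟩ := below_core μ hρ hlam
  refine ⟨C, fun n f hf => hC n f.totalDegree (fun m p hm1 hmD hn hp hm => ?_) f le_rfl⟩
  have hnr : (0 : ℝ) < n := by exact_mod_cast hn
  have hmr : (0 : ℝ) < m := by exact_mod_cast hm1
  have hκ : (0 : ℝ) < m / n := by positivity
  have hκc : (m / n : ℝ) ≤ c := by
    rw [div_le_iff₀ hnr]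
    refine le_trans ?_ hf
    exact_mod_cast hmD
  have h := thr_le μ ρ hκ hκc hp hm
  rw [div_mul_eq_mul_div, le_div_iff₀ hm] at h
  exact h

/-- below the second moment threshold: polynomials of every degree fail -/
theorem below_all (hρ : Admissible ρ) {lam : ℝ} (hlam : lam ^ 2 < thrInf μ ρ) : ∃ C : ℝ,
    ∀ (n : ℕ) (f : MvPolynomial (Coord n d) ℝ),
      ((∫ ω, MvPolynomial.eval (data ρ lam ω) f ∂(law μ n d)) -
          ∫ ω, MvPolynomial.eval (data ρ 0 ω) f ∂(law μ n d)) ^ 2 ≤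
        C * Var[fun ω => MvPolynomial.eval (data ρ 0 ω) f; law μ n d] := by
  obtain ⟨C, hC⟩ := below_core μ hρ hlam
  refine ⟨C, fun n f => hC n f.totalDegree (fun m p hm1 hmD hn hp hm => ?_) f le_rfl⟩
  have hnr : (0 : ℝ) < n := by exact_mod_cast hn
  have hmr : (0 : ℝ) < m := by exact_mod_cast hm1
  exact key μ ρ (by positivity) hp

/-- above the threshold: some polynomial of degree `c n` has an exponential advantage -/
theorem above (hρ : Admissible ρ) (hK : ∃ k, 0 < d k) {lam c : ℝ} (h0 : 0 ≤ lam) (hc : 0 < c)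
    (hlam : thr μ ρ c < lam ^ 2) : ∃ δ : ℝ, 0 < δ ∧ ∃ N : ℕ, ∀ n ≥ N,
      ∃ f : MvPolynomial (Coord n d) ℝ, (f.totalDegree : ℝ) ≤ c * n ∧
        0 < Var[fun ω => MvPolynomial.eval (data ρ 0 ω) f; law μ n d] ∧
        Real.exp (δ * n) * Var[fun ω => MvPolynomial.eval (data ρ 0 ω) f; law μ n d] ≤
          ((∫ ω, MvPolynomial.eval (data ρ lam ω) f ∂(law μ n d)) -
            ∫ ω, MvPolynomial.eval (data ρ 0 ω) f ∂(law μ n d)) ^ 2 := by
  have hlam0 : 0 < lam := by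
    rcases h0.lt_or_eq with h | h
    · exact h
    · rw [← h] at hlam
      have := thr_nonneg μ ρ c
      nlinarith
  obtain ⟨κ, p, hκ, hκc, hp, hm, hlt⟩ := exists_lt μ hρ hK hc hlam
  have ho := orth_vv μ hρ
  rw [m2_eq] at hm hlt
  obtain ⟨δ, hδ, N, hN⟩ := lowG hlam0 μ ho.meas ho.bdd hp hκ hm hlt
  refine ⟨δ, hδ, max N 1, fun n hn => ?_⟩
  obtain ⟨D, hD1, hDn, hM⟩ := hN n ((le_max_left _ _).trans hn)
  obtain ⟨f, hf1, hf2, hf3⟩ := polyG μ hρ (lam := lam) ((le_max_right _ _).trans hn) hD1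
    (Real.exp_pos (δ * n)) hM
  refine ⟨f, ?_, hf2, hf3⟩
  have h1 : (f.totalDegree : ℝ) ≤ D := by exact_mod_cast hf1
  exact h1.trans (hDn.trans (mul_le_mul_of_nonneg_right hκc (Nat.cast_nonneg n)))

end H69.XT
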