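import Pool.Agent.H69.XT.Lim

/-!
# The exponent of the advantage above the threshold (MP_634cec): definition and elementary properties

`trunc c a` is the exponential rate of `∑ m ≤ c n, (a n)^m / m!`; `rate μ ρ lam c` is the supremum of
`trunc c (lam^2 * m2 p) - kl p` over the densities `p`.
-/

set_option autoImplicit false

open MeasureTheory ProbabilityTheory
open scoped BigOperators ComplexConjugate

namespace H69.XT

open Pool.Agent.Results.MP_634cec_lc.LinearDegree

/-- the exponential rate of `∑ m ≤ c n, (a n)^m / m!` -/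
noncomputable def trunc (c a : ℝ) : ℝ := if a ≤ c then a else c + c * Real.log (a / c)

/-- the exponent of the square of the best advantage of degree `c n` -/
noncomputable def rate {G : Type} [Group G] [MeasurableSpace G] (μ : Measure G) {L : ℕ}
    {d : Fin L → ℕ} (ρ : ∀ k : Fin L, G →* Matrix.unitaryGroup (Fin (d k)) ℂ) (lam c : ℝ) : ℝ :=
  sSup {x | ∃ p : G → ℝ, Dens μ p ∧ x = trunc c (lam ^ 2 * m2 μ ρ p) - kl μ p}

/-- `x - y ≤ x log (x / y)` -/
private theorem sub_le_mul_log {x y : ℝ} (hx : 0 < x) (hy : 0 < y) :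
    x - y ≤ x * Real.log (x / y) := by
  have h1 := Real.log_le_sub_one_of_pos (show 0 < y / x by positivity)
  have h2 : Real.log (x / y) = -Real.log (y / x) := by
    rw [← Real.log_inv, inv_div]
  rw [h2]
  have h3 := mul_le_mul_of_nonneg_left h1 hx.le
  have h4 : x * (y / x - 1) = y - x := by
    field_simp
  rw [h4] at h3
  linarith

theorem trunc_ge {c a κ : ℝ} (hκ : 0 < κ) (hκc : κ ≤ c) (ha : 0 < a) :
    κ * (1 + Real.log (a / κ)) ≤ trunc c a := by
  have hc : 0 < c := lt_of_lt_of_le hκ hκc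
  unfold trunc
  split_ifs with h
  · have h1 := Real.log_le_sub_one_of_pos (show 0 < a / κ by positivity)
    have h2 := mul_le_mul_of_nonneg_left h1 hκ.le
    have h4 : κ * (a / κ - 1) = a - κ := by
      field_simp
    rw [h4] at h2
    linarith
  · push Not at h
    have h1 := sub_le_mul_log hκ hc
    have h2 : Real.log (a / κ) = Real.log (a / c) - Real.log (κ / c) := by
      rw [Real.log_div ha.ne' hκ.ne', Real.log_div ha.ne' hc.ne', Real.log_div hκ.ne' hc.ne']
      ring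
    have h3 : 0 ≤ Real.log (a / c) := Real.log_nonneg (by rw [le_div_iff₀ hc]; linarith)
    rw [h2]
    have h4 := mul_le_mul_of_nonneg_right hκc h3
    nlinarith

theorem trunc_eq {c a : ℝ} (hc : 0 < c) (ha : 0 < a) :
    ∃ κ : ℝ, 0 < κ ∧ κ ≤ c ∧ trunc c a = κ * (1 + Real.log (a / κ)) := by
  unfold trunc
  split_ifs with h
  · exact ⟨a, ha, h, by rw [div_self ha.ne', Real.log_one]; ring⟩
  · exact ⟨c, hc, le_rfl, by ring⟩

theorem trunc_le {c a : ℝ} (hc : 0 < c) (ha : 0 ≤ a) : trunc c a ≤ a := by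
  unfold trunc
  split_ifs with h
  · exact le_rfl
  · push Not at h
    have ha' : 0 < a := lt_trans hc h
    have h1 := Real.log_le_sub_one_of_pos (show 0 < a / c by positivity)
    have h2 := mul_le_mul_of_nonneg_left h1 hc.le
    have h4 : c * (a / c - 1) = a - c := by
      field_simp
    rw [h4] at h2
    linarith

theorem trunc_add {c c' a b : ℝ} (hc : 0 < c) (hcc : c ≤ c') (ha : 0 ≤ a) (hab : a ≤ b) :
    trunc c' a ≤ trunc c a + (c' - c) * max 0 (Real.log (b / c)) := by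
  have hm : 0 ≤ (c' - c) * max 0 (Real.log (b / c)) :=
    mul_nonneg (by linarith) (le_max_left _ _)
  have hc' : 0 < c' := lt_of_lt_of_le hc hcc
  unfold trunc
  by_cases h : a ≤ c
  · rw [if_pos h, if_pos (h.trans hcc)]
    linarith
  · rw [if_neg h]
    push Not at h
    have ha' : 0 < a := lt_trans hc h
    have h3 : 0 ≤ Real.log (a / c) := Real.log_nonneg (by rw [le_div_iff₀ hc]; linarith)
    have h4 : Real.log (a / c) ≤ max 0 (Real.log (b / c)) := by
      refine le_trans (Real.log_le_log (by positivity) ?_) (le_max_right _ _)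
      exact div_le_div_of_nonneg_right hab hc.le
    by_cases h' : a ≤ c'
    · rw [if_pos h']
      have h1 := sub_le_mul_log ha' hc
      have h5 : (a - c) * Real.log (a / c) ≤ (c' - c) * max 0 (Real.log (b / c)) :=
        mul_le_mul (by linarith) h4 h3 (by linarith)
      linarith
    · rw [if_neg h']
      push Not at h'
      have h1 := sub_le_mul_log hc' hc
      have h2 : Real.log (a / c') = Real.log (a / c) - Real.log (c' / c) := by
        rw [Real.log_div ha'.ne' hc'.ne', Real.log_div ha'.ne' hc.ne', Real.log_div hc'.ne' hc.ne']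
        ring
      have h5 : (c' - c) * Real.log (a / c) ≤ (c' - c) * max 0 (Real.log (b / c)) :=
        mul_le_mul_of_nonneg_left h4 (by linarith)
      rw [h2]
      linarith

section

variable {G : Type} [Group G] [TopologicalSpace G] [IsTopologicalGroup G] [CompactSpace G]
  [MeasurableSpace G] [BorelSpace G] (μ : Measure G) [μ.IsHaarMeasure] [IsProbabilityMeasure μ]
  {L : ℕ} {d : Fin L → ℕ} {ρ : ∀ k : Fin L, G →* Matrix.unitaryGroup (Fin (d k)) ℂ}

omit [TopologicalSpace G] [IsTopologicalGroup G] [CompactSpace G] [BorelSpace G]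
  [μ.IsHaarMeasure] [IsProbabilityMeasure μ] in
private theorem rt_m2_nonneg (p : G → ℝ) : 0 ≤ m2 μ ρ p :=
  Finset.sum_nonneg fun k _ => mul_nonneg (Nat.cast_nonneg _)
    (Finset.sum_nonneg fun a _ => Finset.sum_nonneg fun b _ => sq_nonneg _)

private theorem rt_bdd (hρ : Admissible ρ) (lam : ℝ) {c : ℝ} (hc : 0 < c) :
    BddAbove {x | ∃ p : G → ℝ, Dens μ p ∧ x = trunc c (lam ^ 2 * m2 μ ρ p) - kl μ p} := by
  refine ⟨lam ^ 2 * ∑ k, (d k : ℝ) ^ 2, ?_⟩
  rintro x ⟨p, hp, rfl⟩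
  have h1 := trunc_le hc (mul_nonneg (sq_nonneg lam) (rt_m2_nonneg μ (ρ := ρ) p))
  have h2 := mul_le_mul_of_nonneg_left (m2_le μ hρ hp) (sq_nonneg lam)
  have h3 := kl_nonneg μ hp
  linarith

omit [Group G] [TopologicalSpace G] [IsTopologicalGroup G] [CompactSpace G] [BorelSpace G]
  [μ.IsHaarMeasure] in
private theorem rt_one : Dens μ fun _ => 1 :=
  ⟨measurable_const, fun _ => one_pos, ⟨0, fun _ => by simp⟩, by simp⟩

theorem le_rate (hρ : Admissible ρ) (lam : ℝ) {c : ℝ} (hc : 0 < c) {p : G → ℝ} (hp : Dens μ p) :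
    trunc c (lam ^ 2 * m2 μ ρ p) - kl μ p ≤ rate μ ρ lam c :=
  le_csSup (rt_bdd μ hρ lam hc) ⟨p, hp, rfl⟩

theorem rate_le (hρ : Admissible ρ) (lam : ℝ) {c : ℝ} (hc : 0 < c) :
    rate μ ρ lam c ≤ lam ^ 2 * ∑ k, (d k : ℝ) ^ 2 := by
  refine csSup_le ⟨_, fun _ => 1, rt_one μ, rfl⟩ ?_
  rintro x ⟨p, hp, rfl⟩
  have h1 := trunc_le hc (mul_nonneg (sq_nonneg lam) (rt_m2_nonneg μ (ρ := ρ) p))
  have h2 := mul_le_mul_of_nonneg_left (m2_le μ hρ hp) (sq_nonneg lam)
  have h3 := kl_nonneg μ hp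
  linarith

theorem rate_nonneg (hρ : Admissible ρ) (lam : ℝ) {c : ℝ} (hc : 0 < c) :
    0 ≤ rate μ ρ lam c := by
  refine le_trans ?_ (le_rate μ hρ lam hc (rt_one μ))
  have h1 : kl μ (fun _ : G => (1 : ℝ)) = 0 := by
    unfold kl
    simp
  rw [h1, sub_zero]
  unfold trunc
  split_ifs with h
  · exact mul_nonneg (sq_nonneg lam) (rt_m2_nonneg μ _)
  · push Not at h
    have h3 : 0 ≤ Real.log (lam ^ 2 * m2 μ ρ (fun _ => 1) / c) :=
      Real.log_nonneg (by rw [le_div_iff₀ hc]; linarith)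
    positivity

theorem exists_rate (lam : ℝ) {c x : ℝ} (hx : x < rate μ ρ lam c) :
    ∃ p : G → ℝ, Dens μ p ∧ x < trunc c (lam ^ 2 * m2 μ ρ p) - kl μ p := by
  obtain ⟨y, ⟨p, hp, rfl⟩, hy⟩ := exists_lt_of_lt_csSup
    (⟨_, fun _ => 1, rt_one μ, rfl⟩ : Set.Nonempty
      {x | ∃ p : G → ℝ, Dens μ p ∧ x = trunc c (lam ^ 2 * m2 μ ρ p) - kl μ p}) hx
  exact ⟨p, hp, hy⟩

/-- right continuity in `c` -/
theorem rate_add (hρ : Admissible ρ) (lam : ℝ) {c c' : ℝ} (hc : 0 < c) (hcc : c ≤ c') :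
    rate μ ρ lam c' ≤ rate μ ρ lam c +
      (c' - c) * max 0 (Real.log ((lam ^ 2 * ∑ k, (d k : ℝ) ^ 2) / c)) := by
  refine csSup_le ⟨_, fun _ => 1, rt_one μ, rfl⟩ ?_
  rintro x ⟨p, hp, rfl⟩
  have h1 := trunc_add hc hcc (mul_nonneg (sq_nonneg lam) (rt_m2_nonneg μ (ρ := ρ) p))
    (mul_le_mul_of_nonneg_left (m2_le μ hρ hp) (sq_nonneg lam))
  have h2 := le_rate μ hρ lam hc hp
  linarith

/-- the exponent is positive exactly above the threshold -/
theorem rate_pos_iff (hρ : Admissible ρ) (hK : ∃ k, 0 < d k) {lam c : ℝ} (hc : 0 < c) :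
    0 < rate μ ρ lam c ↔ thr μ ρ c < lam ^ 2 := by
  constructor
  · intro h
    obtain ⟨p, hp, hx⟩ := exists_rate μ lam h
    have h3 := kl_nonneg μ hp
    have h4 := trunc_le hc (mul_nonneg (sq_nonneg lam) (rt_m2_nonneg μ (ρ := ρ) p))
    have ha : 0 < lam ^ 2 * m2 μ ρ p := by linarith
    have hm : 0 < m2 μ ρ p := by
      rcases (rt_m2_nonneg μ (ρ := ρ) p).eq_or_lt with h0 | h0
      · rw [← h0, mul_zero] at ha
        exact absurd ha (lt_irrefl _)
      · exact h0
    obtain ⟨κ, hκ, hκc, he⟩ := trunc_eq hc ha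
    rw [he] at hx
    refine (thr_le μ ρ hκ hκc hp hm).trans_lt ?_
    have h5 : kl μ p / κ - 1 < Real.log (lam ^ 2 * m2 μ ρ p / κ) := by
      rw [sub_lt_iff_lt_add, div_lt_iff₀ hκ]
      linarith
    have h6 : Real.exp (kl μ p / κ - 1) < lam ^ 2 * m2 μ ρ p / κ :=
      (Real.lt_log_iff_exp_lt (by positivity)).1 h5
    calc κ / m2 μ ρ p * Real.exp (kl μ p / κ - 1)
        < κ / m2 μ ρ p * (lam ^ 2 * m2 μ ρ p / κ) :=
          mul_lt_mul_of_pos_left h6 (by positivity)
      _ = lam ^ 2 := by field_simp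
  · intro h
    obtain ⟨κ, p, hκ, hκc, hp, hm, hx⟩ := exists_lt μ hρ hK hc h
    have hl : 0 < lam ^ 2 := by
      refine lt_of_le_of_lt ?_ hx
      positivity
    have ha : 0 < lam ^ 2 * m2 μ ρ p := mul_pos hl hm
    refine lt_of_lt_of_le ?_ (le_rate μ hρ lam hc hp)
    have h1 := trunc_ge hκ hκc ha
    have h6 : Real.exp (kl μ p / κ - 1) < lam ^ 2 * m2 μ ρ p / κ := by
      have h2 : Real.exp (kl μ p / κ - 1) =
          κ / m2 μ ρ p * Real.exp (kl μ p / κ - 1) * (m2 μ ρ p / κ) := by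
        field_simp
      rw [h2]
      calc κ / m2 μ ρ p * Real.exp (kl μ p / κ - 1) * (m2 μ ρ p / κ)
          < lam ^ 2 * (m2 μ ρ p / κ) := mul_lt_mul_of_pos_right hx (by positivity)
        _ = lam ^ 2 * m2 μ ρ p / κ := by ring
    have h5 := (Real.lt_log_iff_exp_lt (by positivity)).2 h6
    have h7 : kl μ p / κ < 1 + Real.log (lam ^ 2 * m2 μ ρ p / κ) := by linarith
    rw [div_lt_iff₀ hκ] at h7
    linarith

end

end H69.XT
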