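import Pool.Agent.H69.XT.MainP
import Pool.Agent.H69.XT.Rate

/-!
# The exponent of the advantage (MP_634cec): assembly
-/

set_option autoImplicit false

open MeasureTheory ProbabilityTheory
open scoped BigOperators ComplexConjugate

namespace H69.XT

open Pool.Agent.Results.MP_634cec_lc.LinearDegree
open Pool.Agent.H47.LV

variable {G : Type} [Group G] [TopologicalSpace G] [IsTopologicalGroup G] [CompactSpace G]
  [MeasurableSpace G] [BorelSpace G] (μ : Measure G) [μ.IsHaarMeasure] [IsProbabilityMeasure μ]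
  {L : ℕ} {d : Fin L → ℕ} {ρ : ∀ k : Fin L, G →* Matrix.unitaryGroup (Fin (d k)) ℂ}

/-- above the threshold: polynomials of degree `c n` reach the exponent -/
theorem above_rate (hρ : Admissible ρ) (hK : ∃ k, 0 < d k) {lam c ε : ℝ} (h0 : 0 ≤ lam)
    (hc : 0 < c) (hlam : thr μ ρ c < lam ^ 2) (hε : 0 < ε) : ∃ N : ℕ, ∀ n ≥ N,
      ∃ f : MvPolynomial (Coord n d) ℝ, (f.totalDegree : ℝ) ≤ c * n ∧
        0 < Var[fun ω => MvPolynomial.eval (data ρ 0 ω) f; law μ n d] ∧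
        Real.exp ((rate μ ρ lam c - ε) * n) *
            Var[fun ω => MvPolynomial.eval (data ρ 0 ω) f; law μ n d] ≤
          ((∫ ω, MvPolynomial.eval (data ρ lam ω) f ∂(law μ n d)) -
            ∫ ω, MvPolynomial.eval (data ρ 0 ω) f ∂(law μ n d)) ^ 2 := by
  have hR := (rate_pos_iff μ hρ hK (lam := lam) hc).2 hlam
  obtain ⟨p, hp, hx⟩ := exists_rate μ (ρ := ρ) lam (c := c)
    (x := max (rate μ ρ lam c - ε) 0) (max_lt (by linarith) hR)
  have ho := orth_vv μ hρ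
  have hkl := kl_nonneg μ hp
  have hm0 : 0 ≤ m2 μ ρ p := by
    rw [m2_eq]
    exact Finset.sum_nonneg fun _ _ => by positivity
  have h1 : 0 ≤ max (rate μ ρ lam c - ε) 0 := le_max_right _ _
  have h2 : rate μ ρ lam c - ε ≤ max (rate μ ρ lam c - ε) 0 := le_max_left _ _
  have h3 := trunc_le hc (mul_nonneg (sq_nonneg lam) hm0)
  have ha : 0 < lam ^ 2 * m2 μ ρ p := by linarith
  have hm : 0 < m2 μ ρ p := by
    rcases hm0.eq_or_lt with h | h
    · rw [← h, mul_zero] at ha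
      exact absurd ha (lt_irrefl _)
    · exact h
  have hlam0 : 0 < lam := by
    rcases h0.lt_or_eq with h | h
    · exact h
    · rw [← h] at ha
      norm_num at ha
  obtain ⟨κ, hκ, hκc, he⟩ := trunc_eq hc ha
  rw [he] at hx
  rw [m2_eq] at hm hx
  obtain ⟨N, hN⟩ := lowE hlam0 μ ho.meas ho.bdd hp hκ hm (δ := rate μ ρ lam c - ε) (by linarith)
  refine ⟨max N 1, fun n hn => ?_⟩
  obtain ⟨D, hD1, hDn, hM⟩ := hN n ((le_max_left _ _).trans hn)
  obtain ⟨f, hf1, hf2, hf3⟩ := polyG μ hρ (lam := lam) ((le_max_right _ _).trans hn) hD1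
    (Real.exp_pos ((rate μ ρ lam c - ε) * n)) hM
  refine ⟨f, ?_, hf2, hf3⟩
  have h4 : (f.totalDegree : ℝ) ≤ D := by exact_mod_cast hf1
  exact h4.trans (hDn.trans (mul_le_mul_of_nonneg_right hκc (Nat.cast_nonneg n)))

private theorem mainE_hyp (hρ : Admissible ρ) (lam : ℝ) (hlam : 0 < lam) {c : ℝ} (κ : ℝ)
    (p : G → ℝ) (hκ : 0 < κ) (hκc : κ ≤ c) (hp : Dens μ p) (hm : 0 < nn μ (vv ρ) p) :
    κ * (1 + Real.log (lam ^ 2 * nn μ (vv ρ) p / κ)) - kl μ p ≤ rate μ ρ lam c := by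
  rw [← m2_eq] at hm ⊢
  have h1 := trunc_ge hκ hκc (show 0 < lam ^ 2 * m2 μ ρ p by positivity)
  have h2 := le_rate μ hρ lam (lt_of_lt_of_le hκ hκc) hp
  linarith

/-- functions of few entries, at the exponential scale -/
theorem pairs_rate (hρ : Admissible ρ) {lam c ε : ℝ} (hlam : 0 < lam) (hc : 0 < c)
    (hε : 0 < ε) : ∃ N : ℕ, ∀ n ≥ N, ∀ D : ℕ, (D : ℝ) ≤ c * n →
    ∑ V ∈ (Finset.univ : Finset (Finset (Sym2 (Fin n)))).filter
          (fun V => V ≠ ∅ ∧ V.card ≤ D),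
        mob (fun S => ∫ h : Fin n → G, Real.exp (∑ a ∈ S, xs ρ lam h a)
          ∂(Measure.pi fun _ : Fin n => μ)) V ≤ Real.exp ((rate μ ρ lam c + ε) * n) := by
  classical
  obtain ⟨B, hB⟩ : ∃ B, B = max 0 (Real.log ((lam ^ 2 * ∑ k, (d k : ℝ) ^ 2) / c)) := ⟨_, rfl⟩
  have hB0 : 0 ≤ B := by rw [hB]; exact le_max_left _ _
  obtain ⟨c', hc'⟩ : ∃ c', c' = c + ε / (3 * (B + 1)) := ⟨_, rfl⟩
  have hcc : c < c' := by
    rw [hc']
    have : 0 < ε / (3 * (B + 1)) := by positivity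
    linarith
  have hR0 := rate_nonneg μ hρ lam hc
  have hR0' := rate_nonneg μ hρ lam (hc.trans hcc)
  have hR' : rate μ ρ lam c' ≤ rate μ ρ lam c + ε / 3 := by
    refine (rate_add μ hρ lam hc hcc.le).trans (add_le_add le_rfl ?_)
    rw [← hB, hc', add_sub_cancel_left, div_mul_eq_mul_div,
      div_le_div_iff₀ (by positivity) (by norm_num)]
    nlinarith
  obtain ⟨N0, hN0⟩ := sumE (ι := VIdx d) (R := rate μ ρ lam c') (c := c') (ε := ε / 3) hlam
    (hc.trans hcc) (by positivity) hR0'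
  have hb0 := bx_nonneg lam d
  set b : ℝ := bx lam d with hb
  have hg : 0 < c' - c := by linarith
  set τ : ℝ := Real.exp (2 * b / (c' - c)) with hτ
  have hτ0 : 0 < τ := Real.exp_pos _
  have hτ1 : 1 ≤ τ := by
    rw [hτ]
    exact Real.one_le_exp (by positivity)
  refine ⟨max N0 (⌈τ * b⌉₊ + ⌈3 * τ / ε⌉₊ + 1), fun n hn D hD => ?_⟩
  have hn1 : N0 ≤ n := (le_max_left _ _).trans hn
  have hn2 : ⌈τ * b⌉₊ + ⌈3 * τ / ε⌉₊ + 1 ≤ n := (le_max_right _ _).trans hn
  have hn0 : 0 < n := by omega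
  have hnr : (0 : ℝ) < n := by exact_mod_cast hn0
  have hnb : τ * b ≤ n := (Nat.le_ceil _).trans (by
    have : (⌈τ * b⌉₊ : ℕ) ≤ n := by omega
    exact_mod_cast this)
  have hnτ : 3 * τ / ε ≤ n := (Nat.le_ceil _).trans (by
    have : (⌈3 * τ / ε⌉₊ : ℕ) ≤ n := by omega
    exact_mod_cast this)
  have hτβ : τ * (b / n) ≤ 1 := by
    rw [← mul_div_assoc, div_le_one hnr]
    exact hnb
  have hDD : D ≤ ⌊c' * n⌋₊ := by
    refine Nat.le_floor (hD.trans ?_)
    exact mul_le_mul_of_nonneg_right hcc.le hnr.le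
  set D' : ℕ := ⌊c' * (n : ℝ)⌋₊ with hD'
  have hc'n : 0 ≤ c' * n := mul_nonneg (by linarith) hnr.le
  have hD'le : (D' : ℝ) ≤ c' * n := Nat.floor_le hc'n
  have hD'lt : c' * n < (D' : ℝ) + 1 := Nat.lt_floor_add_one _
  have key := pser (Measure.pi fun _ : Fin n => μ) (X := fun a h => xs ρ lam h a)
    (fun a => measurable_xs hρ.1 lam a) (div_nonneg hb0 hnr.le) (fun a h => abs_xs_le ρ lam h a)
    (fun m V => gram μ ρ hρ.1 lam m V) hDD hτ1 hτβ
  refine key.trans ?_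
  have h1 : ∑ m ∈ Finset.range (D' + 1), (∫ h : Fin n → G, (∑ a, xs ρ lam h a) ^ m
      ∂(Measure.pi fun _ : Fin n => μ)) / (m.factorial : ℝ) ≤
        Real.exp ((rate μ ρ lam c' + ε / 3) * n) := by
    simp_rw [xs_sum]
    exact hN0 G μ (vv ρ) _ (orth_vv μ hρ)
      (fun κ p hκ hκc hp hm => mainE_hyp μ hρ lam hlam κ p hκ hκc hp hm) n hn1 D' hD'le
  have h2 : τ⁻¹ ^ (D' - D) * (1 + 2 * (b / n)) ^ Fintype.card (Sym2 (Fin n)) ≤ τ := by
    have h3 : (1 + 2 * (b / n)) ^ Fintype.card (Sym2 (Fin n)) ≤ Real.exp (2 * b * n) := by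
      calc (1 + 2 * (b / n)) ^ Fintype.card (Sym2 (Fin n))
          ≤ Real.exp (2 * (b / n)) ^ Fintype.card (Sym2 (Fin n)) := by
            refine pow_le_pow_left₀ (by positivity) ?_ _
            have := Real.add_one_le_exp (2 * (b / n))
            linarith
        _ = Real.exp (Fintype.card (Sym2 (Fin n)) * (2 * (b / n))) := by
            rw [← Real.exp_nat_mul]
        _ ≤ Real.exp ((n : ℝ) ^ 2 * (2 * (b / n))) := by
            refine Real.exp_le_exp.2 (mul_le_mul_of_nonneg_right (card_pairs n) (by positivity))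
        _ = Real.exp (2 * b * n) := by
            congr 1
            field_simp
    have h4 : τ⁻¹ ^ (D' - D) ≤ Real.exp (-(2 * b * n)) * τ := by
      rw [hτ, ← Real.exp_neg, ← Real.exp_nat_mul, ← Real.exp_add, Real.exp_le_exp,
        Nat.cast_sub hDD]
      have h5 : 2 * b * n = 2 * b / (c' - c) * ((c' - c) * n) := by
        field_simp
      rw [h5]
      have h6 : 0 ≤ 2 * b / (c' - c) := by positivity
      have h7 : (c' - c) * n ≤ ((D' : ℝ) - D) + 1 := by linarith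
      have h8 := mul_le_mul_of_nonneg_left h7 h6
      linarith
    calc τ⁻¹ ^ (D' - D) * (1 + 2 * (b / n)) ^ Fintype.card (Sym2 (Fin n))
        ≤ (Real.exp (-(2 * b * n)) * τ) * Real.exp (2 * b * n) :=
          mul_le_mul h4 h3 (by positivity) (by positivity)
      _ = τ := by
          rw [Real.exp_neg]
          field_simp
  have h5 : Real.exp ((rate μ ρ lam c' + ε / 3) * n) ≤
      Real.exp ((rate μ ρ lam c + 2 * ε / 3) * n) :=
    Real.exp_le_exp.2 (mul_le_mul_of_nonneg_right (by linarith) hnr.le)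
  have h6 : 1 ≤ Real.exp ((rate μ ρ lam c + 2 * ε / 3) * n) := Real.one_le_exp (by positivity)
  have h7 : 1 + τ ≤ Real.exp (ε / 3 * n) := by
    rw [div_le_iff₀ hε] at hnτ
    have h8 := Real.add_one_le_exp (ε / 3 * n)
    linarith
  calc _ ≤ Real.exp ((rate μ ρ lam c + 2 * ε / 3) * n) +
        τ * Real.exp ((rate μ ρ lam c + 2 * ε / 3) * n) :=
        add_le_add (h1.trans h5) (h2.trans (le_mul_of_one_le_right hτ0.le h6))
    _ = (1 + τ) * Real.exp ((rate μ ρ lam c + 2 * ε / 3) * n) := by ring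
    _ ≤ Real.exp (ε / 3 * n) * Real.exp ((rate μ ρ lam c + 2 * ε / 3) * n) :=
        mul_le_mul_of_nonneg_right h7 (Real.exp_pos _).le
    _ = Real.exp ((rate μ ρ lam c + ε) * n) := by
        rw [← Real.exp_add]
        congr 1
        ring

/-- from `lam^2 K` on the exponent does not depend on `c` -/
theorem rate_eq (hρ : Admissible ρ) (lam : ℝ) {c c' : ℝ}
    (h : lam ^ 2 * ∑ k, (d k : ℝ) ^ 2 ≤ c) (h' : lam ^ 2 * ∑ k, (d k : ℝ) ^ 2 ≤ c') :
    rate μ ρ lam c = rate μ ρ lam c' := by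
  unfold rate
  congr 1
  ext x
  refine exists_congr fun p => and_congr_right fun hp => ?_
  have h1 := mul_le_mul_of_nonneg_left (m2_le μ hρ hp) (sq_nonneg lam)
  rw [trunc, if_pos (h1.trans h), trunc, if_pos (h1.trans h')]

private theorem mainE_tail {b c1 : ℝ} (hb : 0 ≤ b) (hc1 : Real.exp 2 * b ≤ c1) {n m : ℕ}
    (hn : 0 < n) (hm : c1 * n < m) : (n * b) ^ m / (m.factorial : ℝ) ≤ Real.exp (-1) ^ m := by
  have hnr : (0 : ℝ) < n := by exact_mod_cast hn
  have hfac : (0 : ℝ) < m.factorial := by exact_mod_cast m.factorial_pos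
  have h1 := Real.pow_div_factorial_le_exp (x := (m : ℝ)) (Nat.cast_nonneg m) m
  have h2 : Real.exp 2 * (n * b) ≤ m := by
    have h3 := mul_le_mul_of_nonneg_right hc1 hnr.le
    linarith
  have h4 : (Real.exp 2 * (n * b)) ^ m / (m.factorial : ℝ) ≤ Real.exp m :=
    (div_le_div_of_nonneg_right (pow_le_pow_left₀ (by positivity) h2 m) hfac.le).trans h1
  have h5 : (n * b) ^ m / (m.factorial : ℝ) =
      Real.exp (-2) ^ m * ((Real.exp 2 * (n * b)) ^ m / (m.factorial : ℝ)) := by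
    rw [← mul_div_assoc, ← mul_pow, ← mul_assoc, ← Real.exp_add]
    norm_num
  rw [h5]
  calc Real.exp (-2) ^ m * ((Real.exp 2 * (n * b)) ^ m / (m.factorial : ℝ))
      ≤ Real.exp (-2) ^ m * Real.exp m := mul_le_mul_of_nonneg_left h4 (by positivity)
    _ = Real.exp (-1) ^ m := by
        rw [← Real.exp_nat_mul, ← Real.exp_nat_mul, ← Real.exp_add]
        congr 1
        ring

/-- all functions of the data, at the exponential scale -/
theorem all_rate (hρ : Admissible ρ) (hK : ∃ k, 0 < d k) {lam c ε : ℝ} (hlam : 0 < lam)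
    (hc : lam ^ 2 * ∑ k, (d k : ℝ) ^ 2 ≤ c) (hε : 0 < ε) : ∃ N : ℕ, ∀ n ≥ N, ∀ D : ℕ,
    ∑ V ∈ (Finset.univ : Finset (Finset (Sym2 (Fin n)))).filter
          (fun V => V ≠ ∅ ∧ V.card ≤ D),
        mob (fun S => ∫ h : Fin n → G, Real.exp (∑ a ∈ S, xs ρ lam h a)
          ∂(Measure.pi fun _ : Fin n => μ)) V ≤ Real.exp ((rate μ ρ lam c + ε) * n) := by
  classical
  have hb0 := bx_nonneg lam d
  set b : ℝ := bx lam d with hb
  have hK0 : 0 < ∑ k, (d k : ℝ) ^ 2 := by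
    obtain ⟨k, hk⟩ := hK
    exact lt_of_lt_of_le (by positivity : (0 : ℝ) < (d k : ℝ) ^ 2)
      (Finset.single_le_sum (f := fun k => (d k : ℝ) ^ 2) (fun k _ => by positivity)
        (Finset.mem_univ k))
  have hc0 : 0 < c := lt_of_lt_of_le (by positivity) hc
  obtain ⟨c1, hc1⟩ : ∃ c1, c1 = c + Real.exp 2 * b := ⟨_, rfl⟩
  have hc1c : c ≤ c1 := by
    rw [hc1]
    have : 0 ≤ Real.exp 2 * b := by positivity
    linarith
  have hc1b : Real.exp 2 * b ≤ c1 := by rw [hc1]; linarith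
  have hc10 : 0 < c1 := lt_of_lt_of_le hc0 hc1c
  rw [rate_eq μ hρ lam hc (hc.trans hc1c)]
  have hR0 := rate_nonneg μ hρ lam hc10
  obtain ⟨N0, hN0⟩ := sumE (ι := VIdx d) (R := rate μ ρ lam c1) (c := c1) (ε := ε / 2) hlam
    hc10 (by positivity) hR0
  refine ⟨max N0 (⌈6 / ε⌉₊ + 1), fun n hn D => ?_⟩
  have hn1 : N0 ≤ n := (le_max_left _ _).trans hn
  have hn2 : ⌈6 / ε⌉₊ + 1 ≤ n := (le_max_right _ _).trans hn
  have hn0 : 0 < n := by omega
  have hnr : (0 : ℝ) < n := by exact_mod_cast hn0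
  have hnε : 6 / ε ≤ n := (Nat.le_ceil _).trans (by
    have : (⌈6 / ε⌉₊ : ℕ) ≤ n := by omega
    exact_mod_cast this)
  have h1 : ∑ V ∈ (Finset.univ : Finset (Finset (Sym2 (Fin n)))).filter
          (fun V => V ≠ ∅ ∧ V.card ≤ D),
        mob (fun S => ∫ h : Fin n → G, Real.exp (∑ a ∈ S, xs ρ lam h a)
          ∂(Measure.pi fun _ : Fin n => μ)) V ≤
      ∑ V : Finset (Sym2 (Fin n)), mob (fun S => ∫ h : Fin n → G,
        Real.exp (∑ a ∈ S, xs ρ lam h a) ∂(Measure.pi fun _ : Fin n => μ)) V :=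
    Finset.sum_le_sum_of_subset_of_nonneg (Finset.filter_subset _ _) fun V _ _ =>
      pair_nonneg μ ρ hρ.1 lam V
  refine h1.trans ?_
  rw [← Finset.powerset_univ, sum_mob]
  have hZ0 : ∀ h : Fin n → G, 0 ≤ ∑ a, xs ρ lam h a := fun h => by
    rw [xs_sum]
    positivity
  have h2 : ∀ h : Fin n → G, ∑ a, xs ρ lam h a ≤ n * b := by
    intro h
    calc ∑ a, xs ρ lam h a ≤ ∑ _a : Sym2 (Fin n), b / n :=
          Finset.sum_le_sum fun a _ => (le_abs_self _).trans (abs_xs_le ρ lam h a)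
      _ = Fintype.card (Sym2 (Fin n)) * (b / n) := by simp
      _ ≤ (n : ℝ) ^ 2 * (b / n) :=
          mul_le_mul_of_nonneg_right (card_pairs n) (div_nonneg hb0 hnr.le)
      _ = n * b := by field_simp
  have hmZ : Measurable fun h : Fin n → G => ∑ a, xs ρ lam h a :=
    Finset.measurable_sum _ fun a _ => measurable_xs hρ.1 lam a
  refine exp_le_of_series (Measure.pi fun _ : Fin n => μ) hmZ hZ0 h2 fun D' => ?_
  -- the terms up to `c1 n` and the others
  have hterm : ∀ m : ℕ, 0 ≤ (∫ h : Fin n → G, (∑ a, xs ρ lam h a) ^ m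
      ∂(Measure.pi fun _ : Fin n => μ)) / (m.factorial : ℝ) := fun m =>
    div_nonneg (integral_nonneg fun h => pow_nonneg (hZ0 h) m) (Nat.cast_nonneg _)
  have htail : ∀ m : ℕ, c1 * n < m → (∫ h : Fin n → G, (∑ a, xs ρ lam h a) ^ m
      ∂(Measure.pi fun _ : Fin n => μ)) / (m.factorial : ℝ) ≤ Real.exp (-1) ^ m := by
    intro m hm
    refine le_trans (div_le_div_of_nonneg_right ?_ (Nat.cast_nonneg _))
      (mainE_tail hb0 hc1b hn0 hm)
    calc ∫ h : Fin n → G, (∑ a, xs ρ lam h a) ^ m ∂(Measure.pi fun _ : Fin n => μ)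
        ≤ ∫ _h : Fin n → G, (n * b) ^ m ∂(Measure.pi fun _ : Fin n => μ) := by
          refine integral_mono_of_nonneg (ae_of_all _ fun h => pow_nonneg (hZ0 h) m)
            (integrable_const _) (ae_of_all _ fun h => pow_le_pow_left₀ (hZ0 h) (h2 h) m)
      _ = (n * b) ^ m := by simp
  have hfl : ((⌊c1 * (n : ℝ)⌋₊ : ℕ) : ℝ) ≤ c1 * n := Nat.floor_le (by positivity)
  have hlow := hN0 G μ (vv ρ) _ (orth_vv μ hρ)
      (fun κ p hκ hκc hp hm => mainE_hyp μ hρ lam hlam κ p hκ hκc hp hm) n hn1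
      ⌊c1 * (n : ℝ)⌋₊ hfl
  have hlow' : ∑ m ∈ Finset.range (⌊c1 * (n : ℝ)⌋₊ + 1), (∫ h : Fin n → G,
      (∑ a, xs ρ lam h a) ^ m ∂(Measure.pi fun _ : Fin n => μ)) / (m.factorial : ℝ) ≤
        Real.exp ((rate μ ρ lam c1 + ε / 2) * n) := by
    simp_rw [xs_sum]
    exact hlow
  have hgeo : Real.exp (-1) ≤ 1 / 2 := by
    have h3 : (2 : ℝ) ≤ Real.exp 1 := by
      have := Real.add_one_le_exp (1 : ℝ)
      linarith
    rw [Real.exp_neg, one_div]
    exact inv_anti₀ (by norm_num) h3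
  have hsum : ∑ m ∈ Finset.range (D' + 1), (∫ h : Fin n → G, (∑ a, xs ρ lam h a) ^ m
      ∂(Measure.pi fun _ : Fin n => μ)) / (m.factorial : ℝ) ≤
      Real.exp ((rate μ ρ lam c1 + ε / 2) * n) + 2 := by
    have h3 : ∀ m ∈ Finset.range (D' + 1), (∫ h : Fin n → G, (∑ a, xs ρ lam h a) ^ m
        ∂(Measure.pi fun _ : Fin n => μ)) / (m.factorial : ℝ) ≤
        (if m ∈ Finset.range (⌊c1 * (n : ℝ)⌋₊ + 1) then (∫ h : Fin n → G,
          (∑ a, xs ρ lam h a) ^ m ∂(Measure.pi fun _ : Fin n => μ)) / (m.factorial : ℝ) else 0) +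
          (1 / 2 : ℝ) ^ m := by
      intro m _
      by_cases hm : m ∈ Finset.range (⌊c1 * (n : ℝ)⌋₊ + 1)
      · rw [if_pos hm]
        have : (0 : ℝ) ≤ (1 / 2) ^ m := by positivity
        linarith
      · rw [if_neg hm, zero_add]
        have hm' : ⌊c1 * (n : ℝ)⌋₊ < m := by
          rw [Finset.mem_range] at hm
          omega
        refine (htail m ((Nat.floor_lt (by positivity)).1 hm')).trans ?_
        exact pow_le_pow_left₀ (Real.exp_pos _).le hgeo m
    refine (Finset.sum_le_sum h3).trans ?_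
    rw [Finset.sum_add_distrib]
    refine add_le_add ?_ ?_
    · rw [← Finset.sum_filter]
      refine le_trans ?_ hlow'
      refine Finset.sum_le_sum_of_subset_of_nonneg (fun m hm => ?_) fun m _ _ => hterm m
      exact (Finset.mem_filter.1 hm).2
    · refine le_trans ((summable_geometric_of_lt_one (by norm_num : (0 : ℝ) ≤ 1 / 2)
        (by norm_num)).sum_le_tsum _ (fun _ _ => by positivity)) ?_
      rw [tsum_geometric_of_lt_one (by norm_num) (by norm_num)]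
      norm_num
  refine hsum.trans ?_
  have h6 : 1 ≤ Real.exp ((rate μ ρ lam c1 + ε / 2) * n) := Real.one_le_exp (by positivity)
  have h7 : (3 : ℝ) ≤ Real.exp (ε / 2 * n) := by
    rw [div_le_iff₀ hε] at hnε
    have h8 := Real.add_one_le_exp (ε / 2 * n)
    linarith
  calc Real.exp ((rate μ ρ lam c1 + ε / 2) * n) + 2
      ≤ 3 * Real.exp ((rate μ ρ lam c1 + ε / 2) * n) := by linarith
    _ ≤ Real.exp (ε / 2 * n) * Real.exp ((rate μ ρ lam c1 + ε / 2) * n) :=
        mul_le_mul_of_nonneg_right h7 (Real.exp_pos _).le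
    _ = Real.exp ((rate μ ρ lam c1 + ε) * n) := by
        rw [← Real.exp_add]
        congr 1
        ring

/-- the exponent is an upper bound for all sums of functions of `c n` entries -/
theorem rate_pairs (hρ : Admissible ρ) {lam c ε : ℝ} (hlam : 0 < lam) (hc : 0 < c)
    (hε : 0 < ε) : ∃ N : ℕ, ∀ n ≥ N, ∀ D : ℕ, (D : ℝ) ≤ c * n →
      ∀ f : (Coord n d → ℝ) → ℝ, SumOnPairs μ ρ D f →
      (Integrable (fun ω => f (data ρ lam ω)) (law μ n d) ∧
        ((∫ ω, f (data ρ lam ω) ∂(law μ n d)) - ∫ ω, f (data ρ 0 ω) ∂(law μ n d)) ^ 2 ≤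
          Real.exp ((rate μ ρ lam c + ε) * n) * Var[fun ω => f (data ρ 0 ω); law μ n d]) ∧
      ((∀ y, 0 ≤ f y) → (∀ y, f y ≤ 1) → 1 / (4 * Real.exp ((rate μ ρ lam c + ε) * n)) ≤
          (∫ ω, f (data ρ 0 ω) ∂(law μ n d)) + (1 - ∫ ω, f (data ρ lam ω) ∂(law μ n d))) := by
  obtain ⟨N, hN⟩ := pairs_rate μ hρ hlam hc hε
  refine ⟨N, fun n hn D hD f hf => ⟨pair_bound hρ (hN n hn D hD) hf, fun h0 h1 =>
    pair_test hρ (Real.one_le_exp ?_) (hN n hn D hD) hf h0 h1⟩⟩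
  have := rate_nonneg μ hρ lam hc
  positivity

/-- for `c ≥ lam^2 K` the exponent is an upper bound for all functions -/
theorem rate_all (hρ : Admissible ρ) (hK : ∃ k, 0 < d k) {lam c ε : ℝ} (hlam : 0 < lam)
    (hc : lam ^ 2 * ∑ k, (d k : ℝ) ^ 2 ≤ c) (hε : 0 < ε) : ∃ N : ℕ, ∀ n ≥ N,
      ∀ f : (Coord n d → ℝ) → ℝ, Measurable f →
      MemLp (fun ω => f (data ρ 0 ω)) 2 (law μ n d) →
      (Integrable (fun ω => f (data ρ lam ω)) (law μ n d) ∧
        ((∫ ω, f (data ρ lam ω) ∂(law μ n d)) - ∫ ω, f (data ρ 0 ω) ∂(law μ n d)) ^ 2 ≤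
          Real.exp ((rate μ ρ lam c + ε) * n) * Var[fun ω => f (data ρ 0 ω); law μ n d]) ∧
      ((∀ y, 0 ≤ f y) → (∀ y, f y ≤ 1) → 1 / (4 * Real.exp ((rate μ ρ lam c + ε) * n)) ≤
          (∫ ω, f (data ρ 0 ω) ∂(law μ n d)) + (1 - ∫ ω, f (data ρ lam ω) ∂(law μ n d))) := by
  classical
  have hK0 : 0 < ∑ k, (d k : ℝ) ^ 2 := by
    obtain ⟨k, hk⟩ := hK
    exact lt_of_lt_of_le (by positivity : (0 : ℝ) < (d k : ℝ) ^ 2)
      (Finset.single_le_sum (f := fun k => (d k : ℝ) ^ 2) (fun k _ => by positivity)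
        (Finset.mem_univ k))
  have hc0 : 0 < c := lt_of_lt_of_le (by positivity) hc
  obtain ⟨N, hN⟩ := all_rate μ hρ hK hlam hc hε
  refine ⟨N, fun n hn f hf hf2 => ?_⟩
  have hcl : SumOnPairs μ ρ (Fintype.card (Sym2 (Fin n))) f := by
    refine ⟨fun T => if T = Finset.univ then f else 0, fun T => ?_, fun y => ?_⟩
    · by_cases h : T = Finset.univ
      · simp only [h, if_true]
        exact ⟨hf, fun y y' h' => by
          rw [show y = y' from funext fun c => h' c (Finset.mem_univ _)], hf2⟩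
      · simp only [h, if_false]
        exact ⟨measurable_const, fun _ _ _ => rfl, MemLp.zero⟩
    · rw [Finset.sum_eq_single Finset.univ]
      · simp
      · intro T _ hT
        simp [hT]
      · intro h
        exact absurd (by simp) h
  have hR := rate_nonneg μ hρ lam hc0
  exact ⟨pair_bound hρ (hN n hn _) hcl, fun h0 h1 =>
    pair_test hρ (Real.one_le_exp (by positivity)) (hN n hn _) hcl h0 h1⟩

end H69.XT
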