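import Pool.Agent.H47.LV.Hilb

/-!
# Module PSerB: the Moebius transform of an exponential moment is a product moment

`mob (fun S => ∫ exp (t ∑ S X)) V = ∫ ∏ a ∈ V, (exp (t X a) - 1)` (`Finset.prod_add`/`Finset.prod_sub`-type expansion over
`V.powerset`, `exp_sum`, or induction on `V` with `mob_insert`, pointwise in `ω`; `integral_finsetSum`, all bounded) and
`|exp y - 1| ≤ 2 |y|` for `|y| ≤ 1` (`Real.abs_exp_sub_one_le`), so the absolute value is at most `∏ 2 t β`.
-/

set_option autoImplicit false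

open MeasureTheory ProbabilityTheory
open scoped BigOperators

namespace H69.XT

open Pool.Agent.H47.LV

private lemma mob_cmul {α : Type*} [DecidableEq α] (c : ℝ) (M : Finset α → ℝ) (V : Finset α) :
    mob (fun K => c * M K) V = c * mob M V := by
  unfold mob
  rw [Finset.mul_sum]
  refine Finset.sum_congr rfl fun K _ => ?_
  simp only [smul_eq_mul]
  ring

private lemma mob_exp {α : Type*} [DecidableEq α] (t : ℝ) (f : α → ℝ) (V : Finset α) :
    mob (fun S => Real.exp (t * ∑ a ∈ S, f a)) V = ∏ a ∈ V, (Real.exp (t * f a) - 1) := by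
  induction V using Finset.induction_on with
  | empty => simp [mob_empty]
  | insert i V hi ih =>
    rw [mob_insert _ hi, Finset.prod_insert hi, ← ih]
    have h : mob (fun K => Real.exp (t * ∑ a ∈ insert i K, f a)) V =
        mob (fun K => Real.exp (t * f i) * Real.exp (t * ∑ a ∈ K, f a)) V := by
      refine mob_congr fun K hK => ?_
      rw [Finset.sum_insert fun h => hi (hK h), mul_add, Real.exp_add]
    rw [h, mob_cmul]
    ring

theorem pserB {Ω : Type*} [MeasurableSpace Ω] (P : Measure Ω) [IsProbabilityMeasure P]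
    {α : Type*} [DecidableEq α] {X : α → Ω → ℝ} (hX : ∀ a, Measurable (X a)) {β : ℝ}
    (hβ : ∀ a ω, |X a ω| ≤ β) (V : Finset α) {t : ℝ} (ht : 0 ≤ t) (htβ : t * β ≤ 1) :
    mob (fun S => ∫ ω, Real.exp (t * ∑ a ∈ S, X a ω) ∂P) V ≤ (2 * (t * β)) ^ V.card := by
  have hint : ∀ S : Finset α, Integrable (fun ω => Real.exp (t * ∑ a ∈ S, X a ω)) P := by
    intro S
    refine Integrable.of_bound (C := Real.exp (t * ∑ _a ∈ S, β)) ?_ ?_
    · exact (Real.measurable_exp.comp
        ((Finset.measurable_sum S fun a _ => hX a).const_mul t)).aestronglyMeasurable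
    · refine Filter.Eventually.of_forall fun ω => ?_
      rw [Real.norm_eq_abs, Real.abs_exp]
      refine Real.exp_le_exp.2 (mul_le_mul_of_nonneg_left ?_ ht)
      exact Finset.sum_le_sum fun a _ => (le_abs_self _).trans (hβ a ω)
  have h1 : mob (fun S => ∫ ω, Real.exp (t * ∑ a ∈ S, X a ω) ∂P) V =
      ∫ ω, ∏ a ∈ V, (Real.exp (t * X a ω) - 1) ∂P := by
    have h2 : ∀ ω, ∏ a ∈ V, (Real.exp (t * X a ω) - 1) =
        ∑ K ∈ V.powerset, ((-1 : ℝ) ^ (V \ K).card) * Real.exp (t * ∑ a ∈ K, X a ω) := by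
      intro ω
      rw [← mob_exp t (fun a => X a ω) V]
      rfl
    simp only [h2]
    rw [integral_finsetSum _ fun K _ => (hint K).const_mul _]
    unfold mob
    refine Finset.sum_congr rfl fun K _ => ?_
    rw [integral_const_mul, smul_eq_mul]
  rw [h1]
  have h3 : ∀ ω, ‖∏ a ∈ V, (Real.exp (t * X a ω) - 1)‖ ≤ (2 * (t * β)) ^ V.card := by
    intro ω
    rw [norm_prod, ← Finset.prod_const]
    refine Finset.prod_le_prod (fun a _ => norm_nonneg _) fun a _ => ?_
    have h4 : |t * X a ω| ≤ t * β := by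
      rw [abs_mul, abs_of_nonneg ht]
      exact mul_le_mul_of_nonneg_left (hβ a ω) ht
    rw [Real.norm_eq_abs]
    exact (Real.abs_exp_sub_one_le (h4.trans htβ)).trans (by linarith)
  have h5 := norm_integral_le_of_norm_le_const (μ := P) (Filter.Eventually.of_forall h3)
  rw [probReal_univ, mul_one] at h5
  exact (le_abs_self _).trans h5

end H69.XT
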