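import Pool.Agent.H69.XT.PSerA
import Pool.Agent.H69.XT.PSerB

/-!
# Module PSer: few coordinates against low degree

`φ m V := mob (fun S => ∫ (∑ S X)^m) V / m! ≥ 0`. `pserA` with `t = 1`: `mob (∫ exp) V = ∑' m, φ m V`, split at `D'`:
`∑' = ∑ m ∈ range (D'+1) + ∑' m, φ (m + D' + 1) V` (`Summable.sum_add_tsum_nat_add`); the tail is
`≤ τ^(-(D'+1)) ∑' m, τ^m φ m V = τ^(-(D'+1)) mob (∫ exp (τ ..)) V ≤ τ^(-(D'+1)) (2 τ β)^|V| ≤ τ^(-(D'-D)) (2β)^|V|` for
`|V| ≤ D` (`pserA`, `pserB` with `t = τ`). Sum over `V ≠ ∅`, `|V| ≤ D`: the first part is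
`≤ ∑ m ∈ range (D'+1), ∑ V, φ m V` (`hpos`; all `V`) `= ∑ m, (∫ (∑ X)^m)/m!` (`sum_mob` with `U = univ`, `powerset_univ`);
the second `≤ τ^(-(D'-D)) ∑ V (2β)^|V| = .. (1 + 2β)^card α` (`Finset.sum_pow_mul_eq_add_pow` or `Finset.prod_one_add`).
`β ≥ 0` if `α` is nonempty (`P` is a probability measure, so `Ω` is nonempty); if `α` is empty the left side is `0`.
-/

set_option autoImplicit false

open MeasureTheory ProbabilityTheory
open scoped BigOperators

namespace H69.XT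

open Pool.Agent.H47.LV

private theorem pser_tail {a : ℕ → ℝ} (ha : ∀ m, 0 ≤ a m) {A B : ℝ} (hA : HasSum a A) {τ : ℝ}
    (hτ : 1 ≤ τ) (hB : HasSum (fun m => τ ^ m * a m) B) (K : ℕ) :
    A ≤ ∑ m ∈ Finset.range K, a m + τ⁻¹ ^ K * B := by
  have hτ0 : (0 : ℝ) < τ := by linarith
  have h1 : HasSum (fun m => if m ∈ Finset.range K then a m else 0)
      (∑ m ∈ Finset.range K, (if m ∈ Finset.range K then a m else 0)) :=
    hasSum_sum_of_ne_finset_zero fun m hm => by rw [if_neg hm]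
  have h2 : ∑ m ∈ Finset.range K, (if m ∈ Finset.range K then a m else 0)
      = ∑ m ∈ Finset.range K, a m :=
    Finset.sum_congr rfl fun m hm => by rw [if_pos hm]
  rw [h2] at h1
  have h3 := hA.sub h1
  have h4 := hB.mul_left (τ⁻¹ ^ K)
  have h5 : A - ∑ m ∈ Finset.range K, a m ≤ τ⁻¹ ^ K * B := by
    refine hasSum_le (fun m => ?_) h3 h4
    by_cases hm : m ∈ Finset.range K
    · simp only [if_pos hm, sub_self]
      have := ha m
      positivity
    · simp only [if_neg hm, sub_zero]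
      have hKm : K ≤ m := by simpa using hm
      have h6 : τ⁻¹ ^ K * τ ^ m = τ ^ (m - K) := by
        have : τ ^ m = τ ^ K * τ ^ (m - K) := by
          rw [← pow_add]
          congr 1
          omega
        rw [this, inv_pow]
        field_simp
      have h7 : (1 : ℝ) ≤ τ ^ (m - K) := one_le_pow₀ hτ
      calc a m = 1 * a m := (one_mul _).symm
        _ ≤ τ ^ (m - K) * a m := mul_le_mul_of_nonneg_right h7 (ha m)
        _ = τ⁻¹ ^ K * (τ ^ m * a m) := by rw [← h6]; ring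
  linarith

theorem pser {Ω : Type*} [MeasurableSpace Ω] (P : Measure Ω) [IsProbabilityMeasure P]
    {α : Type*} [Fintype α] [DecidableEq α] {X : α → Ω → ℝ} (hX : ∀ a, Measurable (X a)) {β : ℝ}
    (hβ0 : 0 ≤ β) (hβ : ∀ a ω, |X a ω| ≤ β)
    (hpos : ∀ (m : ℕ) (V : Finset α), 0 ≤ mob (fun S => ∫ ω, (∑ a ∈ S, X a ω) ^ m ∂P) V)
    {D D' : ℕ} (hD : D ≤ D') {τ : ℝ} (hτ : 1 ≤ τ) (hτβ : τ * β ≤ 1) :
    ∑ V ∈ (Finset.univ : Finset (Finset α)).filter (fun V => V ≠ ∅ ∧ V.card ≤ D),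
        mob (fun S => ∫ ω, Real.exp (∑ a ∈ S, X a ω) ∂P) V ≤
      (∑ m ∈ Finset.range (D' + 1), (∫ ω, (∑ a, X a ω) ^ m ∂P) / (m.factorial : ℝ)) +
        τ⁻¹ ^ (D' - D) * (1 + 2 * β) ^ Fintype.card α := by
  have hτ0 : (0 : ℝ) < τ := by linarith
  set φ : ℕ → Finset α → ℝ :=
    fun m V => mob (fun S => ∫ ω, (∑ a ∈ S, X a ω) ^ m ∂P) V / (m.factorial : ℝ) with hφ
  have hφ0 : ∀ m V, 0 ≤ φ m V := fun m V => div_nonneg (hpos m V) (Nat.cast_nonneg _)
  have hone : ∀ V : Finset α, V.card ≤ D →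
      mob (fun S => ∫ ω, Real.exp (∑ a ∈ S, X a ω) ∂P) V ≤
        ∑ m ∈ Finset.range (D' + 1), φ m V + τ⁻¹ ^ (D' - D) * (2 * β) ^ V.card := by
    intro V hV
    have hA := pserA P hX hβ V 1
    simp only [one_pow, one_mul] at hA
    have hB := pserA P hX hβ V τ
    have h1 := pser_tail (a := fun m => φ m V) (fun m => hφ0 m V) hA hτ hB (D' + 1)
    have h2 := pserB P hX hβ V (t := τ) hτ0.le hτβ
    refine h1.trans (add_le_add le_rfl ?_)
    have hi0 : (0 : ℝ) ≤ τ⁻¹ := by positivity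
    have hi1 : τ⁻¹ ≤ 1 := inv_le_one_of_one_le₀ hτ
    calc τ⁻¹ ^ (D' + 1) * mob (fun S => ∫ ω, Real.exp (τ * ∑ a ∈ S, X a ω) ∂P) V
        ≤ τ⁻¹ ^ (D' + 1) * (2 * (τ * β)) ^ V.card :=
          mul_le_mul_of_nonneg_left h2 (by positivity)
      _ = τ⁻¹ ^ (D' + 1 - V.card) * (2 * β) ^ V.card := by
          have h3 : D' + 1 = (D' + 1 - V.card) + V.card := by omega
          have h4 : τ⁻¹ ^ V.card * τ ^ V.card = 1 := by
            rw [← mul_pow, inv_mul_cancel₀ hτ0.ne', one_pow]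
          have h5 : (2 * (τ * β)) ^ V.card = τ ^ V.card * (2 * β) ^ V.card := by
            rw [← mul_pow]
            congr 1
            ring
          calc τ⁻¹ ^ (D' + 1) * (2 * (τ * β)) ^ V.card
              = τ⁻¹ ^ ((D' + 1 - V.card) + V.card) * (τ ^ V.card * (2 * β) ^ V.card) := by
                rw [← h3, h5]
            _ = τ⁻¹ ^ (D' + 1 - V.card) * (τ⁻¹ ^ V.card * τ ^ V.card) * (2 * β) ^ V.card := by
                rw [pow_add]
                ring
            _ = _ := by rw [h4, mul_one]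
      _ ≤ τ⁻¹ ^ (D' - D) * (2 * β) ^ V.card := by
          refine mul_le_mul_of_nonneg_right ?_ (by positivity)
          exact pow_le_pow_of_le_one hi0 hi1 (by omega)
  calc ∑ V ∈ (Finset.univ : Finset (Finset α)).filter (fun V => V ≠ ∅ ∧ V.card ≤ D),
        mob (fun S => ∫ ω, Real.exp (∑ a ∈ S, X a ω) ∂P) V
      ≤ ∑ V ∈ (Finset.univ : Finset (Finset α)).filter (fun V => V ≠ ∅ ∧ V.card ≤ D),
          (∑ m ∈ Finset.range (D' + 1), φ m V + τ⁻¹ ^ (D' - D) * (2 * β) ^ V.card) :=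
        Finset.sum_le_sum fun V hV => hone V (Finset.mem_filter.1 hV).2.2
    _ ≤ ∑ V : Finset α,
          (∑ m ∈ Finset.range (D' + 1), φ m V + τ⁻¹ ^ (D' - D) * (2 * β) ^ V.card) := by
        refine Finset.sum_le_sum_of_subset_of_nonneg (Finset.filter_subset _ _) ?_
        intro V _ _
        have h1 : 0 ≤ ∑ m ∈ Finset.range (D' + 1), φ m V :=
          Finset.sum_nonneg fun m _ => hφ0 m V
        positivity
    _ = (∑ m ∈ Finset.range (D' + 1), ∑ V : Finset α, φ m V) +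
          τ⁻¹ ^ (D' - D) * ∑ V : Finset α, (2 * β) ^ V.card := by
        rw [Finset.sum_add_distrib, Finset.mul_sum, Finset.sum_comm]
    _ = _ := by
        congr 1
        · refine Finset.sum_congr rfl fun m _ => ?_
          rw [← Finset.sum_div]
          congr 1
          have := sum_mob (Finset.univ : Finset α) (fun S => ∫ ω, (∑ a ∈ S, X a ω) ^ m ∂P)
          rwa [Finset.powerset_univ] at this
        · congr 1
          have := Finset.sum_pow_mul_eq_add_pow (2 * β) (1 : ℝ) (Finset.univ : Finset α)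
          rw [Finset.powerset_univ] at this
          simp only [one_pow, mul_one] at this
          rw [this, Finset.card_univ, add_comm]

end H69.XT
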