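import Pool.Agent.H69.XT.Main
import Pool.Agent.H69.XT.PSer
import Pool.Agent.H69.XT.GramP
import Pool.Agent.H69.XT.LowP
import Pool.Agent.H69.XT.Cont

/-!
# The exact low-degree threshold at linear degree (MP_634cec): functions of few entries
-/

set_option autoImplicit false

open MeasureTheory ProbabilityTheory
open scoped BigOperators ComplexConjugate

namespace H69.XT

open Pool.Agent.Results.MP_634cec_lc.LinearDegree
open Pool.Agent.H47.LV

variable {G : Type} [Group G] [TopologicalSpace G] [IsTopologicalGroup G] [CompactSpace G]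
  [MeasurableSpace G] [BorelSpace G] (μ : Measure G) [μ.IsHaarMeasure] [IsProbabilityMeasure μ]
  {L : ℕ} {d : Fin L → ℕ} {ρ : ∀ k : Fin L, G →* Matrix.unitaryGroup (Fin (d k)) ℂ}

theorem card_pairs (n : ℕ) : (Fintype.card (Sym2 (Fin n)) : ℝ) ≤ (n : ℝ) ^ 2 := by
  rw [Sym2.card, Fintype.card_fin]
  have h : (n + 1).choose 2 ≤ n ^ 2 := by
    rw [Nat.choose_two_right, Nat.add_sub_cancel]
    rcases Nat.eq_zero_or_pos n with h | h
    · subst h
      simp
    · refine Nat.div_le_of_le_mul ?_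
      nlinarith
  exact_mod_cast h

theorem bx_nonneg (lam : ℝ) (d : Fin L → ℕ) : 0 ≤ bx lam d := by
  unfold bx
  positivity

/-- the trivial bound -/
theorem pairs_trivial (hρ : Admissible ρ) (lam : ℝ) {n : ℕ} (hn : 0 < n) (D : ℕ) :
    ∑ V ∈ (Finset.univ : Finset (Finset (Sym2 (Fin n)))).filter
          (fun V => V ≠ ∅ ∧ V.card ≤ D),
        mob (fun S => ∫ h : Fin n → G, Real.exp (∑ a ∈ S, xs ρ lam h a)
          ∂(Measure.pi fun _ : Fin n => μ)) V ≤ Real.exp (n * bx lam d) := by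
  have hnr : (0 : ℝ) < n := by exact_mod_cast hn
  have h1 : ∑ V ∈ (Finset.univ : Finset (Finset (Sym2 (Fin n)))).filter
          (fun V => V ≠ ∅ ∧ V.card ≤ D),
        mob (fun S => ∫ h : Fin n → G, Real.exp (∑ a ∈ S, xs ρ lam h a)
          ∂(Measure.pi fun _ : Fin n => μ)) V ≤
      ∑ V : Finset (Sym2 (Fin n)), mob (fun S => ∫ h : Fin n → G,
        Real.exp (∑ a ∈ S, xs ρ lam h a) ∂(Measure.pi fun _ : Fin n => μ)) V :=
    Finset.sum_le_sum_of_subset_of_nonneg (Finset.filter_subset _ _) fun V _ _ =>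
      pair_nonneg μ ρ hρ.1 lam V
  refine h1.trans ?_
  rw [← Finset.powerset_univ, sum_mob]
  have h2 : ∀ h : Fin n → G, ∑ a, xs ρ lam h a ≤ n * bx lam d := by
    intro h
    calc ∑ a, xs ρ lam h a ≤ ∑ _a : Sym2 (Fin n), bx lam d / n :=
          Finset.sum_le_sum fun a _ => (le_abs_self _).trans (abs_xs_le ρ lam h a)
      _ = Fintype.card (Sym2 (Fin n)) * (bx lam d / n) := by simp
      _ ≤ (n : ℝ) ^ 2 * (bx lam d / n) :=
          mul_le_mul_of_nonneg_right (card_pairs n) (div_nonneg (bx_nonneg lam d) hnr.le)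
      _ = n * bx lam d := by field_simp
  have hm : Measurable fun h : Fin n → G => Real.exp (∑ a, xs ρ lam h a) :=
    Real.measurable_exp.comp (Finset.measurable_sum _ fun a _ => measurable_xs hρ.1 lam a)
  calc ∫ h : Fin n → G, Real.exp (∑ a, xs ρ lam h a) ∂(Measure.pi fun _ : Fin n => μ)
      ≤ ∫ _h : Fin n → G, Real.exp (n * bx lam d) ∂(Measure.pi fun _ : Fin n => μ) := by
        refine integral_mono_of_nonneg (ae_of_all _ fun h => (Real.exp_pos _).le)
          (integrable_const _) (ae_of_all _ fun h => Real.exp_le_exp.2 (h2 h))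
    _ = Real.exp (n * bx lam d) := by simp

theorem pairs_core (hρ : Admissible ρ) (hK : ∃ k, 0 < d k) {lam c : ℝ} (hc : 0 < c)
    (hlam : lam ^ 2 < thr μ ρ c) : ∃ C : ℝ, 1 ≤ C ∧ ∀ n D : ℕ, (D : ℝ) ≤ c * n →
    ∑ V ∈ (Finset.univ : Finset (Finset (Sym2 (Fin n)))).filter
          (fun V => V ≠ ∅ ∧ V.card ≤ D),
        mob (fun S => ∫ h : Fin n → G, Real.exp (∑ a ∈ S, xs ρ lam h a)
          ∂(Measure.pi fun _ : Fin n => μ)) V ≤ C := by
  classical
  obtain ⟨c', hcc, hlam'⟩ := exists_gt μ hρ hK hc hlam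
  obtain ⟨C1, hC10, hC1⟩ := sumU (ι := VIdx d) hlam'
  have hb0 := bx_nonneg lam d
  set b : ℝ := bx lam d with hb
  have hg : 0 < c' - c := by linarith
  set τ : ℝ := Real.exp (2 * b / (c' - c)) with hτ
  have hτ0 : 0 < τ := Real.exp_pos _
  have hτ1 : 1 ≤ τ := by
    rw [hτ]
    exact Real.one_le_exp (by positivity)
  refine ⟨C1 + τ + Real.exp (τ * b * b) + 1, by
    have := (Real.exp_pos (τ * b * b)).le
    linarith, fun n D hD => ?_⟩
  rcases Nat.eq_zero_or_pos n with hn | hn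
  · subst hn
    have hD0 : D = 0 := by
      have : (D : ℝ) ≤ 0 := by simpa using hD
      exact_mod_cast le_antisymm this (Nat.cast_nonneg D)
    subst hD0
    rw [Finset.sum_eq_zero]
    · have := (Real.exp_pos (τ * b * b)).le
      linarith
    · intro V hV
      rw [Finset.mem_filter] at hV
      exact absurd (Finset.card_eq_zero.1 (Nat.le_zero.1 hV.2.2)) hV.2.1
  have hnr : (0 : ℝ) < n := by exact_mod_cast hn
  by_cases hsm : (n : ℝ) < τ * b
  · refine (pairs_trivial μ hρ lam hn D).trans ?_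
    have h1 : Real.exp (n * b) ≤ Real.exp (τ * b * b) :=
      Real.exp_le_exp.2 (mul_le_mul_of_nonneg_right hsm.le hb0)
    linarith
  push Not at hsm
  have hτβ : τ * (b / n) ≤ 1 := by
    rw [← mul_div_assoc, div_le_one hnr]
    exact hsm
  have hDD : D ≤ ⌊c' * n⌋₊ := by
    refine Nat.le_floor (hD.trans ?_)
    exact mul_le_mul_of_nonneg_right hcc.le hnr.le
  set D' : ℕ := ⌊c' * (n : ℝ)⌋₊ with hD'
  have hc'n : 0 ≤ c' * n := mul_nonneg (by linarith) hnr.le
  have hD'le : (D' : ℝ) ≤ c' * n := Nat.floor_le hc'n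
  have hD'lt : c' * n < (D' : ℝ) + 1 := Nat.lt_floor_add_one _
  have key := pser (Measure.pi fun _ : Fin n => μ) (X := fun a h => xs ρ lam h a)
    (fun a => measurable_xs hρ.1 lam a) (div_nonneg hb0 hnr.le) (fun a h => abs_xs_le ρ lam h a)
    (fun m V => gram μ ρ hρ.1 lam m V) hDD hτ1 hτβ
  refine key.trans ?_
  have h1 : ∑ m ∈ Finset.range (D' + 1), (∫ h : Fin n → G, (∑ a, xs ρ lam h a) ^ m
      ∂(Measure.pi fun _ : Fin n => μ)) / (m.factorial : ℝ) ≤ C1 := by
    simp_rw [xs_sum]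
    refine hC1 G μ (vv ρ) _ (orth_vv μ hρ) n D' hn fun m p hm1 hmD hp => ?_
    rw [← m2_eq]
    have hnn : 0 ≤ m2 μ ρ p := by
      rw [m2_eq]
      exact Finset.sum_nonneg fun _ _ => by positivity
    rcases hnn.eq_or_lt with h | h
    · rw [← h, mul_zero]
      positivity
    · have hmr : (0 : ℝ) < m := by exact_mod_cast hm1
      have hκ : (0 : ℝ) < m / n := by positivity
      have hκc : (m / n : ℝ) ≤ c' := by
        rw [div_le_iff₀ hnr]
        refine le_trans ?_ hD'le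
        exact_mod_cast hmD
      have h2 := thr_le μ ρ hκ hκc hp h
      rw [div_mul_eq_mul_div, le_div_iff₀ h] at h2
      exact h2
  have h2 : τ⁻¹ ^ (D' - D) * (1 + 2 * (b / n)) ^ Fintype.card (Sym2 (Fin n)) ≤ τ := by
    have h3 : (1 + 2 * (b / n)) ^ Fintype.card (Sym2 (Fin n)) ≤ Real.exp (2 * b * n) := by
      calc (1 + 2 * (b / n)) ^ Fintype.card (Sym2 (Fin n))
          ≤ Real.exp (2 * (b / n)) ^ Fintype.card (Sym2 (Fin n)) := by
            refine pow_le_pow_left₀ (by positivity) ?_ _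
            have := Real.add_one_le_exp (2 * (b / n))
            linarith
        _ = Real.exp (Fintype.card (Sym2 (Fin n)) * (2 * (b / n))) := by
            rw [← Real.exp_nat_mul]
        _ ≤ Real.exp ((n : ℝ) ^ 2 * (2 * (b / n))) := by
            refine Real.exp_le_exp.2 (mul_le_mul_of_nonneg_right (card_pairs n) (by positivity))
        _ = Real.exp (2 * b * n) := by
            congr 1
            field_simp
    have h4 : τ⁻¹ ^ (D' - D) ≤ Real.exp (-(2 * b * n)) * τ := by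
      rw [hτ, ← Real.exp_neg, ← Real.exp_nat_mul, ← Real.exp_add, Real.exp_le_exp,
        Nat.cast_sub hDD]
      have h5 : 2 * b * n = 2 * b / (c' - c) * ((c' - c) * n) := by
        field_simp
      rw [h5]
      have h6 : 0 ≤ 2 * b / (c' - c) := by positivity
      have h7 : (c' - c) * n ≤ ((D' : ℝ) - D) + 1 := by linarith
      have h8 := mul_le_mul_of_nonneg_left h7 h6
      linarith
    calc τ⁻¹ ^ (D' - D) * (1 + 2 * (b / n)) ^ Fintype.card (Sym2 (Fin n))
        ≤ (Real.exp (-(2 * b * n)) * τ) * Real.exp (2 * b * n) :=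
          mul_le_mul h4 h3 (by positivity) (by positivity)
      _ = τ := by
          rw [Real.exp_neg]
          field_simp
  have := (Real.exp_pos (τ * b * b)).le
  linarith

/-- below the threshold: sums of functions of `c n` entries fail -/
theorem below_pairs (hρ : Admissible ρ) (hK : ∃ k, 0 < d k) {lam c : ℝ} (hc : 0 < c)
    (hlam : lam ^ 2 < thr μ ρ c) : ∃ C : ℝ, 1 ≤ C ∧ ∀ n D : ℕ, (D : ℝ) ≤ c * n →
      (∀ f : (Coord n d → ℝ) → ℝ, SumOnPairs μ ρ D f →
        Integrable (fun ω => f (data ρ lam ω)) (law μ n d) ∧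
        ((∫ ω, f (data ρ lam ω) ∂(law μ n d)) - ∫ ω, f (data ρ 0 ω) ∂(law μ n d)) ^ 2 ≤
          C * Var[fun ω => f (data ρ 0 ω); law μ n d]) ∧
      (∀ φ : (Coord n d → ℝ) → ℝ, SumOnPairs μ ρ D φ → (∀ y, 0 ≤ φ y) → (∀ y, φ y ≤ 1) →
        1 / (4 * C) ≤
          (∫ ω, φ (data ρ 0 ω) ∂(law μ n d)) + (1 - ∫ ω, φ (data ρ lam ω) ∂(law μ n d))) := by
  obtain ⟨C, hC1, hC⟩ := pairs_core μ hρ hK hc hlam
  exact ⟨C, hC1, fun n D hD => ⟨fun f hf => pair_bound hρ (hC n D hD) hf,
    fun φ hφ h0 h1 => pair_test hρ hC1 (hC n D hD) hφ h0 h1⟩⟩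

omit [TopologicalSpace G] [IsTopologicalGroup G] [CompactSpace G] [BorelSpace G] [μ.IsHaarMeasure]
  [IsProbabilityMeasure μ] [Group G] in
/-- bounded truncated exponential series -/
theorem exp_le_of_series {Ω : Type*} [MeasurableSpace Ω] (P : Measure Ω) [IsProbabilityMeasure P]
    {Z : Ω → ℝ} (hZ : Measurable Z) {B C : ℝ} (hZ0 : ∀ ω, 0 ≤ Z ω) (hB : ∀ ω, Z ω ≤ B)
    (hC : ∀ D : ℕ, ∑ m ∈ Finset.range (D + 1), (∫ ω, Z ω ^ m ∂P) / (m.factorial : ℝ) ≤ C) :
    ∫ ω, Real.exp (Z ω) ∂P ≤ C := by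
  have hint : ∀ m : ℕ, Integrable (fun ω => Z ω ^ m / (m.factorial : ℝ)) P := by
    intro m
    refine Integrable.div_const ?_ _
    refine Integrable.of_bound (C := B ^ m) (hZ.pow_const m).aestronglyMeasurable
      (ae_of_all _ fun ω => ?_)
    rw [Real.norm_of_nonneg (pow_nonneg (hZ0 ω) m)]
    exact pow_le_pow_left₀ (hZ0 ω) (hB ω) m
  have h1 : Filter.Tendsto (fun D : ℕ => ∫ ω, ∑ m ∈ Finset.range (D + 1),
      Z ω ^ m / (m.factorial : ℝ) ∂P) Filter.atTop (nhds (∫ ω, Real.exp (Z ω) ∂P)) := by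
    refine tendsto_integral_of_dominated_convergence (fun _ => Real.exp B) (fun D => ?_)
      (integrable_const _) (fun D => ae_of_all _ fun ω => ?_) (ae_of_all _ fun ω => ?_)
    · exact (Finset.measurable_sum _ fun m _ => (hZ.pow_const m).div_const _).aestronglyMeasurable
    · rw [Real.norm_of_nonneg (Finset.sum_nonneg fun m _ =>
        div_nonneg (pow_nonneg (hZ0 ω) m) (Nat.cast_nonneg _))]
      refine (Real.sum_le_exp_of_nonneg (hZ0 ω) (D + 1)).trans (Real.exp_le_exp.2 (hB ω))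
    · have h2 : HasSum (fun m : ℕ => Z ω ^ m / (m.factorial : ℝ)) (Real.exp (Z ω)) := by
        rw [Real.exp_eq_exp_ℝ]
        exact NormedSpace.expSeries_div_hasSum_exp (Z ω)
      exact h2.tendsto_sum_nat.comp (Filter.tendsto_add_atTop_nat 1)
  refine le_of_tendsto h1 (Filter.Eventually.of_forall fun D => ?_)
  rw [integral_finsetSum _ fun m _ => hint m]
  simp_rw [integral_div]
  exact hC D

/-- below the second moment threshold: everything fails -/
theorem pairs_inf (hρ : Admissible ρ) {lam : ℝ} (hlam : lam ^ 2 < thrInf μ ρ) :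
    ∃ C : ℝ, 1 ≤ C ∧ ∀ n D : ℕ,
    ∑ V ∈ (Finset.univ : Finset (Finset (Sym2 (Fin n)))).filter
          (fun V => V ≠ ∅ ∧ V.card ≤ D),
        mob (fun S => ∫ h : Fin n → G, Real.exp (∑ a ∈ S, xs ρ lam h a)
          ∂(Measure.pi fun _ : Fin n => μ)) V ≤ C := by
  classical
  obtain ⟨C1, hC10, hC1⟩ := sumU (ι := VIdx d) hlam
  refine ⟨C1 + 1, by linarith, fun n D => ?_⟩
  have h1 : ∑ V ∈ (Finset.univ : Finset (Finset (Sym2 (Fin n)))).filter
          (fun V => V ≠ ∅ ∧ V.card ≤ D),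
        mob (fun S => ∫ h : Fin n → G, Real.exp (∑ a ∈ S, xs ρ lam h a)
          ∂(Measure.pi fun _ : Fin n => μ)) V ≤
      ∑ V : Finset (Sym2 (Fin n)), mob (fun S => ∫ h : Fin n → G,
        Real.exp (∑ a ∈ S, xs ρ lam h a) ∂(Measure.pi fun _ : Fin n => μ)) V :=
    Finset.sum_le_sum_of_subset_of_nonneg (Finset.filter_subset _ _) fun V _ _ =>
      pair_nonneg μ ρ hρ.1 lam V
  refine h1.trans ?_
  rw [← Finset.powerset_univ, sum_mob]
  rcases Nat.eq_zero_or_pos n with hn | hn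
  · subst hn
    have h2 : ∀ h : Fin 0 → G, ∑ a, xs ρ lam h a = 0 := by
      intro h
      refine Finset.sum_eq_zero fun a _ => ?_
      exact (a.ind fun i _ => i.elim0 : xs ρ lam h a = 0)
    simp_rw [h2]
    simp
    exact hC10
  have hnr : (0 : ℝ) < n := by exact_mod_cast hn
  have h2 : ∀ h : Fin n → G, ∑ a, xs ρ lam h a ≤ n * bx lam d := by
    intro h
    calc ∑ a, xs ρ lam h a ≤ ∑ _a : Sym2 (Fin n), bx lam d / n :=
          Finset.sum_le_sum fun a _ => (le_abs_self _).trans (abs_xs_le ρ lam h a)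
      _ = Fintype.card (Sym2 (Fin n)) * (bx lam d / n) := by simp
      _ ≤ (n : ℝ) ^ 2 * (bx lam d / n) :=
          mul_le_mul_of_nonneg_right (card_pairs n) (div_nonneg (bx_nonneg lam d) hnr.le)
      _ = n * bx lam d := by field_simp
  have h3 : ∫ h : Fin n → G, Real.exp (∑ a, xs ρ lam h a)
      ∂(Measure.pi fun _ : Fin n => μ) ≤ C1 := by
    refine exp_le_of_series (Measure.pi fun _ : Fin n => μ)
      (Finset.measurable_sum _ fun a _ => measurable_xs hρ.1 lam a) (fun h => ?_) h2 fun D' => ?_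
    · rw [xs_sum]
      positivity
    · simp_rw [xs_sum]
      refine hC1 G μ (vv ρ) _ (orth_vv μ hρ) n D' hn fun m p hm1 hmD hp => ?_
      rw [← m2_eq]
      have hmr : (0 : ℝ) < m := by exact_mod_cast hm1
      exact key μ ρ (by positivity) hp
  linarith

/-- below the second moment threshold: no function of the data -/
theorem below_inf (hρ : Admissible ρ) {lam : ℝ} (hlam : lam ^ 2 < thrInf μ ρ) :
    ∃ C : ℝ, 1 ≤ C ∧ ∀ n : ℕ, ∀ f : (Coord n d → ℝ) → ℝ, Measurable f →
      MemLp (fun ω => f (data ρ 0 ω)) 2 (law μ n d) →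
      (Integrable (fun ω => f (data ρ lam ω)) (law μ n d) ∧
        ((∫ ω, f (data ρ lam ω) ∂(law μ n d)) - ∫ ω, f (data ρ 0 ω) ∂(law μ n d)) ^ 2 ≤
          C * Var[fun ω => f (data ρ 0 ω); law μ n d]) ∧
      ((∀ y, 0 ≤ f y) → (∀ y, f y ≤ 1) → 1 / (4 * C) ≤
          (∫ ω, f (data ρ 0 ω) ∂(law μ n d)) + (1 - ∫ ω, f (data ρ lam ω) ∂(law μ n d))) := by
  classical
  obtain ⟨C, hC1, hC⟩ := pairs_inf μ hρ hlam
  refine ⟨C, hC1, fun n f hf hf2 => ?_⟩
  have hcl : SumOnPairs μ ρ (Fintype.card (Sym2 (Fin n))) f := by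
    refine ⟨fun T => if T = Finset.univ then f else 0, fun T => ?_, fun y => ?_⟩
    · by_cases h : T = Finset.univ
      · simp only [h, if_true]
        exact ⟨hf, fun y y' h' => by
          rw [show y = y' from funext fun c => h' c (Finset.mem_univ _)], hf2⟩
      · simp only [h, if_false]
        exact ⟨measurable_const, fun _ _ _ => rfl, MemLp.zero⟩
    · rw [Finset.sum_eq_single Finset.univ]
      · simp
      · intro T _ hT
        simp [hT]
      · intro h
        exact absurd (by simp) h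
  exact ⟨pair_bound hρ (hC n _) hcl, fun h0 h1 => pair_test hρ hC1 (hC n _) hcl h0 h1⟩

end H69.XT
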