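import Mathlib

/-!
# Module MomU: the exponential bound for the moments of the positive part

Pointwise `(max x 0)^(2d) ≤ (2d/a * e^(-1))^(2d) * exp (a x)`: for `x ≤ 0` the left side is `0` (`d ≥ 1`); for `x > 0` put
`y = a x / (2 d)`: `y ≤ exp (y - 1)` (`Real.add_one_le_exp (y - 1)`), raise to the power `2d`. Then integrate with
`x = ∑ i, Y (h i)`; `exp (a ∑ Y (h i)) = ∏ exp (a Y (h i))`, `integral_fintype_prod_eq_prod` (as in `even_moment` of
`Pool/Agent/H28/SumMoments.lean`; all functions are bounded and measurable).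
-/

set_option autoImplicit false

open MeasureTheory ProbabilityTheory
open scoped BigOperators

namespace H69.XT

private theorem momU_pt {a : ℝ} (ha : 0 < a) {d : ℕ} (hd : 1 ≤ d) (x : ℝ) :
    max x 0 ^ (2 * d) ≤ (2 * d / a * Real.exp (-1)) ^ (2 * d) * Real.exp (a * x) := by
  have hd' : (0 : ℝ) < d := by exact_mod_cast hd
  rcases le_or_gt x 0 with hx | hx
  · rw [max_eq_right hx, zero_pow (by omega)]
    positivity
  · rw [max_eq_left hx.le]
    obtain ⟨y, hy⟩ : ∃ y, y = a * x / (2 * d) := ⟨_, rfl⟩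
    have hy0 : 0 < y := by
      rw [hy]
      positivity
    have h1 : y ≤ Real.exp (y - 1) := by
      have := Real.add_one_le_exp (y - 1)
      linarith
    have h2 : x = 2 * d / a * y := by
      rw [hy]
      field_simp
    have h3 : Real.exp (a * x) = Real.exp y ^ (2 * d) := by
      rw [← Real.exp_nat_mul]
      congr 1
      rw [hy]
      push_cast
      field_simp
    rw [h3, ← mul_pow]
    refine pow_le_pow_left₀ hx.le ?_ _
    rw [mul_assoc, ← Real.exp_add, show -1 + y = y - 1 by ring]
    calc x = 2 * d / a * y := h2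
      _ ≤ 2 * d / a * Real.exp (y - 1) := mul_le_mul_of_nonneg_left h1 (by positivity)

theorem momU {G : Type} [MeasurableSpace G] (μ : Measure G) [IsProbabilityMeasure μ] {Y : G → ℝ}
    (hY : Measurable Y) {B : ℝ} (hB : ∀ g, |Y g| ≤ B) {a : ℝ} (ha : 0 < a) (n : ℕ) {d : ℕ}
    (hd : 1 ≤ d) :
    ∫ h : Fin n → G, max (∑ i, Y (h i)) 0 ^ (2 * d) ∂(Measure.pi fun _ : Fin n => μ) ≤
      (2 * d / a * Real.exp (-1)) ^ (2 * d) * (∫ g, Real.exp (a * Y g) ∂μ) ^ n := by
  have hm : Measurable fun g => Real.exp (a * Y g) := (hY.const_mul a).exp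
  have hprod : ∀ h : Fin n → G, Real.exp (a * ∑ i, Y (h i)) = ∏ i, Real.exp (a * Y (h i)) := by
    intro h
    rw [Finset.mul_sum, Real.exp_sum]
  have hmeas : Measurable fun h : Fin n → G => ∏ i, Real.exp (a * Y (h i)) :=
    Finset.measurable_prod _ fun i _ => hm.comp (measurable_pi_apply i)
  have hint : Integrable (fun h : Fin n → G => ∏ i, Real.exp (a * Y (h i)))
      (Measure.pi fun _ : Fin n => μ) := by
    refine Integrable.of_bound hmeas.aestronglyMeasurable (Real.exp (a * B) ^ n) ?_
    refine Filter.Eventually.of_forall fun h => ?_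
    rw [Real.norm_eq_abs, abs_of_nonneg (Finset.prod_nonneg fun i _ => (Real.exp_pos _).le)]
    calc ∏ i, Real.exp (a * Y (h i)) ≤ ∏ _i : Fin n, Real.exp (a * B) := by
          refine Finset.prod_le_prod (fun i _ => (Real.exp_pos _).le) fun i _ => ?_
          exact Real.exp_le_exp.2 (mul_le_mul_of_nonneg_left ((le_abs_self _).trans (hB _)) ha.le)
      _ = Real.exp (a * B) ^ n := by simp
  calc ∫ h : Fin n → G, max (∑ i, Y (h i)) 0 ^ (2 * d) ∂(Measure.pi fun _ : Fin n => μ)
      ≤ ∫ h : Fin n → G, (2 * d / a * Real.exp (-1)) ^ (2 * d) * ∏ i, Real.exp (a * Y (h i))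
          ∂(Measure.pi fun _ : Fin n => μ) := by
        refine integral_mono_of_nonneg (Filter.Eventually.of_forall fun h => ?_)
          (hint.const_mul _) (Filter.Eventually.of_forall fun h => ?_)
        · exact pow_nonneg (le_max_right _ _) _
        · have h1 := momU_pt ha hd (∑ i, Y (h i))
          rw [hprod h] at h1
          exact h1
    _ = (2 * d / a * Real.exp (-1)) ^ (2 * d) * (∫ g, Real.exp (a * Y g) ∂μ) ^ n := by
        rw [integral_const_mul, integral_fintype_prod_eq_pow (f := fun g => Real.exp (a * Y g)),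
          Fintype.card_fin]

end H69.XT
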