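import Mathlib

/-!
# Module TiltA: the choice of the tilt

`F a := a * ∫ Y exp(aY) - 2κ ∫ exp(aY)` is continuous (`continuous_of_dominated` on bounded sets of `a`, or
`ProbabilityTheory.mgf`: `mgf Y μ` is differentiable with derivative `∫ Y exp(tY)` (`hasDerivAt_mgf`, all `t` are in the
interior of `integrableExpSet` because `Y` is bounded)), `F 0 = -2κ < 0`. For `a = 4 B exp(2κ)` (`B > 0` because
`∫ Y^2 = 1/2`): with `s = log Z`, `Z = ∫ exp(aY)`: `x e^x ≥ e^x s + e^x - e^s` (`Real.add_one_le_exp (s - x)`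
times `e^x`), integrated over `x = aY`: `a ∫ Y e^(aY) ≥ Z log Z`; `e^y ≥ 1 + y ≥ max y 0`-type bound: `Z ≥ a ∫ max Y 0`,
`∫ max Y 0 = (∫ |Y|)/2` (mean zero), `∫ |Y| ≥ (∫ Y^2)/B = 1/(2B)`, so `Z ≥ a/(4B) = exp(2κ)`, `log Z ≥ 2κ`, `F a ≥ 0`.
Intermediate value theorem; the zero is not `0`.
-/

set_option autoImplicit false

open MeasureTheory ProbabilityTheory
open scoped BigOperators

namespace H69.XT

theorem tiltA {G : Type} [MeasurableSpace G] (μ : Measure G) [IsProbabilityMeasure μ] {Y : G → ℝ}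
    (hY : Measurable Y) {B : ℝ} (hB : ∀ g, |Y g| ≤ B) (h0 : ∫ g, Y g ∂μ = 0)
    (h1 : ∫ g, Y g ^ 2 ∂μ = 1 / 2) {κ : ℝ} (hκ : 0 < κ) :
    ∃ a : ℝ, 0 < a ∧
      a * ∫ g, Y g * Real.exp (a * Y g) ∂μ = 2 * κ * ∫ g, Real.exp (a * Y g) ∂μ := by
  obtain ⟨g₀⟩ := nonempty_of_isProbabilityMeasure μ
  have hB0 : 0 ≤ B := (abs_nonneg _).trans (hB g₀)
  have hYi : Integrable Y μ := Integrable.of_bound hY.aestronglyMeasurable B
    (ae_of_all _ fun g => by rw [Real.norm_eq_abs]; exact hB g)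
  have hY2i : Integrable (fun g => Y g ^ 2) μ := by
    refine Integrable.of_bound (hY.pow_const 2).aestronglyMeasurable (B ^ 2) (ae_of_all _ fun g => ?_)
    rw [Real.norm_eq_abs, abs_pow]
    exact pow_le_pow_left₀ (abs_nonneg _) (hB g) 2
  have hBpos : 0 < B := by
    rcases hB0.lt_or_eq with h | h
    · exact h
    · exfalso
      have h2 : ∀ g, Y g ^ 2 = 0 := fun g => by
        have h3 := hB g
        rw [← h] at h3
        rw [abs_eq_zero.1 (le_antisymm h3 (abs_nonneg _))]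
        norm_num
      simp only [h2, integral_zero] at h1
      norm_num at h1
  have hme : ∀ a : ℝ, Measurable fun g => Real.exp (a * Y g) := fun a =>
    Real.measurable_exp.comp (hY.const_mul a)
  have hbe : ∀ A : ℝ, ∀ a ∈ Set.Icc 0 A, ∀ g, Real.exp (a * Y g) ≤ Real.exp (A * B) := by
    intro A a ha g
    refine Real.exp_le_exp.2 ?_
    have h2 : a * Y g ≤ a * B := mul_le_mul_of_nonneg_left ((le_abs_self _).trans (hB g)) ha.1
    exact h2.trans (mul_le_mul_of_nonneg_right ha.2 hB0)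
  have hie : ∀ a : ℝ, 0 ≤ a → Integrable (fun g => Real.exp (a * Y g)) μ := by
    intro a ha
    refine Integrable.of_bound (hme a).aestronglyMeasurable (Real.exp (a * B)) (ae_of_all _ fun g => ?_)
    rw [Real.norm_eq_abs, abs_of_pos (Real.exp_pos _)]
    exact hbe a a ⟨ha, le_refl _⟩ g
  have hiy : ∀ a : ℝ, 0 ≤ a → Integrable (fun g => Y g * Real.exp (a * Y g)) μ := by
    intro a ha
    refine Integrable.of_bound (hY.mul (hme a)).aestronglyMeasurable (B * Real.exp (a * B))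
      (ae_of_all _ fun g => ?_)
    rw [Real.norm_eq_abs, abs_mul, abs_of_pos (Real.exp_pos _)]
    exact mul_le_mul (hB g) (hbe a a ⟨ha, le_refl _⟩ g) (Real.exp_pos _).le hB0
  set A : ℝ := 4 * B * Real.exp (2 * κ) with hA
  have hA0 : 0 < A := by positivity
  have c1 : ContinuousOn (fun a : ℝ => ∫ g, Y g * Real.exp (a * Y g) ∂μ) (Set.Icc 0 A) := by
    refine continuousOn_of_dominated (bound := fun _ => B * Real.exp (A * B))
      (fun a _ => (hY.mul (hme a)).aestronglyMeasurable) (fun a ha => ae_of_all _ fun g => ?_)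
      (integrable_const _) (ae_of_all _ fun g => ?_)
    · rw [Real.norm_eq_abs, abs_mul, abs_of_pos (Real.exp_pos _)]
      exact mul_le_mul (hB g) (hbe A a ha g) (Real.exp_pos _).le hB0
    · exact Continuous.continuousOn (by fun_prop)
  have c2 : ContinuousOn (fun a : ℝ => ∫ g, Real.exp (a * Y g) ∂μ) (Set.Icc 0 A) := by
    refine continuousOn_of_dominated (bound := fun _ => Real.exp (A * B))
      (fun a _ => (hme a).aestronglyMeasurable) (fun a ha => ae_of_all _ fun g => ?_)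
      (integrable_const _) (ae_of_all _ fun g => ?_)
    · rw [Real.norm_eq_abs, abs_of_pos (Real.exp_pos _)]
      exact hbe A a ha g
    · exact Continuous.continuousOn (by fun_prop)
  have c3 : ContinuousOn (fun a : ℝ => a * (∫ g, Y g * Real.exp (a * Y g) ∂μ) -
      2 * κ * ∫ g, Real.exp (a * Y g) ∂μ) (Set.Icc 0 A) :=
    (continuousOn_id.mul c1).sub (continuousOn_const.mul c2)
  have hZlow : Real.exp (2 * κ) ≤ ∫ g, Real.exp (A * Y g) ∂μ := by
    have h2 : ∫ g, A / 2 * (Y g + Y g ^ 2 / B) ∂μ = Real.exp (2 * κ) := by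
      rw [integral_const_mul, integral_add hYi (hY2i.div_const B), h0, integral_div, h1, hA]
      field_simp
      ring
    rw [← h2]
    refine integral_mono ((hYi.add (hY2i.div_const B)).const_mul _) (hie A hA0.le) fun g => ?_
    have h3 : Y g ^ 2 / B ≤ |Y g| := by
      rw [div_le_iff₀ hBpos, ← sq_abs, sq]
      exact mul_le_mul_of_nonneg_left (hB g) (abs_nonneg _)
    have h4 : A / 2 * (Y g + Y g ^ 2 / B) ≤ A / 2 * (Y g + |Y g|) := by gcongr
    refine h4.trans ?_
    rcases le_total 0 (Y g) with h5 | h5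
    · rw [abs_of_nonneg h5]
      have h6 := Real.add_one_le_exp (A * Y g)
      linarith
    · rw [abs_of_nonpos h5]
      have h6 := Real.exp_pos (A * Y g)
      have h7 : A / 2 * (Y g + -Y g) = 0 := by ring
      linarith
  have hZpos : 0 < ∫ g, Real.exp (A * Y g) ∂μ := (Real.exp_pos _).trans_le hZlow
  have hlog : 2 * κ ≤ Real.log (∫ g, Real.exp (A * Y g) ∂μ) :=
    (Real.le_log_iff_exp_le hZpos).2 hZlow
  have hent : (∫ g, Real.exp (A * Y g) ∂μ) * Real.log (∫ g, Real.exp (A * Y g) ∂μ) ≤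
      A * ∫ g, Y g * Real.exp (A * Y g) ∂μ := by
    obtain ⟨Z, hZ⟩ : ∃ Z, Z = ∫ g, Real.exp (A * Y g) ∂μ := ⟨_, rfl⟩
    rw [← hZ] at hZpos ⊢
    have h2 : ∀ g, Real.log Z * Real.exp (A * Y g) + Real.exp (A * Y g) - Z ≤
        A * (Y g * Real.exp (A * Y g)) := by
      intro g
      have h3 := Real.add_one_le_exp (Real.log Z - A * Y g)
      have h4 := mul_le_mul_of_nonneg_left h3 (Real.exp_pos (A * Y g)).le
      have h5 : Real.exp (A * Y g) * Real.exp (Real.log Z - A * Y g) = Z := by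
        rw [← Real.exp_add, add_sub_cancel, Real.exp_log hZpos]
      rw [h5] at h4
      nlinarith
    have i1 : Integrable (fun g => Real.log Z * Real.exp (A * Y g)) μ :=
      (hie A hA0.le).const_mul _
    have i2 : Integrable (fun g => Real.log Z * Real.exp (A * Y g) + Real.exp (A * Y g)) μ :=
      i1.add (hie A hA0.le)
    have i3 : Integrable (fun g => Real.log Z * Real.exp (A * Y g) + Real.exp (A * Y g) - Z) μ :=
      i2.sub (integrable_const Z)
    have h6 := integral_mono i3 ((hiy A hA0.le).const_mul A) h2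
    have h7 : ∫ g, (Real.log Z * Real.exp (A * Y g) + Real.exp (A * Y g) - Z) ∂μ =
        Real.log Z * Z + Z - Z := by
      rw [integral_sub i2 (integrable_const Z),
        integral_add i1 (hie A hA0.le), integral_const_mul, ← hZ, integral_const]
      simp
    have h8 : ∫ g, A * (Y g * Real.exp (A * Y g)) ∂μ = A * ∫ g, Y g * Real.exp (A * Y g) ∂μ :=
      integral_const_mul _ _
    have h9 : Real.log Z * Z + Z - Z ≤ A * ∫ g, Y g * Real.exp (A * Y g) ∂μ := by
      rw [← h7, ← h8]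
      exact h6
    linarith
  have hFA : 0 ≤ A * (∫ g, Y g * Real.exp (A * Y g) ∂μ) - 2 * κ * ∫ g, Real.exp (A * Y g) ∂μ := by
    have h2 := mul_le_mul_of_nonneg_left hlog hZpos.le
    linarith
  have hF0 : (0 : ℝ) * (∫ g, Y g * Real.exp ((0 : ℝ) * Y g) ∂μ) -
      2 * κ * ∫ g, Real.exp ((0 : ℝ) * Y g) ∂μ = -(2 * κ) := by
    simp
  obtain ⟨a, ha, hFa⟩ := intermediate_value_Icc hA0.le c3 ⟨by
    show (0 : ℝ) * (∫ g, Y g * Real.exp ((0 : ℝ) * Y g) ∂μ) -
      2 * κ * ∫ g, Real.exp ((0 : ℝ) * Y g) ∂μ ≤ 0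
    rw [hF0]
    linarith, hFA⟩
  have hFa' : a * (∫ g, Y g * Real.exp (a * Y g) ∂μ) -
      2 * κ * ∫ g, Real.exp (a * Y g) ∂μ = 0 := hFa
  refine ⟨a, ?_, by linarith⟩
  rcases ha.1.lt_or_eq with h | h
  · exact h
  · exfalso
    rw [← h, hF0] at hFa'
    linarith

end H69.XT
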