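import Pool.Agent.H69.XT.Defs
import Pool.Agent.H69.XT.TiltA
import Pool.Agent.H69.XT.MomU

/-!
# Module OneD: the moments of a sum of independent variables against the threshold

`κ := d/n`, `a` from `tiltA`, `Z := ∫ exp(aY) > 0`, `p := exp(aY)/Z` is in `Dens` (`|log p| = |aY - log Z| ≤ aB + |log Z|`),
`t := ∫ Y p = 2κ/a > 0`, `kl μ p = a t - log Z = 2κ - log Z`. `H p` gives `Θ t^2 ≤ κ exp(kl/κ - 1)`. From `momU`:
`(2d/a * e^(-1))^(2d) Z^n = (n t e^(-1))^(2d) exp(n (2κ - kl)) = (n t)^(2d) exp(-n kl) = (n^2 t^2 exp(-kl/κ))^d ≤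
(n^2 κ/Θ * e^(-1))^d = (n d/Θ * e^(-1))^d` (`2d/a = n t` because `t = 2κ/a`, `n κ = d`).
-/

set_option autoImplicit false

open MeasureTheory ProbabilityTheory
open scoped BigOperators

namespace H69.XT

theorem oneD {G : Type} [MeasurableSpace G] (μ : Measure G) [IsProbabilityMeasure μ] {Y : G → ℝ}
    (hY : Measurable Y) {B : ℝ} (hB : ∀ g, |Y g| ≤ B) (h0 : ∫ g, Y g ∂μ = 0)
    (h1 : ∫ g, Y g ^ 2 ∂μ = 1 / 2) {Θ : ℝ} (hΘ : 0 < Θ) {n d : ℕ} (hn : 0 < n) (hd : 1 ≤ d)
    (H : ∀ p, Dens μ p → Θ * (∫ g, Y g * p g ∂μ) ^ 2 ≤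
      (d / n : ℝ) * Real.exp (kl μ p / (d / n : ℝ) - 1)) :
    ∫ h : Fin n → G, max (∑ i, Y (h i)) 0 ^ (2 * d) ∂(Measure.pi fun _ : Fin n => μ) ≤
      (n * d / Θ * Real.exp (-1)) ^ d := by
  have hn' : (0 : ℝ) < n := by exact_mod_cast hn
  have hd' : (0 : ℝ) < d := by exact_mod_cast hd
  obtain ⟨g₀⟩ := nonempty_of_isProbabilityMeasure μ
  have hB0 : 0 ≤ B := (abs_nonneg _).trans (hB g₀)
  obtain ⟨κ, hκ⟩ : ∃ κ : ℝ, κ = d / n := ⟨_, rfl⟩
  have hκ0 : 0 < κ := by rw [hκ]; positivity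
  obtain ⟨a, ha, hak⟩ := tiltA μ hY hB h0 h1 hκ0
  have hm : Measurable fun g => Real.exp (a * Y g) := (hY.const_mul a).exp
  have hbe : ∀ g, |a * Y g| ≤ a * B := fun g => by
    rw [abs_mul, abs_of_pos ha]
    exact mul_le_mul_of_nonneg_left (hB g) ha.le
  have hie : Integrable (fun g => Real.exp (a * Y g)) μ := by
    refine Integrable.of_bound hm.aestronglyMeasurable (Real.exp (a * B)) (ae_of_all _ fun g => ?_)
    rw [Real.norm_eq_abs, abs_of_pos (Real.exp_pos _)]
    exact Real.exp_le_exp.2 ((le_abs_self _).trans (hbe g))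
  have hiy : Integrable (fun g => Y g * Real.exp (a * Y g)) μ := by
    refine Integrable.of_bound (hY.mul hm).aestronglyMeasurable (B * Real.exp (a * B))
      (ae_of_all _ fun g => ?_)
    rw [Real.norm_eq_abs, abs_mul, abs_of_pos (Real.exp_pos _)]
    exact mul_le_mul (hB g) (Real.exp_le_exp.2 ((le_abs_self _).trans (hbe g)))
      (Real.exp_pos _).le hB0
  obtain ⟨Z, hZ⟩ : ∃ Z, Z = ∫ g, Real.exp (a * Y g) ∂μ := ⟨_, rfl⟩
  have hZ0 : 0 < Z := by
    have h2 : Real.exp (-(a * B)) ≤ Z := by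
      rw [hZ]
      have h3 : ∫ _g : G, Real.exp (-(a * B)) ∂μ = Real.exp (-(a * B)) := by
        rw [integral_const]
        simp
      rw [← h3]
      refine integral_mono (integrable_const _) hie fun g => ?_
      exact Real.exp_le_exp.2 (neg_le_of_abs_le (hbe g))
    exact (Real.exp_pos _).trans_le h2
  obtain ⟨p, hp⟩ : ∃ p : G → ℝ, p = fun g => Real.exp (a * Y g) / Z := ⟨_, rfl⟩
  have hlogp : ∀ g, Real.log (p g) = a * Y g - Real.log Z := fun g => by
    rw [hp]
    show Real.log (Real.exp (a * Y g) / Z) = _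
    rw [Real.log_div (Real.exp_pos _).ne' hZ0.ne', Real.log_exp]
  have hpD : Dens μ p := by
    refine ⟨?_, ?_, ⟨a * B + |Real.log Z|, ?_⟩, ?_⟩
    · rw [hp]
      exact hm.div_const Z
    · intro g
      rw [hp]
      exact div_pos (Real.exp_pos _) hZ0
    · intro g
      rw [hlogp g]
      exact (abs_sub _ _).trans (add_le_add (hbe g) le_rfl)
    · rw [hp, integral_div, ← hZ, div_self hZ0.ne']
  obtain ⟨t, ht⟩ : ∃ t, t = ∫ g, Y g * p g ∂μ := ⟨_, rfl⟩
  have htv : t * Z = ∫ g, Y g * Real.exp (a * Y g) ∂μ := by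
    have h2 : ∀ g, Y g * p g = (Y g * Real.exp (a * Y g)) / Z := fun g => by
      rw [hp]
      ring
    rw [ht]
    simp only [h2]
    rw [integral_div, div_mul_cancel₀ _ hZ0.ne']
  have hat : a * t = 2 * κ := by
    have h2 : a * (t * Z) = 2 * κ * Z := by rw [htv, hZ, hak]
    have h3 : a * t * Z = 2 * κ * Z := by rw [← h2]; ring
    exact mul_right_cancel₀ hZ0.ne' h3
  have ht0 : 0 < t := by
    have h2 : 0 < a * t := by rw [hat]; positivity
    exact (mul_pos_iff_of_pos_left ha).1 h2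
  have hkl : kl μ p = 2 * κ - Real.log Z := by
    have h2 : ∀ g, p g * Real.log (p g) =
        a * (Y g * p g) - Real.log Z * p g := fun g => by
      rw [hlogp g]
      ring
    have hip : Integrable p μ := by
      rw [hp]
      exact hie.div_const Z
    have hiyp : Integrable (fun g => Y g * p g) μ := by
      have h3 : (fun g => Y g * p g) = fun g => (Y g * Real.exp (a * Y g)) / Z := by
        funext g
        rw [hp]
        ring
      rw [h3]
      exact hiy.div_const Z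
    unfold kl
    simp only [h2]
    rw [integral_sub (hiyp.const_mul a) (hip.const_mul _), integral_const_mul, integral_const_mul,
      hpD.one, ← ht, hat, mul_one]
  have hH := H p hpD
  rw [← ht, ← hκ, hkl] at hH
  have hM := momU μ hY hB ha n hd
  refine hM.trans ?_
  rw [← hZ]
  have e1 : (2 * d / a : ℝ) = n * t := by
    have h2 : a * (n * t) = 2 * d := by
      calc a * (n * t) = n * (a * t) := by ring
        _ = n * (2 * κ) := by rw [hat]
        _ = 2 * d := by rw [hκ]; field_simp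
    rw [← h2]
    field_simp
  have e2 : (n * t * Real.exp (-1)) ^ (2 * d) * Z ^ n =
      ((n * t) ^ 2 * (Real.exp (-2) * Real.exp (Real.log Z / κ))) ^ d := by
    have h2 : Z ^ n = Real.exp (Real.log Z / κ) ^ d := by
      rw [← Real.exp_nat_mul]
      have h3 : (d : ℝ) * (Real.log Z / κ) = n * Real.log Z := by
        rw [hκ]
        field_simp
      rw [h3, Real.exp_nat_mul, Real.exp_log hZ0]
    have h4 : Real.exp (-1) ^ (2 * d) = Real.exp (-2) ^ d := by
      rw [pow_mul, ← Real.exp_nat_mul]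
      norm_num
    rw [mul_pow, h4, h2, pow_mul, mul_pow, mul_pow]
    ring
  rw [e1, e2]
  refine pow_le_pow_left₀ (by positivity) ?_ d
  have e3 : Real.exp ((2 * κ - Real.log Z) / κ - 1) * (Real.exp (-2) * Real.exp (Real.log Z / κ)) =
      Real.exp (-1) := by
    rw [← Real.exp_add, ← Real.exp_add]
    congr 1
    field_simp
    ring
  have hE : 0 < Real.exp (-2) * Real.exp (Real.log Z / κ) := by positivity
  have h5 := mul_le_mul_of_nonneg_right hH hE.le
  rw [mul_assoc κ, e3] at h5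
  calc (n * t) ^ 2 * (Real.exp (-2) * Real.exp (Real.log Z / κ))
      = (n : ℝ) ^ 2 / Θ * (Θ * t ^ 2 * (Real.exp (-2) * Real.exp (Real.log Z / κ))) := by
        field_simp
    _ ≤ (n : ℝ) ^ 2 / Θ * (κ * Real.exp (-1)) :=
        mul_le_mul_of_nonneg_left h5 (by positivity)
    _ = n * d / Θ * Real.exp (-1) := by
        rw [hκ]
        field_simp

end H69.XT
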