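import Pool.Agent.H69.XT.DefsP

/-!
# Module OpX: the exponents of the unordered pairs

`op_inter`, `op_empty`, `op_univ`: `Finset.ext`, `simp [op]`. `sum_op`: `Finset.sum_fiberwise_of_maps_to`-type (fibres of
`e ↦ s(e.1, e.2)`), `op {a} = {e | s(e.1, e.2) = a}`. `card_op`: `a = s(i, j)`, `op {a} ⊆ {(i,j), (j,i)}`. `abs_xs_le`: `abs_xe_le` and
`abs_wl_le` (`Pool/Agent/H47/LV/Comb.lean`, `Iso.lean`), `(lam/√n)^2/2 = lam^2/(2n)`, two terms. `xs_sum`: `sum_op` with `S = univ`,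
`∑ e, xe = a^2/2 ∑ l (∑ i wl l (h i))^2` and `sum_wl` with `K = univ` (compare `ME_prod`). `measurable_xs`: `measurable_wl`.
-/

set_option autoImplicit false

open MeasureTheory ProbabilityTheory
open scoped BigOperators

namespace H69.XT

open Pool.Agent.Results.MP_634cec_lc.LinearDegree
open Pool.Agent.H47.LV

variable {L n : ℕ} {d : Fin L → ℕ}

theorem op_inter (S T : Finset (Sym2 (Fin n))) : op S ∩ op T = op (S ∩ T) := by
  ext e
  simp [op]

theorem op_empty : op (∅ : Finset (Sym2 (Fin n))) = ∅ := by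
  simp [op]

theorem op_univ : op (Finset.univ : Finset (Sym2 (Fin n))) = Finset.univ := by
  simp [op]

theorem sum_op (S : Finset (Sym2 (Fin n))) (x : Fin n × Fin n → ℝ) :
    ∑ e ∈ op S, x e = ∑ a ∈ S, ∑ e ∈ op {a}, x e := by
  rw [← Finset.sum_fiberwise_of_maps_to (s := op S) (t := S) (g := fun e => s(e.1, e.2))
    (fun e he => by simpa [op] using he)]
  refine Finset.sum_congr rfl fun a ha => ?_
  refine Finset.sum_congr ?_ fun _ _ => rfl
  ext e
  simp only [op, Finset.mem_filter, Finset.mem_univ, true_and, Finset.mem_singleton]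
  constructor
  · exact fun h => h.2
  · intro h
    exact ⟨by rw [h]; exact ha, h⟩

theorem card_op (a : Sym2 (Fin n)) : (op {a}).card ≤ 2 := by
  induction a using Sym2.ind with
  | _ i j =>
    refine (Finset.card_le_card (t := {(i, j), (j, i)}) ?_).trans Finset.card_le_two
    intro e he
    simp only [op, Finset.mem_filter, Finset.mem_univ, true_and, Finset.mem_singleton,
      Sym2.eq_iff] at he
    simp only [Finset.mem_insert, Finset.mem_singleton]
    rcases he with ⟨h1, h2⟩ | ⟨h1, h2⟩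
    · left
      exact Prod.ext h1 h2
    · right
      exact Prod.ext h1 h2

/-- a constant -/
noncomputable def bx (lam : ℝ) (d : Fin L → ℕ) : ℝ :=
  lam ^ 2 * (Fintype.card (VIdx d × Bool) * (Real.sqrt 2 * ∑ k, Real.sqrt (d k)) ^ 2)

theorem abs_xs_le {G : Type} [Group G] (ρ : ∀ k : Fin L, G →* Matrix.unitaryGroup (Fin (d k)) ℂ)
    (lam : ℝ) (h : Fin n → G) (a : Sym2 (Fin n)) : |xs ρ lam h a| ≤ bx lam d / n := by
  have hb0 : 0 ≤ Real.sqrt 2 * ∑ k, Real.sqrt (d k) :=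
    mul_nonneg (Real.sqrt_nonneg _) (Finset.sum_nonneg fun k _ => Real.sqrt_nonneg _)
  set β : ℝ := (lam / Real.sqrt n) ^ 2 / 2 *
    (Fintype.card (VIdx d × Bool) * (Real.sqrt 2 * ∑ k, Real.sqrt (d k)) ^ 2) with hβ
  have hβ0 : 0 ≤ β := by positivity
  have h1 : ∀ e, |xe (wl ρ) (lam / Real.sqrt n) h e| ≤ β := fun e =>
    abs_xe_le hb0 (abs_wl_le ρ) _ h e
  have h2 : (lam / Real.sqrt n) ^ 2 = lam ^ 2 / n := by
    rw [div_pow, Real.sq_sqrt (Nat.cast_nonneg n)]
  have h3 : ((op {a}).card : ℝ) ≤ 2 := by exact_mod_cast card_op a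
  calc |xs ρ lam h a| ≤ ∑ e ∈ op {a}, |xe (wl ρ) (lam / Real.sqrt n) h e| :=
        Finset.abs_sum_le_sum_abs _ _
    _ ≤ ∑ _e ∈ op {a}, β := Finset.sum_le_sum fun e _ => h1 e
    _ = (op {a}).card * β := by rw [Finset.sum_const, nsmul_eq_mul]
    _ ≤ 2 * β := mul_le_mul_of_nonneg_right h3 hβ0
    _ = bx lam d / n := by
        rw [hβ, h2, bx]
        ring

theorem xs_sum {G : Type} [Group G] (ρ : ∀ k : Fin L, G →* Matrix.unitaryGroup (Fin (d k)) ℂ)
    (lam : ℝ) (h : Fin n → G) :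
    ∑ a, xs ρ lam h a = lam ^ 2 / n * ∑ c : VIdx d, ‖∑ i, vv ρ c (h i)‖ ^ 2 := by
  have h1 : ∑ a, xs ρ lam h a = ∑ e : Fin n × Fin n, xe (wl ρ) (lam / Real.sqrt n) h e := by
    have h := sum_op (Finset.univ : Finset (Sym2 (Fin n)))
      (fun e => xe (wl ρ) (lam / Real.sqrt n) h e)
    rw [op_univ] at h
    exact h.symm
  have h2 : (lam / Real.sqrt n) ^ 2 = lam ^ 2 / n := by
    rw [div_pow, Real.sq_sqrt (Nat.cast_nonneg n)]
  rw [h1, sum_wl ρ Finset.univ h, Fintype.sum_prod_type]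
  simp only [xe]
  rw [h2]
  have h3 : ∀ l : VIdx d × Bool, (∑ i, wl ρ l (h i)) ^ 2 =
      ∑ i, ∑ j, wl ρ l (h i) * wl ρ l (h j) := by
    intro l
    rw [sq, Finset.sum_mul_sum]
  have h4 : ∑ l : VIdx d × Bool, (∑ i, wl ρ l (h i)) ^ 2 =
      ∑ i, ∑ j, ∑ l : VIdx d × Bool, wl ρ l (h i) * wl ρ l (h j) := by
    rw [Finset.sum_congr rfl fun l _ => h3 l, Finset.sum_comm]
    exact Finset.sum_congr rfl fun i _ => Finset.sum_comm
  rw [h4]
  simp only [← Finset.mul_sum]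
  ring

theorem measurable_xs {G : Type} [Group G] [TopologicalSpace G] [MeasurableSpace G] [BorelSpace G]
    {ρ : ∀ k : Fin L, G →* Matrix.unitaryGroup (Fin (d k)) ℂ}
    (hρ : ∀ k, Continuous fun g => (ρ k g : Matrix (Fin (d k)) (Fin (d k)) ℂ)) (lam : ℝ)
    (a : Sym2 (Fin n)) : Measurable fun h : Fin n → G => xs ρ lam h a := by
  unfold xs
  refine Finset.measurable_sum _ fun e _ => ?_
  unfold xe
  refine Measurable.const_mul (Finset.measurable_sum _ fun l _ => ?_) _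
  exact ((measurable_wl ρ hρ l).comp (measurable_pi_apply e.1)).mul
    ((measurable_wl ρ hρ l).comp (measurable_pi_apply e.2))

end H69.XT
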