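import Pool.Agent.H47.LV.Hilb

/-!
# Module PSerA: the power series of the Moebius transform of an exponential moment

For each `S`: `HasSum (fun m => t^m * ∫ (∑ a ∈ S, X a)^m / m!) (∫ exp (t * ∑ a ∈ S, X a))`: `Real.hasSum_exp` pointwise
(`NormedSpace.expSeries_div_hasSum_exp`), sum and integral exchanged by `hasSum_integral_of_dominated_convergence` with the bound
`(|t| |S| β)^m/m!`. `mob` is a finite linear combination (`hasSum_sum`, `HasSum.const_smul`), `mul_div_assoc`.
-/

set_option autoImplicit false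

open MeasureTheory ProbabilityTheory
open scoped BigOperators

namespace H69.XT

open Pool.Agent.H47.LV

private theorem pserA_one {Ω : Type*} [MeasurableSpace Ω] (P : Measure Ω) [IsProbabilityMeasure P]
    {Y : Ω → ℝ} (hY : Measurable Y) {b : ℝ} (hb : ∀ ω, |Y ω| ≤ b) (t : ℝ) :
    HasSum (fun m : ℕ => t ^ m * ((∫ ω, Y ω ^ m ∂P) / (m.factorial : ℝ)))
      (∫ ω, Real.exp (t * Y ω) ∂P) := by
  have h1 : ∀ m : ℕ, t ^ m * ((∫ ω, Y ω ^ m ∂P) / (m.factorial : ℝ))
      = ∫ ω, (t * Y ω) ^ m / (m.factorial : ℝ) ∂P := by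
    intro m
    rw [← mul_div_assoc, ← integral_const_mul, ← integral_div]
    refine integral_congr_ae (Filter.Eventually.of_forall fun ω => ?_)
    simp only [mul_pow]
  simp only [h1]
  refine hasSum_integral_of_dominated_convergence
    (fun m _ => (|t| * b) ^ m / (m.factorial : ℝ)) ?_ ?_ ?_ ?_ ?_
  · intro m
    exact (((hY.const_mul t).pow_const m).div_const _).aestronglyMeasurable
  · intro m
    refine Filter.Eventually.of_forall fun ω => ?_
    rw [Real.norm_eq_abs, abs_div, abs_pow, abs_mul, Nat.abs_cast]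
    have := hb ω
    gcongr
  · exact Filter.Eventually.of_forall fun _ => Real.summable_pow_div_factorial _
  · exact integrable_const _
  · refine Filter.Eventually.of_forall fun ω => ?_
    have := NormedSpace.expSeries_div_hasSum_exp (t * Y ω)
    rwa [← Real.exp_eq_exp_ℝ] at this

theorem pserA {Ω : Type*} [MeasurableSpace Ω] (P : Measure Ω) [IsProbabilityMeasure P]
    {α : Type*} [DecidableEq α] {X : α → Ω → ℝ} (hX : ∀ a, Measurable (X a)) {β : ℝ}
    (hβ : ∀ a ω, |X a ω| ≤ β) (V : Finset α) (t : ℝ) :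
    HasSum (fun m : ℕ => t ^ m *
        (mob (fun S => ∫ ω, (∑ a ∈ S, X a ω) ^ m ∂P) V / (m.factorial : ℝ)))
      (mob (fun S => ∫ ω, Real.exp (t * ∑ a ∈ S, X a ω) ∂P) V) := by
  unfold mob
  have hS : ∀ S : Finset α, HasSum (fun m : ℕ => t ^ m *
      ((∫ ω, (∑ a ∈ S, X a ω) ^ m ∂P) / (m.factorial : ℝ)))
      (∫ ω, Real.exp (t * ∑ a ∈ S, X a ω) ∂P) := by
    intro S
    refine pserA_one P (Y := fun ω => ∑ a ∈ S, X a ω)
      (Finset.measurable_sum _ fun a _ => hX a) (b := ∑ a ∈ S, β) ?_ t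
    intro ω
    exact (Finset.abs_sum_le_sum_abs _ _).trans (Finset.sum_le_sum fun a _ => hβ a ω)
  have h := hasSum_sum (s := V.powerset) fun S _ => (hS S).const_smul ((-1 : ℝ) ^ (V \ S).card)
  refine h.congr_fun ?_
  intro m
  rw [Finset.sum_div, Finset.mul_sum]
  refine Finset.sum_congr rfl fun S _ => ?_
  simp only [smul_eq_mul]
  ring

end H69.XT
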