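import Pool.Agent.H69.XT.OpX

/-!
# Module PairI: the inequality for sums of functions of few entries

Copy of the proof of `cov_mob` in `Pool/Agent/H47/LV/Main.lean` with `α = Sym2 (Fin n)`, the vectors `S ↦ Ge μ ρ hρ lam (op S)`
(`Ge_inner`, `op_inter`; `ME μ (wl ρ) _ (op S) = ∫ exp (∑ a ∈ S, xs ρ lam h a)` by `sum_op`, `xs`), the predicate
`fun V => V.card ≤ D` and the sets `fun K => K`; locality: `sE_inter ρ lam (op E) (op K)`, `op_inter`, `pr c ∈ op K` is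
`s(c.2.1.1, c.2.2.1.1) ∈ K`; `op_univ`, `op_empty` for `e1`, `e2`.
-/

set_option autoImplicit false

open MeasureTheory ProbabilityTheory
open scoped BigOperators RealInnerProductSpace

namespace H69.XT

open Pool.Agent.Results.MP_634cec_lc.LinearDegree
open Pool.Agent.H70.SS (gam)
open Pool.Agent.H47.LV

/-- the second moment function of the unordered pairs -/
private noncomputable def PairI_M {G : Type} [Group G] [MeasurableSpace G] (μ : Measure G)
    {L n : ℕ} {d : Fin L → ℕ} (ρ : ∀ k : Fin L, G →* Matrix.unitaryGroup (Fin (d k)) ℂ)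
    (lam : ℝ) (S : Finset (Sym2 (Fin n))) : ℝ :=
  ∫ h : Fin n → G, Real.exp (∑ a ∈ S, xs ρ lam h a) ∂(Measure.pi fun _ : Fin n => μ)

private theorem PairI_ME {G : Type} [Group G] [MeasurableSpace G] (μ : Measure G)
    {L n : ℕ} {d : Fin L → ℕ} (ρ : ∀ k : Fin L, G →* Matrix.unitaryGroup (Fin (d k)) ℂ)
    (lam : ℝ) (S : Finset (Sym2 (Fin n))) :
    ME μ (wl ρ) (lam / Real.sqrt n) (op S) = PairI_M μ ρ lam S := by
  unfold ME PairI_M
  refine integral_congr_ae (ae_of_all _ fun h => ?_)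
  change Real.exp (∑ e ∈ op S, xe (wl ρ) (lam / Real.sqrt n) h e) =
    Real.exp (∑ a ∈ S, xs ρ lam h a)
  rw [sum_op]
  rfl

private theorem PairI_inner {G : Type} [Group G] [TopologicalSpace G] [IsTopologicalGroup G]
    [CompactSpace G] [MeasurableSpace G] [BorelSpace G] (μ : Measure G) [μ.IsHaarMeasure]
    [IsProbabilityMeasure μ] {L n : ℕ} {d : Fin L → ℕ}
    (ρ : ∀ k : Fin L, G →* Matrix.unitaryGroup (Fin (d k)) ℂ)
    (hρ : ∀ k, Continuous fun g => (ρ k g : Matrix (Fin (d k)) (Fin (d k)) ℂ)) (lam : ℝ)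
    (S S' : Finset (Sym2 (Fin n))) :
    ⟪Ge μ ρ hρ lam (op S), Ge μ ρ hρ lam (op S')⟫ = PairI_M μ ρ lam (S ∩ S') := by
  rw [Ge_inner, op_inter, PairI_ME]

theorem pair_ineq {G : Type} [Group G] [TopologicalSpace G] [IsTopologicalGroup G]
    [CompactSpace G] [MeasurableSpace G] [BorelSpace G] (μ : Measure G) [μ.IsHaarMeasure]
    [IsProbabilityMeasure μ] {L n : ℕ} {d : Fin L → ℕ}
    (ρ : ∀ k : Fin L, G →* Matrix.unitaryGroup (Fin (d k)) ℂ)
    (hρ : ∀ k, Continuous fun g => (ρ k g : Matrix (Fin (d k)) (Fin (d k)) ℂ)) (lam : ℝ)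
    (D : ℕ) (F : Finset (Sym2 (Fin n)) → (Coord n d → ℝ) → ℝ) (hF : ∀ K, Measurable (F K))
    (hloc : ∀ K z z', (∀ c : Coord n d, s(c.2.1.1, c.2.2.1.1) ∈ K → z c = z' c) →
      F K z = F K z')
    (hF2 : ∀ K, MemLp (F K) 2 (gam (Coord n d))) :
    ((∫ g, ∫ z, ∑ K with K.card ≤ D, F K (shift ρ lam g + z) ∂(gam (Coord n d))
        ∂(Measure.pi fun _ : Fin n => μ)) -
          ∫ z, ∑ K with K.card ≤ D, F K z ∂(gam (Coord n d))) ^ 2 ≤
      ((∫ z, (∑ K with K.card ≤ D, F K z) ^ 2 ∂(gam (Coord n d))) -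
        (∫ z, ∑ K with K.card ≤ D, F K z ∂(gam (Coord n d))) ^ 2) *
      ∑ V ∈ (Finset.univ : Finset (Finset (Sym2 (Fin n)))).filter
          (fun V => V ≠ ∅ ∧ V.card ≤ D),
        mob (fun S => ∫ h : Fin n → G, Real.exp (∑ a ∈ S, xs ρ lam h a)
          ∂(Measure.pi fun _ : Fin n => μ)) V := by
  set ν := Measure.pi fun _ : Fin n => μ with hν
  have hsm : ∀ E, Measurable fun g : Fin n → G => sE ρ lam E g := fun E =>
    measurable_sE ρ hρ lam E
  have hsb : ∀ E (g : Fin n → G) (c : Coord n d), |sE ρ lam E g c| ≤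
      ∑ k, |lam * Real.sqrt (d k / n)| := fun E g c => abs_sE_le ρ lam E g c
  have hPhi : ∀ E, MemLp (Phi ν (sE ρ lam E)) 2 (gam (Coord n d)) := fun E =>
    memLp_Phi (hsm E) (hsb E)
  have hGe : ∀ E, Ge μ ρ hρ lam E = (hPhi E).toLp (Phi ν (sE ρ lam E)) := fun E => rfl
  set s := (Finset.univ : Finset (Finset (Sym2 (Fin n)))).filter (fun K => K.card ≤ D) with hs
  set Fe : Finset (Sym2 (Fin n)) → Lp ℝ 2 (gam (Coord n d)) := fun K => (hF2 K).toLp (F K)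
    with hFe
  have hf0 : MemLp (fun z => ∑ K ∈ s, F K z) 2 (gam (Coord n d)) :=
    memLp_finsetSum _ fun K _ => hF2 K
  have hf0m : Measurable fun z => ∑ K ∈ s, F K z := Finset.measurable_sum _ fun K _ => hF K
  have hsum : ∑ K ∈ s, Fe K = hf0.toLp (fun z => ∑ K ∈ s, F K z) := by
    apply Lp.ext
    refine (Lp.coeFn_fun_finsetSum s Fe).trans ?_
    have h1 : ∀ᵐ z ∂(gam (Coord n d)), ∀ K ∈ s,
        (Fe K : (Coord n d → ℝ) → ℝ) z = F K z := by
      rw [Filter.eventually_all_finset]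
      intro K _
      exact (hF2 K).coeFn_toLp
    filter_upwards [h1, hf0.coeFn_toLp] with z h2 h3
    rw [h3]
    exact Finset.sum_congr rfl fun K hK => h2 K hK
  have hFGe : ∀ K E, ⟪Fe K, Ge μ ρ hρ lam E⟫ =
      ∫ g, ∫ z, F K (sE ρ lam E g + z) ∂(gam (Coord n d)) ∂ν := by
    intro K E
    rw [hGe, hFe, inner_toLp (hF2 K) (hPhi E), inner_F (hsm E) (hsb E) (hF K) (hF2 K)]
  have hFG : ∀ K ∈ s, ∀ E : Finset (Sym2 (Fin n)), ⟪Fe K, Ge μ ρ hρ lam (op E)⟫ =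
      ⟪Fe K, Ge μ ρ hρ lam (op (E ∩ K))⟫ := by
    intro K _ E
    rw [hFGe, hFGe]
    refine integral_congr_ae (ae_of_all _ fun g => ?_)
    refine integral_congr_ae (ae_of_all _ fun z => ?_)
    refine hloc K _ _ fun c hc => ?_
    have hc2 : pr c ∈ op K := by
      unfold op pr
      exact Finset.mem_filter.2 ⟨Finset.mem_univ _, hc⟩
    rw [Pi.add_apply, Pi.add_apply, sE_inter ρ lam (op E) (op K) g c hc2, op_inter]
  have hM0 : PairI_M μ ρ lam (∅ : Finset (Sym2 (Fin n))) = 1 := by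
    rw [← PairI_ME, op_empty, ME_empty]
  have key := hilb (PairI_inner μ ρ hρ lam) hM0 (fun V => V.card ≤ D)
    (fun S V hVS hS => (Finset.card_le_card hVS).trans hS) s Fe (fun K => K)
    (fun K hK => (Finset.mem_filter.1 hK).2) hFG
  have e1 : ⟪∑ K ∈ s, Fe K, Ge μ ρ hρ lam (op Finset.univ)⟫ =
      ∫ g, ∫ z, ∑ K ∈ s, F K (shift ρ lam g + z) ∂(gam (Coord n d)) ∂ν := by
    rw [op_univ, hsum, hGe, inner_toLp hf0 (hPhi _), inner_F (hsm _) (hsb _) hf0m hf0]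
    simp_rw [sE_univ]
  have e2 : ⟪∑ K ∈ s, Fe K, Ge μ ρ hρ lam (op ∅)⟫ =
      ∫ z, ∑ K ∈ s, F K z ∂(gam (Coord n d)) := by
    rw [op_empty, hsum, hGe, inner_toLp hf0 (hPhi _), inner_F (hsm _) (hsb _) hf0m hf0]
    simp_rw [sE_empty, zero_add]
    simp
  have e3 : ⟪∑ K ∈ s, Fe K, ∑ K ∈ s, Fe K⟫ =
      ∫ z, (∑ K ∈ s, F K z) ^ 2 ∂(gam (Coord n d)) := by
    rw [hsum, inner_toLp hf0 hf0]
    exact integral_congr_ae (ae_of_all _ fun z => (sq _).symm)
  rw [e1, e2, e3] at key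
  exact key

/-- nonnegativity of the terms -/
theorem pair_nonneg {G : Type} [Group G] [TopologicalSpace G] [IsTopologicalGroup G]
    [CompactSpace G] [MeasurableSpace G] [BorelSpace G] (μ : Measure G) [μ.IsHaarMeasure]
    [IsProbabilityMeasure μ] {L n : ℕ} {d : Fin L → ℕ}
    (ρ : ∀ k : Fin L, G →* Matrix.unitaryGroup (Fin (d k)) ℂ)
    (hρ : ∀ k, Continuous fun g => (ρ k g : Matrix (Fin (d k)) (Fin (d k)) ℂ)) (lam : ℝ)
    (V : Finset (Sym2 (Fin n))) :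
    0 ≤ mob (fun S => ∫ h : Fin n → G, Real.exp (∑ a ∈ S, xs ρ lam h a)
          ∂(Measure.pi fun _ : Fin n => μ)) V :=
  mob_nonneg (PairI_inner μ ρ hρ lam) V

end H69.XT
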