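import Pool.Agent.H69.XT.OneD
import Pool.Agent.H69.XT.CsV
import Pool.Agent.H28.SumMoments

/-!
# Module SumU: the truncated exponential series of the overlap is bounded

`lam^2 < Θ`, so there is `δ ∈ (0,1)` with `r := lam^2/((1-δ)^2 Θ) < 1`; `N` from `exists_net δ`; `C := 1 + 2 * N.card / (1 - r)`.
For `1 ≤ d ≤ D`: `net_pow` with `s = vsum v h` (`vsum_norm_sq`, `inner_vsum`; see `vec_moment` of
`Pool/Agent/H28/SumMoments.lean`) gives
`(∑ k ‖∑ i v k (h i)‖^2)^d ≤ ((1-δ)^(2d))⁻¹ ∑ u ∈ N, (∑ i Y_u (h i))^(2d)`, `Y_u g = (∑ k conj (u k) * v k g).re`, and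
`x^(2d) ≤ (max x 0)^(2d) + (max (-x) 0)^(2d)`; `oneD` for `Y_u` and for `-Y_u` (hypotheses: `proj_second_moment`, mean zero as
in `vec_moment`, bound `card ι * b`; `H`: `csV`, the square does not see the sign) gives `≤ 2 (n d/Θ e^(-1))^d` each.
`(lam^2/n)^d * .. / d! ≤ 2 * N.card * r^d * (d e^(-1))^d/d!` and `(d/e)^d ≤ d!` (`Real.pow_div_factorial_le_exp`).
The term `d = 0` is `1` (`simp`), geometric series (`geom_sum_lt`-type bound or `Summable.sum_le_tsum`, `tsum_geometric_of_lt_one`).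
-/

set_option autoImplicit false

open MeasureTheory ProbabilityTheory
open scoped BigOperators ComplexConjugate

namespace H69.XT

open Pool.Agent.H28.SumMoments in
/-- the moments of one projection -/
private lemma SumU_proj {ι : Type} [Fintype ι] [DecidableEq ι] {Θ : ℝ} (hΘ : 0 < Θ)
    {G : Type} [MeasurableSpace G] (μ : Measure G) [IsProbabilityMeasure μ] {v : ι → G → ℂ} {b : ℝ}
    (hv : Orth μ v b) {n d : ℕ} (hn : 0 < n) (hd : 1 ≤ d)
    (H : ∀ p : G → ℝ, Dens μ p → Θ * nn μ v p ≤ (d / n : ℝ) * Real.exp (kl μ p / (d / n : ℝ) - 1))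
    (u : EuclideanSpace ℂ ι) (hu : ‖u‖ = 1) :
    Integrable (fun h : Fin n → G => (∑ i, (∑ k, conj (u k) * v k (h i)).re) ^ (2 * d))
      (Measure.pi fun _ : Fin n => μ) ∧
    ∫ h : Fin n → G, (∑ i, (∑ k, conj (u k) * v k (h i)).re) ^ (2 * d)
      ∂(Measure.pi fun _ : Fin n => μ) ≤ 2 * (n * d / Θ * Real.exp (-1)) ^ d := by
  obtain ⟨Y, hYdef⟩ : ∃ Y : G → ℝ, Y = fun g => (∑ k, conj (u k) * v k g).re := ⟨_, rfl⟩
  have hY' : ∀ g, (∑ k, conj (u k) * v k g).re = Y g := fun g => by rw [hYdef]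
  have hpm : Measurable Y := by
    rw [hYdef]
    exact Complex.measurable_re.comp (Finset.measurable_sum _ fun k _ => (hv.meas k).const_mul _)
  have hpb : ∀ g, |Y g| ≤ Fintype.card ι * b := by
    intro g
    rw [← hY']
    calc |(∑ k, conj (u k) * v k g).re| ≤ ‖∑ k, conj (u k) * v k g‖ := Complex.abs_re_le_norm _
      _ ≤ ∑ k, ‖conj (u k) * v k g‖ := norm_sum_le _ _
      _ ≤ ∑ _k : ι, b := by
          refine Finset.sum_le_sum fun k _ => ?_
          rw [norm_mul, RCLike.norm_conj]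
          have hk : ‖u k‖ ≤ 1 := by
            rw [← hu]; exact PiLp.norm_apply_le u k
          calc ‖u k‖ * ‖v k g‖ ≤ 1 * b := mul_le_mul hk (hv.bdd k g) (norm_nonneg _) zero_le_one
            _ = b := one_mul b
      _ = Fintype.card ι * b := by simp
  have hp0 : ∫ g, Y g ∂μ = 0 := by
    have hi : ∀ k, Integrable (v k) μ := fun k =>
      Integrable.of_bound (hv.meas k).aestronglyMeasurable (C := b)
        (Filter.Eventually.of_forall (hv.bdd k))
    have hi2 : Integrable (fun h => ∑ k, conj (u k) * v k h) μ :=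
      integrable_finsetSum _ fun k _ => (hi k).const_mul _
    have e : ∫ h, (∑ k, conj (u k) * v k h).re ∂μ = (∫ h, ∑ k, conj (u k) * v k h ∂μ).re :=
      integral_re hi2
    rw [hYdef]
    show ∫ h, (∑ k, conj (u k) * v k h).re ∂μ = 0
    rw [e, integral_finsetSum _ fun k _ => (hi k).const_mul _]
    simp_rw [integral_const_mul, hv.zero]
    simp
  have hp1 : ∫ g, Y g ^ 2 ∂μ = 1 / 2 := by
    rw [hYdef]
    exact proj_second_moment μ v hv.meas b hv.bdd hv.orth hv.alt u hu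
  have hcs : ∀ p, Dens μ p → (∫ g, Y g * p g ∂μ) ^ 2 ≤ nn μ v p := by
    intro p hp
    rw [hYdef]
    exact csV μ hv.meas hv.bdd hp u hu
  have H1 : ∀ p, Dens μ p → Θ * (∫ g, Y g * p g ∂μ) ^ 2 ≤
      (d / n : ℝ) * Real.exp (kl μ p / (d / n : ℝ) - 1) := fun p hp =>
    (mul_le_mul_of_nonneg_left (hcs p hp) hΘ.le).trans (H p hp)
  have H2 : ∀ p, Dens μ p → Θ * (∫ g, (-Y g) * p g ∂μ) ^ 2 ≤
      (d / n : ℝ) * Real.exp (kl μ p / (d / n : ℝ) - 1) := by
    intro p hp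
    have : ∫ g, (-Y g) * p g ∂μ = -∫ g, Y g * p g ∂μ := by
      rw [← integral_neg]
      congr 1
      funext g
      ring
    rw [this, neg_sq]
    exact H1 p hp
  have m1 := oneD μ hpm hpb hp0 hp1 hΘ hn hd H1
  have m2 := oneD μ (Y := fun g => -Y g) hpm.neg (B := Fintype.card ι * b)
    (fun g => by rw [abs_neg]; exact hpb g) (by rw [integral_neg, hp0, neg_zero])
    (by simp only [neg_sq]; exact hp1) hΘ hn hd H2
  have hS : Measurable fun h : Fin n → G => ∑ i, Y (h i) :=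
    Finset.measurable_sum _ fun i _ => hpm.comp (measurable_pi_apply i)
  have hSb : ∀ h : Fin n → G, |∑ i, Y (h i)| ≤ n * (Fintype.card ι * b) := by
    intro h
    calc |∑ i, Y (h i)| ≤ ∑ i : Fin n, |Y (h i)| := Finset.abs_sum_le_sum_abs _ _
      _ ≤ ∑ _i : Fin n, (Fintype.card ι * b) := Finset.sum_le_sum fun i _ => hpb (h i)
      _ = n * (Fintype.card ι * b) := by simp
  have hint : Integrable (fun h : Fin n → G => (∑ i, Y (h i)) ^ (2 * d))
      (Measure.pi fun _ : Fin n => μ) := by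
    refine Integrable.of_bound (C := (n * (Fintype.card ι * b)) ^ (2 * d))
      (hS.pow_const _).aestronglyMeasurable (Filter.Eventually.of_forall fun h => ?_)
    rw [Real.norm_eq_abs, abs_pow]
    exact pow_le_pow_left₀ (abs_nonneg _) (hSb h) _
  have hintp : Integrable (fun h : Fin n → G => max (∑ i, Y (h i)) 0 ^ (2 * d))
      (Measure.pi fun _ : Fin n => μ) := by
    refine Integrable.of_bound (C := (n * (Fintype.card ι * b)) ^ (2 * d))
      ((hS.max measurable_const).pow_const _).aestronglyMeasurable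
      (Filter.Eventually.of_forall fun h => ?_)
    rw [Real.norm_eq_abs, abs_pow]
    refine pow_le_pow_left₀ (abs_nonneg _) ?_ _
    rw [abs_of_nonneg (le_max_right _ _)]
    exact max_le ((le_abs_self _).trans (hSb h)) ((abs_nonneg _).trans (hSb h))
  have hintm : Integrable (fun h : Fin n → G => max (∑ i, -Y (h i)) 0 ^ (2 * d))
      (Measure.pi fun _ : Fin n => μ) := by
    have hS' : Measurable fun h : Fin n → G => ∑ i, -Y (h i) := by
      simp only [Finset.sum_neg_distrib]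
      exact hS.neg
    refine Integrable.of_bound (C := (n * (Fintype.card ι * b)) ^ (2 * d))
      ((hS'.max measurable_const).pow_const _).aestronglyMeasurable
      (Filter.Eventually.of_forall fun h => ?_)
    rw [Real.norm_eq_abs, abs_pow]
    refine pow_le_pow_left₀ (abs_nonneg _) ?_ _
    rw [abs_of_nonneg (le_max_right _ _)]
    refine max_le ?_ ((abs_nonneg _).trans (hSb h))
    rw [Finset.sum_neg_distrib]
    exact (neg_le_abs _).trans (hSb h)
  simp only [hY']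
  refine ⟨hint, ?_⟩
  have hle : ∀ h : Fin n → G, (∑ i, Y (h i)) ^ (2 * d) ≤
      max (∑ i, Y (h i)) 0 ^ (2 * d) + max (∑ i, -Y (h i)) 0 ^ (2 * d) := by
    intro h
    rw [Finset.sum_neg_distrib]
    rcases le_total 0 (∑ i, Y (h i)) with h0 | h0
    · rw [max_eq_left h0]
      have : 0 ≤ max (-∑ i, Y (h i)) 0 ^ (2 * d) := pow_nonneg (le_max_right _ _) _
      linarith
    · rw [max_eq_left (neg_nonneg.2 h0)]
      have h1 : (-∑ i, Y (h i)) ^ (2 * d) = (∑ i, Y (h i)) ^ (2 * d) := by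
        rw [pow_mul, neg_sq, ← pow_mul]
      have : 0 ≤ max (∑ i, Y (h i)) 0 ^ (2 * d) := pow_nonneg (le_max_right _ _) _
      rw [h1]
      linarith
  calc ∫ h : Fin n → G, (∑ i, Y (h i)) ^ (2 * d) ∂(Measure.pi fun _ : Fin n => μ)
      ≤ ∫ h : Fin n → G, (max (∑ i, Y (h i)) 0 ^ (2 * d) + max (∑ i, -Y (h i)) 0 ^ (2 * d))
        ∂(Measure.pi fun _ : Fin n => μ) := integral_mono hint (hintp.add hintm) hle
    _ = _ := integral_add hintp hintm
    _ ≤ (n * d / Θ * Real.exp (-1)) ^ d + (n * d / Θ * Real.exp (-1)) ^ d := add_le_add m1 m2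
    _ = _ := by ring

open Pool.Agent.H28.SumMoments in
/-- one term of the series -/
private lemma SumU_term {ι : Type} [Fintype ι] [DecidableEq ι] {lam Θ δ : ℝ} (hΘ : 0 < Θ)
    (hδ1 : δ < 1) (N : Finset (EuclideanSpace ℂ ι)) (hN1 : ∀ u ∈ N, ‖u‖ = 1)
    (hN : ∀ s : EuclideanSpace ℂ ι, s ≠ 0 → ∃ u ∈ N, (1 - δ) * ‖s‖ ≤ (inner ℂ u s).re)
    {G : Type} [MeasurableSpace G] (μ : Measure G) [IsProbabilityMeasure μ] {v : ι → G → ℂ} {b : ℝ}
    (hv : Orth μ v b) {n d : ℕ} (hn : 0 < n) (hd : 1 ≤ d)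
    (H : ∀ p : G → ℝ, Dens μ p → Θ * nn μ v p ≤ (d / n : ℝ) * Real.exp (kl μ p / (d / n : ℝ) - 1)) :
    (∫ h : Fin n → G, (lam ^ 2 / n * ∑ k, ‖∑ i, v k (h i)‖ ^ 2) ^ d
      ∂(Measure.pi fun _ : Fin n => μ)) / (d.factorial : ℝ) ≤
      2 * N.card * (lam ^ 2 / ((1 - δ) ^ 2 * Θ)) ^ d := by
  have hn' : (0 : ℝ) < n := by exact_mod_cast hn
  have h1δ : 0 < 1 - δ := by linarith
  have hpos : 0 < ((1 - δ) ^ 2) ^ d := by positivity
  have hpt : ∀ h : Fin n → G, (∑ k, ‖∑ i, v k (h i)‖ ^ 2) ^ d ≤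
      (((1 - δ) ^ 2) ^ d)⁻¹ * ∑ u ∈ N, (∑ i, (∑ k, conj (u k) * v k (h i)).re) ^ (2 * d) := by
    intro h
    have := net_pow δ hδ1 N hN d hd (vsum v h)
    rw [vsum_norm_sq] at this
    simp_rw [inner_vsum] at this
    rw [inv_mul_eq_div, le_div_iff₀ hpos]
    linarith
  have hint0 : Integrable (fun h : Fin n → G => (∑ k, ‖∑ i, v k (h i)‖ ^ 2) ^ d)
      (Measure.pi fun _ : Fin n => μ) := by
    have hm : Measurable fun h : Fin n → G => (∑ k, ‖∑ i, v k (h i)‖ ^ 2) ^ d := by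
      refine Measurable.pow_const (Finset.measurable_sum _ fun k _ => Measurable.pow_const ?_ 2) d
      exact (Finset.measurable_sum _ fun i _ => (hv.meas k).comp (measurable_pi_apply i)).norm
    refine Integrable.of_bound (C := (∑ _k : ι, (n * b) ^ 2) ^ d) hm.aestronglyMeasurable ?_
    filter_upwards with h
    rw [Real.norm_eq_abs, abs_of_nonneg (by positivity)]
    refine pow_le_pow_left₀ (by positivity) ?_ _
    refine Finset.sum_le_sum fun k _ => ?_
    refine pow_le_pow_left₀ (norm_nonneg _) ?_ _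
    calc ‖∑ i, v k (h i)‖ ≤ ∑ i : Fin n, ‖v k (h i)‖ := norm_sum_le _ _
      _ ≤ ∑ _i : Fin n, b := Finset.sum_le_sum fun i _ => hv.bdd k (h i)
      _ = n * b := by simp
  have hI : ∫ h : Fin n → G, (∑ k, ‖∑ i, v k (h i)‖ ^ 2) ^ d ∂(Measure.pi fun _ : Fin n => μ) ≤
      (((1 - δ) ^ 2) ^ d)⁻¹ * (N.card * (2 * (n * d / Θ * Real.exp (-1)) ^ d)) := by
    have hint := fun u (hu : u ∈ N) => (SumU_proj hΘ μ hv hn hd H u (hN1 u hu)).1
    calc _ ≤ ∫ h : Fin n → G, (((1 - δ) ^ 2) ^ d)⁻¹ *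
          ∑ u ∈ N, (∑ i, (∑ k, conj (u k) * v k (h i)).re) ^ (2 * d)
          ∂(Measure.pi fun _ : Fin n => μ) :=
          integral_mono hint0 ((integrable_finsetSum _ hint).const_mul _) hpt
      _ = (((1 - δ) ^ 2) ^ d)⁻¹ * ∑ u ∈ N, ∫ h : Fin n → G,
          (∑ i, (∑ k, conj (u k) * v k (h i)).re) ^ (2 * d)
          ∂(Measure.pi fun _ : Fin n => μ) := by
          rw [integral_const_mul, integral_finsetSum _ hint]
      _ ≤ (((1 - δ) ^ 2) ^ d)⁻¹ * ∑ _u ∈ N, 2 * (n * d / Θ * Real.exp (-1)) ^ d := by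
          refine mul_le_mul_of_nonneg_left (Finset.sum_le_sum fun u hu => ?_) (by positivity)
          exact (SumU_proj hΘ μ hv hn hd H u (hN1 u hu)).2
      _ = _ := by rw [Finset.sum_const, nsmul_eq_mul]
  have hfac : (0 : ℝ) < d.factorial := by exact_mod_cast d.factorial_pos
  have hst : (d : ℝ) ^ d * Real.exp (-1) ^ d ≤ d.factorial := by
    have h1 := Real.pow_div_factorial_le_exp (x := (d : ℝ)) (Nat.cast_nonneg d) d
    rw [div_le_iff₀ hfac] at h1
    have h2 : Real.exp (-1) ^ d = Real.exp (-(d : ℝ)) := by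
      rw [← Real.exp_nat_mul]
      ring_nf
    rw [h2]
    calc (d : ℝ) ^ d * Real.exp (-(d : ℝ)) ≤ Real.exp d * d.factorial * Real.exp (-(d : ℝ)) :=
          mul_le_mul_of_nonneg_right h1 (Real.exp_pos _).le
      _ = d.factorial * (Real.exp d * Real.exp (-(d : ℝ))) := by ring
      _ = d.factorial := by rw [← Real.exp_add, add_neg_cancel, Real.exp_zero, mul_one]
  have e1 : ∫ h : Fin n → G, (lam ^ 2 / n * ∑ k, ‖∑ i, v k (h i)‖ ^ 2) ^ d
      ∂(Measure.pi fun _ : Fin n => μ) = (lam ^ 2 / n) ^ d *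
      ∫ h : Fin n → G, (∑ k, ‖∑ i, v k (h i)‖ ^ 2) ^ d ∂(Measure.pi fun _ : Fin n => μ) := by
    simp_rw [mul_pow]
    rw [integral_const_mul]
  rw [e1, div_le_iff₀ hfac]
  have hl : 0 ≤ (lam ^ 2 / (n : ℝ)) ^ d := by positivity
  calc (lam ^ 2 / n) ^ d *
      ∫ h : Fin n → G, (∑ k, ‖∑ i, v k (h i)‖ ^ 2) ^ d ∂(Measure.pi fun _ : Fin n => μ)
      ≤ (lam ^ 2 / n) ^ d *
        ((((1 - δ) ^ 2) ^ d)⁻¹ * (N.card * (2 * (n * d / Θ * Real.exp (-1)) ^ d))) :=
        mul_le_mul_of_nonneg_left hI hl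
    _ = 2 * N.card * (lam ^ 2 / ((1 - δ) ^ 2 * Θ)) ^ d * ((d : ℝ) ^ d * Real.exp (-1) ^ d) := by
        simp only [div_pow, mul_pow]
        field_simp
    _ ≤ 2 * N.card * (lam ^ 2 / ((1 - δ) ^ 2 * Θ)) ^ d * d.factorial :=
        mul_le_mul_of_nonneg_left hst (by positivity)

theorem sumU {ι : Type} [Fintype ι] [DecidableEq ι] {lam Θ : ℝ} (hΘ : lam ^ 2 < Θ) :
    ∃ C : ℝ, 0 ≤ C ∧ ∀ (G : Type) [MeasurableSpace G] (μ : Measure G) [IsProbabilityMeasure μ]
      (v : ι → G → ℂ) (b : ℝ), Orth μ v b → ∀ n D : ℕ, 0 < n →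
      (∀ (m : ℕ) (p : G → ℝ), 1 ≤ m → m ≤ D → Dens μ p →
        Θ * nn μ v p ≤ (m / n : ℝ) * Real.exp (kl μ p / (m / n : ℝ) - 1)) →
      ∑ m ∈ Finset.range (D + 1),
        (∫ h : Fin n → G, (lam ^ 2 / n * ∑ k, ‖∑ i, v k (h i)‖ ^ 2) ^ m
          ∂(Measure.pi fun _ : Fin n => μ)) / (m.factorial : ℝ) ≤ C := by
  have hΘ0 : 0 < Θ := lt_of_le_of_lt (sq_nonneg lam) hΘ
  obtain ⟨x, hx⟩ : ∃ x, x = lam ^ 2 / Θ := ⟨_, rfl⟩
  have hx0 : 0 ≤ x := by rw [hx]; positivity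
  have hx1 : x < 1 := by rw [hx, div_lt_one hΘ0]; exact hΘ
  obtain ⟨δ, hδ⟩ : ∃ δ, δ = (1 - x) / 2 := ⟨_, rfl⟩
  have hδ0 : 0 < δ := by rw [hδ]; linarith
  have hδ1 : δ < 1 := by rw [hδ]; linarith
  have h1δ : 1 - δ = (1 + x) / 2 := by rw [hδ]; ring
  obtain ⟨N, hN1, hN⟩ := Pool.Agent.H28.SumMoments.exists_net (ι := ι) δ hδ0
  obtain ⟨r, hr⟩ : ∃ r, r = lam ^ 2 / ((1 - δ) ^ 2 * Θ) := ⟨_, rfl⟩
  have hr0 : 0 ≤ r := by rw [hr]; positivity
  have hr1 : r < 1 := by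
    have h1 : r = x / (1 - δ) ^ 2 := by
      rw [hr, hx, div_div, mul_comm Θ]
    have h2 : 0 < (1 - δ) ^ 2 := by rw [h1δ]; positivity
    rw [h1, div_lt_one h2, h1δ]
    have h3 : 0 < (1 - x) ^ 2 := by
      have : 0 < 1 - x := by linarith
      positivity
    nlinarith
  have h1r : 0 < 1 - r := by linarith
  refine ⟨1 + 2 * N.card / (1 - r), by positivity, ?_⟩
  intro G _ μ _ v b hv n D hn H
  rw [Finset.sum_range_succ']
  have hfirst : (∫ h : Fin n → G, (lam ^ 2 / n * ∑ k, ‖∑ i, v k (h i)‖ ^ 2) ^ 0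
      ∂(Measure.pi fun _ : Fin n => μ)) / ((0 : ℕ).factorial : ℝ) = 1 := by simp
  rw [hfirst, add_comm]
  have hterm : ∀ d ∈ Finset.range D, (∫ h : Fin n → G,
      (lam ^ 2 / n * ∑ k, ‖∑ i, v k (h i)‖ ^ 2) ^ (d + 1)
      ∂(Measure.pi fun _ : Fin n => μ)) / ((d + 1).factorial : ℝ) ≤ 2 * N.card * r ^ d := by
    intro d hd
    have hd' : d + 1 ≤ D := Finset.mem_range.mp hd
    have h1 := SumU_term (lam := lam) hΘ0 hδ1 N hN1 hN μ hv hn (d := d + 1) (by omega)
      (fun p hp => H (d + 1) p (by omega) hd' hp)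
    refine h1.trans ?_
    rw [← hr]
    refine mul_le_mul_of_nonneg_left ?_ (by positivity)
    rw [pow_succ]
    exact mul_le_of_le_one_right (by positivity) hr1.le
  refine add_le_add le_rfl ((Finset.sum_le_sum hterm).trans ?_)
  rw [← Finset.mul_sum, mul_div_assoc, div_eq_mul_inv, ← mul_assoc] at *
  have hg : ∑ d ∈ Finset.range D, r ^ d ≤ (1 - r)⁻¹ := by
    rw [← tsum_geometric_of_lt_one hr0 hr1]
    exact (summable_geometric_of_lt_one hr0 hr1).sum_le_tsum _ (fun d _ => by positivity)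
  exact mul_le_mul_of_nonneg_left hg (by positivity)

/-- the truncated exponential series at the exponential scale: if the functional
`κ (1 + log (lam^2 |E_p v|^2 / κ)) - kl p` is at most `R` for `κ ≤ c`, the series up to the degree `c n`
is at most `exp ((R + ε) n)` -/
theorem sumE {ι : Type} [Fintype ι] [DecidableEq ι] {lam R c ε : ℝ} (hlam : 0 < lam) (hc : 0 < c)
    (hε : 0 < ε) (hR : 0 ≤ R) :
    ∃ N0 : ℕ, ∀ (G : Type) [MeasurableSpace G] (μ : Measure G) [IsProbabilityMeasure μ]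
      (v : ι → G → ℂ) (b : ℝ), Orth μ v b →
      (∀ (κ : ℝ) (p : G → ℝ), 0 < κ → κ ≤ c → Dens μ p → 0 < nn μ v p →
        κ * (1 + Real.log (lam ^ 2 * nn μ v p / κ)) - kl μ p ≤ R) →
      ∀ n ≥ N0, ∀ D : ℕ, (D : ℝ) ≤ c * n →
      ∑ m ∈ Finset.range (D + 1),
        (∫ h : Fin n → G, (lam ^ 2 / n * ∑ k, ‖∑ i, v k (h i)‖ ^ 2) ^ m
          ∂(Measure.pi fun _ : Fin n => μ)) / (m.factorial : ℝ) ≤ Real.exp ((R + ε) * n) := by
  obtain ⟨δ, hδ⟩ : ∃ δ, δ = 1 - Real.exp (-(ε / (4 * c))) := ⟨_, rfl⟩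
  have h1δ : 1 - δ = Real.exp (-(ε / (4 * c))) := by rw [hδ]; ring
  have hδ1 : δ < 1 := by
    rw [hδ]
    linarith [Real.exp_pos (-(ε / (4 * c)))]
  have hδ0 : 0 < δ := by
    have h : Real.exp (-(ε / (4 * c))) < 1 := by
      rw [Real.exp_lt_one_iff]
      have : 0 < ε / (4 * c) := by positivity
      linarith
    rw [hδ]
    linarith
  obtain ⟨N, hN1, hN⟩ := Pool.Agent.H28.SumMoments.exists_net (ι := ι) δ hδ0
  refine ⟨⌈16 * N.card * c / ε ^ 2⌉₊ + 1, ?_⟩
  intro G _ μ _ v b hv hyp n hn D hD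
  have hn0 : 0 < n := by omega
  have hnr : (0 : ℝ) < n := by exact_mod_cast hn0
  have hnN : 16 * N.card * c / ε ^ 2 ≤ n := by
    refine (Nat.le_ceil _).trans ?_
    have : (⌈16 * (N.card : ℝ) * c / ε ^ 2⌉₊ : ℕ) ≤ n := by omega
    exact_mod_cast this
  rw [Finset.sum_range_succ']
  have hfirst : (∫ h : Fin n → G, (lam ^ 2 / n * ∑ k, ‖∑ i, v k (h i)‖ ^ 2) ^ 0
      ∂(Measure.pi fun _ : Fin n => μ)) / ((0 : ℕ).factorial : ℝ) = 1 := by simp
  rw [hfirst, add_comm]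
  have hterm : ∀ d ∈ Finset.range D, (∫ h : Fin n → G,
      (lam ^ 2 / n * ∑ k, ‖∑ i, v k (h i)‖ ^ 2) ^ (d + 1)
      ∂(Measure.pi fun _ : Fin n => μ)) / ((d + 1).factorial : ℝ) ≤
        2 * N.card * (Real.exp (ε / 2 * n) * Real.exp (R * n)) := by
    intro d hd
    obtain ⟨m, hm⟩ : ∃ m, m = d + 1 := ⟨_, rfl⟩
    rw [← hm]
    have hm1 : 1 ≤ m := by omega
    have hmD : m ≤ D := by
      have := Finset.mem_range.mp hd
      omega
    have hmr : (0 : ℝ) < m := by exact_mod_cast hm1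
    have hmc : (m : ℝ) ≤ c * n := (by exact_mod_cast hmD : (m : ℝ) ≤ D).trans hD
    obtain ⟨κ, hκ⟩ : ∃ κ : ℝ, κ = m / n := ⟨_, rfl⟩
    have hκ0 : 0 < κ := by rw [hκ]; positivity
    have hκc : κ ≤ c := by rw [hκ, div_le_iff₀ hnr]; exact hmc
    obtain ⟨Θ, hΘ⟩ : ∃ Θ : ℝ, Θ = lam ^ 2 * Real.exp (-(R / κ)) := ⟨_, rfl⟩
    have hΘ0 : 0 < Θ := by rw [hΘ]; positivity
    have h1 := SumU_term (lam := lam) hΘ0 hδ1 N hN1 hN μ hv hn0 hm1 (fun p hp => by
      rw [← hκ]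
      have hnn : 0 ≤ nn μ v p := Finset.sum_nonneg fun _ _ => by positivity
      rcases hnn.eq_or_lt with h0 | h0
      · rw [← h0, mul_zero]
        positivity
      · have h2 := hyp κ p hκ0 hκc hp h0
        have h3 : 0 < lam ^ 2 * nn μ v p / κ := by positivity
        have h4 : Real.log (lam ^ 2 * nn μ v p / κ) ≤ (R + kl μ p) / κ - 1 := by
          rw [le_sub_iff_add_le, le_div_iff₀ hκ0]
          linarith
        have h5 : lam ^ 2 * nn μ v p / κ ≤ Real.exp ((R + kl μ p) / κ - 1) :=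
          (Real.log_le_iff_le_exp h3).1 h4
        rw [div_le_iff₀ hκ0] at h5
        calc Θ * nn μ v p = lam ^ 2 * nn μ v p * Real.exp (-(R / κ)) := by rw [hΘ]; ring
          _ ≤ Real.exp ((R + kl μ p) / κ - 1) * κ * Real.exp (-(R / κ)) :=
              mul_le_mul_of_nonneg_right h5 (Real.exp_pos _).le
          _ = κ * (Real.exp ((R + kl μ p) / κ - 1) * Real.exp (-(R / κ))) := by ring
          _ = κ * Real.exp (kl μ p / κ - 1) := by
              rw [← Real.exp_add]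
              congr 2
              ring)
    refine h1.trans ?_
    refine mul_le_mul_of_nonneg_left ?_ (by positivity)
    have h6 : lam ^ 2 / ((1 - δ) ^ 2 * Θ) = Real.exp (ε / (2 * c) + R / κ) := by
      rw [h1δ, hΘ, ← Real.exp_nat_mul, div_eq_iff (by positivity)]
      have h7 : ∀ x y : ℝ, Real.exp x * (lam ^ 2 * Real.exp y) = lam ^ 2 * Real.exp (x + y) := by
        intro x y
        rw [Real.exp_add]
        ring
      rw [h7, h7]
      have h9 : (ε / (2 * c) + R / κ) + (((2 : ℕ) : ℝ) * (-(ε / (4 * c))) + -(R / κ)) = 0 := by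
        push_cast
        field_simp
        ring
      rw [h9, Real.exp_zero, mul_one]
    rw [h6, ← Real.exp_nat_mul, ← Real.exp_add]
    refine Real.exp_le_exp.2 ?_
    rw [mul_add]
    refine add_le_add ?_ (le_of_eq ?_)
    · calc (m : ℝ) * (ε / (2 * c)) ≤ c * n * (ε / (2 * c)) :=
            mul_le_mul_of_nonneg_right hmc (by positivity)
        _ = ε / 2 * n := by field_simp
    · rw [hκ]
      field_simp
  refine (add_le_add le_rfl (Finset.sum_le_sum hterm)).trans ?_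
  rw [Finset.sum_const, Finset.card_range, nsmul_eq_mul]
  have e1 : (1 : ℝ) ≤ Real.exp (ε / 2 * n) * Real.exp (R * n) := by
    rw [← Real.exp_add]
    exact Real.one_le_exp (by positivity)
  have e2 : 1 + (D : ℝ) * (2 * N.card) ≤ Real.exp (ε / 2 * n) := by
    have h1 := Real.quadratic_le_exp_of_nonneg (show 0 ≤ ε / 2 * n by positivity)
    refine le_trans ?_ h1
    have h2 : (D : ℝ) * (2 * N.card) ≤ c * n * (2 * N.card) :=
      mul_le_mul_of_nonneg_right hD (by positivity)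
    have h3 : c * n * (2 * N.card) ≤ (ε / 2 * n) ^ 2 / 2 := by
      rw [div_le_iff₀ (by positivity)] at hnN
      have h4 := mul_le_mul_of_nonneg_right hnN hnr.le
      nlinarith
    have h5 : 0 ≤ ε / 2 * n := by positivity
    linarith
  calc 1 + (D : ℝ) * (2 * N.card * (Real.exp (ε / 2 * n) * Real.exp (R * n)))
      ≤ (Real.exp (ε / 2 * n) * Real.exp (R * n)) +
        (D : ℝ) * (2 * N.card * (Real.exp (ε / 2 * n) * Real.exp (R * n))) :=
        add_le_add e1 le_rfl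
    _ = (1 + (D : ℝ) * (2 * N.card)) * (Real.exp (ε / 2 * n) * Real.exp (R * n)) := by ring
    _ ≤ Real.exp (ε / 2 * n) * (Real.exp (ε / 2 * n) * Real.exp (R * n)) :=
        mul_le_mul_of_nonneg_right e2 (by positivity)
    _ = Real.exp ((R + ε) * n) := by
        rw [← Real.exp_add, ← Real.exp_add]
        congr 1
        ring

end H69.XT
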